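import Pool.Agent.MIso.Defs
import Pool.Agent.Lib_helper36.SJT.RE

set_option autoImplicit false

namespace Pool.Agent.MIso

namespace C1aux

open Pool.Agent.Lib45 Pool.Agent.LibHelper36.SJT FreeGroup
open scoped commutatorElement

/-! ### computable word functions -/

theorem computable_invRev {α : Type*} [Primcodable α] {f : α → Word} (hf : Computable f) :
    Computable fun a => (invRev (f a) : Word) := by
  have h1 : Computable fun a => (f a).map (fun g : ℕ × Bool => (g.1, !g.2)) := by
    refine computable_map (g := fun _ (g : ℕ × Bool) => (g.1, !g.2)) hf ?_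
    exact Computable.pair (Computable.fst.comp Computable.snd)
      (Primrec.not.to_comp.comp (Computable.snd.comp Computable.snd))
  exact (Computable.list_reverse.comp h1).of_eq fun a => rfl

/-- step of the free reduction (the accumulator is the reduced tail) -/
def step (st : Word) (a : ℕ × Bool) : Word :=
  List.casesOn st [a] fun hd tl => if a.1 = hd.1 ∧ a.2 = (!hd.2) then tl else a :: hd :: tl

theorem reduce_eq_foldl (w : Word) : reduce w = w.reverse.foldl step [] := by
  rw [List.foldl_reverse]
  induction w with
  | nil => rfl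
  | cons a w ih => rw [reduce.cons, List.foldr_cons, ← ih]; rfl

theorem computable_step : Computable₂ step := by
  have h : Primrec₂ step := by
    unfold step
    refine Primrec.list_casesOn (f := fun z : Word × (ℕ × Bool) => z.1)
      (g := fun z => [z.2])
      (h := fun z p => if z.2.1 = p.1.1 ∧ z.2.2 = (!p.1.2) then p.2 else z.2 :: p.1 :: p.2)
      Primrec.fst ?_ ?_
    · exact Primrec.list_cons.comp Primrec.snd (Primrec.const [])
    · refine Primrec.ite ?_ ?_ ?_
      · refine PrimrecPred.and ?_ ?_
        · exact Primrec.eq.comp (Primrec.fst.comp (Primrec.snd.comp Primrec.fst))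
            (Primrec.fst.comp (Primrec.fst.comp Primrec.snd))
        · exact Primrec.eq.comp (Primrec.snd.comp (Primrec.snd.comp Primrec.fst))
            (Primrec.not.comp (Primrec.snd.comp (Primrec.fst.comp Primrec.snd)))
      · exact Primrec.snd.comp Primrec.snd
      · exact Primrec.list_cons.comp (Primrec.snd.comp Primrec.fst)
          (Primrec.list_cons.comp (Primrec.fst.comp Primrec.snd) (Primrec.snd.comp Primrec.snd))
  exact h.to_comp

theorem computable_reduce {α : Type*} [Primcodable α] {f : α → Word} (hf : Computable f) :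
    Computable fun a => (reduce (f a) : Word) := by
  have h : Computable fun a => ((f a).reverse).foldl
      (fun s b => (fun (_ : α) (p : Word × (ℕ × Bool)) => step p.1 p.2) a (s, b)) [] := by
    refine computable_foldl (σ := Word) (g := fun _ => [])
      (h := fun (_ : α) (p : Word × (ℕ × Bool)) => step p.1 p.2)
      (Computable.list_reverse.comp hf) (Computable.const _) ?_
    exact computable_step.comp (Computable.fst.comp Computable.snd)
      (Computable.snd.comp Computable.snd)
  exact h.of_eq fun a => (reduce_eq_foldl _).symm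

theorem computable_append {α : Type*} [Primcodable α] {f g : α → Word} (hf : Computable f)
    (hg : Computable g) : Computable fun a => f a ++ g a :=
  Computable.list_append.comp hf hg

/-- commutator word -/
def cw (a b : Word) : Word := a ++ b ++ invRev a ++ invRev b

theorem computable_cw {α : Type*} [Primcodable α] {f g : α → Word} (hf : Computable f)
    (hg : Computable g) : Computable fun a => cw (f a) (g a) :=
  computable_append (computable_append (computable_append hf hg) (computable_invRev hf))
    (computable_invRev hg)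

theorem mk_cw (a b : Word) : (FreeGroup.mk (cw a b) : FreeGroup ℕ) =
    ⁅(FreeGroup.mk a : FreeGroup ℕ), FreeGroup.mk b⁆ := by
  rw [commutatorElement_def, cw, ← mul_mk, ← mul_mk, ← mul_mk, inv_mk, inv_mk]

/-- codes of basic relators -/
abbrev Code := Bool × ℕ × ((Word × Word) × (Word × Word))

/-- basic relator of a code: a relator word, or `x_i` with `i ≥ n`, or `[[a,b],[c,d]]` -/
def base (P : Pres) (κ : Code) : Word :=
  bif κ.1 then
    (bif decide (κ.2.1 % 2 = 0) then (P.2[κ.2.1 / 2]?).getD [] else [(P.1 + κ.2.1 / 2, true)])
  else cw (cw κ.2.2.1.1 κ.2.2.1.2) (cw κ.2.2.2.1 κ.2.2.2.2)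

theorem computable_base {α : Type*} [Primcodable α] {f : α → Pres} {g : α → Code}
    (hf : Computable f) (hg : Computable g) : Computable fun a => base (f a) (g a) := by
  unfold base
  have hi : Computable fun a => (g a).2.1 / 2 :=
    (Primrec.nat_div.comp Primrec.id (Primrec.const 2)).to_comp.comp
      (Computable.fst.comp (Computable.snd.comp hg))
  refine Computable.cond (Computable.fst.comp hg) (Computable.cond ?_ ?_ ?_) ?_
  · have h2 : PrimrecPred fun n : ℕ => n % 2 = 0 :=
      Primrec.eq.comp (Primrec.nat_mod.comp Primrec.id (Primrec.const 2)) (Primrec.const 0)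
    have h3 : Computable fun n : ℕ => decide (n % 2 = 0) := by
      obtain ⟨_, h⟩ := h2
      exact h.to_comp.of_eq fun n => by congr
    exact h3.comp (Computable.fst.comp (Computable.snd.comp hg))
  · exact Computable.option_getD (Computable.list_getElem?.comp (Computable.snd.comp hf) hi)
      (Computable.const [])
  · refine Computable.list_cons.comp (Computable.pair ?_ (Computable.const true))
      (Computable.const [])
    exact Primrec.nat_add.to_comp.comp (Computable.fst.comp hf) hi
  · have h := Computable.snd.comp (Computable.snd.comp hg)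
    exact computable_cw
      (computable_cw (Computable.fst.comp (Computable.fst.comp h))
        (Computable.snd.comp (Computable.fst.comp h)))
      (computable_cw (Computable.fst.comp (Computable.snd.comp h))
        (Computable.snd.comp (Computable.snd.comp h)))

/-- conjugate of a basic relator or of its inverse -/
def cj (P : Pres) (d : Word × Bool × Code) : Word :=
  d.1 ++ (bif d.2.1 then base P d.2.2 else invRev (base P d.2.2)) ++ invRev d.1

theorem computable_cj {α : Type*} [Primcodable α] {f : α → Pres} {g : α → Word × Bool × Code}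
    (hf : Computable f) (hg : Computable g) : Computable fun a => cj (f a) (g a) := by
  unfold cj
  have hb := computable_base hf (Computable.snd.comp (Computable.snd.comp hg))
  exact computable_append (computable_append (Computable.fst.comp hg)
    (Computable.cond (Computable.fst.comp (Computable.snd.comp hg)) hb (computable_invRev hb)))
    (computable_invRev (Computable.fst.comp hg))

/-- product of conjugates -/
def pw (P : Pres) (D : List (Word × Bool × Code)) : Word :=
  D.foldl (fun s d => s ++ cj P d) []

theorem computable_pw {α : Type*} [Primcodable α] {f : α → Pres}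
    {g : α → List (Word × Bool × Code)}
    (hf : Computable f) (hg : Computable g) : Computable fun a => pw (f a) (g a) := by
  unfold pw
  refine computable_foldl (σ := Word) (g := fun _ => [])
    (h := fun a (p : Word × (Word × Bool × Code)) => p.1 ++ cj (f a) p.2) hg
    (Computable.const _) ?_
  exact computable_append (Computable.fst.comp Computable.snd)
    (computable_cj (hf.comp Computable.fst) (Computable.snd.comp Computable.snd))

/-- the relation set in the free group on `ℕ` -/
def SP (P : Pres) : Set (FreeGroup ℕ) := Set.range fun κ : Code => FreeGroup.mk (base P κ)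

theorem mk_pw (P : Pres) (D : List (Word × Bool × Code)) :
    (FreeGroup.mk (pw P D) : FreeGroup ℕ) = (D.map fun d => FreeGroup.mk (cj P d)).prod := by
  unfold pw
  have h : ∀ (D : List (Word × Bool × Code)) (s : Word),
      (FreeGroup.mk (D.foldl (fun s d => s ++ cj P d) s) : FreeGroup ℕ) =
        FreeGroup.mk s * (D.map fun d => FreeGroup.mk (cj P d)).prod := by
    intro D
    induction D with
    | nil => intro s; simp
    | cons d D ih =>
      intro s
      rw [List.foldl_cons, ih, ← mul_mk, List.map_cons, List.prod_cons, mul_assoc]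
  rw [h]
  exact one_mul _

theorem mk_cj (P : Pres) (d : Word × Bool × Code) :
    (FreeGroup.mk (cj P d) : FreeGroup ℕ) =
      FreeGroup.mk d.1 * (bif d.2.1 then FreeGroup.mk (base P d.2.2)
        else (FreeGroup.mk (base P d.2.2))⁻¹) * (FreeGroup.mk d.1)⁻¹ := by
  unfold cj
  rw [← mul_mk, ← mul_mk]
  cases d.2.1 <;> simp [inv_mk]

/-- membership in the normal closure -/
theorem mem_iff (P : Pres) (x : FreeGroup ℕ) :
    x ∈ Subgroup.normalClosure (SP P) ↔ ∃ D, x = FreeGroup.mk (pw P D) := by
  constructor
  · intro hx
    have hx' : x ∈ Submonoid.closure (Group.conjugatesOfSet (SP P) ∪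
        (Group.conjugatesOfSet (SP P))⁻¹) := by
      rw [← Subgroup.closure_toSubmonoid]; exact hx
    obtain ⟨l, hl, rfl⟩ := Submonoid.exists_list_of_mem_closure hx'
    have h1 : ∀ y ∈ l, ∃ d : Word × Bool × Code, FreeGroup.mk (cj P d) = y := by
      intro y hy
      rcases hl y hy with h | h
      · obtain ⟨a, ha, hc⟩ := Group.mem_conjugatesOfSet_iff.1 h
        obtain ⟨κ, rfl⟩ := ha
        obtain ⟨c, hc⟩ := isConj_iff.1 hc
        refine ⟨(c.toWord, true, κ), ?_⟩
        rw [mk_cj]; simp only [mk_toWord]; exact hc
      · obtain ⟨a, ha, hc⟩ := Group.mem_conjugatesOfSet_iff.1 h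
        obtain ⟨κ, rfl⟩ := ha
        obtain ⟨c, hc⟩ := isConj_iff.1 hc
        refine ⟨(c.toWord, false, κ), ?_⟩
        rw [mk_cj]; simp only [mk_toWord]
        rw [← inv_inj, ← hc]
        simp [mul_assoc]
    have h2 : ∃ D : List (Word × Bool × Code), (D.map fun d => FreeGroup.mk (cj P d)) = l := by
      clear hl hx hx'
      induction l with
      | nil => exact ⟨[], rfl⟩
      | cons y l ih =>
        obtain ⟨D, hD⟩ := ih fun z hz => h1 z (List.mem_cons_of_mem _ hz)
        obtain ⟨d, hd⟩ := h1 y (List.mem_cons_self ..)
        exact ⟨d :: D, by simp [hD, hd]⟩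
    obtain ⟨D, hD⟩ := h2
    exact ⟨D, by rw [mk_pw, hD]⟩
  · rintro ⟨D, rfl⟩
    rw [mk_pw]
    refine Subgroup.list_prod_mem _ ?_
    intro y hy
    obtain ⟨d, -, rfl⟩ := List.mem_map.1 hy
    rw [mk_cj]
    have hb : FreeGroup.mk (base P d.2.2) ∈ Subgroup.normalClosure (SP P) :=
      Subgroup.subset_normalClosure ⟨_, rfl⟩
    refine Subgroup.normalClosure_normal.conj_mem _ ?_ _
    cases d.2.1
    · exact inv_mem hb
    · exact hb

theorem metab_of_comm {G : Type*} [Group G] (h : ∀ a b c d : G, ⁅⁅a, b⁆, ⁅c, d⁆⁆ = 1) :
    derivedSeries G 2 = ⊥ := by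
  have h1 : derivedSeries G 2 = ⁅derivedSeries G 1, derivedSeries G 1⁆ := rfl
  have h2 : derivedSeries G 1 = Subgroup.closure {g : G | ∃ a b : G, ⁅a, b⁆ = g} := by
    rw [derivedSeries_one, commutator_eq_closure]; rfl
  rw [h1, h2, Subgroup.commutator_eq_bot_iff_le_centralizer, Subgroup.closure_le,
    Subgroup.centralizer_closure]
  rintro x ⟨a, b, rfl⟩
  rw [SetLike.mem_coe, Subgroup.mem_centralizer_iff]
  rintro y ⟨c, d, rfl⟩
  have := h a b c d
  rw [commutatorElement_eq_one_iff_mul_comm] at this
  exact this.symm

theorem comm_of_metab {G : Type*} [Group G] (h : derivedSeries G 2 = ⊥) (a b c d : G) :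
    ⁅⁅a, b⁆, ⁅c, d⁆⁆ = 1 := by
  have h1 : ⁅⁅a, b⁆, ⁅c, d⁆⁆ ∈ derivedSeries G 2 := by
    have h2 : ∀ x y : G, ⁅x, y⁆ ∈ derivedSeries G 1 := fun x y =>
      Subgroup.commutator_mem_commutator (Subgroup.mem_top _) (Subgroup.mem_top _)
    exact Subgroup.commutator_mem_commutator (h2 _ _) (h2 _ _)
  rw [h] at h1
  exact Subgroup.mem_bot.1 h1

/-- the substitution `x_i ↦ x_i` (`i < n`), `x_i ↦ 1` (`i ≥ n`) -/
def proj (n : ℕ) : FreeGroup ℕ →* FreeGroup (Fin n) :=
  FreeGroup.lift (fun i : ℕ => if h : i < n then FreeGroup.of (⟨i, h⟩ : Fin n) else 1)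

theorem base_mem_ker (P : Pres) (κ : Code) :
    PresentedGroup.mk (relset P) (proj P.1 (FreeGroup.mk (base P κ))) = 1 := by
  rw [PresentedGroup.mk_eq_one_iff]
  unfold base
  rcases hκ : κ.1 with _ | _
  · simp only [cond_false]
    refine Subgroup.subset_normalClosure (Or.inr ?_)
    rw [mk_cw, mk_cw, mk_cw, map_commutatorElement, map_commutatorElement,
      map_commutatorElement]
    have h2 : ∀ x y : FreeGroup (Fin P.1), ⁅x, y⁆ ∈ derivedSeries (FreeGroup (Fin P.1)) 1 :=
      fun x y => Subgroup.commutator_mem_commutator (Subgroup.mem_top _) (Subgroup.mem_top _)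
    exact Subgroup.commutator_mem_commutator (h2 _ _) (h2 _ _)
  · simp only [cond_true]
    rcases Nat.even_or_odd κ.2.1 with h | h
    · have h' : κ.2.1 % 2 = 0 := Nat.even_iff.1 h
      simp only [h', decide_true, cond_true]
      rcases hw : P.2[κ.2.1 / 2]? with _ | w
      · simp only [Option.getD_none]
        have : (FreeGroup.mk ([] : Word) : FreeGroup ℕ) = 1 := rfl
        rw [this, _root_.map_one]
        exact one_mem _
      · simp only [Option.getD_some]
        exact Subgroup.subset_normalClosure (Or.inl ⟨w, List.mem_of_getElem? hw, rfl⟩)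
    · have h' : ¬ κ.2.1 % 2 = 0 := by rw [Nat.odd_iff.1 h]; decide
      simp only [h', decide_false, cond_false]
      have : (FreeGroup.mk [(P.1 + κ.2.1 / 2, true)] : FreeGroup ℕ) =
        FreeGroup.of (P.1 + κ.2.1 / 2) := rfl
      rw [this, proj, FreeGroup.lift_apply_of, dif_neg (by omega)]
      exact one_mem _

/-- the quotient of the free group on `ℕ` is metabelian -/
theorem quot_metab (P : Pres) :
    derivedSeries (FreeGroup ℕ ⧸ Subgroup.normalClosure (SP P)) 2 = ⊥ := by
  refine metab_of_comm ?_
  intro a b c d
  obtain ⟨a, rfl⟩ := QuotientGroup.mk'_surjective _ a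
  obtain ⟨b, rfl⟩ := QuotientGroup.mk'_surjective _ b
  obtain ⟨c, rfl⟩ := QuotientGroup.mk'_surjective _ c
  obtain ⟨d, rfl⟩ := QuotientGroup.mk'_surjective _ d
  rw [← map_commutatorElement, ← map_commutatorElement, ← map_commutatorElement]
  rw [QuotientGroup.mk'_apply, QuotientGroup.eq_one_iff]
  refine Subgroup.subset_normalClosure ⟨(false, 0, ((a.toWord, b.toWord),
    (c.toWord, d.toWord))), ?_⟩
  simp only [base, cond_false, mk_cw, mk_toWord]

theorem el_eq_one_iff (P : Pres) (w : Word) :
    el P w = 1 ↔ FreeGroup.mk w ∈ Subgroup.normalClosure (SP P) := by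
  constructor
  · intro h
    have h1 : wordIn P.1 w ∈ Subgroup.normalClosure (relset P) :=
      PresentedGroup.mk_eq_one_iff.1 h
    set N := Subgroup.normalClosure (SP P)
    let ι : FreeGroup (Fin P.1) →* FreeGroup ℕ ⧸ N :=
      FreeGroup.lift fun i => QuotientGroup.mk' N (FreeGroup.of (i : ℕ))
    have h2 : ∀ x : FreeGroup ℕ, ι (proj P.1 x) = QuotientGroup.mk' N x := by
      intro x
      have : ι.comp (proj P.1) = QuotientGroup.mk' N := by
        ext i
        simp only [MonoidHom.comp_apply, proj, FreeGroup.lift_apply_of]
        by_cases hi : i < P.1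
        · simp [hi, ι]
        · simp only [hi, dite_false, _root_.map_one]
          symm
          rw [QuotientGroup.mk'_apply, QuotientGroup.eq_one_iff]
          refine Subgroup.subset_normalClosure ⟨(true, 2 * (i - P.1) + 1, (([], []), ([], []))),
            ?_⟩
          have e1 : (2 * (i - P.1) + 1) % 2 = 1 := by omega
          have e2 : (2 * (i - P.1) + 1) / 2 = i - P.1 := by omega
          have e3 : P.1 + (i - P.1) = i := by omega
          simp only [base, e1, e2, e3, cond_true]
          rfl
      exact DFunLike.congr_fun this x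
    have h3 : Subgroup.normalClosure (relset P) ≤ ι.ker := by
      refine Subgroup.normalClosure_le_normal ?_
      rintro r (⟨w, hw, rfl⟩ | hr)
      · obtain ⟨k, hk, rfl⟩ := List.mem_iff_getElem.1 hw
        change ι (proj P.1 (FreeGroup.mk _)) = 1
        rw [h2, QuotientGroup.mk'_apply, QuotientGroup.eq_one_iff]
        refine Subgroup.subset_normalClosure ⟨(true, 2 * k, (([], []), ([], []))), ?_⟩
        have e1 : (2 * k) % 2 = 0 := by omega
        have e2 : (2 * k) / 2 = k := by omega
        simp only [base, e1, e2, cond_true, decide_true, List.getElem?_eq_getElem hk,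
          Option.getD_some]
      · have h := map_derivedSeries_le_derivedSeries ι 2 (Subgroup.mem_map_of_mem ι hr)
        rw [quot_metab] at h
        exact Subgroup.mem_bot.1 h
    have h4 : ι (proj P.1 (FreeGroup.mk w)) = 1 := h3 h1
    rw [h2, QuotientGroup.mk'_apply, QuotientGroup.eq_one_iff] at h4
    exact h4
  · intro h
    have h1 : Subgroup.normalClosure (SP P) ≤
        ((PresentedGroup.mk (relset P)).comp (proj P.1)).ker := by
      refine Subgroup.normalClosure_le_normal ?_
      rintro x ⟨κ, rfl⟩
      exact base_mem_ker P κ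
    exact h1 h

end C1aux

open C1aux Pool.Agent.LibHelper36.SJT

/-- C1. Triviality of a word in `Met P` is r.e. -/
theorem triv_re : REPred (fun z : Pres × Word => el z.1 z.2 = 1) := by
  have h1 : REPred fun z : (Pres × Word) × List (Word × Bool × Code) =>
      FreeGroup.reduce z.1.2 = FreeGroup.reduce (pw z.1.1 z.2) := by
    refine re_of_comp (q := fun z => decide (FreeGroup.reduce z.1.2 =
      FreeGroup.reduce (pw z.1.1 z.2))) ?_ (fun z => by simp)
    have h2 := computable_reduce (Computable.snd.comp Computable.fst :
      Computable fun z : (Pres × Word) × List (Word × Bool × Code) => z.1.2)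
    have h3 := computable_reduce (computable_pw (Computable.fst.comp Computable.fst :
      Computable fun z : (Pres × Word) × List (Word × Bool × Code) => z.1.1) Computable.snd)
    have h4 : Computable₂ fun a b : Word => decide (a = b) := by
      obtain ⟨_, h⟩ := (Primrec.eq : PrimrecRel (@Eq Word))
      exact h.to_comp.of_eq fun n => by congr
    exact h4.comp h2 h3
  refine (re_ex h1).of_eq fun z => ?_
  rw [el_eq_one_iff, mem_iff]
  exact exists_congr fun D => ⟨fun h => FreeGroup.reduce.exact h, fun h => FreeGroup.reduce.sound h⟩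

end Pool.Agent.MIso
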