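import Pool.Agent.MIso.Defs
import Pool.Agent.MIso.C1
import Pool.Agent.Lib_helper36.SJT.RE

/-! # Block C2: isomorphism is recursively enumerable -/

set_option autoImplicit false

namespace Pool.Agent.MIso

namespace C2aux

open Pool.Agent.LibHelper36.SJT
open scoped commutatorElement

/-- the formal inverse of a word -/
def inv (w : Word) : Word := (w.map fun a => (a.1, !a.2)).reverse

/-- the image of a letter -/
def let1 (u : List Word) (a : ℕ × Bool) : Word := cond a.2 (u.getD a.1 []) (inv (u.getD a.1 []))

/-- substitution of words for the letters -/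
def sb (u : List Word) (w : Word) : Word := w.flatMap (let1 u)

theorem prim_inv : Primrec inv := by
  unfold inv
  refine (Primrec.list_reverse.comp (Primrec.list_map Primrec.id ?_))
  exact (Primrec.pair (Primrec.fst.comp Primrec.snd)
    (Primrec.not.comp (Primrec.snd.comp Primrec.snd)))

theorem prim_let1 : Primrec₂ let1 := by
  unfold let1
  have h1 : Primrec fun z : List Word × (ℕ × Bool) => z.1.getD z.2.1 [] :=
    (Primrec.list_getD []).comp Primrec.fst (Primrec.fst.comp Primrec.snd)
  exact Primrec.cond (Primrec.snd.comp Primrec.snd) h1 (prim_inv.comp h1)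

theorem comp_sb : Computable₂ sb := by
  unfold sb
  refine (Primrec.list_flatMap (f := fun z : List Word × Word => z.2)
    (g := fun z a => let1 z.1 a) Primrec.snd ?_).to_comp
  exact prim_let1.comp (Primrec.fst.comp Primrec.fst) Primrec.snd

theorem re_eq {α β : Type*} [Primcodable α] [Primcodable β] [DecidableEq β] {f g : α → β}
    (hf : Computable f) (hg : Computable g) : REPred fun a => f a = g a :=
  re_of_comp (q := fun a => decide (f a = g a)) (Primrec.eq.decide.to_comp.comp hf hg) (fun a => by simp)

/-- `u` maps the relators of `P` to `1` in `Met P'` -/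
def Good (P P' : Pres) (u : List Word) : Prop :=
  u.length = P.1 ∧ ∀ k < P.2.length, el P' (sb u (P.2.getD k [])) = 1

/-- `v ∘ u` is the identity on the generators of `P` -/
def Back (P : Pres) (u v : List Word) : Prop :=
  ∀ i < P.1, el P (sb v (u.getD i []) ++ [(i, false)]) = 1

theorem re_good {α : Type*} [Primcodable α] {P P' : α → Pres} {u : α → List Word}
    (hP : Computable P) (hP' : Computable P') (hu : Computable u) :
    REPred fun a => Good (P a) (P' a) (u a) := by
  refine re_and (re_eq (Computable.list_length.comp hu) (Computable.fst.comp hP)) ?_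
  refine re_ball (p := fun x : α × ℕ => el (P' x.1) (sb (u x.1) ((P x.1).2.getD x.2 [])) = 1)
    (f := fun a => (P a).2.length) ?_ (Computable.list_length.comp (Computable.snd.comp hP))
  have hg : Computable₂ fun (l : List Word) (i : ℕ) => l.getD i [] := (Primrec.list_getD []).to_comp
  exact re_comp triv_re (f := fun x : α × ℕ => (P' x.1, sb (u x.1) ((P x.1).2.getD x.2 [])))
    (Computable.pair (hP'.comp Computable.fst) (comp_sb.comp (hu.comp Computable.fst)
      (hg.comp (Computable.snd.comp (hP.comp Computable.fst)) Computable.snd)))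

theorem re_back {α : Type*} [Primcodable α] {P : α → Pres} {u v : α → List Word}
    (hP : Computable P) (hu : Computable u) (hv : Computable v) :
    REPred fun a => Back (P a) (u a) (v a) := by
  refine re_ball (p := fun x : α × ℕ => el (P x.1) (sb (v x.1) ((u x.1).getD x.2 []) ++ [(x.2, false)]) = 1)
    (f := fun a => (P a).1) ?_ (Computable.fst.comp hP)
  have hg : Computable₂ fun (l : List Word) (i : ℕ) => l.getD i [] := (Primrec.list_getD []).to_comp
  have happ : Computable₂ (fun a b : Word => a ++ b) := Primrec.list_append.to_comp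
  exact re_comp triv_re (f := fun x : α × ℕ => (P x.1, sb (v x.1) ((u x.1).getD x.2 []) ++ [(x.2, false)]))
    (Computable.pair (hP.comp Computable.fst) (happ.comp (comp_sb.comp (hv.comp Computable.fst)
      (hg.comp (hu.comp Computable.fst) Computable.snd))
      (Computable.list_cons.comp (Computable.pair Computable.snd (Computable.const false))
        (Computable.const []))))

theorem re_all : REPred fun z : Pres × Pres => ∃ t : List Word × List Word,
    (Good z.1 z.2 t.1 ∧ Good z.2 z.1 t.2) ∧ (Back z.1 t.1 t.2 ∧ Back z.2 t.2 t.1) := by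
  refine re_ex (p := fun y : (Pres × Pres) × (List Word × List Word) =>
    (Good y.1.1 y.1.2 y.2.1 ∧ Good y.1.2 y.1.1 y.2.2) ∧ (Back y.1.1 y.2.1 y.2.2 ∧ Back y.1.2 y.2.2 y.2.1)) ?_
  have c1 : Computable fun y : (Pres × Pres) × (List Word × List Word) => y.1.1 :=
    Computable.fst.comp Computable.fst
  have c2 : Computable fun y : (Pres × Pres) × (List Word × List Word) => y.1.2 :=
    Computable.snd.comp Computable.fst
  have c3 : Computable fun y : (Pres × Pres) × (List Word × List Word) => y.2.1 :=
    Computable.fst.comp Computable.snd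
  have c4 : Computable fun y : (Pres × Pres) × (List Word × List Word) => y.2.2 :=
    Computable.snd.comp Computable.snd
  exact re_and (re_and (re_good c1 c2 c3) (re_good c2 c1 c4)) (re_and (re_back c1 c3 c4) (re_back c2 c4 c3))

/-! ### algebra -/

theorem wordIn_nil (n : ℕ) : wordIn n [] = 1 := by
  unfold wordIn
  rw [← FreeGroup.one_eq_mk, map_one]

theorem wordIn_append (n : ℕ) (u v : Word) : wordIn n (u ++ v) = wordIn n u * wordIn n v := by
  unfold wordIn
  rw [← FreeGroup.mul_mk, map_mul]

theorem wordIn_inv (n : ℕ) (u : Word) : wordIn n (inv u) = (wordIn n u)⁻¹ := by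
  unfold wordIn
  rw [← map_inv, FreeGroup.inv_mk]
  rfl

theorem el_nil (P : Pres) : el P [] = 1 := by
  unfold el; rw [wordIn_nil]; exact map_one (PresentedGroup.mk (relset P))

theorem el_append (P : Pres) (u v : Word) : el P (u ++ v) = el P u * el P v := by
  unfold el; rw [wordIn_append]; exact map_mul (PresentedGroup.mk (relset P)) _ _

theorem el_inv (P : Pres) (u : Word) : el P (inv u) = (el P u)⁻¹ := by
  unfold el; rw [wordIn_inv]; exact map_inv (PresentedGroup.mk (relset P)) _

theorem el_rel (P : Pres) (w : Word) (hw : w ∈ P.2) : el P w = 1 :=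
  PresentedGroup.one_of_mem (Or.inl ⟨w, hw, rfl⟩)

theorem wordIn_single (n : ℕ) (a : ℕ × Bool) : wordIn n [a] =
    cond a.2 (if h : a.1 < n then FreeGroup.of (⟨a.1, h⟩ : Fin n) else 1)
      (if h : a.1 < n then FreeGroup.of (⟨a.1, h⟩ : Fin n) else 1)⁻¹ := by
  unfold wordIn
  rw [FreeGroup.lift_mk]
  simp

theorem el_gen (P : Pres) (i : Fin P.1) : el P [((i : ℕ), true)] = gen P i := by
  unfold el
  rw [wordIn_single]
  simp only [cond_true]
  rw [dif_pos i.2]
  rfl

/-- the free group maps onto words -/
theorem el_surj (P : Pres) (x : Met P) : ∃ w, el P w = x := by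
  obtain ⟨y, rfl⟩ := PresentedGroup.mk_surjective (relset P) x
  induction y using FreeGroup.induction_on with
  | C1 => exact ⟨[], by rw [el_nil]; exact (map_one (PresentedGroup.mk (relset P))).symm⟩
  | of i => exact ⟨[((i : ℕ), true)], el_gen P i⟩
  | inv_of i _ => exact ⟨inv [((i : ℕ), true)], by
      rw [el_inv, el_gen]
      exact (map_inv (PresentedGroup.mk (relset P)) (FreeGroup.of i)).symm⟩
  | mul a b ha hb =>
    obtain ⟨u, hu⟩ := ha
    obtain ⟨v, hv⟩ := hb
    exact ⟨u ++ v, by
      rw [el_append, hu, hv]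
      exact (map_mul (PresentedGroup.mk (relset P)) a b).symm⟩

/-- `Met P` is metabelian -/
theorem met_metab (P : Pres) : derivedSeries (Met P) 2 = ⊥ := by
  have h1 : Function.Surjective (PresentedGroup.mk (relset P)) := PresentedGroup.mk_surjective (relset P)
  have h2 := map_derivedSeries_eq h1 2
  have h3 : derivedSeries (PresentedGroup (relset P)) 2 = ⊥ := by
    rw [← h2, eq_bot_iff]
    rintro x ⟨y, hy, rfl⟩
    rw [Subgroup.mem_bot]
    exact PresentedGroup.one_of_mem (Or.inr hy)
  exact h3

/-- homomorphisms of the free group on substituted words -/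
theorem lift_sb (P P' : Pres) (u : List Word) (hu : u.length = P.1) (w : Word) :
    FreeGroup.lift (fun i : Fin P.1 => el P' (u.getD i [])) (wordIn P.1 w) = el P' (sb u w) := by
  induction w with
  | nil =>
    rw [wordIn_nil, map_one]
    exact (el_nil P').symm
  | cons a w ih =>
    have h1 : a :: w = [a] ++ w := rfl
    have h2 : sb u (a :: w) = let1 u a ++ sb u w := by simp [sb]
    rw [h2, h1, wordIn_append, map_mul, ih, el_append]
    congr 1
    rw [wordIn_single]
    rcases a with ⟨i, b⟩
    by_cases h : i < P.1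
    · simp only [dif_pos h]
      cases b
      · simp only [cond_false, map_inv, FreeGroup.lift_apply_of]
        unfold let1
        simp only [cond_false]
        rw [el_inv]
      · simp only [cond_true, FreeGroup.lift_apply_of]
        unfold let1
        simp only [cond_true]
    · simp only [dif_neg h]
      have h3 : u.getD i [] = [] := by
        rw [List.getD_eq_default]
        omega
      unfold let1
      simp only [h3]
      cases b <;> simp [inv, el_nil]

theorem hom_of_good (P P' : Pres) (u : List Word) (h : Good P P' u) :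
    ∃ f : Met P →* Met P', ∀ w, f (el P w) = el P' (sb u w) := by
  obtain ⟨hu, hr⟩ := h
  have hrel : ∀ r ∈ relset P, FreeGroup.lift (fun i : Fin P.1 => el P' (u.getD i [])) r = 1 := by
    rintro r (⟨w, hw, rfl⟩ | hr')
    · rw [lift_sb P P' u hu]
      obtain ⟨k, hk, rfl⟩ := List.mem_iff_getElem.1 hw
      have := hr k hk
      rwa [List.getD_eq_getElem _ _ hk] at this
    · have h1 : FreeGroup.lift (fun i : Fin P.1 => el P' (u.getD i [])) r ∈ derivedSeries (Met P') 2 :=
        map_derivedSeries_le_derivedSeries _ 2 (Subgroup.mem_map_of_mem _ hr')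
      rw [met_metab] at h1
      exact Subgroup.mem_bot.1 h1
  refine ⟨PresentedGroup.toGroup hrel, ?_⟩
  intro w
  rw [← lift_sb P P' u hu]
  rfl

theorem sb_of_hom (P P' : Pres) (f : Met P →* Met P') (u : List Word) (hu : u.length = P.1)
    (h : ∀ i : Fin P.1, el P' (u.getD i []) = f (gen P i)) (w : Word) : el P' (sb u w) = f (el P w) := by
  rw [← lift_sb P P' u hu]
  have h1 : (FreeGroup.lift (fun i : Fin P.1 => el P' (u.getD i []))) =
      f.comp (PresentedGroup.mk (relset P)) := by
    apply FreeGroup.ext_hom
    intro i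
    rw [FreeGroup.lift_apply_of, h i]
    rfl
  rw [h1]
  rfl

theorem exists_list (P P' : Pres) (f : Met P →* Met P') : ∃ u : List Word, u.length = P.1 ∧
    ∀ i : Fin P.1, el P' (u.getD i []) = f (gen P i) := by
  choose g hg using el_surj P'
  refine ⟨List.ofFn fun i : Fin P.1 => g (f (gen P i)), List.length_ofFn, ?_⟩
  intro i
  rw [List.getD_eq_getElem _ _ (by rw [List.length_ofFn]; exact i.2), List.getElem_ofFn]
  exact hg _

theorem hom_ext (P : Pres) (f g : Met P →* Met P) (h : ∀ i, f (gen P i) = g (gen P i)) : f = g :=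
  PresentedGroup.ext h

theorem back_iff (P P' : Pres) (u v : List Word) (i : ℕ) (hi : i < P.1) :
    el P (sb v (u.getD i []) ++ [(i, false)]) = 1 ↔ el P (sb v (u.getD i [])) = gen P ⟨i, hi⟩ := by
  have h1 : ([(i, false)] : Word) = inv [(i, true)] := rfl
  rw [el_append, h1, el_inv, mul_inv_eq_one]
  have h2 := el_gen P ⟨i, hi⟩
  rw [h2]

theorem main (P P' : Pres) : Nonempty (Met P ≃* Met P') ↔ ∃ t : List Word × List Word,
    (Good P P' t.1 ∧ Good P' P t.2) ∧ (Back P t.1 t.2 ∧ Back P' t.2 t.1) := by
  constructor
  · rintro ⟨e⟩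
    obtain ⟨u, hu, hu'⟩ := exists_list P P' e.toMonoidHom
    obtain ⟨v, hv, hv'⟩ := exists_list P' P e.symm.toMonoidHom
    have h1 := sb_of_hom P P' e.toMonoidHom u hu hu'
    have h2 := sb_of_hom P' P e.symm.toMonoidHom v hv hv'
    refine ⟨(u, v), ⟨⟨hu, ?_⟩, ⟨hv, ?_⟩⟩, ?_, ?_⟩
    · intro k hk
      rw [h1, List.getD_eq_getElem _ _ hk, el_rel P _ (List.getElem_mem hk), map_one]
    · intro k hk
      rw [h2, List.getD_eq_getElem _ _ hk, el_rel P' _ (List.getElem_mem hk), map_one]
    · intro i hi
      rw [back_iff P P' u v i hi, h2, hu' ⟨i, hi⟩]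
      exact e.symm_apply_apply _
    · intro i hi
      rw [back_iff P' P v u i hi, h1, hv' ⟨i, hi⟩]
      exact e.apply_symm_apply _
  · rintro ⟨⟨u, v⟩, ⟨h1, h2⟩, h3, h4⟩
    obtain ⟨f, hf⟩ := hom_of_good P P' u h1
    obtain ⟨g, hg⟩ := hom_of_good P' P v h2
    have sb1 : ∀ (u : List Word) (i : ℕ), sb u [(i, true)] = u.getD i [] := by
      intro u i; simp [sb, let1]
    have hgf : g.comp f = MonoidHom.id _ := by
      apply hom_ext
      intro i
      have e1 : f (gen P i) = el P' (u.getD i []) := by rw [← el_gen, hf, sb1]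
      show g (f (gen P i)) = gen P i
      rw [e1, hg]
      exact (back_iff P P' u v i i.2).1 (h3 i i.2)
    have hfg : f.comp g = MonoidHom.id _ := by
      apply hom_ext
      intro i
      have e1 : g (gen P' i) = el P (v.getD i []) := by rw [← el_gen, hg, sb1]
      show f (g (gen P' i)) = gen P' i
      rw [e1, hf]
      exact (back_iff P' P v u i i.2).1 (h4 i i.2)
    exact ⟨MonoidHom.toMulEquiv f g hgf hfg⟩

end C2aux

/-- C2. Isomorphism is r.e. -/
theorem iso_re : REPred (fun z : Pres × Pres => Nonempty (Met z.1 ≃* Met z.2)) :=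
  C2aux.re_all.of_eq fun z => (C2aux.main z.1 z.2).symm

end Pool.Agent.MIso
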