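import Pool.Agent.MIso.Defs

set_option autoImplicit false

namespace Pool.Agent.MIso

namespace C3aAux

/-- evaluation of a word over `ℕ` at a tuple of `Fin n` -/
def evN {n : ℕ} {Γ : Type*} [Group Γ] (g : Fin n → Γ) (w : Word) : Γ :=
  FreeGroup.lift (fun i : ℕ => if h : i < n then g ⟨i, h⟩ else 1) (FreeGroup.mk w)

theorem lift_wordIn {n : ℕ} {Γ : Type*} [Group Γ] (g : Fin n → Γ) (w : Word) :
    FreeGroup.lift g (wordIn n w) = evN g w := by
  unfold wordIn evN
  have h : (FreeGroup.lift g).comp (FreeGroup.lift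
      (fun i : ℕ => if h : i < n then FreeGroup.of (⟨i, h⟩ : Fin n) else 1)) =
      FreeGroup.lift (fun i : ℕ => if h : i < n then g ⟨i, h⟩ else 1) := by
    ext i
    by_cases h : i < n <;> simp [h]
  exact DFunLike.congr_fun h _

theorem derived_map {G Γ : Type*} [Group G] [Group Γ] (hΓ : derivedSeries Γ 2 = ⊥) (f : G →* Γ)
    {x : G} (hx : x ∈ derivedSeries G 2) : f x = 1 := by
  have h := map_derivedSeries_le_derivedSeries f 2 (Subgroup.mem_map_of_mem f hx)
  rw [hΓ] at h
  exact Subgroup.mem_bot.1 h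

end C3aAux

open C3aAux

/-- C3a. Homomorphisms of `Met P` into a metabelian group are tuples killing the relators. -/
theorem card_hom (P : Pres) (Γ : Type) [Group Γ] (hΓ : derivedSeries Γ 2 = ⊥) :
    Nat.card (Met P →* Γ) =
      Nat.card {g : Fin P.1 → Γ // ∀ w ∈ P.2,
        FreeGroup.lift (fun i : ℕ => if h : i < P.1 then g ⟨i, h⟩ else 1) (FreeGroup.mk w) = 1} := by
  have hmet : ∀ (g : Fin P.1 → Γ), (∀ w ∈ P.2, evN g w = 1) →
      ∀ r ∈ relset P, FreeGroup.lift g r = 1 := by
    rintro g hg r (⟨w, hw, rfl⟩ | hr)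
    · rw [lift_wordIn]; exact hg w hw
    · exact derived_map hΓ _ hr
  have key : ∀ (φ : PresentedGroup (relset P) →* Γ) (w : Word), w ∈ P.2 →
      FreeGroup.lift (fun i => φ (PresentedGroup.of i)) (wordIn P.1 w) = 1 := by
    intro φ w hw
    have h1 : FreeGroup.lift (fun i => φ (PresentedGroup.of i)) =
        φ.comp (PresentedGroup.mk (relset P)) := by
      ext i; simp [PresentedGroup.of]
    rw [h1, MonoidHom.comp_apply]
    have h2 : PresentedGroup.mk (relset P) (wordIn P.1 w) = 1 :=
      (PresentedGroup.mk_eq_one_iff).2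
        (Subgroup.subset_normalClosure (Or.inl ⟨w, hw, rfl⟩))
    rw [h2, map_one]
  refine Nat.card_congr
    { toFun := fun φ => ⟨fun i => φ (gen P i), fun w hw => ?_⟩
      invFun := fun g => (PresentedGroup.toGroup (rels := relset P) (f := g.1) (hmet g.1 g.2) :
        PresentedGroup (relset P) →* Γ)
      left_inv := fun φ => ?_
      right_inv := fun g => ?_ }
  · change evN (fun i => φ (gen P i)) w = 1
    rw [← lift_wordIn]
    exact key φ w hw
  · apply PresentedGroup.ext
    intro i
    exact PresentedGroup.toGroup.of _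
  · apply Subtype.ext
    funext i
    exact PresentedGroup.toGroup.of _

end Pool.Agent.MIso
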