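import Pool.Agent.MIso.Defs
import Pool.Agent.MIso.C3a
import Pool.Agent.Lib_helper36.SJT.RE

set_option autoImplicit false

namespace Pool.Agent.MIso

namespace C3bAux

open Pool.Agent.LibHelper36.SJT
open scoped commutatorElement

/-- a multiplication table: order, products, inverses; the identity is `0` -/
abbrev Tab := ℕ × List ℕ × List ℕ

/-- product -/
def tm (c : Tab) (x y : ℕ) : ℕ := c.2.1.getD (x * c.1 + y) 0

/-- inverse -/
def ti (c : Tab) (x : ℕ) : ℕ := c.2.2.getD x 0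

/-- commutator -/
def cm (c : Tab) (x y : ℕ) : ℕ := tm c (tm c x y) (tm c (ti c x) (ti c y))

/-- the value of a letter at the tuple with code `a` -/
def letter (c : Tab) (n a : ℕ) (l : ℕ × Bool) : ℕ :=
  if l.1 < n then (if l.2 = true then a / c.1 ^ l.1 % c.1 else ti c (a / c.1 ^ l.1 % c.1)) else 0

/-- the value of a word -/
def evw (c : Tab) (n a : ℕ) (w : Word) : ℕ := w.foldr (fun l s => tm c (letter c n a l) s) 0

/-- the tuple with code `a` kills the relators -/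
def ok (c : Tab) (P : Pres) (a : ℕ) : Prop := ∀ w ∈ P.2, evw c P.1 a w = 0

instance (c : Tab) (P : Pres) (a : ℕ) : Decidable (ok c P a) := by
  unfold ok; infer_instance

/-- the number of tuples killing the relators -/
def count (c : Tab) (P : Pres) : ℕ :=
  ((List.range (c.1 ^ P.1)).filter (fun a => decide (ok c P a))).length

/-- `c` is the table of a metabelian group -/
def Good (c : Tab) : Prop :=
  0 < c.1 ∧ ∀ x < c.1, (tm c 0 x = x ∧ ti c x < c.1 ∧ tm c (ti c x) x = 0) ∧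
    ∀ y < c.1, tm c x y < c.1 ∧
      ∀ z < c.1, tm c (tm c x y) z = tm c x (tm c y z) ∧
        ∀ w < c.1, tm c (cm c x y) (cm c z w) = tm c (cm c z w) (cm c x y)

/-! ### primitive recursiveness -/

section pr

variable {α : Type*} [Primcodable α]

theorem pow_pr {f g : α → ℕ} (hf : Primrec f) (hg : Primrec g) :
    Primrec fun z => f z ^ g z :=
  (Primrec₂.unpaired'.1 Nat.Primrec.pow).comp hf hg

theorem tm_pr {f : α → Tab} {g h : α → ℕ} (hf : Primrec f) (hg : Primrec g) (hh : Primrec h) :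
    Primrec fun z => tm (f z) (g z) (h z) :=
  (Primrec.list_getD 0).comp (Primrec.fst.comp (Primrec.snd.comp hf))
    (Primrec.nat_add.comp (Primrec.nat_mul.comp hg (Primrec.fst.comp hf)) hh)

theorem ti_pr {f : α → Tab} {g : α → ℕ} (hf : Primrec f) (hg : Primrec g) :
    Primrec fun z => ti (f z) (g z) :=
  (Primrec.list_getD 0).comp (Primrec.snd.comp (Primrec.snd.comp hf)) hg

theorem cm_pr {f : α → Tab} {g h : α → ℕ} (hf : Primrec f) (hg : Primrec g) (hh : Primrec h) :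
    Primrec fun z => cm (f z) (g z) (h z) :=
  tm_pr hf (tm_pr hf hg hh) (tm_pr hf (ti_pr hf hg) (ti_pr hf hh))

theorem letter_pr {f : α → Tab} {n a : α → ℕ} {l : α → ℕ × Bool} (hf : Primrec f)
    (hn : Primrec n) (ha : Primrec a) (hl : Primrec l) :
    Primrec fun z => letter (f z) (n z) (a z) (l z) := by
  have h1 : Primrec fun z => a z / (f z).1 ^ (l z).1 % (f z).1 :=
    Primrec.nat_mod.comp (Primrec.nat_div.comp ha
      (pow_pr (Primrec.fst.comp hf) (Primrec.fst.comp hl))) (Primrec.fst.comp hf)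
  exact Primrec.ite (Primrec.nat_lt.comp (Primrec.fst.comp hl) hn)
    (Primrec.ite (Primrec.eq.comp (Primrec.snd.comp hl) (Primrec.const true)) h1 (ti_pr hf h1))
    (Primrec.const 0)

theorem evw_pr {f : α → Tab} {n a : α → ℕ} {w : α → Word} (hf : Primrec f)
    (hn : Primrec n) (ha : Primrec a) (hw : Primrec w) :
    Primrec fun z => evw (f z) (n z) (a z) (w z) := by
  refine Primrec.list_foldr (h := fun z p => tm (f z) (letter (f z) (n z) (a z) p.1) p.2)
    hw (Primrec.const 0) ?_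
  exact tm_pr (hf.comp Primrec.fst) (letter_pr (hf.comp Primrec.fst) (hn.comp Primrec.fst)
    (ha.comp Primrec.fst) (Primrec.fst.comp Primrec.snd)) (Primrec.snd.comp Primrec.snd)

theorem ok_pr : PrimrecRel fun (a : ℕ) (z : Tab × Pres) => ok z.1 z.2 a := by
  have h1 : PrimrecRel fun (w : Word) (y : ℕ × Tab × Pres) => evw y.2.1 y.2.2.1 y.1 w = 0 :=
    Primrec.eq.comp (evw_pr (Primrec.fst.comp (Primrec.snd.comp Primrec.snd))
      (Primrec.fst.comp (Primrec.snd.comp (Primrec.snd.comp Primrec.snd)))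
      (Primrec.fst.comp Primrec.snd) Primrec.fst) (Primrec.const 0)
  exact h1.forall_mem_list.comp (f := fun p : ℕ × Tab × Pres => p.2.2.2)
    (g := fun p : ℕ × Tab × Pres => p)
    (Primrec.snd.comp (Primrec.snd.comp Primrec.snd)) Primrec.id

theorem count_pr {f : α → Tab} {g : α → Pres} (hf : Primrec f) (hg : Primrec g) :
    Primrec fun z => count (f z) (g z) := by
  refine Primrec.list_length.comp ?_
  exact Primrec₂.comp (ok_pr.listFilter) (g := fun z => List.range ((f z).1 ^ (g z).1))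
    (h := fun z => (f z, g z))
    (Primrec.list_range.comp (pow_pr (Primrec.fst.comp hf) (Primrec.fst.comp hg)))
    (Primrec.pair hf hg)

theorem fa {R : ℕ → α → Prop} (hR : PrimrecRel R) {n : α → ℕ} (hn : Primrec n) :
    PrimrecPred fun z => ∀ x < n z, R x z :=
  (hR.forall_mem_list.comp (f := fun z => List.range (n z)) (g := fun z => z)
    (Primrec.list_range.comp hn) Primrec.id).of_eq (by simp)

theorem good_pr : PrimrecPred Good := by
  have fst1 : Primrec fun c : Tab => c.1 := Primrec.fst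
  -- innermost
  have p4 : PrimrecPred fun v : ℕ × ℕ × ℕ × ℕ × Tab =>
      tm v.2.2.2.2 (cm v.2.2.2.2 v.2.2.2.1 v.2.2.1) (cm v.2.2.2.2 v.2.1 v.1) =
      tm v.2.2.2.2 (cm v.2.2.2.2 v.2.1 v.1) (cm v.2.2.2.2 v.2.2.2.1 v.2.2.1) := by
    have c0 : Primrec fun v : ℕ × ℕ × ℕ × ℕ × Tab => v.2.2.2.2 :=
      Primrec.snd.comp (Primrec.snd.comp (Primrec.snd.comp Primrec.snd))
    have x0 : Primrec fun v : ℕ × ℕ × ℕ × ℕ × Tab => v.2.2.2.1 :=
      Primrec.fst.comp (Primrec.snd.comp (Primrec.snd.comp Primrec.snd))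
    have y0 : Primrec fun v : ℕ × ℕ × ℕ × ℕ × Tab => v.2.2.1 :=
      Primrec.fst.comp (Primrec.snd.comp Primrec.snd)
    have z0 : Primrec fun v : ℕ × ℕ × ℕ × ℕ × Tab => v.2.1 := Primrec.fst.comp Primrec.snd
    have w0 : Primrec fun v : ℕ × ℕ × ℕ × ℕ × Tab => v.1 := Primrec.fst
    exact Primrec.eq.comp (tm_pr c0 (cm_pr c0 x0 y0) (cm_pr c0 z0 w0))
      (tm_pr c0 (cm_pr c0 z0 w0) (cm_pr c0 x0 y0))
  have p3 : PrimrecPred fun v : ℕ × ℕ × ℕ × Tab =>
      tm v.2.2.2 (tm v.2.2.2 v.2.2.1 v.2.1) v.1 = tm v.2.2.2 v.2.2.1 (tm v.2.2.2 v.2.1 v.1) ∧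
      ∀ w < v.2.2.2.1, tm v.2.2.2 (cm v.2.2.2 v.2.2.1 v.2.1) (cm v.2.2.2 v.1 w) =
        tm v.2.2.2 (cm v.2.2.2 v.1 w) (cm v.2.2.2 v.2.2.1 v.2.1) := by
    have c0 : Primrec fun v : ℕ × ℕ × ℕ × Tab => v.2.2.2 :=
      Primrec.snd.comp (Primrec.snd.comp Primrec.snd)
    have x0 : Primrec fun v : ℕ × ℕ × ℕ × Tab => v.2.2.1 :=
      Primrec.fst.comp (Primrec.snd.comp Primrec.snd)
    have y0 : Primrec fun v : ℕ × ℕ × ℕ × Tab => v.2.1 := Primrec.fst.comp Primrec.snd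
    have z0 : Primrec fun v : ℕ × ℕ × ℕ × Tab => v.1 := Primrec.fst
    exact (Primrec.eq.comp (tm_pr c0 (tm_pr c0 x0 y0) z0)
      (tm_pr c0 x0 (tm_pr c0 y0 z0))).and
      (fa (α := ℕ × ℕ × ℕ × Tab) (R := fun w v =>
        tm v.2.2.2 (cm v.2.2.2 v.2.2.1 v.2.1) (cm v.2.2.2 v.1 w) =
        tm v.2.2.2 (cm v.2.2.2 v.1 w) (cm v.2.2.2 v.2.2.1 v.2.1)) p4 (Primrec.fst.comp c0))
  have p2 : PrimrecPred fun v : ℕ × ℕ × Tab =>
      tm v.2.2 v.2.1 v.1 < v.2.2.1 ∧
      ∀ z < v.2.2.1, tm v.2.2 (tm v.2.2 v.2.1 v.1) z = tm v.2.2 v.2.1 (tm v.2.2 v.1 z) ∧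
      ∀ w < v.2.2.1, tm v.2.2 (cm v.2.2 v.2.1 v.1) (cm v.2.2 z w) =
        tm v.2.2 (cm v.2.2 z w) (cm v.2.2 v.2.1 v.1) := by
    have c0 : Primrec fun v : ℕ × ℕ × Tab => v.2.2 := Primrec.snd.comp Primrec.snd
    have x0 : Primrec fun v : ℕ × ℕ × Tab => v.2.1 := Primrec.fst.comp Primrec.snd
    have y0 : Primrec fun v : ℕ × ℕ × Tab => v.1 := Primrec.fst
    exact (Primrec.nat_lt.comp (tm_pr c0 x0 y0) (Primrec.fst.comp c0)).and
      (fa (α := ℕ × ℕ × Tab) (R := fun z v =>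
        tm v.2.2 (tm v.2.2 v.2.1 v.1) z = tm v.2.2 v.2.1 (tm v.2.2 v.1 z) ∧
        ∀ w < v.2.2.1, tm v.2.2 (cm v.2.2 v.2.1 v.1) (cm v.2.2 z w) =
          tm v.2.2 (cm v.2.2 z w) (cm v.2.2 v.2.1 v.1)) p3 (Primrec.fst.comp c0))
  have p1 : PrimrecPred fun v : ℕ × Tab =>
      (tm v.2 0 v.1 = v.1 ∧ ti v.2 v.1 < v.2.1 ∧ tm v.2 (ti v.2 v.1) v.1 = 0) ∧
      ∀ y < v.2.1, tm v.2 v.1 y < v.2.1 ∧
      ∀ z < v.2.1, tm v.2 (tm v.2 v.1 y) z = tm v.2 v.1 (tm v.2 y z) ∧
      ∀ w < v.2.1, tm v.2 (cm v.2 v.1 y) (cm v.2 z w) =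
        tm v.2 (cm v.2 z w) (cm v.2 v.1 y) := by
    have c0 : Primrec fun v : ℕ × Tab => v.2 := Primrec.snd
    have x0 : Primrec fun v : ℕ × Tab => v.1 := Primrec.fst
    exact ((Primrec.eq.comp (tm_pr c0 (Primrec.const 0) x0) x0).and
      ((Primrec.nat_lt.comp (ti_pr c0 x0) (Primrec.fst.comp c0)).and
      (Primrec.eq.comp (tm_pr c0 (ti_pr c0 x0) x0) (Primrec.const 0)))).and
      (fa (α := ℕ × Tab) (R := fun y v => tm v.2 v.1 y < v.2.1 ∧
        ∀ z < v.2.1, tm v.2 (tm v.2 v.1 y) z = tm v.2 v.1 (tm v.2 y z) ∧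
        ∀ w < v.2.1, tm v.2 (cm v.2 v.1 y) (cm v.2 z w) =
          tm v.2 (cm v.2 z w) (cm v.2 v.1 y)) p2 (Primrec.fst.comp c0))
  exact (Primrec.nat_lt.comp (Primrec.const 0) fst1).and
    (fa (α := Tab) (R := fun x c =>
      (tm c 0 x = x ∧ ti c x < c.1 ∧ tm c (ti c x) x = 0) ∧
      ∀ y < c.1, tm c x y < c.1 ∧
      ∀ z < c.1, tm c (tm c x y) z = tm c x (tm c y z) ∧
      ∀ w < c.1, tm c (cm c x y) (cm c z w) =
        tm c (cm c z w) (cm c x y)) p1 fst1)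

theorem dec_pr : PrimrecPred fun v : (Pres × Pres) × Tab =>
    Good v.2 ∧ ¬ count v.2 v.1.1 = count v.2 v.1.2 :=
  (good_pr.comp Primrec.snd).and (PrimrecPred.not (Primrec.eq.comp
    (count_pr Primrec.snd (Primrec.fst.comp Primrec.fst))
    (count_pr Primrec.snd (Primrec.snd.comp Primrec.fst))))

end pr

/-! ### groups and tables -/

theorem metab_iff {G : Type*} [Group G] : derivedSeries G 2 = ⊥ ↔
    ∀ a b c d : G, ⁅a, b⁆ * ⁅c, d⁆ = ⁅c, d⁆ * ⁅a, b⁆ := by
  have h1 : derivedSeries G 2 = ⁅commutator G, commutator G⁆ := by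
    rw [derivedSeries_succ, derivedSeries_one]
  rw [h1, Subgroup.commutator_eq_bot_iff_le_centralizer]
  constructor
  · intro h a b c d
    have h2 : ⁅a, b⁆ ∈ commutator G :=
      Subgroup.commutator_mem_commutator (Subgroup.mem_top a) (Subgroup.mem_top b)
    have h3 : ⁅c, d⁆ ∈ commutator G :=
      Subgroup.commutator_mem_commutator (Subgroup.mem_top c) (Subgroup.mem_top d)
    exact (Subgroup.mem_centralizer_iff.1 (h h2) _ h3).symm
  · intro h
    rw [commutator_eq_closure, Subgroup.centralizer_closure, Subgroup.closure_le]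
    rintro x ⟨a, b, rfl⟩
    rw [SetLike.mem_coe, Subgroup.mem_centralizer_iff]
    rintro y ⟨c, d, rfl⟩
    exact h c d a b

/-- the table describes the group `Γ` -/
structure Desc (c : Tab) (Γ : Type) [Group Γ] (e : Γ ≃ Fin c.1) : Prop where
  one : ((e 1 : Fin c.1) : ℕ) = 0
  mul : ∀ a b, ((e (a * b) : Fin c.1) : ℕ) = tm c (e a) (e b)
  inv : ∀ a, ((e a⁻¹ : Fin c.1) : ℕ) = ti c (e a)

theorem digit {k n : ℕ} (a : Fin (k ^ n)) (i : Fin n) :
    ((finFunctionFinEquiv.symm a i : Fin k) : ℕ) = (a : ℕ) / k ^ (i : ℕ) % k := rfl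

theorem evw_eq {c : Tab} {Γ : Type} [Group Γ] {e : Γ ≃ Fin c.1} (h : Desc c Γ e) (n : ℕ)
    (a : Fin (c.1 ^ n)) (w : Word) :
    evw c n a w = (e (FreeGroup.lift (fun i : ℕ => if h : i < n then
      e.symm (finFunctionFinEquiv.symm a ⟨i, h⟩) else 1) (FreeGroup.mk w)) : Fin c.1) := by
  rw [FreeGroup.lift_mk]
  induction w with
  | nil =>
    simp only [List.map_nil, List.prod_nil]
    rw [h.one]
    rfl
  | cons l w ih =>
    simp only [List.map_cons, List.prod_cons]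
    rw [h.mul, ← ih]
    have h1 : letter c n a l = (e (cond l.2
        (if h : l.1 < n then e.symm (finFunctionFinEquiv.symm a ⟨l.1, h⟩) else 1)
        (if h : l.1 < n then e.symm (finFunctionFinEquiv.symm a ⟨l.1, h⟩) else 1)⁻¹) :
          Fin c.1) := by
      unfold letter
      by_cases hl : l.1 < n
      · rw [if_pos hl, dif_pos hl]
        cases hb : l.2
        · simp only [cond_false]
          rw [h.inv, Equiv.apply_symm_apply, digit]
          simp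
        · simp only [cond_true]
          rw [Equiv.apply_symm_apply, digit]
          simp
      · rw [if_neg hl, dif_neg hl]
        cases l.2 <;> simp [h.one]
    show tm c (letter c n a l) (evw c n a w) = _
    rw [h1]

theorem count_eq {c : Tab} {Γ : Type} [Group Γ] {e : Γ ≃ Fin c.1} (h : Desc c Γ e)
    (hΓ : derivedSeries Γ 2 = ⊥) (P : Pres) : count c P = Nat.card (Met P →* Γ) := by
  rw [card_hom P Γ hΓ]
  have h1 : count c P = ((Finset.range (c.1 ^ P.1)).filter (fun a => ok c P a)).card := rfl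
  rw [h1, ← Nat.subtype_card (p := fun a : ℕ => a < c.1 ^ P.1 ∧ ok c P a) _ (by
    intro x
    simp)]
  refine Nat.card_congr ?_
  let E : Fin (c.1 ^ P.1) ≃ (Fin P.1 → Γ) :=
    finFunctionFinEquiv.symm.trans (Equiv.piCongrRight fun _ => e.symm)
  have hE : ∀ a : Fin (c.1 ^ P.1), ok c P a ↔ ∀ w ∈ P.2,
        FreeGroup.lift (fun i : ℕ => if h : i < P.1 then E a ⟨i, h⟩ else 1)
          (FreeGroup.mk w) = 1 := by
    intro a
    unfold ok
    refine forall₂_congr fun w _ => ?_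
    rw [evw_eq h]
    constructor
    · intro h2
      have h3 : e (FreeGroup.lift (fun i : ℕ => if h : i < P.1 then
        e.symm (finFunctionFinEquiv.symm a ⟨i, h⟩) else 1) (FreeGroup.mk w)) = e 1 := by
        apply Fin.ext
        rw [h2, h.one]
      exact e.injective h3
    · intro h2
      have h3 : FreeGroup.lift (fun i : ℕ => if h : i < P.1 then
        e.symm (finFunctionFinEquiv.symm a ⟨i, h⟩) else 1) (FreeGroup.mk w) = 1 := h2
      rw [h3, h.one]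
  exact
    { toFun := fun a => ⟨E ⟨a.1, a.2.1⟩, (hE _).1 a.2.2⟩
      invFun := fun g => ⟨(E.symm g.1 : Fin _), (E.symm g.1).2, (hE _).2 (by
        rw [Equiv.apply_symm_apply]
        exact g.2)⟩
      left_inv := fun a => by
        apply Subtype.ext
        simp
      right_inv := fun g => by
        apply Subtype.ext
        simp }

/-- every finite group has a table -/
theorem exists_desc (Γ : Type) [Group Γ] [Finite Γ] :
    ∃ (c : Tab) (e : Γ ≃ Fin c.1), Desc c Γ e := by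
  classical
  set k := Nat.card Γ with hk
  have hk0 : 0 < k := Nat.card_pos
  let e0 : Γ ≃ Fin k := Finite.equivFin Γ
  let e : Γ ≃ Fin k := e0.trans (Equiv.swap (e0 1) ⟨0, hk0⟩)
  let F : ℕ → ℕ → ℕ := fun x y => if h : x < k ∧ y < k then
    ((e (e.symm ⟨x, h.1⟩ * e.symm ⟨y, h.2⟩) : Fin k) : ℕ) else 0
  let I : ℕ → ℕ := fun x => if h : x < k then ((e (e.symm ⟨x, h⟩)⁻¹ : Fin k) : ℕ) else 0
  let c : Tab := (k, (List.range (k * k)).map (fun i => F (i / k) (i % k)),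
    (List.range k).map I)
  refine ⟨c, e, ?_, ?_, ?_⟩
  · show ((e 1 : Fin k) : ℕ) = 0
    simp [e]
  · intro a b
    show ((e (a * b) : Fin k) : ℕ) = tm c ((e a : Fin k) : ℕ) ((e b : Fin k) : ℕ)
    have ha : ((e a : Fin k) : ℕ) < k := (e a).2
    have hb : ((e b : Fin k) : ℕ) < k := (e b).2
    have h1 : ((e a : Fin k) : ℕ) * k + ((e b : Fin k) : ℕ) < k * k := by nlinarith
    have h2 : tm c ((e a : Fin k) : ℕ) ((e b : Fin k) : ℕ) =
        F ((e a : Fin k) : ℕ) ((e b : Fin k) : ℕ) := by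
      unfold tm
      show ((List.range (k * k)).map (fun i => F (i / k) (i % k))).getD
        (((e a : Fin k) : ℕ) * k + ((e b : Fin k) : ℕ)) 0 = _
      rw [List.getD_eq_getElem?_getD, List.getElem?_map, List.getElem?_range h1]
      simp only [Option.map_some, Option.getD_some]
      have h3 : (((e a : Fin k) : ℕ) * k + ((e b : Fin k) : ℕ)) / k = ((e a : Fin k) : ℕ) := by
        rw [mul_comm, Nat.mul_add_div hk0, Nat.div_eq_of_lt hb, add_zero]
      have h4 : (((e a : Fin k) : ℕ) * k + ((e b : Fin k) : ℕ)) % k = ((e b : Fin k) : ℕ) := by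
        rw [mul_comm, Nat.mul_add_mod, Nat.mod_eq_of_lt hb]
      rw [h3, h4]
    rw [h2]
    simp [F, ha, hb]
  · intro a
    show ((e a⁻¹ : Fin k) : ℕ) = ti c ((e a : Fin k) : ℕ)
    have ha : ((e a : Fin k) : ℕ) < k := (e a).2
    have h2 : ti c ((e a : Fin k) : ℕ) = I ((e a : Fin k) : ℕ) := by
      unfold ti
      show ((List.range k).map I).getD ((e a : Fin k) : ℕ) 0 = _
      rw [List.getD_eq_getElem?_getD, List.getElem?_map, List.getElem?_range ha]
      simp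
    rw [h2]
    simp [I, ha]

theorem good_of_desc {c : Tab} {Γ : Type} [Group Γ] {e : Γ ≃ Fin c.1} (h : Desc c Γ e)
    (hΓ : derivedSeries Γ 2 = ⊥) : Good c := by
  have hcm : ∀ a b : Γ, ((e ⁅a, b⁆ : Fin c.1) : ℕ) = cm c (e a) (e b) := by
    intro a b
    have h1 : ⁅a, b⁆ = (a * b) * (a⁻¹ * b⁻¹) := by
      rw [commutatorElement_def]
      group
    rw [h1, h.mul, h.mul, h.mul, h.inv, h.inv]
    rfl
  have hlt : ∀ x, x < c.1 → ∃ a : Γ, x = (e a : Fin c.1) := fun x hx =>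
    ⟨e.symm ⟨x, hx⟩, by simp⟩
  refine ⟨(Nat.zero_le _).trans_lt (e 1).2, fun x hx => ?_⟩
  obtain ⟨a, rfl⟩ := hlt x hx
  refine ⟨⟨?_, ?_, ?_⟩, fun y hy => ?_⟩
  · rw [← h.one, ← h.mul, one_mul]
  · rw [← h.inv]
    exact (e _).2
  · rw [← h.inv, ← h.mul, inv_mul_cancel, h.one]
  obtain ⟨b, rfl⟩ := hlt y hy
  refine ⟨?_, fun z hz => ?_⟩
  · rw [← h.mul]
    exact (e _).2
  obtain ⟨d, rfl⟩ := hlt z hz
  refine ⟨?_, fun w hw => ?_⟩
  · rw [← h.mul, ← h.mul, ← h.mul, ← h.mul, mul_assoc]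
  obtain ⟨f, rfl⟩ := hlt w hw
  rw [← hcm, ← hcm, ← h.mul, ← h.mul, metab_iff.1 hΓ]

theorem desc_of_good {c : Tab} (hc : Good c) :
    ∃ (g : Group (Fin c.1)), derivedSeries (Fin c.1) 2 = ⊥ ∧
      Desc c (Fin c.1) (Equiv.refl _) := by
  obtain ⟨h0, h1⟩ := hc
  let mo : Fin c.1 → Fin c.1 → Fin c.1 := fun x y => ⟨tm c x y, ((h1 x x.2).2 y y.2).1⟩
  let io : Fin c.1 → Fin c.1 := fun x => ⟨ti c x, (h1 x x.2).1.2.1⟩
  let _ : Mul (Fin c.1) := ⟨mo⟩
  let _ : One (Fin c.1) := ⟨⟨0, h0⟩⟩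
  let _ : Inv (Fin c.1) := ⟨io⟩
  letI g : Group (Fin c.1) := Group.ofLeftAxioms
    (fun x y z => Fin.ext ((((h1 x x.2).2 y y.2).2 z z.2).1))
    (fun x => Fin.ext (h1 x x.2).1.1)
    (fun x => Fin.ext (h1 x x.2).1.2.2)
  have hmul : ∀ a b : Fin c.1, ((a * b : Fin c.1) : ℕ) = tm c a b := fun a b => rfl
  have hinv : ∀ a : Fin c.1, ((a⁻¹ : Fin c.1) : ℕ) = ti c a := fun a => rfl
  have hcm : ∀ a b : Fin c.1, ((⁅a, b⁆ : Fin c.1) : ℕ) = cm c a b := by
    intro a b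
    have h2 : ⁅a, b⁆ = (a * b) * (a⁻¹ * b⁻¹) := by
      rw [commutatorElement_def]
      group
    rw [h2, hmul, hmul, hmul, hinv, hinv]
    rfl
  refine ⟨g, ?_, ⟨rfl, fun a b => rfl, fun a => rfl⟩⟩
  rw [metab_iff]
  intro a b d f
  apply Fin.ext
  rw [hmul, hmul, hcm, hcm]
  exact (((h1 a a.2).2 b b.2).2 d d.2).2 f f.2

theorem sep_iff (z : Pres × Pres) :
    Sep z.1 z.2 ↔ ∃ c : Tab, Good c ∧ ¬ count c z.1 = count c z.2 := by
  constructor
  · rintro ⟨Γ, hG, hF, hΓ, hne⟩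
    obtain ⟨c, e, h⟩ := exists_desc Γ
    refine ⟨c, good_of_desc h hΓ, ?_⟩
    rw [count_eq h hΓ, count_eq h hΓ]
    exact hne
  · rintro ⟨c, hc, hne⟩
    obtain ⟨g, hΓ, h⟩ := desc_of_good hc
    refine ⟨Fin c.1, g, inferInstance, hΓ, ?_⟩
    rw [← count_eq h hΓ, ← count_eq h hΓ]
    exact hne

end C3bAux

open C3bAux Pool.Agent.LibHelper36.SJT

/-- C3b. `Sep` is r.e. -/
theorem sep_re : REPred (fun z : Pres × Pres => Sep z.1 z.2) := by
  classical
  have h1 : REPred fun v : (Pres × Pres) × Tab =>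
      Good v.2 ∧ ¬ count v.2 v.1.1 = count v.2 v.1.2 := by
    obtain ⟨hd, hp⟩ := dec_pr
    exact re_of_comp hp.to_comp (fun a => by simp)
  have h2 := re_ex h1
  exact h2.of_eq fun z => (sep_iff z).symm

end Pool.Agent.MIso
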