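import Pool.Agent.MIso.Defs

set_option autoImplicit false

namespace Pool.Agent.MIso

/-- C4. Merging. -/
theorem merge_re {α : Type} [Primcodable α] {p q : α → Prop} (hp : REPred p) (hq : REPred q)
    (h : ∀ a, ¬ (p a ∧ q a)) :
    ∃ f : α →. Bool, Partrec f ∧ (∀ a, true ∈ f a ↔ p a) ∧ (∀ a, false ∈ f a ↔ q a) := by
  obtain ⟨k, pk, hk⟩ :=
    Partrec.merge (hp.map (Computable.const true).to₂) (hq.map (Computable.const false).to₂)
      (by
        intro a x hx y hy
        simp only [Part.mem_map_iff, Part.mem_assert_iff, Part.mem_some_iff] at hx hy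
        obtain ⟨_, ⟨h1, _⟩, _⟩ := hx
        obtain ⟨_, ⟨h2, _⟩, _⟩ := hy
        exact absurd ⟨h1, h2⟩ (h a))
  refine ⟨k, pk, fun a => ?_, fun a => ?_⟩
  · rw [hk]
    simp
  · rw [hk]
    simp

end Pool.Agent.MIso
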