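import Mathlib

set_option autoImplicit false

/-!
# Definitions for `MP_760942_al.GenericIsomorphism`
-/

namespace Pool.Agent.MIso

/-- A word: `(i, true)` is the generator `x_i`, `(i, false)` its inverse. -/
abbrev Word := List (ℕ × Bool)

/-- A finite metabelian presentation `(n; r_1, ..., r_m)`. -/
abbrev Pres := ℕ × List Word

/-- The element of the free group of rank `n` given by a word (letters `x_i` with `i ≥ n` are
read as `1`, as in the frozen statements of the problem). -/
def wordIn (n : ℕ) (w : Word) : FreeGroup (Fin n) :=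
  FreeGroup.lift
    (fun i : ℕ => if h : i < n then FreeGroup.of (⟨i, h⟩ : Fin n) else 1) (FreeGroup.mk w)

/-- The relators of the metabelian group of a presentation: its relator words and the second
derived subgroup of the free group. -/
def relset (P : Pres) : Set (FreeGroup (Fin P.1)) :=
  {r | ∃ w ∈ P.2, r = wordIn P.1 w} ∪
    (derivedSeries (FreeGroup (Fin P.1)) 2 : Set (FreeGroup (Fin P.1)))

/-- The metabelian group given by a finite metabelian presentation. -/
def Met (P : Pres) : Type := PresentedGroup (relset P)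

instance (P : Pres) : Group (Met P) := inferInstanceAs (Group (PresentedGroup (relset P)))

/-- The generators of `Met P`. -/
def gen (P : Pres) (i : Fin P.1) : Met P := PresentedGroup.of (rels := relset P) i

/-- Some finite metabelian group receives different numbers of homomorphisms from `Met P` and
from `Met P'`. -/
def Sep (P P' : Pres) : Prop :=
  ∃ (Γ : Type) (_ : Group Γ) (_ : Finite Γ), derivedSeries Γ 2 = ⊥ ∧
    Nat.card (Met P →* Γ) ≠ Nat.card (Met P' →* Γ)

/-- Words of length at most `l` in `n` generators and their inverses. -/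
def Words (n l : ℕ) : Type := {w : List (Fin n × Bool) // w.length ≤ l}

/-- The presentation with `n` generators and the relators `r 0, ..., r (m-1)`. -/
def pres {n m l : ℕ} (r : Fin m → Words n l) : Pres :=
  (n, List.ofFn fun j => (r j).1.map fun a => ((a.1 : ℕ), a.2))

/-- Evaluation of a word at a tuple of elements of a group. -/
def ev {n : ℕ} {Γ : Type*} [Group Γ] (g : Fin n → Γ) (w : List (Fin n × Bool)) : Γ :=
  (w.map fun a => cond a.2 (g a.1) (g a.1)⁻¹).prod

/-- The tuple of exponent sums of a word. -/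
def expo {n : ℕ} (w : List (Fin n × Bool)) (i : Fin n) : ℤ :=
  (w.map fun a => if a.1 = i then cond a.2 1 (-1) else (0 : ℤ)).sum

/-- The affine group over `ℤ/q`: the map `x ↦ c x + v`. -/
@[ext] structure Aff (q : ℕ) where
  v : ZMod q
  c : (ZMod q)ˣ

namespace Aff
variable {q : ℕ}
instance : Mul (Aff q) := ⟨fun a b => ⟨a.v + a.c * b.v, a.c * b.c⟩⟩
instance : One (Aff q) := ⟨⟨0, 1⟩⟩
instance : Inv (Aff q) := ⟨fun a => ⟨-((a.c⁻¹ : (ZMod q)ˣ) * a.v), a.c⁻¹⟩⟩
@[simp] theorem mul_v (a b : Aff q) : (a * b).v = a.v + a.c * b.v := rfl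
@[simp] theorem mul_c (a b : Aff q) : (a * b).c = a.c * b.c := rfl
@[simp] theorem one_v : (1 : Aff q).v = 0 := rfl
@[simp] theorem one_c : (1 : Aff q).c = 1 := rfl
@[simp] theorem inv_v (a : Aff q) : (a⁻¹).v = -((a.c⁻¹ : (ZMod q)ˣ) * a.v) := rfl
@[simp] theorem inv_c (a : Aff q) : (a⁻¹).c = a.c⁻¹ := rfl

instance : Group (Aff q) :=
  Group.ofLeftAxioms
    (fun a b c => by ext <;> simp <;> ring)
    (fun a => by ext <;> simp)
    (fun a => by ext <;> simp)

end Aff

/-- `(ℤ/q)^n ⋊ (ℤ/q)ˣ`: the pairs (vector `v`, unit `c`) with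
`(v,c)(v',c') = (v + c v', c c')`. -/
@[ext] structure AffN (q n : ℕ) where
  v : Fin n → ZMod q
  c : (ZMod q)ˣ

namespace AffN
variable {q n : ℕ}
instance : Mul (AffN q n) := ⟨fun a b => ⟨fun i => a.v i + a.c * b.v i, a.c * b.c⟩⟩
instance : One (AffN q n) := ⟨⟨fun _ => 0, 1⟩⟩
instance : Inv (AffN q n) := ⟨fun a => ⟨fun i => -((a.c⁻¹ : (ZMod q)ˣ) * a.v i), a.c⁻¹⟩⟩
@[simp] theorem mul_v (a b : AffN q n) (i : Fin n) : (a * b).v i = a.v i + a.c * b.v i := rfl
@[simp] theorem mul_c (a b : AffN q n) : (a * b).c = a.c * b.c := rfl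
@[simp] theorem one_v (i : Fin n) : (1 : AffN q n).v i = 0 := rfl
@[simp] theorem one_c : (1 : AffN q n).c = 1 := rfl
@[simp] theorem inv_v (a : AffN q n) (i : Fin n) :
    (a⁻¹).v i = -((a.c⁻¹ : (ZMod q)ˣ) * a.v i) := rfl
@[simp] theorem inv_c (a : AffN q n) : (a⁻¹).c = a.c⁻¹ := rfl

instance : Group (AffN q n) :=
  Group.ofLeftAxioms
    (fun a b c => by ext <;> simp <;> ring)
    (fun a => by ext <;> simp)
    (fun a => by ext <;> simp)

end AffN

/-- The image of the generator `x_i` in `AffN q n` at the character `χ`: `(e_i, χ_i)`.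
The image of a word is (Fox derivatives at `χ`, value of `χ`). -/
def foxGen {q n : ℕ} (χ : Fin n → (ZMod q)ˣ) (i : Fin n) : AffN q n := ⟨Pi.single i 1, χ i⟩

/-- The element of `Met P` given by a word. -/
def el (P : Pres) (w : Word) : Met P := PresentedGroup.mk (relset P) (wordIn P.1 w)

instance (n l : ℕ) : Finite (Words n l) := by
  have h : Set.Finite {w : List (Fin n × Bool) | w.length ≤ l} := List.finite_length_le _ _
  exact h.to_subtype

instance (n l : ℕ) : Nonempty (Words n l) := ⟨⟨[], by simp⟩⟩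

instance {q : ℕ} [NeZero q] : Finite (Aff q) :=
  Finite.of_injective (fun a : Aff q => (a.v, a.c)) (by
    rintro ⟨a, b⟩ ⟨c, d⟩ h; simp only [Prod.mk.injEq] at h; ext1 <;> simp [h.1, h.2])

instance {q n : ℕ} [NeZero q] : Finite (AffN q n) :=
  Finite.of_injective (fun a : AffN q n => (a.v, a.c)) (by
    rintro ⟨a, b⟩ ⟨c, d⟩ h; simp only [Prod.mk.injEq] at h; ext1 <;> simp [h.1, h.2])

/-- Index set of the ambient group: a prime `q i` and a character `(F_{q i}ˣ)^n`. -/
abbrev Idx {k : ℕ} (q : Fin k → ℕ) (n : ℕ) : Type := Σ i : Fin k, (Fin n → (ZMod (q i))ˣ)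

/-- The ambient group `∏_{i, χ} AffN (q i) n`. -/
abbrev Amb {k : ℕ} (q : Fin k → ℕ) (n : ℕ) : Type := ∀ z : Idx q n, AffN (q z.1) n

/-- The image of the generator `x_t` in the ambient group. -/
def ambGen {k : ℕ} (q : Fin k → ℕ) (n : ℕ) (t : Fin n) : Amb q n := fun z => foxGen z.2 t

/-- The group of values of words in the ambient group. -/
def WA {k : ℕ} (q : Fin k → ℕ) (n : ℕ) : Subgroup (Amb q n) :=
  Subgroup.closure (Set.range (ambGen q n))

/-- Number of pairs (character, vector) solving the relations given by `h` (one element of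
`AffN q n` for each character and each relator). -/
noncomputable def cnt (q n m : ℕ) (h : (Fin n → (ZMod q)ˣ) → Fin m → AffN q n) : ℕ :=
  Nat.card {z : (Fin n → (ZMod q)ˣ) × (Fin n → ZMod q) //
    ∀ j, (h z.1 j).c = 1 ∧ ∑ i, (h z.1 j).v i * z.2 i = 0}

/-- The translations used in the conditioning argument. -/
def EE (q n m : ℕ) : Set ((Fin n → (ZMod q)ˣ) → Fin m → (Fin n → ZMod q)) :=
  {e | ∀ χ j, ∑ i, e χ j i * ((χ i : ZMod q) - 1) = 0 ∧ (χ = 1 → e χ j = 0)}

end Pool.Agent.MIso
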