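import Pool.Agent.MIso.H2c

set_option autoImplicit false

/-! Block E1 of `MP_760942_al.GenericIsomorphism`: the number of solutions of a random square
system over `ℤ/q`. -/

namespace Pool.Agent.MIso

namespace E1

theorem weier {ι : Type*} (S : Finset ι) (a : ι → ℝ) (h0 : ∀ i ∈ S, 0 ≤ a i)
    (h1 : ∀ i ∈ S, a i ≤ 1) :
    1 - ∑ i ∈ S, a i ≤ ∏ i ∈ S, (1 - a i) ∧ 0 ≤ ∏ i ∈ S, (1 - a i) ∧ ∏ i ∈ S, (1 - a i) ≤ 1 := by
  classical
  induction S using Finset.induction_on with
  | empty => simp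
  | insert x S hx ih =>
    obtain ⟨e1, e2, e3⟩ := ih (fun i hi => h0 i (Finset.mem_insert_of_mem hi))
      (fun i hi => h1 i (Finset.mem_insert_of_mem hi))
    have f0 := h0 x (Finset.mem_insert_self x S)
    have f1 := h1 x (Finset.mem_insert_self x S)
    rw [Finset.sum_insert hx, Finset.prod_insert hx]
    refine ⟨?_, mul_nonneg (by linarith) e2, ?_⟩
    · nlinarith
    · nlinarith

theorem bounds (q n : ℕ) (hq : 3 ≤ q) (hn : 1 ≤ n) :
    (∏ i : Fin n, (1 - (q : ℝ) ^ (i : ℕ) / (q : ℝ) ^ n)) ≤ 1 - 1 / (q : ℝ) ∧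
    1 - (∏ i : Fin n, (1 - (q : ℝ) ^ (i : ℕ) / (q : ℝ) ^ n)) ≤ 1 - 1 / (q : ℝ) := by
  have hq3 : (3 : ℝ) ≤ q := by exact_mod_cast hq
  have hq0 : (0 : ℝ) < q := by linarith
  have hqn : (0 : ℝ) < (q : ℝ) ^ n := pow_pos hq0 n
  rw [Fin.prod_univ_eq_prod_range fun i : ℕ => 1 - (q : ℝ) ^ i / (q : ℝ) ^ n]
  have g0 : ∀ i ∈ Finset.range n, 0 ≤ (q : ℝ) ^ i / (q : ℝ) ^ n := fun i _ => by positivity
  have g1 : ∀ i ∈ Finset.range n, (q : ℝ) ^ i / (q : ℝ) ^ n ≤ 1 := fun i hi => by
    rw [div_le_one hqn]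
    exact pow_le_pow_right₀ (by linarith) (Finset.mem_range.mp hi).le
  obtain ⟨w1, w2, w3⟩ := weier (Finset.range n) (fun i => (q : ℝ) ^ i / (q : ℝ) ^ n) g0 g1
  constructor
  · obtain ⟨k, rfl⟩ : ∃ k, n = k + 1 := ⟨n - 1, by omega⟩
    obtain ⟨v1, v2, v3⟩ := weier (Finset.range k) (fun i => (q : ℝ) ^ i / (q : ℝ) ^ (k + 1))
      (fun i hi => g0 i (Finset.mem_range.mpr ((Finset.mem_range.mp hi).trans (by omega))))
      (fun i hi => g1 i (Finset.mem_range.mpr ((Finset.mem_range.mp hi).trans (by omega))))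
    rw [Finset.prod_range_succ]
    have e1 : (q : ℝ) ^ k / (q : ℝ) ^ (k + 1) = 1 / q := by
      rw [pow_succ]
      field_simp
    rw [e1]
    have e2 : (1 : ℝ) / q ≤ 1 := by
      rw [div_le_one hq0]
      linarith
    calc _ ≤ 1 * (1 - 1 / (q : ℝ)) := mul_le_mul_of_nonneg_right v3 (by linarith)
      _ = _ := one_mul _
  · have e1 : ∑ i ∈ Finset.range n, (q : ℝ) ^ i / (q : ℝ) ^ n ≤ 1 / ((q : ℝ) - 1) := by
      rw [← Finset.sum_div, geom_sum_eq (by linarith), div_div, div_le_div_iff₀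
        (mul_pos (by linarith) hqn) (by linarith)]
      nlinarith
    have e2 : 1 / ((q : ℝ) - 1) ≤ 1 - 1 / (q : ℝ) := by
      have : (1 : ℝ) - 1 / q = ((q : ℝ) - 1) / q := by
        field_simp
      rw [this, div_le_div_iff₀ (by linarith) hq0]
      nlinarith
    linarith

end E1

open E1 H2c Module in
/-- E1. One prime: no value of the number of solutions has a share above `1 - 1/q`. -/
theorem mat_atoms (q n : ℕ) [Fact q.Prime] (hq : 3 ≤ q) (hn : 1 ≤ n) (s : ℕ) :
    (Nat.card {V : Fin n → Fin n → ZMod q //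
        Nat.card {b : Fin n → ZMod q // ∀ j, ∑ t, V j t * b t = 0} = s} : ℝ)
      ≤ (1 - 1 / (q : ℝ)) * Nat.card (Fin n → Fin n → ZMod q) := by
  have hp := (Fact.out : q.Prime)
  obtain ⟨b1, b2⟩ := bounds q n hq hn
  set Θ := ∏ i : Fin n, (1 - (q : ℝ) ^ (i : ℕ) / (q : ℝ) ^ n) with hΘ
  have hq0 : (q : ℝ) ^ n ≠ 0 := pow_ne_zero _ (by exact_mod_cast hp.ne_zero)
  have e1 : (Nat.card {V : Fin n → Fin n → ZMod q // LinearIndependent (ZMod q) V} : ℝ) =
      Θ * Nat.card (Fin n → Fin n → ZMod q) := by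
    rw [card_linearIndependent (by rw [finrank_fin_fun]), finrank_fin_fun, ZMod.card,
      Nat.card_fun, Nat.card_fun, Nat.card_zmod, Nat.card_fin]
    push_cast
    have e4 : ((q : ℝ) ^ n) ^ n = ∏ _i : Fin n, (q : ℝ) ^ n := by
      rw [Finset.prod_const, Finset.card_univ, Fintype.card_fin]
    rw [hΘ, e4, ← Finset.prod_mul_distrib]
    refine Finset.prod_congr rfl fun i _ => ?_
    rw [Nat.cast_sub (Nat.pow_le_pow_right hp.pos i.2.le)]
    push_cast
    field_simp
  have e2 : (Nat.card {V : Fin n → Fin n → ZMod q // LinearIndependent (ZMod q) V} : ℝ) +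
      Nat.card {V : Fin n → Fin n → ZMod q // ¬ LinearIndependent (ZMod q) V} =
      Nat.card (Fin n → Fin n → ZMod q) := by
    classical
    rw [← Nat.cast_add, ← Nat.card_sum]
    exact congrArg _ (Nat.card_congr
      (Equiv.sumCompl fun V : Fin n → Fin n → ZMod q => LinearIndependent (ZMod q) V))
  have hT : (0 : ℝ) ≤ Nat.card (Fin n → Fin n → ZMod q) := Nat.cast_nonneg _
  have e3 : ∀ V : Fin n → Fin n → ZMod q, LinearIndependent (ZMod q) V ↔
      Nat.card {b : Fin n → ZMod q // ∀ j, ∑ t, V j t * b t = 0} = 1 := by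
    intro V
    have h1 := rank_le V
    rw [card_ker, ← rank_eq_iff]
    constructor
    · intro h
      rw [h, Nat.sub_self, pow_zero]
    · intro h
      have h2 : n - (Matrix.of V).rank = 0 :=
        Nat.pow_right_injective hp.two_le (h.trans (pow_zero q).symm)
      omega
  by_cases hs : s = 1
  · subst hs
    rw [show Nat.card {V : Fin n → Fin n → ZMod q //
        Nat.card {b : Fin n → ZMod q // ∀ j, ∑ t, V j t * b t = 0} = 1} =
        Nat.card {V : Fin n → Fin n → ZMod q // LinearIndependent (ZMod q) V} from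
        Nat.card_congr (Equiv.subtypeEquivRight fun V => (e3 V).symm), e1]
    exact mul_le_mul_of_nonneg_right b1 hT
  · have h4 : Nat.card {V : Fin n → Fin n → ZMod q //
        Nat.card {b : Fin n → ZMod q // ∀ j, ∑ t, V j t * b t = 0} = s} ≤
        Nat.card {V : Fin n → Fin n → ZMod q // ¬ LinearIndependent (ZMod q) V} := by
      refine Nat.card_le_card_of_injective
        (Subtype.map id fun V hV hl => hs (hV.symm.trans ((e3 V).mp hl))) ?_
      exact Subtype.map_injective _ Function.injective_id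
    have h5 : (Nat.card {V : Fin n → Fin n → ZMod q //
        Nat.card {b : Fin n → ZMod q // ∀ j, ∑ t, V j t * b t = 0} = s} : ℝ) ≤
        Nat.card {V : Fin n → Fin n → ZMod q // ¬ LinearIndependent (ZMod q) V} := by
      exact_mod_cast h4
    nlinarith [mul_le_mul_of_nonneg_right b2 hT]

end Pool.Agent.MIso
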