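import Pool.Agent.MIso.Defs

set_option autoImplicit false

namespace Pool.Agent.MIso

open Finset

/-- E2. Finitely many odd primes with a small product. -/
theorem primes_prod (η : ℝ) (hη : 0 < η) :
    ∃ (k : ℕ) (q : Fin k → ℕ), Function.Injective q ∧ (∀ i, (q i).Prime ∧ 3 ≤ q i) ∧
      ∏ i, (1 - 1 / (q i : ℝ)) ≤ η := by
  classical
  have h0 : ∀ n : ℕ, 0 ≤ Set.indicator {p : ℕ | p.Prime} (fun n : ℕ => (1 : ℝ) / n) n := by
    intro n
    apply Set.indicator_nonneg
    intro x _
    positivity
  have h1 := (not_summable_iff_tendsto_nat_atTop_of_nonneg h0).1 not_summable_one_div_on_primes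
  obtain ⟨n, hn⟩ := (h1.eventually_ge_atTop (1 - Real.log η)).exists
  set S : Finset ℕ := (range n).filter (fun p => p.Prime ∧ 3 ≤ p) with hS
  have h2 : -Real.log η ≤ ∑ p ∈ S, (1 : ℝ) / p := by
    have h3 : ∑ i ∈ range n, Set.indicator {p : ℕ | p.Prime} (fun n : ℕ => (1 : ℝ) / n) i ≤
        ∑ p ∈ S, (1 : ℝ) / p + 1 := by
      have h4 : ∀ i ∈ range n, Set.indicator {p : ℕ | p.Prime} (fun n : ℕ => (1 : ℝ) / n) i ≤
          (if i.Prime ∧ 3 ≤ i then (1 : ℝ) / i else 0) + (if i = 2 then 1 else 0) := by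
        intro i _
        by_cases hi : i.Prime
        · rw [Set.indicator_of_mem (show i ∈ {p : ℕ | p.Prime} from hi)]
          rcases lt_or_ge i 3 with h5 | h5
          · have : i = 2 := by have := hi.two_le; omega
            subst this
            norm_num
          · rw [if_pos ⟨hi, h5⟩, if_neg (by omega)]
            simp
        · rw [Set.indicator_of_notMem (show i ∉ {p : ℕ | p.Prime} from hi)]
          positivity
      refine (sum_le_sum h4).trans ?_
      rw [sum_add_distrib, hS, sum_filter]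
      gcongr
      rw [sum_ite_eq']
      split_ifs <;> norm_num
    linarith
  refine ⟨S.card, fun i => (S.equivFin.symm i : ℕ), ?_, ?_, ?_⟩
  · intro a b hab
    exact S.equivFin.symm.injective (Subtype.ext hab)
  · intro i
    have h5 : ∀ x ∈ S, x.Prime ∧ 3 ≤ x := by
      intro x hx
      rw [hS, mem_filter] at hx
      exact hx.2
    exact h5 _ (S.equivFin.symm i).2
  · have e1 : ∏ i : Fin S.card, (1 - 1 / ((S.equivFin.symm i : ℕ) : ℝ)) =
        ∏ p ∈ S, (1 - 1 / (p : ℝ)) := by
      rw [← prod_coe_sort S (fun p : ℕ => (1 - 1 / (p : ℝ)))]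
      exact Equiv.prod_comp S.equivFin.symm (fun x : S => (1 - 1 / ((x : ℕ) : ℝ)))
    rw [e1]
    calc ∏ p ∈ S, (1 - 1 / (p : ℝ)) ≤ ∏ p ∈ S, Real.exp (-(1 / (p : ℝ))) := by
          apply prod_le_prod
          · intro p hp
            rw [hS, mem_filter] at hp
            have h3 : (1 : ℝ) ≤ p := by exact_mod_cast (by omega : 1 ≤ p)
            have : 1 / (p : ℝ) ≤ 1 := by rw [div_le_one (by linarith)]; exact h3
            linarith
          · intro p _
            have := Real.add_one_le_exp (-(1 / (p : ℝ)))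
            linarith
      _ = Real.exp (-∑ p ∈ S, (1 : ℝ) / p) := by
          rw [← Real.exp_sum, sum_neg_distrib]
      _ ≤ Real.exp (Real.log η) := Real.exp_le_exp.2 (by linarith)
      _ = η := Real.exp_log hη

end Pool.Agent.MIso
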