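import Pool.Agent.MIso.Defs

set_option autoImplicit false

/-!
Block E3: the unit vectors generate `∏ (ℤ/q i)^n` (Chinese remainder theorem).
-/

namespace Pool.Agent.MIso

namespace E3aux

theorem crt {k : ℕ} (q : Fin k → ℕ) (hp : ∀ i, (q i).Prime) (hq : Function.Injective q)
    (a : ∀ i : Fin k, ZMod (q i)) : ∃ N : ℕ, ∀ i, (N : ZMod (q i)) = a i := by
  have hco : Pairwise fun i j => Nat.Coprime (q i) (q j) := by
    intro i j hij
    exact (Nat.coprime_primes (hp i) (hp j)).mpr (fun h => hij (hq h))
  have hne : NeZero (∏ i, q i) := ⟨Finset.prod_ne_zero_iff.mpr fun i _ => (hp i).ne_zero⟩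
  let e := ZMod.prodEquivPi q hco
  refine ⟨(e.symm a).val, fun i => ?_⟩
  have h1 : ((e.symm a).val : ZMod (∏ i, q i)) = e.symm a := ZMod.natCast_zmod_val _
  have h2 : e ((e.symm a).val : ZMod (∏ i, q i)) = a := by rw [h1, RingEquiv.apply_symm_apply]
  rw [map_natCast] at h2
  have h3 := congrFun h2 i
  simpa using h3

end E3aux

/-- E3. The unit vectors generate `∏ (ℤ/q i)^n`. -/
theorem gen_prod {k : ℕ} (q : Fin k → ℕ) (hp : ∀ i, (q i).Prime) (hq : Function.Injective q)
    (n : ℕ) :
    Subgroup.closure (Set.range fun t : Fin n =>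
      (Multiplicative.ofAdd (fun (i : Fin k) => (Pi.single t 1 : Fin n → ZMod (q i))) :
        Multiplicative (∀ i : Fin k, Fin n → ZMod (q i)))) = ⊤ := by
  classical
  rw [eq_top_iff]
  intro x _
  set C := Subgroup.closure (Set.range fun t : Fin n =>
      (Multiplicative.ofAdd (fun (i : Fin k) => (Pi.single t 1 : Fin n → ZMod (q i))) :
        Multiplicative (∀ i : Fin k, Fin n → ZMod (q i)))) with hC
  have h : ∀ t : Fin n, ∃ N : ℕ, ∀ i, (N : ZMod (q i)) = (Multiplicative.toAdd x) i t :=
    fun t => E3aux.crt q hp hq fun i => (Multiplicative.toAdd x) i t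
  choose N hN using h
  have hx : x = ∏ t : Fin n,
      (Multiplicative.ofAdd (fun (i : Fin k) => (Pi.single t 1 : Fin n → ZMod (q i))) :
        Multiplicative (∀ i : Fin k, Fin n → ZMod (q i))) ^ N t := by
    apply Multiplicative.toAdd.injective
    rw [toAdd_prod]
    funext i s
    rw [Finset.sum_apply, Finset.sum_apply]
    have : ∀ t : Fin n, (Multiplicative.toAdd
        ((Multiplicative.ofAdd (fun (i : Fin k) => (Pi.single t 1 : Fin n → ZMod (q i))) :
          Multiplicative (∀ i : Fin k, Fin n → ZMod (q i))) ^ N t)) i s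
        = if s = t then (Multiplicative.toAdd x) i t else 0 := by
      intro t
      rw [toAdd_pow, toAdd_ofAdd, Pi.smul_apply, Pi.smul_apply, nsmul_eq_mul, hN t i]
      by_cases hst : s = t
      · subst hst
        simp
      · simp [hst]
    rw [Finset.sum_congr rfl fun t _ => this t]
    simp
  rw [hx]
  apply Subgroup.prod_mem
  intro t _
  apply Subgroup.pow_mem
  exact Subgroup.subset_closure ⟨t, rfl⟩

end Pool.Agent.MIso
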