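import Pool.Agent.MIso.C3a

set_option autoImplicit false

namespace Pool.Agent.MIso

namespace E4

/-- A word evaluated through the free group on `ℕ`, with letters read in a group. -/
theorem lift_mk_map {n : ℕ} {Γ : Type*} [Group Γ] (g : Fin n → Γ) (w : List (Fin n × Bool)) :
    FreeGroup.lift (fun i : ℕ => if h : i < n then g ⟨i, h⟩ else 1)
      (FreeGroup.mk (w.map fun a => ((a.1 : ℕ), a.2))) = ev g w := by
  rw [FreeGroup.lift_mk, List.map_map]
  unfold ev
  congr 1
  apply List.map_congr_left
  intro a _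
  simp

theorem ev_ofAdd {n : ℕ} {A : Type*} [AddCommGroup A] (b : Fin n → A) (w : List (Fin n × Bool)) :
    ev (fun t => Multiplicative.ofAdd (b t)) w = Multiplicative.ofAdd (∑ t, expo w t • b t) := by
  induction w with
  | nil => simp [ev, expo]
  | cons a w ih =>
    have h1 : ev (fun t => Multiplicative.ofAdd (b t)) (a :: w) =
        cond a.2 (Multiplicative.ofAdd (b a.1)) (Multiplicative.ofAdd (b a.1))⁻¹ *
          ev (fun t => Multiplicative.ofAdd (b t)) w := by
      simp [ev]
    have h2 : ∀ t, expo (a :: w) t = (if a.1 = t then cond a.2 1 (-1) else 0) + expo w t := by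
      intro t; simp [expo]
    rw [h1, ih]
    simp only [h2, add_smul, Finset.sum_add_distrib, ite_smul, zero_smul, Finset.sum_ite_eq,
      Finset.mem_univ, if_true]
    rcases a with ⟨i, ε⟩
    cases ε <;> simp [ofAdd_add, ofAdd_neg]

theorem derived_comm (Γ : Type*) [CommGroup Γ] : derivedSeries Γ 2 = ⊥ := by
  rw [show (2 : ℕ) = 1 + 1 from rfl, derivedSeries_succ, eq_bot_iff, Subgroup.commutator_le]
  intro a _ b _
  rw [Subgroup.mem_bot, commutatorElement_eq_one_iff_mul_comm]
  exact mul_comm a b

end E4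

/-- E4. Homomorphisms to `ℤ/q` (uses C3a). -/
theorem card_hom_zmod {n m l : ℕ} (q : ℕ) [NeZero q] (r : Fin m → Words n l) :
    Nat.card (Met (pres r) →* Multiplicative (ZMod q)) =
      Nat.card {b : Fin n → ZMod q // ∀ j, ∑ t, (expo (r j).1 t : ZMod q) * b t = 0} := by
  rw [card_hom (pres r) (Multiplicative (ZMod q)) (E4.derived_comm _)]
  refine Nat.card_congr (Equiv.subtypeEquiv
    (Equiv.arrowCongr (Equiv.refl (Fin n)) (Multiplicative.toAdd (α := ZMod q))) ?_)
  intro g
  have key : ∀ j, FreeGroup.lift (fun i : ℕ => if h : i < n then g ⟨i, h⟩ else 1)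
      (FreeGroup.mk ((r j).1.map fun a => ((a.1 : ℕ), a.2))) =
      Multiplicative.ofAdd (∑ t, (expo (r j).1 t : ZMod q) * (Multiplicative.toAdd (g t))) := by
    intro j
    refine (E4.lift_mk_map (n := n) g (r j).1).trans ?_
    have := E4.ev_ofAdd (fun t : Fin n => Multiplicative.toAdd (g t)) (r j).1
    simp only [ofAdd_toAdd, zsmul_eq_mul] at this
    exact this
  constructor
  · intro h j
    have h1 := h _ ((List.mem_ofFn' _ _).mpr ⟨j, rfl⟩)
    have h2 := (key j).symm.trans h1
    exact h2
  · intro h w hw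
    obtain ⟨j, rfl⟩ := (List.mem_ofFn' _ _).mp hw
    refine (key j).trans ?_
    have := h j
    exact congrArg Multiplicative.ofAdd this

end Pool.Agent.MIso
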