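import Pool.Agent.MIso.Defs

set_option autoImplicit false

/-! Block H0: the fundamental relation of Fox calculus and the exponents. -/

namespace Pool.Agent.MIso

open Finset

/-- H0a. Fundamental relation. -/
theorem fund_rel {k : ℕ} (q : Fin k → ℕ) (n : ℕ) (h : Amb q n) (hh : h ∈ WA q n) (z : Idx q n) :
    ∑ i, (h z).v i * ((z.2 i : ZMod (q z.1)) - 1) = ((h z).c : ZMod (q z.1)) - 1 := by
  have hh' : h ∈ Subgroup.closure (Set.range (ambGen q n)) := hh
  induction hh' using Subgroup.closure_induction with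
  | mem x hx =>
    obtain ⟨t, rfl⟩ := hx
    simp only [ambGen, foxGen]
    rw [Finset.sum_eq_single t]
    · simp
    · intro b _ hb
      simp [hb]
    · intro ht
      exact absurd (Finset.mem_univ t) ht
  | one => simp
  | mul a b ha hb iha ihb =>
    have iha' := iha ha
    have ihb' := ihb hb
    have e : ∀ i, ((a * b) z).v i * ((z.2 i : ZMod (q z.1)) - 1)
        = (a z).v i * ((z.2 i : ZMod (q z.1)) - 1)
          + ((a z).c : ZMod (q z.1)) * ((b z).v i * ((z.2 i : ZMod (q z.1)) - 1)) := by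
      intro i
      rw [Pi.mul_apply, AffN.mul_v]
      ring
    rw [Finset.sum_congr rfl fun i _ => e i, Finset.sum_add_distrib, ← Finset.mul_sum, iha', ihb',
      Pi.mul_apply, AffN.mul_c, Units.val_mul]
    ring
  | inv a ha iha =>
    have iha' := iha ha
    have e : ∀ i, ((a⁻¹) z).v i * ((z.2 i : ZMod (q z.1)) - 1)
        = -(((a z).c⁻¹ : (ZMod (q z.1))ˣ) : ZMod (q z.1))
            * ((a z).v i * ((z.2 i : ZMod (q z.1)) - 1)) := by
      intro i
      rw [Pi.inv_apply, AffN.inv_v]
      ring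
    rw [Finset.sum_congr rfl fun i _ => e i, ← Finset.mul_sum, iha', Pi.inv_apply, AffN.inv_c]
    have h1 : (((a z).c⁻¹ : (ZMod (q z.1))ˣ) : ZMod (q z.1)) * ((a z).c : ZMod (q z.1)) = 1 :=
      Units.inv_mul _
    linear_combination -h1

/-- H0b. Exponents. -/
theorem exps {k : ℕ} (q : Fin k → ℕ) (n : ℕ) (h : Amb q n) (hh : h ∈ WA q n) :
    ∃ a : Fin n → ℤ, ∀ z : Idx q n, (h z).c = ∏ i, z.2 i ^ a i := by
  have hh' : h ∈ Subgroup.closure (Set.range (ambGen q n)) := hh
  induction hh' using Subgroup.closure_induction with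
  | mem x hx =>
    obtain ⟨t, rfl⟩ := hx
    refine ⟨Pi.single t 1, fun z => ?_⟩
    simp only [ambGen, foxGen]
    rw [Finset.prod_eq_single t]
    · simp
    · intro b _ hb
      simp [hb]
    · intro ht
      exact absurd (Finset.mem_univ t) ht
  | one => exact ⟨0, fun z => by simp⟩
  | mul a b ha hb iha ihb =>
    obtain ⟨x, hx⟩ := iha ha
    obtain ⟨y, hy⟩ := ihb hb
    refine ⟨x + y, fun z => ?_⟩
    rw [Pi.mul_apply, AffN.mul_c, hx z, hy z, ← Finset.prod_mul_distrib]
    exact Finset.prod_congr rfl fun i _ => by rw [Pi.add_apply, zpow_add]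
  | inv a ha iha =>
    obtain ⟨x, hx⟩ := iha ha
    refine ⟨-x, fun z => ?_⟩
    rw [Pi.inv_apply, AffN.inv_c, hx z, ← Finset.prod_inv_distrib]
    exact Finset.prod_congr rfl fun i _ => by rw [Pi.neg_apply, zpow_neg]

end Pool.Agent.MIso
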