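import Pool.Agent.MIso.Defs

set_option autoImplicit false

/-! H1. The ambient group contains all families of admissible translations. -/

namespace Pool.Agent.MIso

namespace H1aux

variable {k : ℕ} (q : Fin k → ℕ) (n : ℕ)

/-- The translations lying in `WA`. -/
def U : AddSubgroup (∀ z : Idx q n, Fin n → ZMod (q z.1)) where
  carrier := {u | ((fun z => ⟨u z, 1⟩ : Amb q n)) ∈ WA q n}
  zero_mem' := by
    have h : ((fun z => ⟨(0 : ∀ z : Idx q n, Fin n → ZMod (q z.1)) z, 1⟩ : Amb q n)) = 1 := by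
      funext z; ext <;> simp
    show _ ∈ WA q n
    rw [h]
    exact one_mem _
  add_mem' := by
    intro a b ha hb
    have h : ((fun z => ⟨(a + b) z, 1⟩ : Amb q n))
        = (fun z => ⟨a z, 1⟩ : Amb q n) * (fun z => ⟨b z, 1⟩ : Amb q n) := by
      funext z; ext <;> simp
    show _ ∈ WA q n
    rw [h]
    exact mul_mem ha hb
  neg_mem' := by
    intro a ha
    have h : ((fun z => ⟨(-a) z, 1⟩ : Amb q n)) = (fun z => ⟨a z, 1⟩ : Amb q n)⁻¹ := by
      funext z; ext <;> simp
    show _ ∈ WA q n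
    rw [h]
    exact inv_mem ha

theorem mem_U {u : ∀ z : Idx q n, Fin n → ZMod (q z.1)} :
    u ∈ U q n ↔ ((fun z => ⟨u z, 1⟩ : Amb q n)) ∈ WA q n := Iff.rfl

theorem gen_mem (t : Fin n) : ambGen q n t ∈ WA q n :=
  Subgroup.subset_closure ⟨t, rfl⟩

/-- Scalar functions preserving `U`. -/
def Phi : Subring (∀ z : Idx q n, ZMod (q z.1)) where
  carrier := {φ | ∀ u ∈ U q n, (fun z i => φ z * u z i) ∈ U q n}
  mul_mem' := by
    intro a b ha hb u hu
    have := ha _ (hb u hu)
    convert this using 1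
    funext z i
    simp [mul_assoc]
  one_mem' := by
    intro u hu
    convert hu using 1
    funext z i
    simp
  add_mem' := by
    intro a b ha hb u hu
    have := add_mem (ha u hu) (hb u hu)
    convert this using 1
    funext z i
    simp [add_mul]
  zero_mem' := by
    intro u hu
    have := zero_mem (U q n)
    convert this using 1
    funext z i
    simp
  neg_mem' := by
    intro a ha u hu
    have := neg_mem (ha u hu)
    convert this using 1
    funext z i
    simp

theorem mem_Phi {φ : ∀ z : Idx q n, ZMod (q z.1)} :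
    φ ∈ Phi q n ↔ ∀ u ∈ U q n, (fun z i => φ z * u z i) ∈ U q n := Iff.rfl

theorem chi_mem (t : Fin n) : (fun z : Idx q n => (z.2 t : ZMod (q z.1))) ∈ Phi q n := by
  intro u hu
  rw [mem_U] at hu ⊢
  have h : ((fun z => ⟨fun i => (z.2 t : ZMod (q z.1)) * u z i, 1⟩ : Amb q n))
      = ambGen q n t * (fun z => ⟨u z, 1⟩ : Amb q n) * (ambGen q n t)⁻¹ := by
    funext z
    ext i
    · simp [ambGen, foxGen]
      
    · simp [ambGen, foxGen]
  rw [h]
  exact mul_mem (mul_mem (gen_mem q n t) hu) (inv_mem (gen_mem q n t))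

theorem kappa_mem (s t : Fin n) :
    (fun (z : Idx q n) => (fun i => (1 - (z.2 t : ZMod (q z.1))) * (Pi.single s 1 : Fin n → ZMod (q z.1)) i
      + ((z.2 s : ZMod (q z.1)) - 1) * (Pi.single t 1 : Fin n → ZMod (q z.1)) i)) ∈ U q n := by
  rw [mem_U]
  have h : ((fun z => ⟨fun i => (1 - (z.2 t : ZMod (q z.1))) * (Pi.single s 1 : Fin n → ZMod (q z.1)) i
      + ((z.2 s : ZMod (q z.1)) - 1) * (Pi.single t 1 : Fin n → ZMod (q z.1)) i, 1⟩ : Amb q n))
      = ambGen q n s * ambGen q n t * (ambGen q n s)⁻¹ * (ambGen q n t)⁻¹ := by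
    funext z
    ext i
    · simp [ambGen, foxGen]
      ring_nf
      simp
    · simp [ambGen, foxGen]
  rw [h]
  exact mul_mem (mul_mem (mul_mem (gen_mem q n s) (gen_mem q n t)) (inv_mem (gen_mem q n s)))
    (inv_mem (gen_mem q n t))

theorem sep [∀ i, Fact (q i).Prime] (hq : Function.Injective q) (z0 z : Idx q n) (hz : z ≠ z0) :
    ∃ φ ∈ Phi q n, φ z = 0 ∧ φ z0 ≠ 0 := by
  obtain ⟨i0, χ0⟩ := z0
  obtain ⟨i, χ⟩ := z
  by_cases hi : i = i0
  · subst hi
    have hχ : χ ≠ χ0 := fun h => hz (by rw [h])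
    obtain ⟨s, hs⟩ := Function.ne_iff.mp hχ
    refine ⟨(fun z : Idx q n => (z.2 s : ZMod (q z.1))) - ((((χ s : ZMod (q i))).val : ℕ) : ∀ z : Idx q n, ZMod (q z.1)),
      sub_mem (chi_mem q n s) (natCast_mem _ _), ?_, ?_⟩
    · show (χ s : ZMod (q i)) - (((χ s : ZMod (q i))).val : ZMod (q i)) = 0
      rw [ZMod.natCast_zmod_val, sub_self]
    · show (χ0 s : ZMod (q i)) - (((χ s : ZMod (q i))).val : ZMod (q i)) ≠ 0
      rw [ZMod.natCast_zmod_val]
      intro h
      exact hs (Units.ext (sub_eq_zero.mp h).symm)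
  · refine ⟨((q i : ℕ) : ∀ z : Idx q n, ZMod (q z.1)), natCast_mem _ _, ?_, ?_⟩
    · simp
    · simp only [Pi.natCast_apply]
      intro h
      rw [ZMod.natCast_eq_zero_iff] at h
      have := (Nat.prime_dvd_prime_iff_eq (Fact.out : (q i0).Prime) (Fact.out : (q i).Prime)).mp h
      exact hi (hq this.symm)

theorem single_mem [∀ i, Fact (q i).Prime] (hq : Function.Injective q) (z0 : Idx q n)
    (c : ZMod (q z0.1)) :
    ∃ φ ∈ Phi q n, (∀ z, z ≠ z0 → φ z = 0) ∧ φ z0 = c := by
  classical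
  have : Fintype (Idx q n) := Fintype.ofFinite _
  choose f hf1 hf2 hf3 using sep q n hq z0
  let ψ : ∀ z : Idx q n, ZMod (q z.1) := ∏ z : {z : Idx q n // z ≠ z0}, f z.1 z.2
  have hψ : ψ ∈ Phi q n := prod_mem fun z _ => hf1 z.1 z.2
  have hψ0 : ∀ z, z ≠ z0 → ψ z = 0 := by
    intro z hz
    simp only [ψ, Finset.prod_apply]
    exact Finset.prod_eq_zero (Finset.mem_univ (⟨z, hz⟩ : {z : Idx q n // z ≠ z0})) (hf2 z hz)
  have hψ1 : ψ z0 ≠ 0 := by
    simp only [ψ, Finset.prod_apply]
    exact Finset.prod_ne_zero_iff.mpr fun z _ => hf3 z.1 z.2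
  refine ⟨(((c * (ψ z0)⁻¹).val : ℕ) : ∀ z : Idx q n, ZMod (q z.1)) * ψ,
    mul_mem (natCast_mem _ _) hψ, ?_, ?_⟩
  · intro z hz
    simp [hψ0 z hz]
  · show (((c * (ψ z0)⁻¹).val : ℕ) : ZMod (q z0.1)) * ψ z0 = c
    rw [ZMod.natCast_zmod_val, mul_assoc, inv_mul_cancel₀ hψ1, mul_one]

end H1aux

open H1aux in
/-- H1. The ambient group contains all families of admissible translations. -/
theorem amb_surj {k : ℕ} (q : Fin k → ℕ) [∀ i, Fact (q i).Prime] (hq : Function.Injective q)
    (n : ℕ) (u : ∀ z : Idx q n, Fin n → ZMod (q z.1))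
    (h0 : ∀ z, ∑ i, u z i * ((z.2 i : ZMod (q z.1)) - 1) = 0)
    (h1 : ∀ z, z.2 = 1 → u z = 0) :
    ((fun z => ⟨u z, 1⟩ : Amb q n)) ∈ WA q n := by
  classical
  rw [← mem_U]
  have : Fintype (Idx q n) := Fintype.ofFinite _
  -- the part of `u` at `z0`
  have key : ∀ z0 : Idx q n, (fun z => if z = z0 then u z else 0) ∈ U q n := by
    intro z0
    by_cases hχ : z0.2 = 1
    · have : (fun z => if z = z0 then u z else 0) = (0 : ∀ z : Idx q n, Fin n → ZMod (q z.1)) := by
        funext z
        by_cases hz : z = z0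
        · subst hz
          simp [h1 z hχ]
        · simp [hz]
      rw [this]
      exact zero_mem _
    · obtain ⟨s, hs⟩ := Function.ne_iff.mp hχ
      have hs' : (1 : ZMod (q z0.1)) - (z0.2 s : ZMod (q z0.1)) ≠ 0 := by
        intro h
        apply hs
        apply Units.ext
        rw [Pi.one_apply, Units.val_one]
        exact (sub_eq_zero.mp h).symm
      -- sum over t
      have hsum : ∀ t : Fin n, ∃ w ∈ U q n, (∀ z, z ≠ z0 → w z = 0) ∧
          w z0 = fun i => u z0 t * (1 - (z0.2 s : ZMod (q z0.1)))⁻¹ *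
            ((1 - (z0.2 s : ZMod (q z0.1))) * (Pi.single t 1 : Fin n → ZMod (q z0.1)) i
      + ((z0.2 t : ZMod (q z0.1)) - 1) * (Pi.single s 1 : Fin n → ZMod (q z0.1)) i) := by
        intro t
        obtain ⟨φ, hφ, hφ0, hφ1⟩ := single_mem q n hq z0 (u z0 t * (1 - (z0.2 s : ZMod (q z0.1)))⁻¹)
        refine ⟨_, (mem_Phi q n).mp hφ _ (kappa_mem q n t s), ?_, ?_⟩
        · intro z hz
          funext i
          simp [hφ0 z hz]
        · funext i
          simp only [hφ1]
      choose w hw1 hw2 hw3 using hsum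
      have : (fun z => if z = z0 then u z else 0) = ∑ t, w t := by
        funext z
        by_cases hz : z = z0
        · subst hz
          funext i
          simp only [if_true, Finset.sum_apply, hw3]
          have e1 : ∀ t : Fin n, u z t * (1 - (z.2 s : ZMod (q z.1)))⁻¹ *
            ((1 - (z.2 s : ZMod (q z.1))) * (Pi.single t 1 : Fin n → ZMod (q z.1)) i
              + ((z.2 t : ZMod (q z.1)) - 1) * (Pi.single s 1 : Fin n → ZMod (q z.1)) i)
              = u z t * (Pi.single t 1 : Fin n → ZMod (q z.1)) i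
                + (u z t * ((z.2 t : ZMod (q z.1)) - 1)) * ((1 - (z.2 s : ZMod (q z.1)))⁻¹ *
                  (Pi.single s 1 : Fin n → ZMod (q z.1)) i) := by
            intro t
            field_simp
          rw [Finset.sum_congr rfl fun t _ => e1 t, Finset.sum_add_distrib, ← Finset.sum_mul, h0 z,
            zero_mul, add_zero]
          rw [Finset.sum_eq_single i]
          · simp
          · intro b _ hb
            rw [Pi.single_eq_of_ne (Ne.symm hb), mul_zero]
          · intro h
            exact absurd (Finset.mem_univ i) h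
        · rw [if_neg hz, Finset.sum_apply]
          exact (Finset.sum_eq_zero fun t _ => hw2 t z hz).symm
      rw [this]
      exact sum_mem fun t _ => hw1 t
  have hu : u = ∑ z0, (fun z => if z = z0 then u z else 0) := by
    funext z
    rw [Finset.sum_apply, Finset.sum_ite_eq]
    simp
  rw [hu]
  exact sum_mem fun z0 _ => key z0

end Pool.Agent.MIso
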