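import Pool.Agent.MIso.Defs

set_option autoImplicit false

namespace Pool.Agent.MIso

namespace H2baux

theorem prod_ge {ι : Type*} (s : Finset ι) (f : ι → ℝ) (h0 : ∀ i ∈ s, 0 ≤ f i)
    (h1 : ∀ i ∈ s, f i ≤ 1) : 1 - ∑ i ∈ s, f i ≤ ∏ i ∈ s, (1 - f i) := by
  classical
  induction s using Finset.induction_on with
  | empty => simp
  | insert a s ha ih =>
    rw [Finset.sum_insert ha, Finset.prod_insert ha]
    have h2 := ih (fun i hi => h0 i (Finset.mem_insert_of_mem hi))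
      (fun i hi => h1 i (Finset.mem_insert_of_mem hi))
    have h3 := h0 a (Finset.mem_insert_self a s)
    have h4 := h1 a (Finset.mem_insert_self a s)
    have h5 : ∏ i ∈ s, (1 - f i) ≤ 1 := by
      refine Finset.prod_le_one (fun i hi => ?_) (fun i hi => ?_)
      · have := h1 i (Finset.mem_insert_of_mem hi); linarith
      · have := h0 i (Finset.mem_insert_of_mem hi); linarith
    nlinarith

theorem geom (q : ℝ) (hq : 2 ≤ q) (m : ℕ) :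
    ∑ i ∈ Finset.range (m + 1), q ^ i ≤ 2 * q ^ m := by
  induction m with
  | zero => simp
  | succ k ih =>
    rw [Finset.sum_range_succ]
    have h1 : 0 < q ^ k := by positivity
    have h2 : q ^ (k + 1) = q * q ^ k := by ring
    nlinarith

end H2baux

/-- H2b. Numerical bounds. -/
theorem rho_bounds (n m : ℕ) (hm : 1 ≤ m) (hmn : m < n) :
    ∃ q0 : ℕ, ∀ q : ℕ, q0 ≤ q → ∃ N : ℕ, N + 1 ≤ (q - 1) ^ (n - m) ∧
      1 / 9 ≤ (∏ i : Fin m, (1 - (q : ℝ) ^ (i : ℕ) / (q : ℝ) ^ (n - 1))) ^ N ∧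
      (∏ i : Fin m, (1 - (q : ℝ) ^ (i : ℕ) / (q : ℝ) ^ (n - 1))) ^ N ≤ 8 / 9 := by
  obtain ⟨k, rfl⟩ : ∃ k, m = k + 1 := ⟨m - 1, by omega⟩
  obtain ⟨d, hd, rfl⟩ : ∃ d, 1 ≤ d ∧ n = k + 1 + d := ⟨n - (k + 1), by omega, by omega⟩
  refine ⟨2 * d + 8, fun q hq => ?_⟩
  have e1 : k + 1 + d - (k + 1) = d := by omega
  have e2 : k + 1 + d - 1 = k + d := by omega
  rw [e1, e2]
  have hq8 : (8 : ℝ) ≤ q := by
    have : 8 ≤ q := by omega
    exact_mod_cast this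
  have hqd : (2 * d : ℝ) ≤ q := by
    have : 2 * d ≤ q := by omega
    exact_mod_cast this
  have hq0 : (0 : ℝ) < q := by linarith
  have hQ : (8 : ℝ) ≤ (q : ℝ) ^ d := by
    calc (8 : ℝ) ≤ q := hq8
      _ = (q : ℝ) ^ 1 := (pow_one _).symm
      _ ≤ (q : ℝ) ^ d := pow_le_pow_right₀ (by linarith) hd
  have hQ0 : (0 : ℝ) < (q : ℝ) ^ d := by linarith
  set x : ℝ := 1 / (q : ℝ) ^ d with hx
  have hx0 : 0 < x := by positivity
  have hxQ : x * (q : ℝ) ^ d = 1 := by rw [hx]; field_simp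
  have hx1 : x ≤ 1 / 8 := by
    rw [hx]
    exact one_div_le_one_div_of_le (by norm_num) hQ
  -- the terms
  have hf : ∀ i : Fin (k + 1), (q : ℝ) ^ (i : ℕ) / (q : ℝ) ^ (k + d) =
      (q : ℝ) ^ (i : ℕ) / (q : ℝ) ^ k * x := by
    intro i
    rw [hx, pow_add]
    field_simp
  have hqk : (0 : ℝ) < (q : ℝ) ^ k := by positivity
  have hf0 : ∀ i : Fin (k + 1), 0 ≤ (q : ℝ) ^ (i : ℕ) / (q : ℝ) ^ (k + d) := by
    intro i; positivity
  have hf1 : ∀ i : Fin (k + 1), (q : ℝ) ^ (i : ℕ) / (q : ℝ) ^ (k + d) ≤ 1 := by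
    intro i
    rw [div_le_one (by positivity)]
    exact pow_le_pow_right₀ (by linarith) (by have := i.2; omega)
  set P : ℝ := ∏ i : Fin (k + 1), (1 - (q : ℝ) ^ (i : ℕ) / (q : ℝ) ^ (k + d)) with hP
  have hPge : 1 - 2 * x ≤ P := by
    have h1 := H2baux.prod_ge Finset.univ
      (fun i : Fin (k + 1) => (q : ℝ) ^ (i : ℕ) / (q : ℝ) ^ (k + d))
      (fun i _ => hf0 i) (fun i _ => hf1 i)
    have h2 : ∑ i : Fin (k + 1), (q : ℝ) ^ (i : ℕ) / (q : ℝ) ^ (k + d) ≤ 2 * x := by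
      calc ∑ i : Fin (k + 1), (q : ℝ) ^ (i : ℕ) / (q : ℝ) ^ (k + d)
          = (∑ i : Fin (k + 1), (q : ℝ) ^ (i : ℕ)) / (q : ℝ) ^ k * x := by
            rw [Finset.sum_div, Finset.sum_mul]
            exact Finset.sum_congr rfl fun i _ => hf i
        _ = (∑ i ∈ Finset.range (k + 1), (q : ℝ) ^ i) / (q : ℝ) ^ k * x := by
            rw [Finset.sum_range]
        _ ≤ (2 * (q : ℝ) ^ k) / (q : ℝ) ^ k * x := by
            gcongr
            exact H2baux.geom q (by linarith) k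
        _ = 2 * x := by field_simp
    linarith
  have hPle : P ≤ 1 - x := by
    rw [hP, ← Finset.mul_prod_erase Finset.univ _ (Finset.mem_univ (Fin.last k))]
    have h1 : 1 - (q : ℝ) ^ ((Fin.last k : Fin (k + 1)) : ℕ) / (q : ℝ) ^ (k + d) = 1 - x := by
      rw [hf, Fin.val_last, div_self hqk.ne', one_mul]
    rw [h1]
    have h2 : ∏ i ∈ Finset.univ.erase (Fin.last k),
        (1 - (q : ℝ) ^ (i : ℕ) / (q : ℝ) ^ (k + d)) ≤ 1 := by
      refine Finset.prod_le_one (fun i _ => ?_) (fun i _ => ?_)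
      · have := hf1 i; linarith
      · have := hf0 i; linarith
    calc (1 - x) * ∏ i ∈ Finset.univ.erase (Fin.last k),
          (1 - (q : ℝ) ^ (i : ℕ) / (q : ℝ) ^ (k + d)) ≤ (1 - x) * 1 := by
            refine mul_le_mul_of_nonneg_left h2 (by linarith)
      _ = 1 - x := mul_one _
  have hP0 : 0 ≤ P := by linarith
  -- the exponent
  refine ⟨⌊(q : ℝ) ^ d / 4⌋₊, ?_, ?_, ?_⟩
  · have h1 : ((⌊(q : ℝ) ^ d / 4⌋₊ : ℕ) : ℝ) ≤ (q : ℝ) ^ d / 4 := Nat.floor_le (by positivity)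
    have h2 : (1 : ℝ) - 1 / 2 ≤ (1 - 1 / (q : ℝ)) ^ d := by
      have h3 := one_add_mul_le_pow (show (-2 : ℝ) ≤ -(1 / (q : ℝ)) by
        have : 1 / (q : ℝ) ≤ 1 := by rw [div_le_one hq0]; linarith
        linarith) d
      have h4 : (d : ℝ) * (1 / (q : ℝ)) ≤ 1 / 2 := by
        rw [mul_one_div, div_le_iff₀ hq0]
        linarith
      have h5 : (1 + -(1 / (q : ℝ))) ^ d = (1 - 1 / (q : ℝ)) ^ d := by ring
      rw [h5] at h3
      linarith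
    have h6 : ((q : ℝ) - 1) ^ d = (q : ℝ) ^ d * (1 - 1 / (q : ℝ)) ^ d := by
      rw [← mul_pow]
      congr 1
      field_simp
    have h7 : (q : ℝ) ^ d / 2 ≤ ((q : ℝ) - 1) ^ d := by
      rw [h6]
      nlinarith
    have h8 : ((⌊(q : ℝ) ^ d / 4⌋₊ + 1 : ℕ) : ℝ) ≤ (((q - 1) ^ d : ℕ) : ℝ) := by
      push_cast [Nat.cast_sub (show 1 ≤ q by omega)]
      linarith
    exact_mod_cast h8
  · have h1 : ((⌊(q : ℝ) ^ d / 4⌋₊ : ℕ) : ℝ) ≤ (q : ℝ) ^ d / 4 := Nat.floor_le (by positivity)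
    have h2 : (1 - 2 * x) ^ ⌊(q : ℝ) ^ d / 4⌋₊ ≤ P ^ ⌊(q : ℝ) ^ d / 4⌋₊ :=
      pow_le_pow_left₀ (by linarith) hPge _
    have h3 := one_add_mul_le_pow (show (-2 : ℝ) ≤ -(2 * x) by linarith) ⌊(q : ℝ) ^ d / 4⌋₊
    have h4 : (1 + -(2 * x)) ^ ⌊(q : ℝ) ^ d / 4⌋₊ = (1 - 2 * x) ^ ⌊(q : ℝ) ^ d / 4⌋₊ := by ring
    rw [h4] at h3
    have h5 : ((⌊(q : ℝ) ^ d / 4⌋₊ : ℕ) : ℝ) * x ≤ 1 / 4 := by
      calc ((⌊(q : ℝ) ^ d / 4⌋₊ : ℕ) : ℝ) * x ≤ (q : ℝ) ^ d / 4 * x := by gcongr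
        _ = 1 / 4 := by rw [div_mul_eq_mul_div, mul_comm, hxQ]
    linarith
  · set N := ⌊(q : ℝ) ^ d / 4⌋₊ with hN
    have h1 : (q : ℝ) ^ d / 4 < (N : ℝ) + 1 := Nat.lt_floor_add_one _
    have h2 : P ^ N ≤ (1 - x) ^ N := pow_le_pow_left₀ hP0 hPle _
    have h3 := one_add_mul_le_pow (show (-2 : ℝ) ≤ x by linarith) N
    have h4 : (1 - x) ^ N * (1 + x) ^ N ≤ 1 := by
      rw [← mul_pow]
      refine pow_le_one₀ ?_ ?_
      · nlinarith
      · nlinarith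
    have h5 : 1 / 8 ≤ (N : ℝ) * x := by
      have h6 : (q : ℝ) ^ d / 8 ≤ N := by linarith
      calc (1 : ℝ) / 8 = (q : ℝ) ^ d / 8 * x := by
            rw [div_mul_eq_mul_div, mul_comm, hxQ]
        _ ≤ N * x := by gcongr
    have h6 : 0 ≤ (1 - x) ^ N := pow_nonneg (by linarith) _
    have h7 : (1 - x) ^ N * (9 / 8) ≤ 1 := by
      calc (1 - x) ^ N * (9 / 8) ≤ (1 - x) ^ N * (1 + x) ^ N := by
            refine mul_le_mul_of_nonneg_left ?_ h6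
            linarith
        _ ≤ 1 := h4
    linarith

end Pool.Agent.MIso
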