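import Pool.Agent.MIso.Defs

set_option autoImplicit false

/-! Block H2c of `MP_760942_al.GenericIsomorphism`: number of solutions of a linear system whose
rows are taken in a hyperplane. -/

namespace Pool.Agent.MIso

namespace H2c

open Module

/-- number of solutions of a linear system over `ℤ/q` -/
theorem card_ker {q n m : ℕ} [Fact q.Prime] (J : Fin m → Fin n → ZMod q) :
    Nat.card {b : Fin n → ZMod q // ∀ j, ∑ i, J j i * b i = 0} =
      q ^ (n - (Matrix.of J).rank) := by
  have h1 : Nat.card {b : Fin n → ZMod q // ∀ j, ∑ i, J j i * b i = 0} =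
      Nat.card (LinearMap.ker (Matrix.of J).mulVecLin) := by
    refine Nat.card_congr (Equiv.subtypeEquivRight fun b => ?_)
    rw [LinearMap.mem_ker, Matrix.mulVecLin_apply, funext_iff]
    rfl
  have h2 := LinearMap.finrank_range_add_finrank_ker (Matrix.of J).mulVecLin
  rw [finrank_fin_fun] at h2
  have h3 : finrank (ZMod q) (LinearMap.ker (Matrix.of J).mulVecLin) =
      n - (Matrix.of J).rank := by
    unfold Matrix.rank
    omega
  rw [h1, Module.natCard_eq_pow_finrank (K := ZMod q), Nat.card_zmod, h3]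

theorem rank_eq_iff {q n m : ℕ} [Fact q.Prime] (J : Fin m → Fin n → ZMod q) :
    (Matrix.of J).rank = m ↔ LinearIndependent (ZMod q) J := by
  rw [Matrix.rank_eq_finrank_span_row, linearIndependent_iff_card_eq_finrank_span,
    Fintype.card_fin, eq_comm]
  rfl

theorem rank_le {q n m : ℕ} [Fact q.Prime] (J : Fin m → Fin n → ZMod q) :
    (Matrix.of J).rank ≤ m := by
  have := Matrix.rank_le_card_height (Matrix.of J)
  rwa [Fintype.card_fin] at this

/-- the hyperplane of a vector -/
def hyp {q n : ℕ} (c : Fin n → ZMod q) : Submodule (ZMod q) (Fin n → ZMod q) where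
  carrier := {u | ∑ i, u i * c i = 0}
  add_mem' := by
    intro a b ha hb
    simp only [Set.mem_ofPred_eq, Pi.add_apply, add_mul, Finset.sum_add_distrib] at *
    rw [ha, hb, add_zero]
  zero_mem' := by simp
  smul_mem' := by
    intro r a ha
    simp only [Set.mem_ofPred_eq, Pi.smul_apply, smul_eq_mul, mul_assoc, ← Finset.mul_sum] at *
    rw [ha, mul_zero]

theorem mem_hyp {q n : ℕ} (c : Fin n → ZMod q) (u : Fin n → ZMod q) :
    u ∈ hyp c ↔ ∑ i, u i * c i = 0 := Iff.rfl

theorem finrank_hyp {q n : ℕ} [Fact q.Prime] (c : Fin n → ZMod q) (hc : c ≠ 0) :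
    finrank (ZMod q) (hyp c) = n - 1 := by
  have h0 : Nat.card (hyp c) =
      Nat.card {b : Fin n → ZMod q // ∀ _j : Fin 1, ∑ i, c i * b i = 0} := by
    refine Nat.card_congr (Equiv.subtypeEquivRight fun u => ?_)
    rw [mem_hyp]
    simp only [forall_const]
    simp only [mul_comm]
  have h1 := card_ker (fun _ : Fin 1 => c)
  have h2 : (Matrix.of fun _ : Fin 1 => c).rank = 1 := by
    rw [rank_eq_iff]
    exact LinearIndependent.of_subsingleton (0 : Fin 1) hc
  rw [h2] at h1
  rw [Module.natCard_eq_pow_finrank (K := ZMod q), Nat.card_zmod, h1] at h0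
  exact Nat.pow_right_injective (Fact.out : q.Prime).two_le h0

theorem indep_sub {q n m : ℕ} [Fact q.Prime] (c : Fin n → ZMod q) (J : Fin m → hyp c) :
    LinearIndependent (ZMod q) J ↔ LinearIndependent (ZMod q) fun j => (J j : Fin n → ZMod q) := by
  have := LinearMap.linearIndependent_iff (hyp c).subtype (v := J) (hyp c).ker_subtype
  rw [← this]
  rfl

end H2c

open H2c Module in
/-- H2c. For a nontrivial character, the number of solutions of `J b = 0` for `J` with rows in
the hyperplane of `χ`: at least `q^(n-m)`, with equality for exactly the share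
`∏ (1 - q^(i-(n-1)))`. -/
theorem rank_count (q n m : ℕ) [Fact q.Prime] (hmn : m < n) (χ : Fin n → (ZMod q)ˣ) (hχ : χ ≠ 1) :
    (∀ J : Fin m → {u : Fin n → ZMod q // ∑ i, u i * ((χ i : ZMod q) - 1) = 0},
      q ^ (n - m) ≤ Nat.card {b : Fin n → ZMod q // ∀ j, ∑ i, (J j).1 i * b i = 0}) ∧
    (Nat.card {J : Fin m → {u : Fin n → ZMod q // ∑ i, u i * ((χ i : ZMod q) - 1) = 0} //
      Nat.card {b : Fin n → ZMod q // ∀ j, ∑ i, (J j).1 i * b i = 0} = q ^ (n - m)} : ℝ)
      = (∏ i : Fin m, (1 - (q : ℝ) ^ (i : ℕ) / (q : ℝ) ^ (n - 1))) *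
        Nat.card (Fin m → {u : Fin n → ZMod q // ∑ i, u i * ((χ i : ZMod q) - 1) = 0}) := by
  have hq := (Fact.out : q.Prime)
  have hc : (fun i => (χ i : ZMod q) - 1) ≠ 0 := by
    intro h
    apply hχ
    funext i
    have := congrFun h i
    simp only [Pi.zero_apply, sub_eq_zero] at this
    exact Units.ext this
  refine ⟨fun J => ?_, ?_⟩
  · rw [card_ker fun j => (J j).1]
    refine Nat.pow_le_pow_right hq.pos ?_
    have := rank_le fun j => (J j).1
    omega
  · let H := hyp fun i => (χ i : ZMod q) - 1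
    let e : {u : Fin n → ZMod q // ∑ i, u i * ((χ i : ZMod q) - 1) = 0} ≃ H :=
      Equiv.subtypeEquivRight fun u => (mem_hyp _ u).symm
    have hH : finrank (ZMod q) H = n - 1 := finrank_hyp _ hc
    have e1 : Nat.card {J : Fin m → {u : Fin n → ZMod q //
        ∑ i, u i * ((χ i : ZMod q) - 1) = 0} //
        Nat.card {b : Fin n → ZMod q // ∀ j, ∑ i, (J j).1 i * b i = 0} = q ^ (n - m)} =
        Nat.card {J : Fin m → H // LinearIndependent (ZMod q) J} := by
      refine Nat.card_congr ((Equiv.arrowCongr (Equiv.refl _) e).subtypeEquiv fun J => ?_)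
      rw [card_ker fun j => (J j).1, indep_sub, ← rank_eq_iff]
      have h1 := rank_le fun j => (J j).1
      constructor
      · intro h
        have h2 := Nat.pow_right_injective hq.two_le h
        have h3 : (Matrix.of fun j => (J j).1).rank = m := by omega
        exact h3
      · intro h
        have h3 : (Matrix.of fun j => (J j).1).rank = m := h
        rw [h3]
    have e2 : Nat.card (Fin m → {u : Fin n → ZMod q // ∑ i, u i * ((χ i : ZMod q) - 1) = 0}) =
        (q ^ (n - 1)) ^ m := by
      rw [Nat.card_fun, Nat.card_congr e, Module.natCard_eq_pow_finrank (K := ZMod q), hH]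
      simp
    have e3 : Nat.card {J : Fin m → H // LinearIndependent (ZMod q) J} =
        ∏ i : Fin m, (q ^ (n - 1) - q ^ (i : ℕ)) := by
      rw [card_linearIndependent (by rw [hH]; omega), hH, ZMod.card]
    rw [e1, e2, e3]
    push_cast
    have hq0 : (q : ℝ) ^ (n - 1) ≠ 0 := pow_ne_zero _ (by exact_mod_cast hq.ne_zero)
    have e4 : ((q : ℝ) ^ (n - 1)) ^ m = ∏ _i : Fin m, (q : ℝ) ^ (n - 1) := by
      rw [Finset.prod_const, Finset.card_univ, Fintype.card_fin]
    rw [e4, ← Finset.prod_mul_distrib]
    refine Finset.prod_congr rfl fun i _ => ?_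
    rw [Nat.cast_sub (Nat.pow_le_pow_right hq.pos (by have := i.2; omega))]
    push_cast
    field_simp

end Pool.Agent.MIso
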