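import Pool.Agent.MIso.Defs

set_option autoImplicit false

namespace Pool.Agent.MIso

/-- H2d. Number of characters killing `m` monomials. -/
theorem char_count (q n m : ℕ) [Fact q.Prime] (hmn : m ≤ n) (a : Fin m → Fin n → ℤ) :
    (q - 1) ^ (n - m) ≤ Nat.card {χ : Fin n → (ZMod q)ˣ // ∀ j, ∏ i, χ i ^ a j i = 1} := by
  classical
  let f : (Fin n → (ZMod q)ˣ) →* (Fin m → (ZMod q)ˣ) :=
    { toFun := fun χ j => ∏ i, χ i ^ a j i
      map_one' := by
        funext j
        simp
      map_mul' := by
        intro x y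
        funext j
        simp [mul_zpow, Finset.prod_mul_distrib] }
  have hcard : Nat.card (ZMod q)ˣ = q - 1 := by
    rw [Nat.card_eq_fintype_card, ZMod.card_units]
  have h1 : Nat.card f.ker * Nat.card f.range = (q - 1) ^ n := by
    rw [← Subgroup.index_ker, Subgroup.card_mul_index, Nat.card_fun, hcard, Nat.card_fin]
  have h2 : Nat.card f.range ≤ (q - 1) ^ m := by
    have h3 : Nat.card f.range ≤ Nat.card (Fin m → (ZMod q)ˣ) :=
      Nat.card_le_card_of_injective (fun x : f.range => (x : Fin m → (ZMod q)ˣ))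
        Subtype.val_injective
    rw [Nat.card_fun, hcard, Nat.card_fin] at h3
    exact h3
  have h3 : Nat.card {χ : Fin n → (ZMod q)ˣ // ∀ j, ∏ i, χ i ^ a j i = 1} = Nat.card f.ker := by
    apply Nat.card_congr
    refine Equiv.subtypeEquivRight (fun χ => ?_)
    rw [MonoidHom.mem_ker]
    exact funext_iff.symm
  rw [h3]
  have hq : 0 < q - 1 := by
    have := (Fact.out : q.Prime).two_le
    omega
  have h4 : (q - 1) ^ (n - m) * (q - 1) ^ m ≤ Nat.card f.ker * (q - 1) ^ m := by
    rw [← pow_add, Nat.sub_add_cancel hmn, ← h1]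
    exact Nat.mul_le_mul_left _ h2
  exact Nat.le_of_mul_le_mul_right h4 (pow_pos hq m)

end Pool.Agent.MIso
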