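import Pool.Agent.MIso.H2a
import Pool.Agent.MIso.H2b
import Pool.Agent.MIso.H2c
import Pool.Agent.MIso.H2d

set_option autoImplicit false

/-! Block H2e: one prime. -/

namespace Pool.Agent.MIso

namespace H2eaux

open Finset

/-- A sum of independent variables, a part of which has the common minimal value. -/
theorem part_atoms {X : Type} [Fintype X] [DecidableEq X] {Ω : X → Type} [∀ x, Fintype (Ω x)]
    (Y : ∀ x, Ω x → ℕ) (P : X → Prop) [DecidablePred P] (y0 : ℕ)
    (hy : ∀ x, P x → ∀ ω, y0 ≤ Y x ω) (ρ : ℝ)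
    (hρ : ∀ x, P x → (Nat.card {ω : Ω x // Y x ω = y0} : ℝ) = ρ * Nat.card (Ω x))
    (N : ℕ) (hN : N ≤ Fintype.card {x // P x}) (h1 : 1 / 9 ≤ ρ ^ N) (h2 : ρ ^ N ≤ 8 / 9) (s : ℕ) :
    (Nat.card {ω : ∀ x, Ω x // ∑ x, Y x (ω x) = s} : ℝ) ≤ 8 / 9 * Nat.card (∀ x, Ω x) := by
  classical
  let A : Type := ∀ x : {x // P x}, Ω x
  let B : Type := ∀ x : {x // ¬ P x}, Ω x
  let E : (∀ x, Ω x) ≃ A × B := Equiv.piEquivPiSubtypeProd P Ω
  have hsum : ∀ ω : ∀ x, Ω x, ∑ x, Y x (ω x) =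
      (∑ x : {x // P x}, Y x ((E ω).1 x)) + ∑ x : {x // ¬ P x}, Y x ((E ω).2 x) := by
    intro ω
    rw [← Fintype.sum_subtype_add_sum_subtype P (fun x => Y x (ω x))]
    rfl
  have hc1 : Nat.card {ω : ∀ x, Ω x // ∑ x, Y x (ω x) = s} =
      Nat.card {z : A × B // (∑ x : {x // P x}, Y x (z.1 x)) +
        ∑ x : {x // ¬ P x}, Y x (z.2 x) = s} := by
    refine Nat.card_congr (Equiv.subtypeEquiv E fun ω => ?_)
    rw [hsum ω]
  have hc2 : Nat.card {z : A × B // (∑ x : {x // P x}, Y x (z.1 x)) +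
        ∑ x : {x // ¬ P x}, Y x (z.2 x) = s} =
      ∑ b : B, Nat.card {a : A // (∑ x : {x // P x}, Y x (a x)) +
        ∑ x : {x // ¬ P x}, Y x (b x) = s} := by
    rw [← Nat.card_sigma]
    refine Nat.card_congr ?_
    exact
      { toFun := fun z => ⟨z.1.2, ⟨z.1.1, z.2⟩⟩
        invFun := fun w => ⟨(w.2.1, w.1), w.2.2⟩
        left_inv := fun z => rfl
        right_inv := fun w => rfl }
  have hc3 : ∀ b : B, (Nat.card {a : A // (∑ x : {x // P x}, Y x (a x)) +
        ∑ x : {x // ¬ P x}, Y x (b x) = s} : ℝ) ≤ 8 / 9 * Nat.card A := by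
    intro b
    by_cases hs : ∑ x : {x // ¬ P x}, Y x (b x) ≤ s
    · have h := atoms (fun x : {x // P x} => Y x.1) y0 (fun x => hy x.1 x.2) ρ
        (fun x => hρ x.1 x.2) N hN h1 h2 (s - ∑ x : {x // ¬ P x}, Y x (b x))
      have he : Nat.card {a : A // (∑ x : {x // P x}, Y x (a x)) +
            ∑ x : {x // ¬ P x}, Y x (b x) = s} =
          Nat.card {a : A // ∑ x : {x // P x}, Y x (a x) =
            s - ∑ x : {x // ¬ P x}, Y x (b x)} := by
        refine Nat.card_congr (Equiv.subtypeEquivRight fun a => ?_)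
        omega
      rw [he]
      exact h
    · have : IsEmpty {a : A // (∑ x : {x // P x}, Y x (a x)) +
            ∑ x : {x // ¬ P x}, Y x (b x) = s} := by
        refine ⟨fun a => ?_⟩
        have := a.2
        omega
      rw [Nat.card_of_isEmpty]
      have : (0 : ℝ) ≤ Nat.card A := Nat.cast_nonneg _
      push_cast
      linarith
  have hE : Nat.card (∀ x, Ω x) = Nat.card A * Nat.card B := by
    rw [Nat.card_congr E, Nat.card_prod]
  rw [hc1, hc2, hE]
  push_cast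
  calc ∑ b : B, (Nat.card {a : A // (∑ x : {x // P x}, Y x (a x)) +
        ∑ x : {x // ¬ P x}, Y x (b x) = s} : ℝ)
      ≤ ∑ _b : B, 8 / 9 * (Nat.card A : ℝ) := Finset.sum_le_sum fun b _ => hc3 b
    _ = 8 / 9 * ((Nat.card A : ℝ) * Nat.card B) := by
        rw [Finset.sum_const, Finset.card_univ, nsmul_eq_mul, Nat.card_eq_fintype_card (α := B)]
        ring

/-- The translations at one character. -/
abbrev Om (q n m : ℕ) (χ : Fin n → (ZMod q)ˣ) : Type :=
  {f : Fin m → Fin n → ZMod q //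
    ∀ j, ∑ i, f j i * ((χ i : ZMod q) - 1) = 0 ∧ (χ = 1 → f j = 0)}

/-- The solutions at one character. -/
noncomputable def Y (q n m : ℕ) (h : (Fin n → (ZMod q)ˣ) → Fin m → AffN q n)
    (χ : Fin n → (ZMod q)ˣ) (f : Om q n m χ) : ℕ :=
  Nat.card {b : Fin n → ZMod q //
    ∀ j, (h χ j).c = 1 ∧ ∑ i, ((h χ j).v i + (h χ j).c * f.1 j i) * b i = 0}

/-- The translation of the rows. -/
def trf (q n m : ℕ) (h : (Fin n → (ZMod q)ˣ) → Fin m → AffN q n) (χ : Fin n → (ZMod q)ˣ)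
    (hχ : χ ≠ 1) (hv : ∀ j, ∑ i, (h χ j).v i * ((χ i : ZMod q) - 1) = 0) :
    Om q n m χ ≃ (Fin m → {u : Fin n → ZMod q // ∑ i, u i * ((χ i : ZMod q) - 1) = 0}) where
  toFun f := fun j => ⟨fun i => (h χ j).v i + f.1 j i, by
    simp only [add_mul, Finset.sum_add_distrib, hv j, (f.2 j).1, add_zero]⟩
  invFun J := ⟨fun j i => (J j).1 i - (h χ j).v i, fun j => ⟨by
    simp only [sub_mul, Finset.sum_sub_distrib, hv j]
    rw [(J j).2, sub_zero], fun h0 => absurd h0 hχ⟩⟩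
  left_inv f := by
    ext j i
    simp
  right_inv J := by
    ext j i
    simp

end H2eaux

open H2eaux in
/-- H2e. One prime (uses H2a - H2d). -/
theorem per_prime (n m : ℕ) (hm : 1 ≤ m) (hmn : m < n) :
    ∃ q0 : ℕ, ∀ q : ℕ, q0 ≤ q → Fact q.Prime →
      ∀ h : (Fin n → (ZMod q)ˣ) → Fin m → AffN q n,
        (∀ χ j, ∑ i, (h χ j).v i * ((χ i : ZMod q) - 1) = ((h χ j).c : ZMod q) - 1) →
        (∃ a : Fin m → Fin n → ℤ, ∀ χ j, (h χ j).c = ∏ i, χ i ^ a j i) →
        ∀ s : ℕ,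
          (Nat.card {e : EE q n m // cnt q n m (fun χ j => h χ j * ⟨e.1 χ j, 1⟩) = s} : ℝ)
            ≤ 8 / 9 * Nat.card (EE q n m) := by
  classical
  obtain ⟨q0, hq0⟩ := rho_bounds n m hm hmn
  refine ⟨q0, fun q hq hp h hfund ha s => ?_⟩
  obtain ⟨N, hN, hr1, hr2⟩ := hq0 q hq
  obtain ⟨a, ha⟩ := ha
  have : Fact q.Prime := hp
  let E : EE q n m ≃ ∀ χ : Fin n → (ZMod q)ˣ, Om q n m χ :=
    Equiv.subtypePiEquivPi (p := fun {χ : Fin n → (ZMod q)ˣ} (f : Fin m → Fin n → ZMod q) =>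
      ∀ j, ∑ i, f j i * ((χ i : ZMod q) - 1) = 0 ∧ (χ = 1 → f j = 0))
  have hcnt : ∀ e : EE q n m, cnt q n m (fun χ j => h χ j * ⟨e.1 χ j, 1⟩) =
      ∑ χ, Y q n m h χ (E e χ) := by
    intro e
    unfold cnt Y
    rw [← Nat.card_sigma]
    refine Nat.card_congr ?_
    exact
      { toFun := fun z => ⟨z.1.1, ⟨z.1.2, fun j => by
          have h1 := z.2 j
          simp only [AffN.mul_c, AffN.mul_v, mul_one] at h1
          exact h1⟩⟩
        invFun := fun w => ⟨(w.1, w.2.1), fun j => by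
          have h1 := w.2.2 j
          simp only [AffN.mul_c, AffN.mul_v, mul_one]
          exact h1⟩
        left_inv := fun z => rfl
        right_inv := fun w => rfl }
  let P : (Fin n → (ZMod q)ˣ) → Prop := fun χ => χ ≠ 1 ∧ ∀ j, (h χ j).c = 1
  have hY : ∀ χ, ∀ hP : P χ, ∃ T : Om q n m χ ≃
      (Fin m → {u : Fin n → ZMod q // ∑ i, u i * ((χ i : ZMod q) - 1) = 0}),
      ∀ f, Y q n m h χ f = Nat.card {b : Fin n → ZMod q // ∀ j, ∑ i, (T f j).1 i * b i = 0} := by
    intro χ hP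
    have hv : ∀ j, ∑ i, (h χ j).v i * ((χ i : ZMod q) - 1) = 0 := by
      intro j
      rw [hfund χ j, hP.2 j]
      simp
    refine ⟨trf q n m h χ hP.1 hv, fun f => ?_⟩
    unfold Y
    refine Nat.card_congr (Equiv.subtypeEquivRight fun b => ?_)
    refine forall_congr' fun j => ?_
    rw [hP.2 j]
    simp [trf]
  have hcard : N ≤ Fintype.card {χ // P χ} := by
    have h1 := char_count q n m hmn.le a
    have h2 : Nat.card {χ : Fin n → (ZMod q)ˣ // ∀ j, ∏ i, χ i ^ a j i = 1} ≤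
        Nat.card {χ // P χ} + 1 := by
      have hinj : Function.Injective
          (fun χ : {χ : Fin n → (ZMod q)ˣ // ∀ j, ∏ i, χ i ^ a j i = 1} =>
            if hχ : χ.1 = 1 then (none : Option {χ // P χ}) else
              some ⟨χ.1, hχ, fun j => by rw [ha]; exact χ.2 j⟩) := by
        intro χ χ' hh
        by_cases h3 : χ.1 = 1
        · by_cases h4 : χ'.1 = 1
          · exact Subtype.ext (h3.trans h4.symm)
          · simp [h3, h4] at hh
        · by_cases h4 : χ'.1 = 1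
          · simp [h3, h4] at hh
          · simp only [h3, h4, dif_neg, not_false_iff, Option.some.injEq, Subtype.mk.injEq] at hh
            exact Subtype.ext hh
      have := Nat.card_le_card_of_injective _ hinj
      rw [Finite.card_option] at this
      exact this
    rw [← Nat.card_eq_fintype_card]
    omega
  have hmain := part_atoms (fun χ => Y q n m h χ) P (q ^ (n - m))
    (fun χ hP f => by
      obtain ⟨T, hT⟩ := hY χ hP
      rw [hT f]
      exact (rank_count q n m hmn χ hP.1).1 (T f))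
    (∏ i : Fin m, (1 - (q : ℝ) ^ (i : ℕ) / (q : ℝ) ^ (n - 1)))
    (fun χ hP => by
      obtain ⟨T, hT⟩ := hY χ hP
      have h1 := (rank_count q n m hmn χ hP.1).2
      rw [Nat.card_congr T, ← h1]
      congr 1
      refine Nat.card_congr (Equiv.subtypeEquiv T fun f => ?_)
      rw [hT f])
    N hcard hr1 hr2 s
  have hc1 : Nat.card {e : EE q n m // cnt q n m (fun χ j => h χ j * ⟨e.1 χ j, 1⟩) = s} =
      Nat.card {ω : ∀ χ, Om q n m χ // ∑ χ, Y q n m h χ (ω χ) = s} := by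
    refine Nat.card_congr (Equiv.subtypeEquiv E fun e => ?_)
    rw [hcnt e]
  rw [hc1, Nat.card_congr E]
  exact hmain

end Pool.Agent.MIso
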