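import Pool.Agent.MIso.Defs
import Pool.Agent.MIso.H0
import Pool.Agent.MIso.H1
import Pool.Agent.MIso.H2e

set_option autoImplicit false

/-! Block H3 (uses H0a, H0b, H1, H2e). -/

namespace Pool.Agent.MIso

namespace H3aux

theorem primes (q0 k : ℕ) : ∃ q : Fin k → ℕ, Function.Injective q ∧ ∀ i, (q i).Prime ∧ q0 ≤ q i := by
  have hinf : {p : ℕ | p.Prime ∧ q0 ≤ p}.Infinite := by
    rw [Set.infinite_iff_exists_gt]
    intro a
    obtain ⟨p, hp, hp'⟩ := Nat.exists_infinite_primes (max q0 (a + 1))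
    exact ⟨p, ⟨hp', (le_max_left _ _).trans hp⟩, (Nat.lt_succ_self a).trans_le
      ((le_max_right _ _).trans hp)⟩
  have f := hinf.natEmbedding
  refine ⟨fun i => (f i.1 : ℕ), fun i j h => ?_, fun i => (f i.1).2⟩
  exact Fin.ext (f.injective (Subtype.ext h))

theorem avg {H E : Type} [Group H] [Finite H] [Finite E] [Nonempty E] (T : E → H) (B : H → Prop)
    (c : ℝ) (hc : ∀ h : H, (Nat.card {e : E // B (h * T e)} : ℝ) ≤ c * Nat.card E) :
    (Nat.card {h : H // B h} : ℝ) ≤ c * Nat.card H := by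
  classical
  have := Fintype.ofFinite H
  have e1 : Nat.card {p : H × E // B (p.1 * T p.2)} = Nat.card {h : H // B h} * Nat.card E := by
    rw [← Nat.card_prod]
    refine Nat.card_congr
      { toFun := fun p => (⟨p.1.1 * T p.1.2, p.2⟩, p.1.2)
        invFun := fun p => ⟨(p.1.1 * (T p.2)⁻¹, p.2), by
          simpa only [inv_mul_cancel_right] using p.1.2⟩
        left_inv := fun p => by
          apply Subtype.ext
          simp only [mul_inv_cancel_right]
        right_inv := fun p => by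
          simp only [inv_mul_cancel_right] }
  have e2 : Nat.card {p : H × E // B (p.1 * T p.2)} =
      ∑ h : H, Nat.card {e : E // B (h * T e)} := by
    rw [Nat.card_congr (Equiv.subtypeProdEquivSigmaSubtype fun h e => B (h * T e)),
      Nat.card_sigma]
  have hE : 0 < (Nat.card E : ℝ) := by exact_mod_cast Nat.card_pos
  have e3 : (Nat.card {h : H // B h} : ℝ) * Nat.card E ≤ c * Nat.card H * Nat.card E := by
    calc (Nat.card {h : H // B h} : ℝ) * Nat.card E
        = ((Nat.card {h : H // B h} * Nat.card E : ℕ) : ℝ) := by push_cast; ring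
      _ = ∑ h : H, (Nat.card {e : E // B (h * T e)} : ℝ) := by
          rw [← e1, e2]; push_cast; rfl
      _ ≤ ∑ _h : H, c * (Nat.card E : ℝ) := Finset.sum_le_sum fun h _ => hc h
      _ = c * Nat.card H * Nat.card E := by
          rw [Finset.sum_const, Finset.card_univ, nsmul_eq_mul, Nat.card_eq_fintype_card (α := H)]
          ring
  exact le_of_mul_le_mul_right e3 hE

end H3aux

open H3aux in
/-- H3 (uses H0a, H0b, H1, H2e). -/
theorem haar_lt (n m : ℕ) (hm : 1 ≤ m) (hmn : m < n) (η : ℝ) (hη : 0 < η) :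
    ∃ (k : ℕ) (q : Fin k → ℕ), (∀ i, (q i).Prime) ∧ ∀ s : Fin k → ℕ,
      (Nat.card {h : Fin m → WA q n //
        ∀ i, cnt (q i) n m (fun χ j => (h j : Amb q n) ⟨i, χ⟩) = s i} : ℝ)
        ≤ η * (Nat.card (WA q n) : ℝ) ^ m := by
  obtain ⟨q0, hq0⟩ := per_prime n m hm hmn
  obtain ⟨k, hk⟩ := exists_pow_lt_of_lt_one hη (show (8 / 9 : ℝ) < 1 by norm_num)
  obtain ⟨q, hinj, hq⟩ := primes q0 k
  refine ⟨k, q, fun i => (hq i).1, fun s => ?_⟩
  have hF : ∀ i, Fact (q i).Prime := fun i => ⟨(hq i).1⟩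
  have hN : ∀ i, NeZero (q i) := fun i => ⟨(hq i).1.ne_zero⟩
  have : Finite (Idx q n) := inferInstance
  have : Finite (Amb q n) := inferInstance
  have : Finite (WA q n) := inferInstance
  have : ∀ i, Finite (EE (q i) n m) := fun i => inferInstance
  have : ∀ i, Nonempty (EE (q i) n m) := fun i =>
    ⟨⟨0, fun χ j => ⟨by simp, fun _ => rfl⟩⟩⟩
  -- the translations
  have hT : ∀ (e : ∀ i, EE (q i) n m) (j : Fin m),
      ((fun z => ⟨(e z.1).1 z.2 j, 1⟩ : Amb q n)) ∈ WA q n := by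
    intro e j
    refine amb_surj q hinj n (fun z => (e z.1).1 z.2 j) (fun z => ?_) (fun z hz => ?_)
    · exact ((e z.1).2 z.2 j).1
    · exact ((e z.1).2 z.2 j).2 hz
  have key := avg (H := Fin m → WA q n) (E := ∀ i, EE (q i) n m)
    (fun e j => ⟨_, hT e j⟩)
    (fun h => ∀ i, cnt (q i) n m (fun χ j => (h j : Amb q n) ⟨i, χ⟩) = s i)
    ((8 / 9) ^ k) ?_
  · refine key.trans ?_
    rw [Nat.card_fun, Nat.card_eq_fintype_card (α := Fin m), Fintype.card_fin]
    push_cast
    exact mul_le_mul_of_nonneg_right hk.le (by positivity)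
  · intro h
    have e1 : Nat.card {e : ∀ i, EE (q i) n m // ∀ i, cnt (q i) n m (fun χ j =>
        (((h * fun j => (⟨_, hT e j⟩ : WA q n)) j : WA q n) : Amb q n) ⟨i, χ⟩) = s i} =
        ∏ i, Nat.card {e : EE (q i) n m // cnt (q i) n m (fun χ j =>
          (h j : Amb q n) ⟨i, χ⟩ * ⟨e.1 χ j, 1⟩) = s i} := by
      rw [← Nat.card_pi]
      exact Nat.card_congr (Equiv.subtypePiEquivPi (p := fun i (e : EE (q i) n m) =>
        cnt (q i) n m (fun χ j => (h j : Amb q n) ⟨i, χ⟩ * ⟨e.1 χ j, 1⟩) = s i))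
    rw [e1]
    push_cast
    rw [Nat.card_pi]
    push_cast
    have e2 : (8 / 9 : ℝ) ^ k * ∏ i, (Nat.card (EE (q i) n m) : ℝ) =
        ∏ i : Fin k, (8 / 9 * (Nat.card (EE (q i) n m) : ℝ)) := by
      rw [Finset.prod_mul_distrib, Finset.prod_const, Finset.card_univ, Fintype.card_fin]
    rw [e2]
    refine Finset.prod_le_prod (fun i _ => by positivity) fun i _ => ?_
    refine hq0 (q i) (hq i).2 (hF i) (fun χ j => (h j : Amb q n) ⟨i, χ⟩) (fun χ j => ?_) ?_ (s i)
    · exact fund_rel q n (h j : Amb q n) (h j).2 ⟨i, χ⟩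
    · have := fun j => exps q n (h j : Amb q n) (h j).2
      choose a ha using this
      exact ⟨a, fun χ j => ha j ⟨i, χ⟩⟩

end Pool.Agent.MIso
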