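import Pool.Agent.MIso.C3a

set_option autoImplicit false

namespace Pool.Agent.MIso

namespace HCaux

/-- the linear part `Aff q → (ZMod q)ˣ` -/
def cHom (q : ℕ) : Aff q →* (ZMod q)ˣ where
  toFun a := a.c
  map_one' := rfl
  map_mul' _ _ := rfl

theorem metab (q : ℕ) : derivedSeries (Aff q) 2 = ⊥ := by
  have h1 : derivedSeries (Aff q) 1 ≤ (cHom q).ker := by
    rw [derivedSeries_succ, derivedSeries_zero, Subgroup.commutator_le]
    intro a _ b _
    rw [MonoidHom.mem_ker, map_commutatorElement, commutatorElement_eq_one_iff_mul_comm, mul_comm]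
  rw [derivedSeries_succ, eq_bot_iff, Subgroup.commutator_le]
  intro a ha b hb
  have ha' : a.c = 1 := h1 ha
  have hb' : b.c = 1 := h1 hb
  rw [Subgroup.mem_bot, commutatorElement_eq_one_iff_mul_comm]
  ext
  · simp only [Aff.mul_v, ha', hb', Units.val_one, one_mul]
    rw [add_comm]
  · simp [ha', hb']

/-- `(v, c) ↦ (∑ v_i b_i, c)` -/
def phi {q n : ℕ} (b : Fin n → ZMod q) : AffN q n →* Aff q where
  toFun a := ⟨∑ i, a.v i * b i, a.c⟩
  map_one' := by ext <;> simp
  map_mul' x y := by
    ext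
    · simp only [AffN.mul_v, Aff.mul_v, add_mul, Finset.sum_add_distrib, Finset.mul_sum]
      congr 1
      refine Finset.sum_congr rfl fun i _ => ?_
      ring
    · simp

theorem phi_fox {q n : ℕ} (b : Fin n → ZMod q) (χ : Fin n → (ZMod q)ˣ) (i : Fin n) :
    phi b (foxGen χ i) = ⟨b i, χ i⟩ := by
  ext
  · change ∑ t, (Pi.single i 1 : Fin n → ZMod q) t * b t = b i
    rw [Finset.sum_eq_single i]
    · simp
    · intro t _ ht
      simp [Pi.single_eq_of_ne ht]
    · intro h
      exact absurd (Finset.mem_univ i) h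
  · rfl

theorem ev_map {n : ℕ} {Γ Δ : Type*} [Group Γ] [Group Δ] (f : Γ →* Δ) (g : Fin n → Γ)
    (w : List (Fin n × Bool)) : f (ev g w) = ev (fun i => f (g i)) w := by
  unfold ev
  rw [map_list_prod, List.map_map]
  congr 1
  refine List.map_congr_left fun a _ => ?_
  rcases a with ⟨i, b⟩
  cases b <;> simp

theorem lift_eq_ev {n : ℕ} {Γ : Type*} [Group Γ] (g : Fin n → Γ) (w : List (Fin n × Bool)) :
    FreeGroup.lift (fun i : ℕ => if h : i < n then g ⟨i, h⟩ else 1)
      (FreeGroup.mk (w.map fun a => ((a.1 : ℕ), a.2))) = ev g w := by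
  rw [FreeGroup.lift_mk, List.map_map]
  unfold ev
  congr 1
  refine List.map_congr_left fun a _ => ?_
  simp [a.1.2]

theorem main {n m l : ℕ} (q : ℕ) (r : Fin m → Words n l) :
    Nat.card {g : Fin n → Aff q // ∀ j, ev g (r j).1 = 1} =
      cnt q n m (fun χ j => ev (foxGen χ) (r j).1) := by
  unfold cnt
  refine Nat.card_congr ?_
  let e : (Fin n → Aff q) ≃ (Fin n → (ZMod q)ˣ) × (Fin n → ZMod q) :=
    { toFun := fun g => (fun i => (g i).c, fun i => (g i).v)
      invFun := fun z i => ⟨z.2 i, z.1 i⟩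
      left_inv := fun g => rfl
      right_inv := fun z => rfl }
  refine Equiv.subtypeEquiv e ?_
  intro g
  refine forall_congr' fun j => ?_
  have h1 : ev g (r j).1 = phi (fun i => (g i).v) (ev (foxGen (fun i => (g i).c)) (r j).1) := by
    rw [ev_map]
    congr 1
    funext i
    rw [phi_fox]
  rw [h1]
  constructor
  · intro h
    refine ⟨congrArg Aff.c h, congrArg Aff.v h⟩
  · intro h
    exact Aff.ext h.2 h.1

end HCaux

/-- HC. Number of homomorphisms to the affine group (uses C3a). -/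
theorem card_hom_aff {n m l : ℕ} (q : ℕ) [NeZero q] (r : Fin m → Words n l) :
    Nat.card (Met (pres r) →* Aff q) =
      cnt q n m (fun χ j => ev (foxGen χ) (r j).1) := by
  rw [card_hom (pres r) (Aff q) (HCaux.metab q), ← HCaux.main]
  refine Nat.card_congr (Equiv.subtypeEquivRight ?_)
  intro g
  constructor
  · intro h j
    refine (HCaux.lift_eq_ev (n := n) g (r j).1).symm.trans (h _ ?_)
    exact (List.mem_ofFn (f := fun j => (r j).1.map fun a => ((a.1 : ℕ), a.2))).2 ⟨j, rfl⟩
  · intro h w hw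
    obtain ⟨j, rfl⟩ :=
      (List.mem_ofFn (f := fun j => (r j).1.map fun a => ((a.1 : ℕ), a.2))).1 hw
    exact (HCaux.lift_eq_ev (n := n) g (r j).1).trans (h j)

end Pool.Agent.MIso
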