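import Pool.Agent.MIso.R2
import Pool.Agent.MIso.H3
import Pool.Agent.MIso.HC

set_option autoImplicit false

namespace Pool.Agent.MIso

namespace F1

theorem ev_hom {n : ℕ} {Γ Δ : Type*} [Group Γ] [Group Δ] (f : Γ →* Δ) (g : Fin n → Γ)
    (w : List (Fin n × Bool)) : f (ev g w) = ev (fun t => f (g t)) w := by
  unfold ev
  rw [map_list_prod, List.map_map]
  congr 1
  apply List.map_congr_left
  rintro ⟨i, ε⟩ _
  cases ε <;> simp

theorem ev_amb {k : ℕ} (q : Fin k → ℕ) (n : ℕ) (z : Idx q n) (w : List (Fin n × Bool)) :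
    ev (ambGen q n) w z = ev (foxGen z.2) w :=
  ev_hom (Pi.evalMonoidHom (fun z : Idx q n => AffN (q z.1) n) z) (ambGen q n) w

/-- The linear part of an affine map. -/
def lin (q : ℕ) : Aff q →* (ZMod q)ˣ where
  toFun a := a.c
  map_one' := rfl
  map_mul' _ _ := rfl

theorem derived_aff (q : ℕ) : derivedSeries (Aff q) 2 = ⊥ := by
  have h1 : ∀ a ∈ derivedSeries (Aff q) 1, a.c = 1 := by
    have : derivedSeries (Aff q) 1 ≤ (lin q).ker := by
      rw [show (1 : ℕ) = 0 + 1 from rfl, derivedSeries_succ, Subgroup.commutator_le]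
      intro a _ b _
      rw [MonoidHom.mem_ker, map_commutatorElement, commutatorElement_eq_one_iff_mul_comm]
      exact mul_comm _ _
    intro a ha
    exact this ha
  rw [show (2 : ℕ) = 1 + 1 from rfl, derivedSeries_succ, eq_bot_iff, Subgroup.commutator_le]
  intro a ha b hb
  rw [Subgroup.mem_bot, commutatorElement_eq_one_iff_mul_comm]
  have h2 := h1 a ha
  have h3 := h1 b hb
  ext
  · simp [h2, h3, add_comm]
  · simp [mul_comm]

instance {k : ℕ} (q : Fin k → ℕ) [∀ i, NeZero (q i)] (n : ℕ) : Finite (Idx q n) := by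
  unfold Idx
  infer_instance

end F1

/-- F1 (uses H3, HC, R2). -/
theorem sep_lt (n m : ℕ) (hm : 1 ≤ m) (hmn : m < n) (ε : ℝ) (hε : 0 < ε) :
    ∃ L : ℕ, ∀ l ≥ L, ∀ P : Pres,
      (Nat.card {r : Fin m → Words n l // ¬ Sep P (pres r)} : ℝ)
        ≤ ε * (Nat.card (Words n l) : ℝ) ^ m := by
  have hη : 0 < ε / 2 ^ (m + 1) := by positivity
  obtain ⟨k, q, hq, hH⟩ := haar_lt n m hm hmn _ hη
  have : ∀ i, NeZero (q i) := fun i => ⟨(hq i).ne_zero⟩
  have : Finite (Idx q n) := inferInstance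
  have : ∀ z : Idx q n, Finite (AffN (q z.1) n) := fun z => inferInstance
  have : Finite (Amb q n) := inferInstance
  obtain ⟨L, hL⟩ := rw_joint m (ambGen q n) (ε / 2) (by positivity)
  refine ⟨L, fun l hl P => ?_⟩
  set s : Fin k → ℕ := fun i => Nat.card (Met P →* Aff (q i)) with hs
  set S : Set (Fin m → Amb q n) :=
    {h | ∀ i, cnt (q i) n m (fun χ j => h j ⟨i, χ⟩) = s i} with hS
  have hsub : ∀ r : Fin m → Words n l, ¬ Sep P (pres r) →
      (fun j => ev (ambGen q n) (r j).1) ∈ S := by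
    intro r hr i
    by_contra hne
    apply hr
    refine ⟨Aff (q i), inferInstance, inferInstance, F1.derived_aff (q i), ?_⟩
    intro heq
    apply hne
    rw [hs]
    simp only
    rw [heq, card_hom_aff (q i) r]
    congr 1
    funext χ j
    exact F1.ev_amb q n ⟨i, χ⟩ (r j).1
  have h1 : (Nat.card {r : Fin m → Words n l // ¬ Sep P (pres r)} : ℝ) ≤
      (Nat.card {r : Fin m → Words n l // (fun j => ev (ambGen q n) (r j).1) ∈ S} : ℝ) := by
    exact_mod_cast Nat.card_le_card_of_injective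
      (fun r : {r : Fin m → Words n l // ¬ Sep P (pres r)} =>
        (⟨r.1, hsub r.1 r.2⟩ :
          {r : Fin m → Words n l // (fun j => ev (ambGen q n) (r j).1) ∈ S}))
      (fun a b h => Subtype.ext (by
        have h' := congrArg (fun x => x.1) h
        exact h'))
  refine h1.trans ((hL l hl S).trans ?_)
  refine mul_le_mul_of_nonneg_right ?_ (by positivity)
  have h2 := hH s
  have hpos : (0 : ℝ) < (Nat.card (WA q n) : ℝ) ^ m := by
    have : 0 < Nat.card (WA q n) := Nat.card_pos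
    positivity
  have h3 : (2 : ℝ) ^ m * (Nat.card {h : Fin m → WA q n //
        (fun j => (h j : Amb q n)) ∈ S} : ℝ) / (Nat.card (WA q n) : ℝ) ^ m ≤ ε / 2 := by
    rw [div_le_iff₀ hpos]
    calc (2 : ℝ) ^ m * (Nat.card {h : Fin m → WA q n //
        (fun j => (h j : Amb q n)) ∈ S} : ℝ)
        ≤ 2 ^ m * (ε / 2 ^ (m + 1) * (Nat.card (WA q n) : ℝ) ^ m) :=
          mul_le_mul_of_nonneg_left h2 (by positivity)
      _ = ε / 2 * (Nat.card (WA q n) : ℝ) ^ m := by
          rw [pow_succ]; field_simp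
  have h4 : (2 : ℝ) ^ m * (Nat.card {h : Fin m → Subgroup.closure (Set.range (ambGen q n)) //
        (fun j => (h j : Amb q n)) ∈ S} : ℝ) /
        (Nat.card (Subgroup.closure (Set.range (ambGen q n))) : ℝ) ^ m ≤ ε / 2 := h3
  linarith

end Pool.Agent.MIso
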