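import Pool.Agent.MIso.R2
import Pool.Agent.MIso.E1
import Pool.Agent.MIso.E2
import Pool.Agent.MIso.E3
import Pool.Agent.MIso.E4

set_option autoImplicit false

namespace Pool.Agent.MIso

namespace F2

/-- The ambient abelian group. -/
abbrev AA {k : ℕ} (q : Fin k → ℕ) (n : ℕ) : Type :=
  Multiplicative (∀ i : Fin k, Fin n → ZMod (q i))

/-- Its generators. -/
abbrev gg {k : ℕ} (q : Fin k → ℕ) (n : ℕ) (t : Fin n) : AA q n :=
  Multiplicative.ofAdd (fun (i : Fin k) => (Pi.single t 1 : Fin n → ZMod (q i)))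

theorem ev_gg {k : ℕ} (q : Fin k → ℕ) (n : ℕ) (w : List (Fin n × Bool)) (i : Fin k) (t : Fin n) :
    Multiplicative.toAdd (ev (gg q n) w) i t = (expo w t : ZMod (q i)) := by
  have h := E4.ev_ofAdd
    (fun t : Fin n => (fun (i : Fin k) => (Pi.single t 1 : Fin n → ZMod (q i)))) w
  have h' : ev (gg q n) w = Multiplicative.ofAdd
    (∑ t, expo w t • (fun (i : Fin k) => (Pi.single t 1 : Fin n → ZMod (q i)))) := h
  rw [h', toAdd_ofAdd, Finset.sum_apply, Finset.sum_apply]
  simp only [Pi.smul_apply]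
  rw [Finset.sum_eq_single t]
  · simp
  · intro b _ hb
    simp [Pi.single_apply, hb.symm]
  · simp

/-- The number of solutions attached to a matrix. -/
noncomputable def sol (q n : ℕ) (V : Fin n → Fin n → ZMod q) : ℕ :=
  Nat.card {b : Fin n → ZMod q // ∀ j, ∑ t, V j t * b t = 0}

/-- Tuples of elements of `AA` with prescribed numbers of solutions. -/
theorem count {k : ℕ} (q : Fin k → ℕ) (hq : ∀ i, (q i).Prime ∧ 3 ≤ q i) (n : ℕ) (hn : 1 ≤ n)
    (s : Fin k → ℕ) :
    (Nat.card {h : Fin n → AA q n //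
        ∀ i, sol (q i) n (fun j t => Multiplicative.toAdd (h j) i t) = s i} : ℝ)
      ≤ (∏ i, (1 - 1 / (q i : ℝ))) * (Nat.card (AA q n) : ℝ) ^ n := by
  have hne : ∀ i, NeZero (q i) := fun i => ⟨(hq i).1.ne_zero⟩
  have e : {h : Fin n → AA q n //
        ∀ i, sol (q i) n (fun j t => Multiplicative.toAdd (h j) i t) = s i} ≃
      (∀ i, {V : Fin n → Fin n → ZMod (q i) // sol (q i) n V = s i}) :=
    { toFun := fun h i => ⟨fun j t => Multiplicative.toAdd (h.1 j) i t, h.2 i⟩
      invFun := fun V => ⟨fun j => Multiplicative.ofAdd (fun i t => (V i).1 j t),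
        fun i => (V i).2⟩
      left_inv := fun h => rfl
      right_inv := fun V => rfl }
  have e' : (Fin n → AA q n) ≃ (∀ i, Fin n → Fin n → ZMod (q i)) :=
    { toFun := fun h i j t => Multiplicative.toAdd (h j) i t
      invFun := fun V j => Multiplicative.ofAdd (fun i t => V i j t)
      left_inv := fun h => rfl
      right_inv := fun V => rfl }
  have hc : (Nat.card (AA q n) : ℝ) ^ n = ∏ i, (Nat.card (Fin n → Fin n → ZMod (q i)) : ℝ) := by
    have h1 : Nat.card (Fin n → AA q n) = Nat.card (AA q n) ^ n := by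
      rw [Nat.card_fun]; simp
    have h2 := Nat.card_congr e'
    rw [h1, Nat.card_pi] at h2
    exact_mod_cast h2
  rw [Nat.card_congr e, Nat.card_pi, hc, ← Finset.prod_mul_distrib]
  push_cast
  refine Finset.prod_le_prod (fun i _ => by positivity) (fun i _ => ?_)
  have : Fact (q i).Prime := ⟨(hq i).1⟩
  exact mat_atoms (q i) n (hq i).2 hn (s i)

end F2

/-- F2 (uses E1 - E4, R2). -/
theorem sep_eq (n : ℕ) (hn : 1 ≤ n) (ε : ℝ) (hε : 0 < ε) :
    ∃ L : ℕ, ∀ l ≥ L, ∀ P : Pres,
      (Nat.card {r : Fin n → Words n l // ¬ Sep P (pres r)} : ℝ)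
        ≤ ε * (Nat.card (Words n l) : ℝ) ^ n := by
  have hη : 0 < ε / 2 ^ (n + 1) := by positivity
  obtain ⟨k, q, hinj, hq, hprod⟩ := primes_prod _ hη
  have : ∀ i, NeZero (q i) := fun i => ⟨(hq i).1.ne_zero⟩
  have hfin : Finite (F2.AA q n) :=
    inferInstanceAs (Finite (∀ i : Fin k, Fin n → ZMod (q i)))
  obtain ⟨L, hL⟩ := rw_joint n (F2.gg q n) (ε / 2) (by positivity)
  refine ⟨L, fun l hl P => ?_⟩
  set s : Fin k → ℕ := fun i => Nat.card (Met P →* Multiplicative (ZMod (q i))) with hs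
  set S : Set (Fin n → F2.AA q n) :=
    {h | ∀ i, F2.sol (q i) n (fun j t => Multiplicative.toAdd (h j) i t) = s i} with hS
  have hsub : ∀ r : Fin n → Words n l, ¬ Sep P (pres r) →
      (fun j => ev (F2.gg q n) (r j).1) ∈ S := by
    intro r hr i
    by_contra hne
    apply hr
    refine ⟨Multiplicative (ZMod (q i)), inferInstance,
      inferInstanceAs (Finite (ZMod (q i))), E4.derived_comm _, ?_⟩
    intro heq
    apply hne
    rw [hs]
    simp only
    rw [heq, card_hom_zmod (q i) r]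
    simp only [F2.ev_gg]
    rfl
  have h1 : (Nat.card {r : Fin n → Words n l // ¬ Sep P (pres r)} : ℝ) ≤
      (Nat.card {r : Fin n → Words n l // (fun j => ev (F2.gg q n) (r j).1) ∈ S} : ℝ) := by
    exact_mod_cast Nat.card_le_card_of_injective
      (fun r : {r : Fin n → Words n l // ¬ Sep P (pres r)} =>
        (⟨r.1, hsub r.1 r.2⟩ :
          {r : Fin n → Words n l // (fun j => ev (F2.gg q n) (r j).1) ∈ S}))
      (fun a b h => Subtype.ext (by
        have h' := congrArg (fun x => x.1) h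
        exact h'))
  refine h1.trans ((hL l hl S).trans ?_)
  refine mul_le_mul_of_nonneg_right ?_ (by positivity)
  have htop : Subgroup.closure (Set.range (F2.gg q n)) = ⊤ := gen_prod q (fun i => (hq i).1) hinj n
  rw [htop]
  have h2 := F2.count q hq n hn s
  have e3 : {h : Fin n → (⊤ : Subgroup (F2.AA q n)) // (fun j => (h j : F2.AA q n)) ∈ S} ≃
      {h : Fin n → F2.AA q n //
        ∀ i, F2.sol (q i) n (fun j t => Multiplicative.toAdd (h j) i t) = s i} :=
    { toFun := fun h => ⟨fun j => (h.1 j : F2.AA q n), h.2⟩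
      invFun := fun h => ⟨fun j => ⟨h.1 j, Subgroup.mem_top _⟩, h.2⟩
      left_inv := fun h => rfl
      right_inv := fun h => rfl }
  rw [Nat.card_congr e3, Subgroup.card_top]
  have hpos : (0 : ℝ) < (Nat.card (F2.AA q n) : ℝ) ^ n := by
    have : 0 < Nat.card (F2.AA q n) := Nat.card_pos
    positivity
  have h3 : (2 : ℝ) ^ n * (Nat.card {h : Fin n → F2.AA q n //
        ∀ i, F2.sol (q i) n (fun j t => Multiplicative.toAdd (h j) i t) = s i} : ℝ) /
        (Nat.card (F2.AA q n) : ℝ) ^ n ≤ ε / 2 := by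
    rw [div_le_iff₀ hpos]
    calc (2 : ℝ) ^ n * (Nat.card {h : Fin n → F2.AA q n //
        ∀ i, F2.sol (q i) n (fun j t => Multiplicative.toAdd (h j) i t) = s i} : ℝ)
        ≤ 2 ^ n * ((∏ i, (1 - 1 / (q i : ℝ))) * (Nat.card (F2.AA q n) : ℝ) ^ n) :=
          mul_le_mul_of_nonneg_left h2 (by positivity)
      _ ≤ 2 ^ n * (ε / 2 ^ (n + 1) * (Nat.card (F2.AA q n) : ℝ) ^ n) :=
          mul_le_mul_of_nonneg_left (mul_le_mul_of_nonneg_right hprod (by positivity))
            (by positivity)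
      _ = ε / 2 * (Nat.card (F2.AA q n) : ℝ) ^ n := by
          rw [pow_succ]; field_simp
  linarith

end Pool.Agent.MIso
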