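import Pool.Agent.MIso.Defs

set_option autoImplicit false

namespace Pool.Agent.MIso

namespace G2aaux

/-- A surjective homomorphism from `ℤ^n` to a nontrivial `ℤ/p^a` sends some unit vector to a
unit. -/
theorem exists_unit {n : ℕ} (p a : ℕ) (hp : p.Prime) (ha : 1 ≤ a)
    (f : (Fin n → ℤ) →+ ZMod (p ^ a)) (hf : Function.Surjective f) :
    ∃ i, IsUnit (f (Pi.single i 1)) := by
  have : Fact p.Prime := ⟨hp⟩
  have : NeZero (p ^ a) := ⟨pow_ne_zero _ hp.ne_zero⟩
  by_contra hcon
  rw [not_exists] at hcon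
  have hdvd : p ∣ p ^ a := dvd_pow_self p (by omega)
  have key : ∀ i, ZMod.castHom hdvd (ZMod p) (f (Pi.single i 1)) = 0 := by
    intro i
    have h1 := hcon i
    have h2 : f (Pi.single i 1) = ((f (Pi.single i 1)).val : ZMod (p ^ a)) := by
      rw [ZMod.natCast_val, ZMod.cast_id', id]
    rw [h2] at h1
    rw [ZMod.isUnit_iff_coprime] at h1
    have h3 : ¬ Nat.Coprime (f (Pi.single i 1)).val p := by
      intro h4
      exact h1 (Nat.Coprime.pow_right a h4)
    have h5 : p ∣ (f (Pi.single i 1)).val := by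
      rw [Nat.coprime_comm, Nat.Prime.coprime_iff_not_dvd hp, not_not] at h3
      exact h3
    rw [h2, map_natCast]
    exact (ZMod.natCast_eq_zero_iff _ _).2 h5
  obtain ⟨x, hx⟩ := hf 1
  have hxs : x = ∑ i, x i • (Pi.single i 1 : Fin n → ℤ) := by
    ext j
    simp [Finset.sum_apply, Pi.single_apply]
  have : (ZMod.castHom hdvd (ZMod p)) (f x) = 0 := by
    rw [hxs, map_sum, map_sum]
    apply Finset.sum_eq_zero
    intro i _
    rw [map_zsmul, map_zsmul, key, smul_zero]
  rw [hx, map_one] at this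
  exact one_ne_zero this

end G2aaux

/-- G2a. If `M ℤ^n` is not in the lattice, some prime power not dividing `M` sees it. -/
theorem see_prime {n m : ℕ} (v : Fin m → Fin n → ℤ) (M : ℕ) (hM : 1 ≤ M)
    (h : ¬ ∀ x : Fin n → ℤ, ∃ c : Fin m → ℤ, ∀ i, (M : ℤ) * x i = ∑ j, c j * v j i) :
    ∃ p a : ℕ, p.Prime ∧ 1 ≤ a ∧ ¬ p ^ a ∣ M ∧ ∃ h : Fin n → ZMod (p ^ a),
      (∃ i, IsUnit (h i)) ∧ ∀ j, ∑ i, (v j i : ZMod (p ^ a)) * h i = 0 := by
  classical
  -- enough: a surjective homomorphism killing the lattice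
  suffices H : ∃ p a : ℕ, p.Prime ∧ 1 ≤ a ∧ ¬ p ^ a ∣ M ∧
      ∃ f : (Fin n → ℤ) →+ ZMod (p ^ a), Function.Surjective f ∧ ∀ j, f (v j) = 0 by
    obtain ⟨p, a, hp, ha, hpa, f, hf, hv⟩ := H
    refine ⟨p, a, hp, ha, hpa, fun i => f (Pi.single i 1), G2aaux.exists_unit p a hp ha f hf, ?_⟩
    intro j
    rw [← hv j]
    have hxs : v j = ∑ i, v j i • (Pi.single i 1 : Fin n → ℤ) := by
      ext j
      simp [Finset.sum_apply, Pi.single_apply]
    conv_rhs => rw [hxs, map_sum]
    apply Finset.sum_congr rfl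
    intro i _
    rw [map_zsmul, zsmul_eq_mul]
  rw [not_forall] at h
  obtain ⟨x, hx⟩ := h
  let Λ : AddSubgroup (Fin n → ℤ) := AddSubgroup.closure (Set.range v)
  have hMx : (M : ℤ) • x ∉ Λ := by
    intro hmem
    have hmem' : (M : ℤ) • x ∈ Submodule.span ℤ (Set.range v) := by
      rw [← Submodule.mem_toAddSubgroup, Submodule.span_int_eq_addSubgroupClosure]
      exact hmem
    rw [Submodule.mem_span_range_iff_exists_fun] at hmem'
    obtain ⟨c, hc⟩ := hmem'
    apply hx
    refine ⟨c, fun i => ?_⟩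
    have := congrFun hc i
    simp only [Finset.sum_apply, Pi.smul_apply, smul_eq_mul] at this
    exact this.symm
  let Q := (Fin n → ℤ) ⧸ Λ
  obtain ⟨r, ι, _, p, hp, e, ⟨E⟩⟩ := AddCommGroup.equiv_free_prod_directSum_zmod Q
  let T := DirectSum ι (fun i => ZMod (p i ^ e i))
  have hne : E ((M : ℤ) • (QuotientAddGroup.mk' Λ x)) ≠ 0 := by
    intro h0
    have h1 : (M : ℤ) • (QuotientAddGroup.mk' Λ x) = 0 := by
      apply E.injective
      rw [h0, map_zero]
    rw [← map_zsmul] at h1
    exact hMx ((QuotientAddGroup.eq_zero_iff _).1 h1)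
  rw [map_zsmul] at hne
  set y := E (QuotientAddGroup.mk' Λ x) with hy
  have hmk : Function.Surjective (QuotientAddGroup.mk' Λ) := QuotientAddGroup.mk'_surjective Λ
  have hkill : ∀ j, QuotientAddGroup.mk' Λ (v j) = 0 := by
    intro j
    exact (QuotientAddGroup.eq_zero_iff _).2 (AddSubgroup.subset_closure ⟨j, rfl⟩)
  let F : (Fin n → ℤ) →+ (Fin r →₀ ℤ) × T := (E : Q →+ (Fin r →₀ ℤ) × T).comp
    (QuotientAddGroup.mk' Λ)
  have hF : Function.Surjective F := E.surjective.comp hmk
  have hFv : ∀ j, F (v j) = 0 := by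
    intro j
    change E (QuotientAddGroup.mk' Λ (v j)) = 0
    rw [hkill, map_zero]
  by_cases h1 : (M : ℤ) • y.1 = 0
  · have h2 : (M : ℤ) • y.2 ≠ 0 := by
      intro h2
      apply hne
      exact Prod.ext h1 h2
    have h3 : ∃ i, (M : ℤ) • (y.2 i) ≠ 0 := by
      by_contra hcon
      rw [not_exists] at hcon
      apply h2
      apply DFinsupp.ext
      intro i
      exact not_not.1 (hcon i)
    obtain ⟨i, hi⟩ := h3
    refine ⟨p i, e i, hp i, ?_, ?_, ?_⟩
    · rcases Nat.eq_zero_or_pos (e i) with h0 | h0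
      · exfalso
        apply hi
        have : Subsingleton (ZMod (p i ^ e i)) := by
          rw [h0, pow_zero]; infer_instance
        exact Subsingleton.elim _ _
      · exact h0
    · intro hd
      apply hi
      rw [zsmul_eq_mul]
      have : ((M : ℤ) : ZMod (p i ^ e i)) = 0 := by
        rw [Int.cast_natCast]
        exact (ZMod.natCast_eq_zero_iff _ _).2 hd
      rw [this, zero_mul]
    · let ev : T →+ ZMod (p i ^ e i) := DFinsupp.evalAddMonoidHom (β := fun i => ZMod (p i ^ e i)) i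
      have s1 : Function.Surjective ev := by
        intro z
        refine ⟨DFinsupp.single (β := fun i => ZMod (p i ^ e i)) i z, ?_⟩
        change (DFinsupp.single (β := fun i => ZMod (p i ^ e i)) i z) i = z
        exact DFinsupp.single_eq_same
      have s2 : Function.Surjective (AddMonoidHom.snd (Fin r →₀ ℤ) T) := Prod.snd_surjective
      refine ⟨(ev.comp (AddMonoidHom.snd _ _)).comp F, ?_, ?_⟩
      · exact (s1.comp s2).comp hF
      · intro j
        rw [AddMonoidHom.comp_apply, hFv, map_zero]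
  · have h3 : ∃ i, (M : ℤ) • (y.1 i) ≠ 0 := by
      by_contra hcon
      rw [not_exists] at hcon
      apply h1
      ext i
      have := not_not.1 (hcon i)
      simpa using this
    obtain ⟨i, hi⟩ := h3
    refine ⟨2, M, Nat.prime_two, hM, ?_, ?_⟩
    · intro hd
      have := Nat.le_of_dvd (by omega) hd
      exact absurd this (not_le.2 Nat.lt_two_pow_self)
    · have s1 : Function.Surjective (Finsupp.applyAddHom i : (Fin r →₀ ℤ) →+ ℤ) := by
        intro z
        exact ⟨Finsupp.single i z, by simp⟩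
      have s2 : Function.Surjective (AddMonoidHom.fst (Fin r →₀ ℤ) T) := Prod.fst_surjective
      have s3 : Function.Surjective (Int.castAddHom (ZMod (2 ^ M))) := ZMod.intCast_surjective
      refine ⟨((Int.castAddHom (ZMod (2 ^ M))).comp ((Finsupp.applyAddHom i).comp
          (AddMonoidHom.fst _ _))).comp F, ?_, ?_⟩
      · exact (s3.comp (s1.comp s2)).comp hF
      · intro j
        rw [AddMonoidHom.comp_apply, hFv, map_zero]

end Pool.Agent.MIso
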