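import Pool.Agent.MIso.G1
import Pool.Agent.MIso.G2a

set_option autoImplicit false

/-! # Block G2b: tightness of the abelianization -/

namespace Pool.Agent.MIso
namespace G2baux

open Finset

/-- the number of elements with a property -/
noncomputable def cd {α : Type} (P : α → Prop) : ℕ := Nat.card {x // P x}

section count

variable {α β ι : Type} [Finite α] [Finite β]

theorem cd_mono {P Q : α → Prop} (h : ∀ x, P x → Q x) : cd P ≤ cd Q :=
  Nat.card_le_card_of_injective (fun x : {x // P x} => (⟨x.1, h x.1 x.2⟩ : {x // Q x}))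
    (by rintro ⟨x, _⟩ ⟨y, _⟩ h; simpa using h)

theorem cd_eq [Fintype α] (P : α → Prop) [DecidablePred P] : cd P = (univ.filter P).card := by
  unfold cd
  rw [Nat.card_eq_fintype_card, Fintype.card_subtype]

theorem cd_or (P Q : α → Prop) : cd (fun x => P x ∨ Q x) ≤ cd P + cd Q := by
  classical
  haveI := Fintype.ofFinite α
  rw [cd_eq, cd_eq, cd_eq, Finset.filter_or]
  exact Finset.card_union_le _ _

theorem cd_exists [DecidableEq ι] (s : Finset ι) (P : ι → α → Prop) :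
    cd (fun x => ∃ i ∈ s, P i x) ≤ ∑ i ∈ s, cd (P i) := by
  classical
  haveI := Fintype.ofFinite α
  have h : ∀ i, cd (P i) = (univ.filter (P i)).card := fun i => cd_eq _
  simp_rw [h]
  rw [cd_eq]
  refine le_trans (Finset.card_le_card ?_) Finset.card_biUnion_le
  intro x hx
  obtain ⟨i, hi, hix⟩ := (Finset.mem_filter.1 hx).2
  exact Finset.mem_biUnion.2 ⟨i, hi, Finset.mem_filter.2 ⟨mem_univ _, hix⟩⟩

omit [Finite α] in
theorem cd_equiv {γ : Type} (e : γ ≃ α) (P : α → Prop) : cd P = cd (fun x => P (e x)) := by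
  unfold cd
  exact (Nat.card_congr (e.subtypeEquiv fun _ => Iff.rfl)).symm

omit [Finite α] in
theorem cd_forall (k : ℕ) (Q : α → Prop) :
    cd (fun r : Fin k → α => ∀ j, Q (r j)) = cd Q ^ k := by
  unfold cd
  rw [Nat.card_congr (Equiv.subtypePiEquivPi (p := fun (_ : Fin k) (a : α) => Q a)), Nat.card_fun,
    Nat.card_fin]

theorem cd_prod (P : α → β → Prop) (c : ℝ) (h : ∀ b, (cd (fun a => P a b) : ℝ) ≤ c) :
    (cd (fun z : α × β => P z.1 z.2) : ℝ) ≤ Nat.card β * c := by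
  classical
  haveI := Fintype.ofFinite β
  have e : {z : α × β // P z.1 z.2} ≃ Σ b : β, {a // P a b} :=
    ⟨fun z => ⟨z.1.2, ⟨z.1.1, z.2⟩⟩, fun s => ⟨(s.2.1, s.1), s.2.2⟩, fun _ => rfl, fun _ => rfl⟩
  unfold cd at h ⊢
  rw [Nat.card_congr e, Nat.card_sigma, Nat.card_eq_fintype_card (α := β)]
  push_cast
  refine (Finset.sum_le_card_nsmul _ _ c fun b _ => h b).trans ?_
  rw [Finset.card_univ, nsmul_eq_mul]

/-- double counting -/
theorem double (R : α → β → Prop) (P : α → Prop) (a : ℕ)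
    (hP : ∀ r, P r → a ≤ cd (fun h => R r h)) (b : ℝ) (hb : ∀ h, (cd (fun r => R r h) : ℝ) ≤ b) :
    (a : ℝ) * cd P ≤ Nat.card β * b := by
  classical
  haveI := Fintype.ofFinite α
  haveI := Fintype.ofFinite β
  refine le_trans ?_ (cd_prod (fun r h => R r h) b hb)
  have e : {z : α × β // R z.1 z.2} ≃ Σ r : α, {h // R r h} :=
    ⟨fun z => ⟨z.1.1, ⟨z.1.2, z.2⟩⟩, fun s => ⟨(s.1, s.2.1), s.2.2⟩, fun _ => rfl, fun _ => rfl⟩
  have h1 : cd (fun z : α × β => R z.1 z.2) = ∑ r, cd (fun h => R r h) := by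
    unfold cd
    rw [Nat.card_congr e, Nat.card_sigma]
  rw [h1]
  have h2 : a * cd P ≤ ∑ r, cd (fun h => R r h) := by
    calc a * cd P = ∑ r ∈ univ.filter P, a := by
          rw [Finset.sum_const, smul_eq_mul, cd_eq, mul_comm]
      _ ≤ ∑ r ∈ univ.filter P, cd (fun h => R r h) :=
          Finset.sum_le_sum fun r hr => hP r (Finset.mem_filter.1 hr).2
      _ ≤ ∑ r, cd (fun h => R r h) :=
          Finset.sum_le_sum_of_subset (Finset.filter_subset _ _)
  exact_mod_cast h2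

end count

variable {n : ℕ}

theorem expo_le (w : List (Fin n × Bool)) (i : Fin n) : |expo w i| ≤ w.length := by
  unfold expo
  induction w with
  | nil => simp
  | cons a w ih =>
    rw [List.map_cons, List.sum_cons, List.length_cons]
    refine (abs_add_le _ _).trans ?_
    push_cast
    have : |(if a.1 = i then cond a.2 1 (-1) else (0 : ℤ))| ≤ 1 := by
      split_ifs
      · cases a.2 <;> simp
      · simp
    linarith

/-- the relation `v h = 0 mod N` -/
def Kil {l : ℕ} (N : ℕ) (x : Words n l) (h : Fin n → ZMod N) : Prop :=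
  ∑ i, (expo x.1 i : ZMod N) * h i = 0

/-- bad mod `N` -/
def Bad {l k : ℕ} (N : ℕ) (r : Fin k → Words n l) : Prop :=
  ∃ h : Fin n → ZMod N, (∃ i, IsUnit (h i)) ∧ ∀ j, Kil N (r j) h

/-- the determinant of `n` rows -/
def D {l : ℕ} (o : Fin n → Words n l) : ℤ :=
  Matrix.det (Matrix.of fun j i => expo (o j).1 i)

theorem D_le {l : ℕ} (o : Fin n → Words n l) : |D o| ≤ (n.factorial : ℤ) * (l : ℤ) ^ n := by
  have := Matrix.det_le (A := Matrix.of fun j i => expo (o j).1 i) (abv := AbsoluteValue.abs)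
    (x := (l : ℤ)) (fun i j => by
      show |expo (o i).1 j| ≤ l
      exact (expo_le _ _).trans (by exact_mod_cast (o i).2))
  rw [Fintype.card_fin, nsmul_eq_mul] at this
  exact this

theorem bad_det {l : ℕ} {p : ℕ} [Fact p.Prime] (o : Fin n → Words n l) (h : Bad p o) :
    ((D o : ℤ) : ZMod p) = 0 := by
  obtain ⟨v, ⟨i, hi⟩, hk⟩ := h
  unfold D
  rw [Int.cast_det]
  refine Matrix.exists_mulVec_eq_zero_iff.1 ⟨v, ?_, ?_⟩
  · rintro rfl
    exact hi.ne_zero rfl
  · funext j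
    exact hk j

theorem det_bad {l : ℕ} {p : ℕ} [Fact p.Prime] (o : Fin n → Words n l)
    (h : ((D o : ℤ) : ZMod p) = 0) : Bad p o := by
  unfold D at h
  rw [Int.cast_det] at h
  obtain ⟨v, hv, hv0⟩ := Matrix.exists_mulVec_eq_zero_iff.2 h
  obtain ⟨i, hi⟩ := Function.ne_iff.1 hv
  exact ⟨v, ⟨i, IsUnit.mk0 _ hi⟩, fun j => congrFun hv0 j⟩

/-- number of large primes dividing `D` -/
theorem few_primes {l : ℕ} (hl : 2 ≤ l) (hn : n ≤ l) (o : Fin n → Words n l) (h0 : D o ≠ 0) :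
    ((D o).natAbs.primeFactors.filter fun p : ℕ => Real.sqrt l < p).card ≤ 4 * n := by
  set s := (D o).natAbs.primeFactors.filter fun p : ℕ => Real.sqrt l < p with hs
  have h1 : ∏ p ∈ s, p ≤ (D o).natAbs := by
    refine Nat.le_of_dvd (Int.natAbs_pos.2 h0) ?_
    exact (Finset.prod_dvd_prod_of_subset _ _ _ (Finset.filter_subset _ _)).trans
      (Nat.prod_primeFactors_dvd _)
  have hl1 : (1 : ℝ) < Real.sqrt l := by
    rw [Real.lt_sqrt (by norm_num)]
    have : (2 : ℝ) ≤ l := by exact_mod_cast hl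
    linarith
  have h2 : Real.sqrt l ^ s.card ≤ ((D o).natAbs : ℝ) := by
    calc Real.sqrt l ^ s.card = ∏ p ∈ s, Real.sqrt l := by rw [Finset.prod_const]
      _ ≤ ∏ p ∈ s, (p : ℝ) := Finset.prod_le_prod (fun _ _ => Real.sqrt_nonneg _)
          fun p hp => (Finset.mem_filter.1 hp).2.le
      _ = ((∏ p ∈ s, p : ℕ) : ℝ) := by push_cast; rfl
      _ ≤ _ := by exact_mod_cast h1
  have h3 : ((D o).natAbs : ℝ) ≤ Real.sqrt l ^ (4 * n) := by
    have e1 : (((D o).natAbs : ℤ) : ℝ) = ((|D o| : ℤ) : ℝ) := by rw [Int.natCast_natAbs]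
    have e2 : (((D o).natAbs : ℕ) : ℝ) ≤ (n.factorial : ℝ) * (l : ℝ) ^ n := by
      have := D_le o
      have h4 : ((|D o| : ℤ) : ℝ) ≤ (n.factorial : ℝ) * (l : ℝ) ^ n := by exact_mod_cast this
      rw [← e1] at h4
      exact_mod_cast h4
    have e3 : (n.factorial : ℝ) ≤ (l : ℝ) ^ n := by
      have : n.factorial ≤ n ^ n := Nat.factorial_le_pow n
      exact_mod_cast this.trans (Nat.pow_le_pow_left hn n)
    have e4 : Real.sqrt l ^ (4 * n) = (l : ℝ) ^ n * (l : ℝ) ^ n := by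
      rw [show 4 * n = 2 * (n + n) by ring, pow_mul, Real.sq_sqrt (by positivity), pow_add]
    rw [e4]
    exact e2.trans (mul_le_mul_of_nonneg_right e3 (by positivity))
  exact (pow_le_pow_iff_right₀ hl1).1 (h2.trans h3)

theorem many_h {l k N : ℕ} [NeZero N] (r : Fin k → Words n l) (h : Bad N r) :
    Nat.card (ZMod N)ˣ ≤
      cd (fun h : Fin n → ZMod N => (∃ i, IsUnit (h i)) ∧ ∀ j, Kil N (r j) h) := by
  obtain ⟨h0, ⟨i, hi⟩, hk⟩ := h
  refine Nat.card_le_card_of_injective (fun u : (ZMod N)ˣ =>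
    (⟨fun t => (u : ZMod N) * h0 t, ⟨i, u.isUnit.mul hi⟩, fun j => ?_⟩ :
      {h : Fin n → ZMod N // (∃ i, IsUnit (h i)) ∧ ∀ j, Kil N (r j) h})) ?_
  · have := hk j
    unfold Kil at this ⊢
    calc ∑ i, (expo (r j).1 i : ZMod N) * ((u : ZMod N) * h0 i)
        = (u : ZMod N) * ∑ i, (expo (r j).1 i : ZMod N) * h0 i := by
          rw [Finset.mul_sum]; exact Finset.sum_congr rfl fun _ _ => by ring
      _ = 0 := by rw [this, mul_zero]
  · intro u v huv
    have h1 : (u : ZMod N) * h0 i = (v : ZMod N) * h0 i := congrFun (congrArg Subtype.val huv) i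
    exact Units.ext (hi.mul_right_cancel h1)

theorem first_moment {l k N : ℕ} [NeZero N] (C : ℝ) (hC : 0 < C)
    (hanti : ∀ h : Fin n → ZMod N, (∃ i, IsUnit (h i)) →
      (cd (fun x : Words n l => Kil N x h) : ℝ) ≤ C * Nat.card (Words n l)) :
    (N.totient : ℝ) * cd (fun r : Fin k → Words n l => Bad N r) ≤
      (N : ℝ) ^ n * (C * Nat.card (Words n l)) ^ k := by
  have h := double (fun (r : Fin k → Words n l) (h : Fin n → ZMod N) =>
    (∃ i, IsUnit (h i)) ∧ ∀ j, Kil N (r j) h) (fun r => Bad N r) (Nat.card (ZMod N)ˣ)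
    (fun r hr => many_h r hr) ((C * Nat.card (Words n l)) ^ k) (fun h => ?_)
  · rw [Nat.card_fun, Nat.card_fin, Nat.card_zmod] at h
    rw [Nat.card_eq_fintype_card (α := (ZMod N)ˣ), ZMod.card_units_eq_totient] at h
    push_cast at h
    exact h
  · by_cases hu : ∃ i, IsUnit (h i)
    · have h1 : cd (fun r : Fin k → Words n l => (∃ i, IsUnit (h i)) ∧ ∀ j, Kil N (r j) h) ≤
          cd (fun r : Fin k → Words n l => ∀ j, Kil N (r j) h) := cd_mono fun r hr => hr.2
      rw [cd_forall k (fun x : Words n l => Kil N x h)] at h1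
      have h2 := pow_le_pow_left₀ (Nat.cast_nonneg _) (hanti h hu) k
      refine le_trans ?_ h2
      exact_mod_cast h1
    · have h1 : cd (fun r : Fin k → Words n l => (∃ i, IsUnit (h i)) ∧ ∀ j, Kil N (r j) h) = 0 := by
        unfold cd
        haveI : IsEmpty {r : Fin k → Words n l // (∃ i, IsUnit (h i)) ∧ ∀ j, Kil N (r j) h} :=
          ⟨fun r => hu r.2.1⟩
        exact Nat.card_of_isEmpty
      rw [h1, Nat.cast_zero]
      have : (0 : ℝ) ≤ Nat.card (Words n l) := Nat.cast_nonneg _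
      positivity

theorem bad_cast {l k N N' : ℕ} (hd : N' ∣ N) (r : Fin k → Words n l) (h : Bad N r) : Bad N' r := by
  obtain ⟨h0, ⟨i, hi⟩, hk⟩ := h
  refine ⟨fun t => ZMod.castHom hd (ZMod N') (h0 t), ⟨i, hi.map _⟩, fun j => ?_⟩
  have := congrArg (ZMod.castHom hd (ZMod N')) (hk j)
  rw [map_sum, map_zero] at this
  unfold Kil
  rw [← this]
  exact Finset.sum_congr rfl fun t _ => by rw [map_mul, map_intCast]

theorem prime_pow_bound {l N : ℕ} (hN : IsPrimePow N) (hNl : (N : ℝ) ≤ Real.sqrt l) (C : ℝ)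
    (hC : 0 < C) (hanti : ∀ h : Fin n → ZMod N, (∃ i, IsUnit (h i)) →
      (cd (fun x : Words n l => Kil N x h) : ℝ) ≤
        C * (1 / (N : ℝ) + 1 / Real.sqrt l) * Nat.card (Words n l)) :
    (cd (fun r : Fin (n + 1) → Words n l => Bad N r) : ℝ) ≤
      2 * (2 * C) ^ (n + 1) * ((N : ℝ) ^ 2)⁻¹ * (Nat.card (Words n l) : ℝ) ^ (n + 1) := by
  have hN0 : 0 < N := hN.pos
  haveI : NeZero N := ⟨hN0.ne'⟩
  have hNr : (0 : ℝ) < N := by exact_mod_cast hN0
  have hw : (0 : ℝ) ≤ Nat.card (Words n l) := Nat.cast_nonneg _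
  have h1 := first_moment (n := n) (l := l) (k := n + 1) (N := N) (2 * C / N) (by positivity)
    fun h hu => (hanti h hu).trans (by
      refine mul_le_mul_of_nonneg_right ?_ hw
      have : 1 / Real.sqrt l ≤ 1 / (N : ℝ) := one_div_le_one_div_of_le hNr hNl
      calc C * (1 / (N : ℝ) + 1 / Real.sqrt l) ≤ C * (1 / (N : ℝ) + 1 / N) := by gcongr
        _ = 2 * C / N := by ring)
  have h2 : (N : ℝ) / 2 ≤ N.totient := by
    obtain ⟨p, a, hp, ha, rfl⟩ := hN
    have hp' := hp.nat_prime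
    rw [Nat.totient_prime_pow hp' ha]
    obtain ⟨b, rfl⟩ : ∃ b, a = b + 1 := ⟨a - 1, by omega⟩
    have h3 : 1 ≤ p := hp'.one_lt.le
    have h4 : (2 : ℝ) ≤ p := by exact_mod_cast hp'.two_le
    have h5 : (0 : ℝ) < (p : ℝ) ^ b := by positivity
    push_cast [Nat.cast_sub h3]
    rw [pow_succ]
    nlinarith
  have h3 : (N : ℝ) / 2 * cd (fun r : Fin (n + 1) → Words n l => Bad N r) ≤
      (N : ℝ) ^ n * (2 * C / N * Nat.card (Words n l)) ^ (n + 1) :=
    (mul_le_mul_of_nonneg_right h2 (Nat.cast_nonneg _)).trans h1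
  have h4 : (cd (fun r : Fin (n + 1) → Words n l => Bad N r) : ℝ) ≤
      2 / N * ((N : ℝ) ^ n * (2 * C / N * Nat.card (Words n l)) ^ (n + 1)) := by
    rw [← div_le_iff₀' (by positivity)]
    refine le_trans (le_of_eq ?_) h3
    field_simp
  refine h4.trans (le_of_eq ?_)
  rw [mul_pow, div_pow, pow_succ (N : ℝ) n]
  field_simp

/-- large prime event -/
def Ev {l : ℕ} (x : Words n l) (o : Fin n → Words n l) : Prop :=
  D o ≠ 0 ∧ ∃ p ∈ (D o).natAbs.primeFactors.filter (fun p : ℕ => Real.sqrt l < p),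
    ∀ h : Fin n → ZMod p, (∃ i, IsUnit (h i)) → (∀ j, Kil p (o j) h) → Kil p x h

theorem ev_bound {l : ℕ} (hl : 2 ≤ l) (hn : n ≤ l) (C : ℝ) (hC : 0 < C)
    (hanti : ∀ N : ℕ, 1 ≤ N → ∀ h : Fin n → ZMod N, (∃ i, IsUnit (h i)) →
      (cd (fun x : Words n l => Kil N x h) : ℝ) ≤
        C * (1 / (N : ℝ) + 1 / Real.sqrt l) * Nat.card (Words n l)) (o : Fin n → Words n l) :
    (cd (fun x => Ev x o) : ℝ) ≤ 8 * n * C / Real.sqrt l * Nat.card (Words n l) := by
  have hw : (0 : ℝ) ≤ Nat.card (Words n l) := Nat.cast_nonneg _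
  have hs : (0 : ℝ) < Real.sqrt l := Real.sqrt_pos.2 (by positivity)
  by_cases h0 : D o = 0
  · have h1 : cd (fun x => Ev x o) = 0 := by
      unfold cd
      haveI : IsEmpty {x : Words n l // Ev x o} := ⟨fun r => r.2.1 h0⟩
      exact Nat.card_of_isEmpty
    rw [h1, Nat.cast_zero]
    positivity
  · set s := (D o).natAbs.primeFactors.filter (fun p : ℕ => Real.sqrt l < p) with hs'
    have h1 : cd (fun x => Ev x o) ≤ ∑ p ∈ s, cd (fun x : Words n l =>
        ∀ h : Fin n → ZMod p, (∃ i, IsUnit (h i)) → (∀ j, Kil p (o j) h) → Kil p x h) :=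
      (cd_mono fun x hx => hx.2).trans (cd_exists s fun p (x : Words n l) =>
        ∀ h : Fin n → ZMod p, (∃ i, IsUnit (h i)) → (∀ j, Kil p (o j) h) → Kil p x h)
    have h2 : ∀ p ∈ s, (cd (fun x : Words n l =>
        ∀ h : Fin n → ZMod p, (∃ i, IsUnit (h i)) → (∀ j, Kil p (o j) h) → Kil p x h) : ℝ) ≤
        2 * C / Real.sqrt l * Nat.card (Words n l) := by
      intro p hp
      obtain ⟨hp1, hp2⟩ := Finset.mem_filter.1 hp
      have hpp := Nat.prime_of_mem_primeFactors hp1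
      haveI : Fact p.Prime := ⟨hpp⟩
      have hd : ((D o : ℤ) : ZMod p) = 0 := by
        rw [ZMod.intCast_zmod_eq_zero_iff_dvd]
        exact Int.natCast_dvd.2 (Nat.dvd_of_mem_primeFactors hp1)
      obtain ⟨h, hu, hk⟩ := det_bad o hd
      have h3 : cd (fun x : Words n l =>
        ∀ h : Fin n → ZMod p, (∃ i, IsUnit (h i)) → (∀ j, Kil p (o j) h) → Kil p x h) ≤
          cd (fun x : Words n l => Kil p x h) := cd_mono fun x hx => hx h hu hk
      refine le_trans (Nat.cast_le.2 h3) ((hanti p hpp.one_lt.le h hu).trans ?_)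
      refine mul_le_mul_of_nonneg_right ?_ hw
      have : 1 / (p : ℝ) ≤ 1 / Real.sqrt l := one_div_le_one_div_of_le hs hp2.le
      calc C * (1 / (p : ℝ) + 1 / Real.sqrt l) ≤ C * (1 / Real.sqrt l + 1 / Real.sqrt l) := by gcongr
        _ = 2 * C / Real.sqrt l := by ring
    calc (cd (fun x => Ev x o) : ℝ) ≤ ∑ p ∈ s, (cd (fun x : Words n l =>
        ∀ h : Fin n → ZMod p, (∃ i, IsUnit (h i)) → (∀ j, Kil p (o j) h) → Kil p x h) : ℝ) := by
          exact_mod_cast h1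
      _ ≤ s.card • (2 * C / Real.sqrt l * Nat.card (Words n l)) := Finset.sum_le_card_nsmul _ _ _ h2
      _ ≤ (4 * n : ℕ) • (2 * C / Real.sqrt l * Nat.card (Words n l)) := by
          rw [nsmul_eq_mul, nsmul_eq_mul]
          refine mul_le_mul_of_nonneg_right ?_ (by positivity)
          exact_mod_cast few_primes hl hn o h0
      _ = _ := by rw [nsmul_eq_mul]; push_cast; ring

/-- the three cases -/
theorem three_cases {l B : ℕ} (hB : 1 ≤ B) (hl : (B : ℝ) * B ≤ Real.sqrt l)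
    (r : Fin (n + 1) → Words n l)
    (hsee : ∃ p a : ℕ, p.Prime ∧ 1 ≤ a ∧ ¬ p ^ a ∣ B.factorial ∧ ∃ h : Fin n → ZMod (p ^ a),
      (∃ i, IsUnit (h i)) ∧ ∀ j, ∑ i, (expo (r j).1 i : ZMod (p ^ a)) * h i = 0) :
    (∃ N ∈ (Finset.Ioc B ⌊Real.sqrt l⌋₊).filter IsPrimePow, Bad N r) ∨
      (∃ k ∈ (univ : Finset (Fin (n + 1))), D (k.removeNth r) = 0) ∨
      ∃ k ∈ (univ : Finset (Fin (n + 1))), Ev (r k) (k.removeNth r) := by
  obtain ⟨p, a, hp, ha, hd, hbad⟩ := hsee
  have hbad : Bad (p ^ a) r := hbad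
  have hBa : B < p ^ a := by
    by_contra h
    push Not at h
    exact hd (Nat.dvd_factorial (pow_pos hp.pos _) h)
  have hex : ∃ e, B < p ^ e := ⟨a, hBa⟩
  set a' := Nat.find hex with ha'
  have h1 : B < p ^ a' := Nat.find_spec hex
  have h2 : a' ≤ a := Nat.find_min' hex hBa
  have h3 : 1 ≤ a' := by
    by_contra h
    have h0 : a' = 0 := by omega
    rw [h0, pow_zero] at h1
    omega
  have h4 : p ^ (a' - 1) ≤ B := by
    have := Nat.find_min hex (m := a' - 1) (by omega)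
    omega
  have hb' : Bad (p ^ a') r := bad_cast (pow_dvd_pow p h2) r hbad
  by_cases hN : ((p ^ a' : ℕ) : ℝ) ≤ Real.sqrt l
  · left
    refine ⟨p ^ a', Finset.mem_filter.2 ⟨Finset.mem_Ioc.2 ⟨h1, Nat.le_floor hN⟩,
      hp.isPrimePow.pow (by omega)⟩, hb'⟩
  · right
    push Not at hN
    have hBp : B < p := by
      by_contra h
      push Not at h
      have h5 : p ^ a' ≤ B * B := by
        calc p ^ a' = p ^ (a' - 1) * p := by rw [← pow_succ]; congr 1; omega
          _ ≤ B * B := Nat.mul_le_mul h4 h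
      have h6 : ((p ^ a' : ℕ) : ℝ) ≤ (B : ℝ) * B := by exact_mod_cast h5
      linarith
    have ha1 : a' = 1 := by
      have : a' ≤ 1 := Nat.find_min' hex (by rw [pow_one]; exact hBp)
      omega
    rw [ha1, pow_one] at hb' hN
    haveI : Fact p.Prime := ⟨hp⟩
    have hnli : ¬ LinearIndependent (ZMod p) (fun (j : Fin (n + 1)) (i : Fin n) =>
        (expo (r j).1 i : ZMod p)) := by
      intro h
      have := h.fintype_card_le_finrank
      rw [Fintype.card_fin, Module.finrank_fin_fun] at this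
      omega
    obtain ⟨g, hg, k, hgk⟩ := Fintype.not_linearIndependent_iff.1 hnli
    have hbo : Bad p (k.removeNth r) := by
      obtain ⟨h, hu, hk⟩ := hb'
      exact ⟨h, hu, fun j => hk _⟩
    by_cases hD : D (k.removeNth r) = 0
    · exact Or.inl ⟨k, mem_univ _, hD⟩
    · refine Or.inr ⟨k, mem_univ _, hD, p, Finset.mem_filter.2 ⟨?_, hN⟩, fun h hu ho => ?_⟩
      · rw [Nat.mem_primeFactors]
        refine ⟨hp, ?_, Int.natAbs_ne_zero.2 hD⟩
        have := bad_det _ hbo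
        rw [ZMod.intCast_zmod_eq_zero_iff_dvd] at this
        exact Int.natCast_dvd.1 this
      · have e1 : ∑ j, g j * ∑ i, (expo (r j).1 i : ZMod p) * h i = 0 := by
          have e2 : ∀ i, ∑ j, g j * (expo (r j).1 i : ZMod p) = 0 := fun i => by
            have := congrFun hg i
            rw [Finset.sum_apply] at this
            exact this
          calc ∑ j, g j * ∑ i, (expo (r j).1 i : ZMod p) * h i
              = ∑ i, (∑ j, g j * (expo (r j).1 i : ZMod p)) * h i := by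
                simp_rw [Finset.mul_sum, Finset.sum_mul]
                rw [Finset.sum_comm]
                exact Finset.sum_congr rfl fun _ _ => Finset.sum_congr rfl fun _ _ => by ring
            _ = 0 := by simp_rw [e2, zero_mul]; exact Finset.sum_const_zero
        rw [Fin.sum_univ_succAbove _ k] at e1
        have e3 : ∀ j, ∑ i, (expo (r (k.succAbove j)).1 i : ZMod p) * h i = 0 := fun j => ho j
        simp_rw [e3, mul_zero] at e1
        rw [Finset.sum_const_zero, add_zero] at e1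
        exact (mul_eq_zero.1 e1).resolve_left hgk

theorem d_zero {l p : ℕ} [Fact p.Prime] (hpl : (p : ℝ) ≤ Real.sqrt l) (C : ℝ)
    (hC : 0 < C) (hanti : ∀ h : Fin n → ZMod p, (∃ i, IsUnit (h i)) →
      (cd (fun x : Words n l => Kil p x h) : ℝ) ≤
        C * (1 / (p : ℝ) + 1 / Real.sqrt l) * Nat.card (Words n l)) :
    (cd (fun o : Fin n → Words n l => D o = 0) : ℝ) ≤
      (2 * C) ^ n / ((p : ℝ) - 1) * (Nat.card (Words n l) : ℝ) ^ n := by
  have hp : p.Prime := Fact.out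
  have hNr : (0 : ℝ) < p := by exact_mod_cast hp.pos
  have hw : (0 : ℝ) ≤ Nat.card (Words n l) := Nat.cast_nonneg _
  have h1 := first_moment (n := n) (l := l) (k := n) (N := p) (2 * C / p) (by positivity)
    fun h hu => (hanti h hu).trans (by
      refine mul_le_mul_of_nonneg_right ?_ hw
      have : 1 / Real.sqrt l ≤ 1 / (p : ℝ) := one_div_le_one_div_of_le hNr hpl
      calc C * (1 / (p : ℝ) + 1 / Real.sqrt l) ≤ C * (1 / (p : ℝ) + 1 / p) := by gcongr
        _ = 2 * C / p := by ring)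
  rw [Nat.totient_prime hp, Nat.cast_sub hp.one_lt.le, Nat.cast_one] at h1
  have h2 : (1 : ℝ) < p := by exact_mod_cast hp.one_lt
  have h3 : (cd (fun o : Fin n → Words n l => D o = 0) : ℝ) ≤
      cd (fun o : Fin n → Words n l => Bad p o) := by
    exact_mod_cast cd_mono fun o ho => det_bad (p := p) o (by rw [ho, Int.cast_zero])
  rw [div_mul_eq_mul_div, le_div_iff₀ (by linarith)]
  calc (cd (fun o : Fin n → Words n l => D o = 0) : ℝ) * ((p : ℝ) - 1)
      ≤ cd (fun o : Fin n → Words n l => Bad p o) * ((p : ℝ) - 1) :=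
        mul_le_mul_of_nonneg_right h3 (by linarith)
    _ ≤ (p : ℝ) ^ n * (2 * C / p * Nat.card (Words n l)) ^ n := by rw [mul_comm]; exact h1
    _ = _ := by
        rw [mul_pow, div_pow]
        field_simp

/-- the relation of the theorem -/
def Lat {l k : ℕ} (M : ℕ) (r : Fin k → Words n l) : Prop :=
  ∀ x : Fin n → ℤ, ∃ c : Fin k → ℤ, ∀ i, (M : ℤ) * x i = ∑ j, c j * expo (r j).1 i

theorem main1 (n : ℕ)
    (hA : ∃ C : ℝ, 0 < C ∧ ∀ l : ℕ, 1 ≤ l → ∀ N : ℕ, 1 ≤ N →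
      ∀ h : Fin n → ZMod N, (∃ i, IsUnit (h i)) → ∀ c : ZMod N,
        (Nat.card {w : Words n l // ∑ i, (expo w.1 i : ZMod N) * h i = c} : ℝ)
          ≤ C * (1 / (N : ℝ) + 1 / Real.sqrt l) * Nat.card (Words n l))
    (hS : ∀ (v : Fin (n + 1) → Fin n → ℤ) (M : ℕ), 1 ≤ M →
      (¬ ∀ x : Fin n → ℤ, ∃ c : Fin (n + 1) → ℤ, ∀ i, (M : ℤ) * x i = ∑ j, c j * v j i) →
      ∃ p a : ℕ, p.Prime ∧ 1 ≤ a ∧ ¬ p ^ a ∣ M ∧ ∃ h : Fin n → ZMod (p ^ a),
        (∃ i, IsUnit (h i)) ∧ ∀ j, ∑ i, (v j i : ZMod (p ^ a)) * h i = 0)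
    (ε : ℝ) (hε : 0 < ε) :
    ∃ M : ℕ, 1 ≤ M ∧ ∃ L : ℕ, ∀ l ≥ L,
      (cd (fun r : Fin (n + 1) → Words n l => ¬ Lat M r) : ℝ) ≤
        ε * (Nat.card (Words n l) : ℝ) ^ (n + 1) := by
  obtain ⟨C, hC, hA⟩ := hA
  -- the constants
  obtain ⟨B, hB⟩ := exists_nat_gt (2 * (2 * C) ^ (n + 1) / (ε / 3))
  have hB0 : (0 : ℝ) < B := lt_of_le_of_lt (by positivity) hB
  have hB1 : 1 ≤ B := by exact_mod_cast hB0
  obtain ⟨p0', hp0'⟩ := exists_nat_gt ((n + 1) * (2 * C) ^ n / (ε / 3) + 1)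
  obtain ⟨p0, hp0, hpp⟩ := Nat.exists_infinite_primes p0'
  have hp0r : (n + 1) * (2 * C) ^ n / (ε / 3) + 1 < p0 := lt_of_lt_of_le hp0' (by exact_mod_cast hp0)
  haveI : Fact p0.Prime := ⟨hpp⟩
  obtain ⟨K, hK⟩ := exists_nat_gt ((n + 1) * (8 * n * C) / (ε / 3))
  refine ⟨B.factorial, Nat.factorial_pos _, (B * B + p0 + K + n + 2) ^ 2, fun l hl => ?_⟩
  have hsq : ((B * B + p0 + K + n + 2 : ℕ) : ℝ) ≤ Real.sqrt l := by
    rw [Real.le_sqrt (Nat.cast_nonneg _) (Nat.cast_nonneg _)]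
    exact_mod_cast hl
  push_cast at hsq
  have hBB : (B : ℝ) * B ≤ Real.sqrt l := by
    have : (0 : ℝ) ≤ p0 := Nat.cast_nonneg _
    have : (0 : ℝ) ≤ K := Nat.cast_nonneg _
    have : (0 : ℝ) ≤ n := Nat.cast_nonneg _
    linarith
  have hp0l : (p0 : ℝ) ≤ Real.sqrt l := by
    have : (0 : ℝ) ≤ B * B := by positivity
    have : (0 : ℝ) ≤ K := Nat.cast_nonneg _
    have : (0 : ℝ) ≤ n := Nat.cast_nonneg _
    linarith
  have hKl : (K : ℝ) ≤ Real.sqrt l := by
    have : (0 : ℝ) ≤ B * B := by positivity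
    have : (0 : ℝ) ≤ p0 := Nat.cast_nonneg _
    have : (0 : ℝ) ≤ n := Nat.cast_nonneg _
    linarith
  have hlr : B * B + p0 + K + n + 2 ≤ l := le_trans (Nat.le_self_pow (by norm_num) _) hl
  have hl2 : 2 ≤ l := by omega
  have hln : n ≤ l := by omega
  have hs0 : (0 : ℝ) < Real.sqrt l := Real.sqrt_pos.2 (by positivity)
  set w : ℝ := (Nat.card (Words n l) : ℝ) with hw
  have hw0 : 0 ≤ w := Nat.cast_nonneg _
  have hanti : ∀ N : ℕ, 1 ≤ N → ∀ h : Fin n → ZMod N, (∃ i, IsUnit (h i)) →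
      (cd (fun x : Words n l => Kil N x h) : ℝ) ≤
        C * (1 / (N : ℝ) + 1 / Real.sqrt l) * Nat.card (Words n l) :=
    fun N hN h hu => hA l (by omega) N hN h hu 0
  -- three cases
  have h1 : cd (fun r : Fin (n + 1) → Words n l => ¬ Lat B.factorial r) ≤
      cd (fun r : Fin (n + 1) → Words n l =>
        ∃ N ∈ (Finset.Ioc B ⌊Real.sqrt l⌋₊).filter IsPrimePow, Bad N r) +
      (cd (fun r : Fin (n + 1) → Words n l => ∃ k ∈ (univ : Finset (Fin (n + 1))),
        D (k.removeNth r) = 0) +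
      cd (fun r : Fin (n + 1) → Words n l => ∃ k ∈ (univ : Finset (Fin (n + 1))),
        Ev (r k) (k.removeNth r))) := by
    refine le_trans (cd_mono fun r hr => three_cases hB1 hBB r
      (hS (fun j => expo (r j).1) _ (Nat.factorial_pos _) hr)) ?_
    refine (cd_or _ _).trans (Nat.add_le_add_left (cd_or _ _) _)
  have h2 : (cd (fun r : Fin (n + 1) → Words n l =>
        ∃ N ∈ (Finset.Ioc B ⌊Real.sqrt l⌋₊).filter IsPrimePow, Bad N r) : ℝ) ≤
      ε / 3 * w ^ (n + 1) := by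
    have e1 := cd_exists ((Finset.Ioc B ⌊Real.sqrt l⌋₊).filter IsPrimePow)
      (fun N (r : Fin (n + 1) → Words n l) => Bad N r)
    have e2 : (cd (fun r : Fin (n + 1) → Words n l =>
        ∃ N ∈ (Finset.Ioc B ⌊Real.sqrt l⌋₊).filter IsPrimePow, Bad N r) : ℝ) ≤
        ∑ N ∈ (Finset.Ioc B ⌊Real.sqrt l⌋₊).filter IsPrimePow,
          (cd (fun r : Fin (n + 1) → Words n l => Bad N r) : ℝ) := by exact_mod_cast e1
    have e3 : ∑ N ∈ (Finset.Ioc B ⌊Real.sqrt l⌋₊).filter IsPrimePow,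
          (cd (fun r : Fin (n + 1) → Words n l => Bad N r) : ℝ) ≤
        ∑ N ∈ (Finset.Ioc B ⌊Real.sqrt l⌋₊).filter IsPrimePow,
          2 * (2 * C) ^ (n + 1) * ((N : ℝ) ^ 2)⁻¹ * w ^ (n + 1) := by
      refine Finset.sum_le_sum fun N hN => ?_
      obtain ⟨hN1, hN2⟩ := Finset.mem_filter.1 hN
      have hN3 := (Finset.mem_Ioc.1 hN1).2
      have hN4 : (N : ℝ) ≤ Real.sqrt l := by
        refine le_trans (Nat.cast_le.2 hN3) (Nat.floor_le hs0.le)
      exact prime_pow_bound hN2 hN4 C hC (hanti N hN2.pos)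
    have e4 : ∑ N ∈ (Finset.Ioc B ⌊Real.sqrt l⌋₊).filter IsPrimePow,
          2 * (2 * C) ^ (n + 1) * ((N : ℝ) ^ 2)⁻¹ * w ^ (n + 1) ≤
        ∑ N ∈ Finset.Ioc B ⌊Real.sqrt l⌋₊,
          2 * (2 * C) ^ (n + 1) * ((N : ℝ) ^ 2)⁻¹ * w ^ (n + 1) :=
      Finset.sum_le_sum_of_subset_of_nonneg (Finset.filter_subset _ _) fun _ _ _ => by positivity
    have e5 : ∑ N ∈ Finset.Ioc B ⌊Real.sqrt l⌋₊, ((N : ℝ) ^ 2)⁻¹ ≤ (B : ℝ)⁻¹ := by
      by_cases hBl : B ≤ ⌊Real.sqrt l⌋₊
      · refine (sum_Ioc_inv_sq_le_sub (by omega) hBl).trans ?_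
        have : (0 : ℝ) ≤ ((⌊Real.sqrt l⌋₊ : ℕ) : ℝ)⁻¹ := by positivity
        linarith
      · rw [Finset.Ioc_eq_empty (by omega), Finset.sum_empty]
        positivity
    have e6 : ∑ N ∈ Finset.Ioc B ⌊Real.sqrt l⌋₊,
          2 * (2 * C) ^ (n + 1) * ((N : ℝ) ^ 2)⁻¹ * w ^ (n + 1) =
        2 * (2 * C) ^ (n + 1) * w ^ (n + 1) * ∑ N ∈ Finset.Ioc B ⌊Real.sqrt l⌋₊, ((N : ℝ) ^ 2)⁻¹ := by
      rw [Finset.mul_sum]
      exact Finset.sum_congr rfl fun _ _ => by ring
    have e7 : 2 * (2 * C) ^ (n + 1) * (B : ℝ)⁻¹ ≤ ε / 3 := by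
      rw [div_lt_iff₀ (by positivity)] at hB
      rw [← div_eq_mul_inv, div_le_iff₀ hB0]
      linarith
    calc _ ≤ _ := e2
      _ ≤ _ := e3
      _ ≤ _ := e4
      _ = _ := e6
      _ ≤ 2 * (2 * C) ^ (n + 1) * w ^ (n + 1) * (B : ℝ)⁻¹ :=
          mul_le_mul_of_nonneg_left e5 (by positivity)
      _ = 2 * (2 * C) ^ (n + 1) * (B : ℝ)⁻¹ * w ^ (n + 1) := by ring
      _ ≤ _ := mul_le_mul_of_nonneg_right e7 (by positivity)
  have h3 : (cd (fun r : Fin (n + 1) → Words n l => ∃ k ∈ (univ : Finset (Fin (n + 1))),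
        D (k.removeNth r) = 0) : ℝ) ≤ ε / 3 * w ^ (n + 1) := by
    have e1 := cd_exists (univ : Finset (Fin (n + 1)))
      (fun k (r : Fin (n + 1) → Words n l) => D (k.removeNth r) = 0)
    have e2 : ∀ k ∈ (univ : Finset (Fin (n + 1))),
        (cd (fun r : Fin (n + 1) → Words n l => D (k.removeNth r) = 0) : ℝ) ≤
          (2 * C) ^ n / ((p0 : ℝ) - 1) * w ^ (n + 1) := by
      intro k _
      rw [cd_equiv (((Fin.insertNthEquiv (fun _ => Words n l) k).symm.trans
        (Equiv.prodComm _ _)).symm)]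
      have := cd_prod (α := Fin n → Words n l) (β := Words n l) (fun o _ => D o = 0)
        ((2 * C) ^ n / ((p0 : ℝ) - 1) * w ^ n) (fun _ => d_zero hp0l C hC (hanti p0 hpp.one_lt.le))
      have e3 : (fun z : (Fin n → Words n l) × Words n l => D (k.removeNth
          ((((Fin.insertNthEquiv (fun _ => Words n l) k).symm.trans
          (Equiv.prodComm _ _)).symm) z)) = 0) = fun z => D z.1 = 0 := by
        funext z
        have : k.removeNth ((((Fin.insertNthEquiv (fun _ => Words n l) k).symm.trans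
          (Equiv.prodComm _ _)).symm) z) = z.1 := by
          show k.removeNth (Fin.insertNth (α := fun _ => Words n l) k z.2 z.1) = z.1
          simp
        rw [this]
      rw [e3]
      refine this.trans (le_of_eq ?_)
      rw [pow_succ]
      ring
    have e3 : (cd (fun r : Fin (n + 1) → Words n l => ∃ k ∈ (univ : Finset (Fin (n + 1))),
        D (k.removeNth r) = 0) : ℝ) ≤ ∑ k ∈ (univ : Finset (Fin (n + 1))),
          (cd (fun r : Fin (n + 1) → Words n l => D (k.removeNth r) = 0) : ℝ) := by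
      exact_mod_cast e1
    refine e3.trans ((Finset.sum_le_card_nsmul _ _ _ e2).trans ?_)
    rw [Finset.card_univ, Fintype.card_fin, nsmul_eq_mul, ← mul_assoc]
    refine mul_le_mul_of_nonneg_right ?_ (by positivity)
    have hp1 : (0 : ℝ) < p0 - 1 := by
      have : (1 : ℝ) < p0 := by exact_mod_cast hpp.one_lt
      linarith
    have : (n + 1) * (2 * C) ^ n / (ε / 3) < p0 - 1 := by linarith
    rw [div_lt_iff₀ (by positivity)] at this
    rw [← mul_div_assoc, div_le_iff₀ hp1]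
    push_cast
    linarith
  have h4 : (cd (fun r : Fin (n + 1) → Words n l => ∃ k ∈ (univ : Finset (Fin (n + 1))),
        Ev (r k) (k.removeNth r)) : ℝ) ≤ ε / 3 * w ^ (n + 1) := by
    have e1 := cd_exists (univ : Finset (Fin (n + 1)))
      (fun k (r : Fin (n + 1) → Words n l) => Ev (r k) (k.removeNth r))
    have e2 : ∀ k ∈ (univ : Finset (Fin (n + 1))),
        (cd (fun r : Fin (n + 1) → Words n l => Ev (r k) (k.removeNth r)) : ℝ) ≤
          8 * n * C / Real.sqrt l * w ^ (n + 1) := by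
      intro k _
      rw [cd_equiv (Fin.insertNthEquiv (fun _ => Words n l) k)]
      have := cd_prod (α := Words n l) (β := Fin n → Words n l) (fun x o => Ev x o)
        (8 * n * C / Real.sqrt l * w) (fun o => ev_bound hl2 hln C hC hanti o)
      have e3 : (fun z : Words n l × (Fin n → Words n l) =>
          Ev (((Fin.insertNthEquiv (fun _ => Words n l) k) z) k)
            (k.removeNth ((Fin.insertNthEquiv (fun _ => Words n l) k) z))) =
          fun z => Ev z.1 z.2 := by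
        funext z
        have h5 : ((Fin.insertNthEquiv (fun _ => Words n l) k) z) k = z.1 := by
          show Fin.insertNth (α := fun _ => Words n l) k z.1 z.2 k = z.1
          simp
        have h6 : k.removeNth ((Fin.insertNthEquiv (fun _ => Words n l) k) z) = z.2 := by
          show k.removeNth (Fin.insertNth (α := fun _ => Words n l) k z.1 z.2) = z.2
          simp
        rw [h5, h6]
      rw [e3]
      refine this.trans (le_of_eq ?_)
      rw [Nat.card_fun, Nat.card_fin]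
      push_cast
      rw [← hw]
      ring
    have e3 : (cd (fun r : Fin (n + 1) → Words n l => ∃ k ∈ (univ : Finset (Fin (n + 1))),
        Ev (r k) (k.removeNth r)) : ℝ) ≤ ∑ k ∈ (univ : Finset (Fin (n + 1))),
          (cd (fun r : Fin (n + 1) → Words n l => Ev (r k) (k.removeNth r)) : ℝ) := by
      exact_mod_cast e1
    refine e3.trans ((Finset.sum_le_card_nsmul _ _ _ e2).trans ?_)
    rw [Finset.card_univ, Fintype.card_fin, nsmul_eq_mul, ← mul_assoc]
    refine mul_le_mul_of_nonneg_right ?_ (by positivity)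
    rw [div_lt_iff₀ (by positivity)] at hK
    rw [← mul_div_assoc, div_le_iff₀ hs0]
    push_cast
    nlinarith
  have h5 := (Nat.cast_le (α := ℝ)).2 h1
  push_cast at h5
  linarith

theorem lat_append {l t M : ℕ} (a : Fin (n + 1) → Words n l) (b : Fin t → Words n l)
    (h : Lat M a) : Lat M (Fin.append a b) := by
  intro x
  obtain ⟨c, hc⟩ := h x
  refine ⟨Fin.append c 0, fun i => ?_⟩
  rw [Fin.sum_univ_add, hc i]
  simp

theorem tight_of (n m : ℕ) (hnm : n < m)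
    (hA : ∃ C : ℝ, 0 < C ∧ ∀ l : ℕ, 1 ≤ l → ∀ N : ℕ, 1 ≤ N →
      ∀ h : Fin n → ZMod N, (∃ i, IsUnit (h i)) → ∀ c : ZMod N,
        (Nat.card {w : Words n l // ∑ i, (expo w.1 i : ZMod N) * h i = c} : ℝ)
          ≤ C * (1 / (N : ℝ) + 1 / Real.sqrt l) * Nat.card (Words n l))
    (hS : ∀ (v : Fin (n + 1) → Fin n → ℤ) (M : ℕ), 1 ≤ M →
      (¬ ∀ x : Fin n → ℤ, ∃ c : Fin (n + 1) → ℤ, ∀ i, (M : ℤ) * x i = ∑ j, c j * v j i) →
      ∃ p a : ℕ, p.Prime ∧ 1 ≤ a ∧ ¬ p ^ a ∣ M ∧ ∃ h : Fin n → ZMod (p ^ a),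
        (∃ i, IsUnit (h i)) ∧ ∀ j, ∑ i, (v j i : ZMod (p ^ a)) * h i = 0)
    (ε : ℝ) (hε : 0 < ε) :
    ∃ M : ℕ, 1 ≤ M ∧ ∃ L : ℕ, ∀ l ≥ L,
      (Nat.card {r : Fin m → Words n l // ¬ ∀ x : Fin n → ℤ, ∃ c : Fin m → ℤ,
          ∀ i, (M : ℤ) * x i = ∑ j, c j * expo (r j).1 i} : ℝ)
        ≤ ε * (Nat.card (Words n l) : ℝ) ^ m := by
  obtain ⟨M, hM, L, hL⟩ := main1 n hA hS ε hε
  refine ⟨M, hM, L, fun l hl => ?_⟩
  obtain ⟨t, rfl⟩ : ∃ t, m = n + 1 + t := ⟨m - (n + 1), by omega⟩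
  show (cd (fun r : Fin (n + 1 + t) → Words n l => ¬ Lat M r) : ℝ) ≤ _
  rw [cd_equiv (Fin.appendEquiv (n + 1) t)]
  have h1 : cd (fun z : (Fin (n + 1) → Words n l) × (Fin t → Words n l) =>
      ¬ Lat M ((Fin.appendEquiv (n + 1) t) z)) ≤
      cd (fun z : (Fin (n + 1) → Words n l) × (Fin t → Words n l) => ¬ Lat M z.1) :=
    cd_mono fun z hz h => hz (lat_append z.1 z.2 h)
  have h2 := cd_prod (α := Fin (n + 1) → Words n l) (β := Fin t → Words n l)
    (fun a _ => ¬ Lat M a) _ (fun _ => hL l hl)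
  refine le_trans (Nat.cast_le.2 h1) (h2.trans (le_of_eq ?_))
  rw [Nat.card_fun, Nat.card_fin, pow_add]
  push_cast
  ring

end G2baux

/-- G2b. Tightness of the abelianization (uses G1, G2a). -/
theorem tight (n m : ℕ) (hnm : n < m) (ε : ℝ) (hε : 0 < ε) :
    ∃ M : ℕ, 1 ≤ M ∧ ∃ L : ℕ, ∀ l ≥ L,
      (Nat.card {r : Fin m → Words n l // ¬ ∀ x : Fin n → ℤ, ∃ c : Fin m → ℤ,
          ∀ i, (M : ℤ) * x i = ∑ j, c j * expo (r j).1 i} : ℝ)
        ≤ ε * (Nat.card (Words n l) : ℝ) ^ m :=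
  G2baux.tight_of n m hnm (anti n) (fun v M hM h => see_prime v M hM h) ε hε

end Pool.Agent.MIso
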