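import Pool.Agent.MIso.Defs

set_option autoImplicit false

/-!
# G3: a finitely generated metabelian group with finite abelianization of exponent `M`, all of whose
homomorphisms to `Aff q` (`q ≡ 1 mod M` prime) kill the commutators, is finite
-/

namespace Pool.Agent.MIso

namespace G3aux

variable {G : Type} [Group G]

/-- conjugation `n ↦ g⁻¹ n g` on the commutator subgroup -/
def cj (g : G) (n : commutator G) : commutator G :=
  ⟨g⁻¹ * n * g, by
    have := (inferInstance : (commutator G).Normal).conj_mem n n.2 g⁻¹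
    simpa using this⟩

theorem cj_mul (g h : G) (n : commutator G) : cj (g * h) n = cj h (cj g n) := by
  apply Subtype.ext
  simp [cj, mul_assoc]

theorem cj_one (n : commutator G) : cj (1 : G) n = n := by
  apply Subtype.ext
  simp [cj]

theorem cj_map_mul (g : G) (a b : commutator G) : cj g (a * b) = cj g a * cj g b := by
  apply Subtype.ext
  simp [cj, mul_assoc]

theorem cj_mem (hab : ∀ a b : commutator G, a * b = b * a) {g : G} (hg : g ∈ commutator G)
    (n : commutator G) : cj g n = n := by
  apply Subtype.ext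
  have h := congrArg Subtype.val (hab n ⟨g, hg⟩)
  simp only [Subgroup.coe_mul] at h
  simp only [cj]
  rw [mul_assoc, h, inv_mul_cancel_left]

/-- the action on functions -/
def T (q : ℕ) (g : G) : (commutator G → ZMod q) →ₗ[ZMod q] (commutator G → ZMod q) where
  toFun f := fun n => f (cj g n)
  map_add' f f' := rfl
  map_smul' a f := rfl

theorem T_apply (q : ℕ) (g : G) (f : commutator G → ZMod q) (n : commutator G) :
    T q g f n = f (cj g n) := rfl

theorem T_mul (q : ℕ) (g h : G) (f : commutator G → ZMod q) : T q (g * h) f = T q g (T q h f) := by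
  funext n
  simp only [T_apply, cj_mul]

theorem T_one (q : ℕ) (f : commutator G → ZMod q) : T q (1 : G) f = f := by
  funext n
  simp only [T_apply, cj_one]

theorem T_mem (q : ℕ) (hab : ∀ a b : commutator G, a * b = b * a) {g : G}
    (hg : g ∈ commutator G) (f : commutator G → ZMod q) : T q g f = f := by
  funext n
  simp only [T_apply, cj_mem hab hg]

theorem T_comm (q : ℕ) (hab : ∀ a b : commutator G, a * b = b * a) (g h : G)
    (f : commutator G → ZMod q) : T q g (T q h f) = T q h (T q g f) := by
  rw [← T_mul, ← T_mul]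
  have e : g * h = h * g * (g⁻¹ * h⁻¹ * g * h) := by group
  have hm : g⁻¹ * h⁻¹ * g * h ∈ commutator G := by
    have := Subgroup.commutator_mem_commutator (Subgroup.mem_top g⁻¹) (Subgroup.mem_top h⁻¹)
    simpa [commutatorElement_def, commutator_def] using this
  rw [e, T_mul, T_mem q hab hm]

theorem T_pow (q : ℕ) (g : G) (k : ℕ) (f : commutator G → ZMod q) :
    ((T q g) ^ k) f = T q (g ^ k) f := by
  induction k with
  | zero => simp [T_one]
  | succ k ih => rw [pow_succ', Module.End.mul_apply, ih, pow_succ', T_mul]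

/-- the homomorphisms to `ZMod q` -/
def HomN (G : Type) [Group G] (q : ℕ) : Submodule (ZMod q) (commutator G → ZMod q) where
  carrier := {f | ∀ a b, f (a * b) = f a + f b}
  add_mem' := by
    intro f f' hf hf' a b
    simp only [Pi.add_apply, hf a b, hf' a b]
    ring
  zero_mem' := by intro a b; simp
  smul_mem' := by
    intro c f hf a b
    simp only [Pi.smul_apply, hf a b, smul_add]

theorem T_HomN (q : ℕ) (g : G) {f : commutator G → ZMod q} (hf : f ∈ HomN G q) :
    T q g f ∈ HomN G q := by
  intro a b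
  simp only [T_apply, cj_map_mul]
  exact hf _ _

theorem HomN_one {q : ℕ} {f : commutator G → ZMod q} (hf : f ∈ HomN G q) : f 1 = 0 := by
  have := hf 1 1
  rw [mul_one] at this
  exact left_eq_add.1 this

theorem HomN_inv {q : ℕ} {f : commutator G → ZMod q} (hf : f ∈ HomN G q) (a : commutator G) :
    f a⁻¹ = - f a := by
  have := hf a⁻¹ a
  rw [inv_mul_cancel, HomN_one hf] at this
  exact eq_neg_of_add_eq_zero_left this.symm

theorem HomN_finite (q : ℕ) [NeZero q] [hfg : Group.FG (commutator G)] : Finite (HomN G q) := by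
  obtain ⟨S, hS⟩ := Group.fg_def.1 hfg
  let r : HomN G q → (S → ZMod q) := fun f s => f.1 s.1
  apply Finite.of_injective r
  intro f f' hff
  apply Subtype.ext
  funext n
  have hn : n ∈ Subgroup.closure (S : Set (commutator G)) := by rw [hS]; trivial
  induction hn using Subgroup.closure_induction with
  | mem x hx => exact congrFun hff ⟨x, hx⟩
  | one => rw [HomN_one f.2, HomN_one f'.2]
  | mul x y _ _ hx hy => rw [f.2 x y, f'.2 x y, hx, hy]
  | inv x _ hx => rw [HomN_inv f.2, HomN_inv f'.2, hx]

/-- a common eigenvector -/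
theorem eig (q : ℕ) [hq : Fact q.Prime] (hab : ∀ a b : commutator G, a * b = b * a)
    (hexp : ∀ x : G, x ^ (q - 1) ∈ commutator G) [Group.FG (commutator G)]
    (hne : ∃ f ∈ HomN G q, f ≠ 0) :
    ∃ f ∈ HomN G q, f ≠ 0 ∧ ∀ g : G, ∃ a : ZMod q, T q g f = a • f := by
  classical
  haveI : Finite (HomN G q) := HomN_finite q
  -- minimal invariant subspace
  let P : ℕ → Prop := fun k => ∃ W : Submodule (ZMod q) (commutator G → ZMod q),
    W ≤ HomN G q ∧ W ≠ ⊥ ∧ (∀ g, ∀ f ∈ W, T q g f ∈ W) ∧ (W : Set (commutator G → ZMod q)).ncard = k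
  have hP : ∃ k, P k := by
    obtain ⟨f, hf, hf0⟩ := hne
    refine ⟨_, HomN G q, le_rfl, ?_, fun g f hf => T_HomN q g hf, rfl⟩
    intro h
    rw [h] at hf
    exact hf0 ((Submodule.mem_bot _).1 hf)
  obtain ⟨W, hW1, hW2, hW3, hW4⟩ := Nat.find_spec hP
  have hmin : ∀ W' : Submodule (ZMod q) (commutator G → ZMod q), W' ≤ W → W' ≠ ⊥ →
      (∀ g, ∀ f ∈ W', T q g f ∈ W') → W' = W := by
    intro W' h1 h2 h3
    have hk : Nat.find hP ≤ (W' : Set (commutator G → ZMod q)).ncard :=
      Nat.find_min' hP ⟨W', h1.trans hW1, h2, h3, rfl⟩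
    have hfin : (W : Set (commutator G → ZMod q)).Finite :=
      (Set.toFinite ((HomN G q : Submodule _ _) : Set (commutator G → ZMod q))).subset hW1
    apply SetLike.coe_injective
    apply Set.eq_of_subset_of_ncard_le h1 _ hfin
    rw [hW4]; exact hk
  obtain ⟨f, hf, hf0⟩ := (Submodule.ne_bot_iff _).1 hW2
  refine ⟨f, hW1 hf, hf0, fun g => ?_⟩
  -- an eigenvector of `T g`
  have hpow : ((T q g) ^ (q - 1)) f = f := by
    rw [T_pow, T_mem q hab (hexp g)]
  let v : (ZMod q)ˣ → (commutator G → ZMod q) := fun a =>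
    ∑ k ∈ Finset.range (q - 1), ((a : ZMod q) ^ k) • ((T q g) ^ k) f
  have hmemk : ∀ k, ((T q g) ^ k) f ∈ W := by
    intro k
    rw [T_pow]
    exact hW3 _ _ hf
  have hv : ∀ a, v a ∈ W := fun a => Submodule.sum_mem _ fun k _ => W.smul_mem _ (hmemk k)
  have hq1 : 1 ≤ q - 1 := by have := hq.out.two_le; omega
  have heig : ∀ a, T q g (v a) = ((a⁻¹ : (ZMod q)ˣ) : ZMod q) • v a := by
    intro a
    have key : ∀ k : ℕ, T q g (((a : ZMod q) ^ k) • ((T q g) ^ k) f) =
        ((a⁻¹ : (ZMod q)ˣ) : ZMod q) • (((a : ZMod q) ^ (k + 1)) • ((T q g) ^ (k + 1)) f) := by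
      intro k
      rw [map_smul, pow_succ' (T q g), Module.End.mul_apply, smul_smul, pow_succ' (a : ZMod q),
        ← mul_assoc, Units.inv_mul, one_mul]
    have h1 : T q g (v a) = ((a⁻¹ : (ZMod q)ˣ) : ZMod q) •
        ∑ k ∈ Finset.range (q - 1), ((a : ZMod q) ^ (k + 1)) • ((T q g) ^ (k + 1)) f := by
      simp only [v]
      rw [map_sum, Finset.smul_sum]
      exact Finset.sum_congr rfl fun k _ => key k
    rw [h1]
    congr 1
    have h2 := Finset.sum_range_succ' (fun k => ((a : ZMod q) ^ k) • ((T q g) ^ k) f) (q - 1)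
    have h3 := Finset.sum_range_succ (fun k => ((a : ZMod q) ^ k) • ((T q g) ^ k) f) (q - 1)
    have h4 : ((a : ZMod q) ^ (q - 1)) • ((T q g) ^ (q - 1)) f =
        ((a : ZMod q) ^ 0) • ((T q g) ^ 0) f := by
      rw [hpow, ZMod.pow_card_sub_one_eq_one a.ne_zero]
      simp
    simp only [v]
    rw [h3, h4] at h2
    exact (add_right_cancel h2).symm
  have hsum : ∑ a : (ZMod q)ˣ, v a = -f := by
    simp only [v]
    rw [Finset.sum_comm]
    have h5 : ∀ k ∈ Finset.range (q - 1), ∑ a : (ZMod q)ˣ, ((a : ZMod q) ^ k) • ((T q g) ^ k) f =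
        if k = 0 then -f else 0 := by
      intro k hk
      rw [← Finset.sum_smul]
      have h6 := FiniteField.sum_pow_units (ZMod q) k
      rw [ZMod.card] at h6
      rw [h6]
      by_cases hk0 : k = 0
      · subst hk0
        simp
      · rw [if_neg hk0, if_neg, zero_smul]
        intro hd
        exact absurd (Nat.le_of_dvd (Nat.pos_of_ne_zero hk0) hd) (not_le.2 (Finset.mem_range.1 hk))
    rw [Finset.sum_congr rfl h5, Finset.sum_ite_eq' (Finset.range (q - 1)) 0]
    rw [if_pos (Finset.mem_range.2 (by omega))]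
  obtain ⟨a, ha⟩ : ∃ a, v a ≠ 0 := by
    by_contra hcon
    push Not at hcon
    rw [Finset.sum_eq_zero fun a _ => hcon a] at hsum
    exact hf0 (neg_eq_zero.1 hsum.symm)
  let E : Submodule (ZMod q) (commutator G → ZMod q) :=
    W ⊓ LinearMap.ker (T q g - ((a⁻¹ : (ZMod q)ˣ) : ZMod q) • LinearMap.id)
  have hE : E = W := by
    apply hmin E inf_le_left
    · rw [Submodule.ne_bot_iff]
      refine ⟨v a, ⟨hv a, ?_⟩, ha⟩
      rw [SetLike.mem_coe, LinearMap.mem_ker, LinearMap.sub_apply, LinearMap.smul_apply,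
        LinearMap.id_apply, heig a, sub_self]
    · rintro g' f' ⟨h1, h2⟩
      refine ⟨hW3 g' f' h1, ?_⟩
      rw [SetLike.mem_coe, LinearMap.mem_ker] at h2 ⊢
      simp only [LinearMap.sub_apply, LinearMap.smul_apply, LinearMap.id_apply] at h2 ⊢
      rw [T_comm q hab, sub_eq_zero.1 h2, map_smul, sub_self]
  have hfE : f ∈ E := by rw [hE]; exact hf
  have h7 := hfE.2
  rw [SetLike.mem_coe, LinearMap.mem_ker] at h7
  simp only [LinearMap.sub_apply, LinearMap.smul_apply, LinearMap.id_apply] at h7
  exact ⟨_, sub_eq_zero.1 h7⟩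

/-- an infinite finitely generated abelian group maps onto `ZMod q` -/
theorem exists_hom (q : ℕ) [hq : Fact q.Prime] (hab : ∀ a b : commutator G, a * b = b * a)
    [Group.FG (commutator G)] (hinf : ¬ Finite (commutator G)) : ∃ f ∈ HomN G q, f ≠ 0 := by
  letI : CommGroup (commutator G) := { (inferInstance : Group (commutator G)) with mul_comm := hab }
  obtain ⟨n, ι, _, p, hp, e, ⟨φ⟩⟩ := AddCommGroup.equiv_free_prod_directSum_zmod
    (Additive (commutator G))
  rcases n with - | n
  · exfalso
    apply hinf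
    haveI : ∀ i, NeZero (p i ^ e i) := fun i => ⟨pow_ne_zero _ (hp i).ne_zero⟩
    haveI : Finite (DirectSum ι fun i => ZMod (p i ^ e i)) := by
      classical
      exact Finite.of_equiv _ (DirectSum.addEquivProd fun i => ZMod (p i ^ e i)).symm.toEquiv
    haveI : Finite (Fin 0 →₀ ℤ) := inferInstance
    haveI : Finite (Additive (commutator G)) := Finite.of_equiv _ φ.symm.toEquiv
    exact Finite.of_equiv (Additive (commutator G)) Additive.toMul
  · refine ⟨fun x => (((φ (Additive.ofMul x)).1 0 : ℤ) : ZMod q), ?_, ?_⟩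
    · intro a b
      have h1 : Additive.ofMul (a * b) = Additive.ofMul a + Additive.ofMul b := rfl
      show (((φ (Additive.ofMul (a * b))).1 0 : ℤ) : ZMod q) =
        (((φ (Additive.ofMul a)).1 0 : ℤ) : ZMod q) + (((φ (Additive.ofMul b)).1 0 : ℤ) : ZMod q)
      rw [h1, map_add, Prod.fst_add, Finsupp.add_apply, Int.cast_add]
    · intro h0
      have h1 : (((φ (φ.symm ((Finsupp.single 0 1, 0) :
          (Fin (n + 1) →₀ ℤ) × DirectSum ι fun i => ZMod (p i ^ e i)))).1 0 : ℤ) : ZMod q) = 0 :=
        congrFun h0 (Additive.toMul (φ.symm (Finsupp.single 0 1, 0)))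
      rw [AddEquiv.apply_symm_apply, Finsupp.single_eq_same, Int.cast_one] at h1
      exact one_ne_zero h1

end G3aux

open G3aux in
/-- G3. -/
theorem finite_of_no_aff {G : Type} [Group G] [Group.FG G] (hG : derivedSeries G 2 = ⊥)
    (M q : ℕ) [Fact q.Prime] (hM : 1 ≤ M) (hMq : M ∣ q - 1)
    (hexp : ∀ x : G, x ^ M ∈ commutator G)
    (hno : ∀ φ : G →* Aff q, ∀ x y : G, φ (x * y * x⁻¹ * y⁻¹) = 1) : Finite G := by
  classical
  have hq : q.Prime := Fact.out
  have hab : ∀ a b : commutator G, a * b = b * a := by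
    intro a b
    have h1 : ⁅commutator G, commutator G⁆ = ⊥ := by
      have := hG
      simpa [derivedSeries_succ, commutator_def] using this
    have h2 := Subgroup.commutator_mem_commutator a.2 b.2
    rw [h1, Subgroup.mem_bot, commutatorElement_eq_one_iff_mul_comm] at h2
    exact Subtype.ext h2
  -- the abelianization is finite
  haveI hfQ : Finite (G ⧸ commutator G) := by
    haveI : Group.FG (Abelianization G) := inferInstanceAs (Group.FG (G ⧸ commutator G))
    have : Finite (Abelianization G) := by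
      apply CommGroup.finite_of_fg_isMulTorsion
      intro x
      obtain ⟨g, rfl⟩ := QuotientGroup.mk_surjective x
      refine isOfFinOrder_iff_pow_eq_one.2 ⟨M, hM, ?_⟩
      have := (QuotientGroup.eq_one_iff (N := commutator G) (g ^ M)).2 (hexp g)
      exact this
    exact this
  haveI : (commutator G).FiniteIndex := Subgroup.finiteIndex_of_finite_quotient
  haveI : Group.FG (commutator G) := inferInstance
  by_contra hGinf
  have hNinf : ¬ Finite (commutator G) := by
    intro hN
    exact hGinf (Finite.of_subgroup_quotient (commutator G))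
  have hexp' : ∀ x : G, x ^ (q - 1) ∈ commutator G := by
    intro x
    obtain ⟨k, hk⟩ := hMq
    rw [hk, pow_mul]
    exact Subgroup.pow_mem _ (hexp x) k
  obtain ⟨f, hf, hf0, hfa⟩ := eig q hab hexp' (exists_hom q hab hNinf)
  choose a ha using hfa
  obtain ⟨n0, hn0⟩ : ∃ n0, f n0 ≠ 0 := by
    by_contra hcon
    push Not at hcon
    exact hf0 (funext hcon)
  have hval : ∀ g n, f (cj g n) = a g * f n := fun g n => congrFun (ha g) n
  have ha1 : a 1 = 1 := by
    have := hval 1 n0
    rw [cj_one] at this
    exact (mul_eq_right₀ hn0).1 this.symm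
  have hamul : ∀ g h, a (g * h) = a g * a h := by
    intro g h
    have h1 := hval (g * h) n0
    rw [cj_mul, hval, hval] at h1
    have := mul_right_cancel₀ hn0 ((mul_assoc _ _ _).trans h1)
    rw [← this, mul_comm]
  let χ : G →* (ZMod q)ˣ := MonoidHom.toHomUnits
    { toFun := a, map_one' := ha1, map_mul' := hamul }
  have hχ : ∀ g, ((χ g : (ZMod q)ˣ) : ZMod q) = a g := fun g => rfl
  have hχN : ∀ g ∈ commutator G, χ g = 1 := by
    intro g hg
    apply Units.ext
    rw [hχ, Units.val_one]
    have := hval g n0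
    rw [cj_mem hab hg] at this
    exact (mul_eq_right₀ hn0).1 this.symm
  let w : G →* (ZMod q)ˣ := χ⁻¹
  have hwN : ∀ g ∈ commutator G, w g = 1 := by
    intro g hg
    simp only [w, MonoidHom.inv_apply, hχN g hg, inv_one]
  letI : Fintype (G ⧸ commutator G) := Fintype.ofFinite _
  let rep : G ⧸ commutator G → G := Quotient.out
  have hrep : ∀ c, (rep c : G ⧸ commutator G) = c := fun c => Quotient.out_eq' c
  have hmem : ∀ (g : G) (c : G ⧸ commutator G),
      (rep ((g : G ⧸ commutator G) * c))⁻¹ * g * rep c ∈ commutator G := by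
    intro g c
    rw [← QuotientGroup.eq_one_iff]
    rw [QuotientGroup.mk_mul, QuotientGroup.mk_mul, QuotientGroup.mk_inv, hrep, hrep]
    group
  let d : G → G ⧸ commutator G → commutator G := fun g c => ⟨_, hmem g c⟩
  have hd : ∀ g h c, d (g * h) c = d g ((h : G ⧸ commutator G) * c) * d h c := by
    intro g h c
    apply Subtype.ext
    simp only [d, Subgroup.coe_mul]
    have e : ((g * h : G) : G ⧸ commutator G) * c = (g : G ⧸ commutator G) * ((h : G ⧸ commutator G) * c) := by
      rw [QuotientGroup.mk_mul, mul_assoc]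
    rw [e]
    group
  let B : G → ZMod q := fun g => ∑ c : G ⧸ commutator G,
    ((w (rep ((g : G ⧸ commutator G) * c)) : (ZMod q)ˣ) : ZMod q) * f (d g c)
  have hwrep : ∀ (g : G) (c : G ⧸ commutator G), w (rep ((g : G ⧸ commutator G) * c)) = w g * w (rep c) := by
    intro g c
    have h1 := hwN _ (hmem g c)
    rw [map_mul, map_mul, map_inv] at h1
    rw [mul_assoc, inv_mul_eq_one] at h1
    exact h1
  have hB : ∀ g h, B (g * h) = B g + ((w g : (ZMod q)ˣ) : ZMod q) * B h := by
    intro g h
    simp only [B]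
    have e : ∀ c, ((g * h : G) : G ⧸ commutator G) * c = (g : G ⧸ commutator G) * ((h : G ⧸ commutator G) * c) := by
      intro c; rw [QuotientGroup.mk_mul, mul_assoc]
    have h1 : ∀ c, ((w (rep (((g * h : G) : G ⧸ commutator G) * c)) : (ZMod q)ˣ) : ZMod q) * f (d (g * h) c) =
        ((w (rep ((g : G ⧸ commutator G) * ((h : G ⧸ commutator G) * c))) : (ZMod q)ˣ) : ZMod q) *
          f (d g ((h : G ⧸ commutator G) * c)) +
        ((w g : (ZMod q)ˣ) : ZMod q) * (((w (rep ((h : G ⧸ commutator G) * c)) : (ZMod q)ˣ) : ZMod q) *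
          f (d h c)) := by
      intro c
      rw [e, hd, hf, hwrep g ((h : G ⧸ commutator G) * c)]
      push_cast
      ring
    rw [Finset.sum_congr rfl fun c _ => h1 c, Finset.sum_add_distrib, ← Finset.mul_sum]
    congr 1
    exact Equiv.sum_comp (Equiv.mulLeft (h : G ⧸ commutator G)) (fun c =>
      ((w (rep ((g : G ⧸ commutator G) * c)) : (ZMod q)ˣ) : ZMod q) * f (d g c))
  let φ : G →* Aff q :=
    { toFun := fun g => ⟨B g, w g⟩
      map_one' := by
        have h1 := hB 1 1
        rw [mul_one, map_one, Units.val_one, one_mul] at h1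
        apply Aff.ext
        · simp only [Aff.one_v]
          exact left_eq_add.1 h1
        · simp
      map_mul' := by
        intro g h
        apply Aff.ext
        · simp only [Aff.mul_v]
          exact hB g h
        · simp only [Aff.mul_c]
          exact map_mul w g h }
  have hker : commutator G ≤ φ.ker := by
    rw [commutator_def, Subgroup.commutator_le]
    intro x _ y _
    rw [MonoidHom.mem_ker, commutatorElement_def]
    exact hno φ x y
  have hBN : ∀ n : commutator G, B n = (Fintype.card (G ⧸ commutator G) : ZMod q) * f n := by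
    intro n
    simp only [B]
    have h1 : ((n : G) : G ⧸ commutator G) = 1 := (QuotientGroup.eq_one_iff _).2 n.2
    have h2 : ∀ c, ((w (rep (((n : G) : G ⧸ commutator G) * c)) : (ZMod q)ˣ) : ZMod q) * f (d n c) = f n := by
      intro c
      have h3 : d n c = cj (rep c) n := by
        apply Subtype.ext
        simp only [d, cj, h1, one_mul]
      rw [h3, hval, h1, one_mul, ← mul_assoc, ← hχ]
      simp only [w, MonoidHom.inv_apply, Units.inv_mul, one_mul]
    rw [Finset.sum_congr rfl fun c _ => h2 c, Finset.sum_const, nsmul_eq_mul, Finset.card_univ]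
  have hcard : (Fintype.card (G ⧸ commutator G) : ZMod q) ≠ 0 := by
    intro h0
    rw [ZMod.natCast_eq_zero_iff] at h0
    obtain ⟨x, hx⟩ := exists_prime_orderOf_dvd_card q h0
    have hxM : x ^ M = 1 := by
      obtain ⟨g, rfl⟩ := QuotientGroup.mk_surjective x
      exact (QuotientGroup.eq_one_iff (N := commutator G) (g ^ M)).2 (hexp g)
    have hdvd : q ∣ M := by rw [← hx]; exact orderOf_dvd_of_pow_eq_one hxM
    have h1 := Nat.le_of_dvd hM hdvd
    have h2 := Nat.le_of_dvd (by have := hq.two_le; omega) hMq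
    have h3 := hq.two_le
    omega
  have h1 : φ n0 = 1 := MonoidHom.mem_ker.1 (hker n0.2)
  have h2 : B n0 = 0 := congrArg Aff.v h1
  rw [hBN] at h2
  exact (mul_ne_zero hcard hn0) h2

end Pool.Agent.MIso
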