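import Pool.Agent.MIso.R1

set_option autoImplicit false

namespace Pool.Agent.MIso

namespace R2aux

theorem ev_coe {n : ℕ} {A : Type} [Group A] (g : Fin n → A)
    (g' : Fin n → Subgroup.closure (Set.range g)) (h : ∀ i, (g' i : A) = g i)
    (w : List (Fin n × Bool)) : ((ev g' w : Subgroup.closure (Set.range g)) : A) = ev g w := by
  unfold ev
  induction w with
  | nil => rfl
  | cons a t ih =>
    rw [List.map_cons, List.prod_cons, Subgroup.coe_mul, ih, List.map_cons, List.prod_cons]
    congr 1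
    cases a.2
    · simp only [cond_false, Subgroup.coe_inv, h]
    · simp only [cond_true, h]

theorem choose_eta (m : ℕ) (a : ℝ) (η : ℝ) (hη : 0 < η) :
    ∃ t : ℝ, 0 < t ∧ (a + t) ^ m ≤ a ^ m + η := by
  have hc : Continuous fun t : ℝ => (a + t) ^ m := by fun_prop
  have h1 : ∀ᶠ t in nhds (0 : ℝ), (a + t) ^ m < a ^ m + η := by
    have := hc.tendsto 0
    rw [add_zero] at this
    exact this.eventually (gt_mem_nhds (by linarith))
  obtain ⟨ε, hε, h2⟩ := Metric.eventually_nhds_iff.1 h1
  refine ⟨ε / 2, by linarith, (h2 ?_).le⟩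
  rw [Real.dist_eq, sub_zero, abs_of_pos (by linarith)]
  linarith

end R2aux

/-- R2 (uses R1). The group generated need not be everything. -/
theorem rw_joint {n : ℕ} (m : ℕ) {A : Type} [Group A] [Finite A] (g : Fin n → A)
    (η : ℝ) (hη : 0 < η) :
    ∃ L : ℕ, ∀ l ≥ L, ∀ S : Set (Fin m → A),
      (Nat.card {r : Fin m → Words n l // (fun j => ev g (r j).1) ∈ S} : ℝ)
        ≤ (2 ^ m * (Nat.card {h : Fin m → Subgroup.closure (Set.range g) //
              (fun j => (h j : A)) ∈ S} : ℝ)
            / (Nat.card (Subgroup.closure (Set.range g)) : ℝ) ^ m + η)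
          * (Nat.card (Words n l) : ℝ) ^ m := by
  classical
  set W := Subgroup.closure (Set.range g) with hW
  let g' : Fin n → W := fun i => ⟨g i, Subgroup.subset_closure ⟨i, rfl⟩⟩
  have hev : ∀ w, ((ev g' w : W) : A) = ev g w := R2aux.ev_coe g g' fun _ => rfl
  have hg' : Subgroup.closure (Set.range g') = ⊤ := by
    have h1 : Set.range g' = (Subtype.val : W → A) ⁻¹' Set.range g := by
      ext x
      constructor
      · rintro ⟨i, rfl⟩
        exact ⟨i, rfl⟩
      · rintro ⟨i, hi⟩
        exact ⟨i, Subtype.ext hi⟩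
    rw [h1]
    exact Subgroup.closure_closure_coe_preimage
  have hWpos : (0 : ℝ) < Nat.card W := by
    exact_mod_cast Nat.card_pos
  obtain ⟨t, ht, htm⟩ := R2aux.choose_eta m (2 / (Nat.card W : ℝ)) (η / (Nat.card W : ℝ) ^ m)
    (div_pos hη (pow_pos hWpos m))
  obtain ⟨L, hL⟩ := rw_bound g' hg' t ht
  refine ⟨L, fun l hl S => ?_⟩
  have : Fintype {h : Fin m → W // (fun j => (h j : A)) ∈ S} := Fintype.ofFinite _
  let F : {r : Fin m → Words n l // (fun j => ev g (r j).1) ∈ S} →
      Σ h : {h : Fin m → W // (fun j => (h j : A)) ∈ S},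
        ∀ j, {w : Words n l // ev g' w.1 = h.1 j} := fun r =>
    ⟨⟨fun j => ev g' (r.1 j).1, by
      have h1 := r.2
      have h2 : (fun j => ((ev g' (r.1 j).1 : W) : A)) = fun j => ev g (r.1 j).1 :=
        funext fun j => hev _
      rw [h2]
      exact h1⟩, fun j => ⟨r.1 j, rfl⟩⟩
  have hF : Function.Injective F := by
    intro r r' h
    have h2 := congrArg (fun z : Σ h : {h : Fin m → W // (fun j => (h j : A)) ∈ S},
        ∀ j, {w : Words n l // ev g' w.1 = h.1 j} => fun j => (z.2 j).1) h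
    exact Subtype.ext h2
  have h1 : Nat.card {r : Fin m → Words n l // (fun j => ev g (r j).1) ∈ S} ≤
      ∑ h : {h : Fin m → W // (fun j => (h j : A)) ∈ S},
        ∏ j, Nat.card {w : Words n l // ev g' w.1 = h.1 j} := by
    refine (Nat.card_le_card_of_injective F hF).trans ?_
    rw [Nat.card_sigma]
    refine Finset.sum_le_sum fun h _ => ?_
    rw [Nat.card_pi]
  have h2 : (Nat.card {r : Fin m → Words n l // (fun j => ev g (r j).1) ∈ S} : ℝ) ≤
      ∑ h : {h : Fin m → W // (fun j => (h j : A)) ∈ S},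
        ∏ j : Fin m, ((2 / (Nat.card W : ℝ) + t) * (Nat.card (Words n l) : ℝ)) := by
    refine (Nat.cast_le.2 h1).trans ?_
    push_cast
    exact Finset.sum_le_sum fun h _ => Finset.prod_le_prod (fun _ _ => Nat.cast_nonneg _)
      fun j _ => hL l hl (h.1 j)
  refine h2.trans ?_
  rw [Finset.sum_const, Finset.prod_const, Finset.card_univ, Finset.card_univ, Fintype.card_fin,
    nsmul_eq_mul, mul_pow, ← mul_assoc, ← Nat.card_eq_fintype_card]
  refine mul_le_mul_of_nonneg_right ?_ (pow_nonneg (Nat.cast_nonneg _) m)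
  set s : ℝ := (Nat.card {h : Fin m → W // (fun j => (h j : A)) ∈ S} : ℝ) with hs
  have hs0 : 0 ≤ s := Nat.cast_nonneg _
  have hs1 : s ≤ (Nat.card W : ℝ) ^ m := by
    have h3 : Nat.card {h : Fin m → W // (fun j => (h j : A)) ∈ S} ≤ Nat.card (Fin m → W) :=
      Nat.card_le_card_of_injective Subtype.val Subtype.val_injective
    rw [Nat.card_fun, Nat.card_fin] at h3
    · rw [hs]
      exact_mod_cast h3
  have hp : 0 < (Nat.card W : ℝ) ^ m := pow_pos hWpos m
  calc s * (2 / (Nat.card W : ℝ) + t) ^ m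
      ≤ s * ((2 / (Nat.card W : ℝ)) ^ m + η / (Nat.card W : ℝ) ^ m) :=
        mul_le_mul_of_nonneg_left htm hs0
    _ = 2 ^ m * s / (Nat.card W : ℝ) ^ m + (s / (Nat.card W : ℝ) ^ m) * η := by
        rw [div_pow]
        ring
    _ ≤ 2 ^ m * s / (Nat.card W : ℝ) ^ m + η := by
        have : s / (Nat.card W : ℝ) ^ m ≤ 1 := (div_le_one hp).2 hs1
        nlinarith

end Pool.Agent.MIso
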