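import Pool.Agent.MIso.Defs
import Pool.Agent.MIso.R2

set_option autoImplicit false

/-!
# Block G5: few presentations have a nonabelian homomorphism to `Aff q`
-/

namespace Pool.Agent.MIso

namespace G5aux

open Finset

variable {q n : ℕ}

/-- pairing of the translation part with a vector -/
def dot (b : Fin n → ZMod q) : AffN q n →* Aff q where
  toFun a := ⟨∑ i, a.v i * b i, a.c⟩
  map_one' := by ext <;> simp
  map_mul' a a' := by
    ext
    · simp [add_mul, Finset.sum_add_distrib, Finset.mul_sum, mul_assoc]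
    · simp

@[simp] theorem dot_v (b : Fin n → ZMod q) (a : AffN q n) : (dot b a).v = ∑ i, a.v i * b i := rfl
@[simp] theorem dot_c (b : Fin n → ZMod q) (a : AffN q n) : (dot b a).c = a.c := rfl

/-- the linear part -/
def lin : Aff q →* (ZMod q)ˣ where
  toFun a := a.c
  map_one' := rfl
  map_mul' _ _ := rfl

@[simp] theorem lin_apply (a : Aff q) : lin a = a.c := rfl

theorem ev_map {Γ Δ : Type*} [Group Γ] [Group Δ] (f : Γ →* Δ) (g : Fin n → Γ)
    (w : List (Fin n × Bool)) : f (ev g w) = ev (fun i => f (g i)) w := by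
  unfold ev
  rw [map_list_prod, List.map_map]
  congr 1
  refine List.map_congr_left fun a _ => ?_
  cases h : a.2 <;> simp [h]

theorem ev_mem {Γ : Type*} [Group Γ] (g : Fin n → Γ) (w : List (Fin n × Bool)) :
    ev g w ∈ Subgroup.closure (Set.range g) := by
  unfold ev
  refine Subgroup.list_prod_mem _ ?_
  intro x hx
  rw [List.mem_map] at hx
  obtain ⟨a, _, rfl⟩ := hx
  have h : g a.1 ∈ Subgroup.closure (Set.range g) := Subgroup.subset_closure ⟨_, rfl⟩
  cases a.2
  · exact inv_mem h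
  · exact h

/-- evaluation of the word in the free group -/
theorem lift_word {Γ : Type*} [Group Γ] (g : Fin n → Γ) (w : List (Fin n × Bool)) :
    FreeGroup.lift g (wordIn n (w.map fun a => ((a.1 : ℕ), a.2))) = ev g w := by
  unfold wordIn ev
  rw [FreeGroup.lift_mk, List.map_map, map_list_prod, List.map_map]
  congr 1
  refine List.map_congr_left fun a _ => ?_
  cases h : a.2 <;> simp [h]

/-- the projection -/
def quo (P : Pres) : FreeGroup (Fin P.1) →* Met P := PresentedGroup.mk (relset P)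

theorem gen_eq (P : Pres) (i : Fin P.1) : gen P i = quo P (FreeGroup.of i) := rfl

theorem quo_surj (P : Pres) : Function.Surjective (quo P) := PresentedGroup.mk_surjective _

theorem quo_rel (P : Pres) {w : Word} (hw : w ∈ P.2) : quo P (wordIn P.1 w) = 1 := by
  have h : PresentedGroup.mk (relset P) (wordIn P.1 w) = 1 := by
    refine (PresentedGroup.mk_eq_one_iff (rels := relset P)).2 ?_
    refine Subgroup.subset_normalClosure ?_
    left
    exact ⟨w, hw, rfl⟩
  exact h

theorem lift_quo {P : Pres} {Γ : Type*} [Group Γ] (φ : Met P →* Γ) :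
    FreeGroup.lift (fun i => φ (gen P i)) = φ.comp (quo P) := by
  refine FreeGroup.ext_hom _ _ fun i => ?_
  rw [FreeGroup.lift_apply_of]
  rfl

theorem hom_rel {m l : ℕ} {Γ : Type*} [Group Γ] (r : Fin m → Words n l)
    (φ : Met (pres r) →* Γ) (j : Fin m) :
    ev (fun i : Fin n => φ (gen (pres r) i)) (r j).1 = 1 := by
  obtain ⟨W, hW⟩ : ∃ W : Word, W = (r j).1.map fun a => ((a.1 : ℕ), a.2) := ⟨_, rfl⟩
  have h2 : quo (pres r) (wordIn (pres r).1 W) = 1 := by
    refine quo_rel (pres r) ?_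
    rw [hW]
    simp [pres, List.mem_ofFn]
  have h3 := lift_word (fun i : Fin n => φ (gen (pres r) i)) (r j).1
  rw [← hW] at h3
  rw [← h3]
  have h4 := DFunLike.congr_fun (lift_quo φ) (wordIn (pres r).1 W)
  rw [MonoidHom.comp_apply, h2, map_one] at h4
  exact h4

theorem hom_ind {m l : ℕ} {Γ : Type*} [Group Γ] (r : Fin m → Words n l)
    (φ : Met (pres r) →* Γ) (H : Subgroup Γ) (hH : ∀ i : Fin n, φ (gen (pres r) i) ∈ H)
    (x : Met (pres r)) : φ x ∈ H := by
  obtain ⟨y, rfl⟩ := quo_surj (pres r) x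
  have h1 := lift_quo φ
  have h2 : φ (quo (pres r) y) = FreeGroup.lift (fun i : Fin n => φ (gen (pres r) i)) y := by
    exact (DFunLike.congr_fun h1 y).symm
  rw [h2]
  have h3 : (FreeGroup.lift (fun i : Fin n => φ (gen (pres r) i))).range ≤ H := by
    rw [FreeGroup.range_lift_eq_closure, Subgroup.closure_le]
    rintro _ ⟨i, rfl⟩
    exact hH i
  exact h3 ⟨y, rfl⟩

/-- the elements `(β (c - 1), c)` form a subgroup -/
def con (β : ZMod q) : Subgroup (Aff q) where
  carrier := {a | a.v = β * ((a.c : ZMod q) - 1)}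
  mul_mem' {a b} ha hb := by
    simp only [Set.mem_ofPred_eq] at ha hb ⊢
    simp only [Aff.mul_v, Aff.mul_c, Units.val_mul, ha, hb]
    ring
  one_mem' := by simp
  inv_mem' {a} ha := by
    simp only [Set.mem_ofPred_eq] at ha ⊢
    simp only [Aff.inv_v, Aff.inv_c, ha]
    have h : ((a.c⁻¹ : (ZMod q)ˣ) : ZMod q) * (a.c : ZMod q) = 1 := by simp
    linear_combination (-β) * h

theorem mem_con {β : ZMod q} {a : Aff q} : a ∈ con β ↔ a.v = β * ((a.c : ZMod q) - 1) := Iff.rfl

/-- elements of `con β` have trivial commutators -/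
theorem con_comm {β : ZMod q} {a b : Aff q} (ha : a ∈ con β) (hb : b ∈ con β) :
    a * b * a⁻¹ * b⁻¹ = 1 := by
  have h : a * b * a⁻¹ * b⁻¹ ∈ con β :=
    mul_mem (mul_mem (mul_mem ha hb) (inv_mem ha)) (inv_mem hb)
  have hc : (a * b * a⁻¹ * b⁻¹).c = 1 := by
    simp only [Aff.mul_c, Aff.inv_c]
    rw [mul_comm a.c b.c]
    simp
  rw [mem_con, hc] at h
  ext
  · rw [h]; simp
  · rw [hc]; rfl

/-- translations commute -/
theorem trans_comm {a b : Aff q} (ha : a.c = 1) (hb : b.c = 1) : a * b * a⁻¹ * b⁻¹ = 1 := by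
  ext
  · simp [ha, hb]
  · simp [ha, hb]

/-- the fundamental relation -/
theorem fund (χ : Fin n → (ZMod q)ˣ) (h : AffN q n)
    (hh : h ∈ Subgroup.closure (Set.range (foxGen χ))) :
    ∑ i, h.v i * ((χ i : ZMod q) - 1) = (h.c : ZMod q) - 1 := by
  have h1 : Subgroup.closure (Set.range (foxGen χ)) ≤
      (con (1 : ZMod q)).comap (dot (fun i => (χ i : ZMod q) - 1)) := by
    rw [Subgroup.closure_le]
    rintro _ ⟨i, rfl⟩
    show _ ∈ con (1 : ZMod q)
    rw [mem_con]
    simp [foxGen, Pi.single_apply]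
  have h2 := h1 hh
  rw [Subgroup.mem_comap, mem_con] at h2
  simpa using h2

/-- a nonabelian homomorphism gives a character and a vector -/
theorem bad_imp {m l : ℕ} (r : Fin m → Words n l) (φ : Met (pres r) →* Aff q)
    (x y : Met (pres r)) (hxy : φ (x * y * x⁻¹ * y⁻¹) ≠ 1) [Fact q.Prime] :
    ∃ (s : Fin n) (χ : Fin n → (ZMod q)ˣ) (b : Fin n → ZMod q), χ s ≠ 1 ∧ b s = 0 ∧ b ≠ 0 ∧
      ∀ j, dot b (ev (foxGen χ) (r j).1) = 1 := by
  set g : Fin n → Aff q := fun i => φ (gen (pres r) i) with hg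
  have hne : ∃ s, (g s).c ≠ 1 := by
    by_contra hcon
    push Not at hcon
    apply hxy
    have h1 : ∀ z, φ z ∈ (lin : Aff q →* _).ker := fun z => hom_ind r φ _ (fun i => hcon i) z
    rw [map_mul, map_mul, map_mul, map_inv, map_inv]
    exact trans_comm (h1 x) (h1 y)
  obtain ⟨s, hs⟩ := hne
  have hs' : ((g s).c : ZMod q) - 1 ≠ 0 := by
    intro h
    apply hs
    ext
    rw [Units.val_one]
    exact sub_eq_zero.1 h
  set β : ZMod q := (g s).v / (((g s).c : ZMod q) - 1) with hβ
  refine ⟨s, fun i => (g i).c, fun i => (g i).v - β * (((g i).c : ZMod q) - 1), hs, ?_, ?_, ?_⟩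
  · simp only
    rw [hβ, div_mul_cancel₀ _ hs', sub_self]
  · intro h0
    apply hxy
    have h1 : ∀ z, φ z ∈ con β := fun z => hom_ind r φ _ (fun i => by
      have := congrFun h0 i
      simp only [Pi.zero_apply] at this
      rw [mem_con]
      exact sub_eq_zero.1 this) z
    rw [map_mul, map_mul, map_mul, map_inv, map_inv]
    exact con_comm (h1 x) (h1 y)
  · intro j
    set w := ev (foxGen fun i => (g i).c) (r j).1 with hw
    have h1 : dot (fun i => (g i).v) w = 1 := by
      rw [hw, ev_map]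
      have h2 : (fun i => (dot fun i => (g i).v) (foxGen (fun i => (g i).c) i)) = g := by
        funext i
        ext
        · simp [foxGen, Pi.single_apply]
        · simp [foxGen]
      rw [h2]
      exact hom_rel r φ j
    have hc : w.c = 1 := congrArg Aff.c h1
    have hv : ∑ i, w.v i * (g i).v = 0 := congrArg Aff.v h1
    have hf := fund (fun i => (g i).c) w (ev_mem _ _)
    rw [hc, Units.val_one, sub_self] at hf
    ext
    · rw [dot_v, Aff.one_v]
      calc ∑ i, w.v i * ((g i).v - β * (((g i).c : ZMod q) - 1))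
          = ∑ i, w.v i * (g i).v - β * ∑ i, w.v i * (((g i).c : ZMod q) - 1) := by
            rw [Finset.mul_sum, ← Finset.sum_sub_distrib]
            exact Finset.sum_congr rfl fun i _ => by ring
        _ = 0 := by rw [hv, hf]; ring
    · rw [dot_c, hc]; rfl

/-- order of the group generated by a character -/
noncomputable def ord (χ : Fin n → (ZMod q)ˣ) : ℕ := Nat.card (Subgroup.closure (Set.range χ))

theorem range_big [Fact q.Prime] (χ : Fin n → (ZMod q)ˣ) (b : Fin n → ZMod q) (s : Fin n)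
    (hs : χ s ≠ 1) (hbs : b s = 0) (hb : b ≠ 0) (Γ : Subgroup (Aff q))
    (hΓ : ∀ i, (⟨b i, χ i⟩ : Aff q) ∈ Γ) : q * ord χ ≤ Nat.card Γ := by
  have hs' : (χ s : ZMod q) - 1 ≠ 0 := by
    intro h
    apply hs
    ext
    rw [Units.val_one]
    exact sub_eq_zero.1 h
  obtain ⟨t, ht⟩ : ∃ t, b t ≠ 0 := by
    by_contra hcon
    push Not at hcon
    exact hb (funext hcon)
  set κ : ZMod q := ((χ s : ZMod q) - 1) * b t with hκ
  have hκ0 : κ ≠ 0 := mul_ne_zero hs' ht
  have hκm : (⟨κ, 1⟩ : Aff q) ∈ Γ := by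
    have h1 : (⟨b s, χ s⟩ : Aff q) * ⟨b t, χ t⟩ * (⟨b t, χ t⟩ * ⟨b s, χ s⟩)⁻¹ ∈ Γ :=
      mul_mem (mul_mem (hΓ s) (hΓ t)) (inv_mem (mul_mem (hΓ t) (hΓ s)))
    have h2 : (⟨b s, χ s⟩ : Aff q) * ⟨b t, χ t⟩ * (⟨b t, χ t⟩ * ⟨b s, χ s⟩)⁻¹ = ⟨κ, 1⟩ := by
      rw [mul_inv_eq_iff_eq_mul]
      ext
      · simp only [Aff.mul_v, hbs, hκ, Units.val_one]
        ring
      · simp only [Aff.mul_c]
        rw [one_mul, mul_comm]
    rwa [h2] at h1
  have hpow : ∀ k : ℕ, (⟨κ, 1⟩ : Aff q) ^ k = ⟨k * κ, 1⟩ := by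
    intro k
    induction k with
    | zero => ext <;> simp
    | succ k ih =>
      rw [pow_succ, ih]
      ext
      · simp only [Aff.mul_v, Units.val_one]
        push_cast
        ring
      · simp
  have htr : ∀ v : ZMod q, (⟨v, 1⟩ : Aff q) ∈ Γ := by
    intro v
    have h1 := pow_mem hκm (v / κ).val
    rw [hpow, ZMod.natCast_zmod_val, div_mul_cancel₀ _ hκ0] at h1
    exact h1
  set L : Γ →* (ZMod q)ˣ := lin.comp Γ.subtype with hL
  have h1 : Nat.card L.ker * Nat.card L.range = Nat.card Γ := by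
    rw [← Subgroup.index_ker, Subgroup.card_mul_index]
  rw [← h1]
  refine Nat.mul_le_mul ?_ ?_
  · have h2 : Function.Injective (fun v : ZMod q => (⟨⟨⟨v, 1⟩, htr v⟩, by
        rw [MonoidHom.mem_ker]; rfl⟩ : L.ker)) := by
      intro v v' h
      simp only [Subtype.mk.injEq, Aff.mk.injEq, and_true] at h
      exact h
    have h3 := Nat.card_le_card_of_injective _ h2
    rwa [Nat.card_zmod] at h3
  · have h2 : Subgroup.closure (Set.range χ) ≤ L.range := by
      rw [Subgroup.closure_le]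
      rintro _ ⟨i, rfl⟩
      exact ⟨⟨_, hΓ i⟩, rfl⟩
    exact Nat.card_le_card_of_injective _ (Subgroup.inclusion_injective h2)

/-- share of one condition -/
theorem one_share [Fact q.Prime] (χ : Fin n → (ZMod q)ˣ) (b : Fin n → ZMod q) (s : Fin n)
    (hs : χ s ≠ 1) (hbs : b s = 0) (hb : b ≠ 0) (m : ℕ) :
    (Nat.card {h : Fin m → Subgroup.closure (Set.range (foxGen χ)) //
        (fun j => (h j : AffN q n)) ∈ {h : Fin m → AffN q n | ∀ j, dot b (h j) = 1}} : ℝ) /
      (Nat.card (Subgroup.closure (Set.range (foxGen χ))) : ℝ) ^ m ≤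
      (1 / ((q : ℝ) * ord χ)) ^ m := by
  set W := Subgroup.closure (Set.range (foxGen χ)) with hW
  set D : W →* Aff q := (dot b).comp W.subtype with hD
  have h1 : Nat.card {h : Fin m → W //
      (fun j => (h j : AffN q n)) ∈ {h : Fin m → AffN q n | ∀ j, dot b (h j) = 1}} =
      (Nat.card D.ker) ^ m := by
    have e : {h : Fin m → W //
        (fun j => (h j : AffN q n)) ∈ {h : Fin m → AffN q n | ∀ j, dot b (h j) = 1}} ≃
        (Fin m → D.ker) :=
      (Equiv.subtypePiEquivPi (p := fun (_ : Fin m) (x : W) => x ∈ D.ker))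
    rw [Nat.card_congr e, Nat.card_fun, Nat.card_fin]
  have h2 : Nat.card D.ker * Nat.card D.range = Nat.card W := by
    rw [← Subgroup.index_ker, Subgroup.card_mul_index]
  have h3 : q * ord χ ≤ Nat.card D.range := by
    refine range_big χ b s hs hbs hb D.range fun i => ?_
    refine ⟨⟨foxGen χ i, Subgroup.subset_closure ⟨i, rfl⟩⟩, ?_⟩
    ext
    · simp [hD, foxGen, Pi.single_apply]
    · simp [hD, foxGen]
  have : NeZero q := ⟨(Fact.out : q.Prime).ne_zero⟩
  have hk : 0 < Nat.card D.ker := Nat.card_pos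
  have ho : 0 < ord χ := Nat.card_pos
  have hq : 0 < q := (Fact.out : q.Prime).pos
  have hw : 0 < Nat.card W := Nat.card_pos
  rw [h1, Nat.cast_pow, ← div_pow]
  refine pow_le_pow_left₀ (by positivity) ?_ m
  rw [div_le_div_iff₀ (by exact_mod_cast hw) (by positivity), one_mul]
  have h4 : Nat.card D.ker * (q * ord χ) ≤ Nat.card W := by
    rw [← h2]; exact Nat.mul_le_mul_left _ h3
  exact_mod_cast h4

/-- the sum over all characters -/
theorem sum_ord [Fact q.Prime] (m : ℕ) (hnm : n < m) :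
    ∑ χ : Fin n → (ZMod q)ˣ, (1 / (ord χ : ℝ)) ^ m ≤ q := by
  classical
  have hq : 0 < q := (Fact.out : q.Prime).pos
  have hmem : ∀ χ ∈ (Finset.univ : Finset (Fin n → (ZMod q)ˣ)), ord χ ∈ Finset.Icc 1 q := by
    intro χ _
    rw [Finset.mem_Icc]
    refine ⟨Nat.card_pos, ?_⟩
    refine (Subgroup.card_le_card_group _).trans ?_
    rw [Nat.card_eq_fintype_card, ZMod.card_units]
    omega
  rw [← Finset.sum_fiberwise_of_maps_to hmem]
  have h1 : ∀ t ∈ Finset.Icc 1 q, ∑ χ ∈ (Finset.univ : Finset (Fin n → (ZMod q)ˣ)).filter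
      (fun χ => ord χ = t), (1 / (ord χ : ℝ)) ^ m ≤ 1 := by
    intro t ht
    rw [Finset.mem_Icc] at ht
    have ht0 : (1 : ℝ) ≤ t := by exact_mod_cast ht.1
    have h2 : ((Finset.univ : Finset (Fin n → (ZMod q)ˣ)).filter (fun χ => ord χ = t)).card ≤
        t ^ n := by
      have h3 : (Finset.univ : Finset (Fin n → (ZMod q)ˣ)).filter (fun χ => ord χ = t) ⊆
          Fintype.piFinset (fun _ : Fin n => (Finset.univ : Finset (ZMod q)ˣ).filter
            (fun a => a ^ t = 1)) := by
        intro χ hχ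
        rw [Finset.mem_filter] at hχ
        rw [Fintype.mem_piFinset]
        intro i
        rw [Finset.mem_filter]
        refine ⟨Finset.mem_univ _, ?_⟩
        rw [← hχ.2]
        have h4 : χ i ∈ Subgroup.closure (Set.range χ) := Subgroup.subset_closure ⟨i, rfl⟩
        have h5 : (⟨χ i, h4⟩ : Subgroup.closure (Set.range χ)) ^
            Nat.card (Subgroup.closure (Set.range χ)) = 1 := pow_card_eq_one'
        exact congrArg Subtype.val h5
      refine (Finset.card_le_card h3).trans ?_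
      rw [Fintype.card_piFinset, Finset.prod_const, Finset.card_univ, Fintype.card_fin]
      exact Nat.pow_le_pow_left (IsCyclic.card_pow_eq_one_le (by omega)) n
    have h5 : ∑ χ ∈ (Finset.univ : Finset (Fin n → (ZMod q)ˣ)).filter
        (fun χ => ord χ = t), (1 / (ord χ : ℝ)) ^ m =
        ((Finset.univ : Finset (Fin n → (ZMod q)ˣ)).filter (fun χ => ord χ = t)).card *
          (1 / (t : ℝ)) ^ m := by
      rw [Finset.card_eq_sum_ones, Nat.cast_sum, Finset.sum_mul]
      refine Finset.sum_congr rfl fun χ hχ => ?_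
      rw [(Finset.mem_filter.1 hχ).2]
      simp
    rw [h5]
    calc (((Finset.univ : Finset (Fin n → (ZMod q)ˣ)).filter (fun χ => ord χ = t)).card : ℝ) *
          (1 / (t : ℝ)) ^ m ≤ (t : ℝ) ^ n * (1 / (t : ℝ)) ^ m := by
          refine mul_le_mul_of_nonneg_right ?_ (by positivity)
          exact_mod_cast h2
      _ = (t : ℝ) ^ n / (t : ℝ) ^ m := by rw [one_div, inv_pow]; rfl
      _ ≤ 1 := by
          rw [div_le_one (by positivity)]
          exact pow_le_pow_right₀ ht0 hnm.le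
  refine (Finset.sum_le_sum h1).trans ?_
  rw [Finset.sum_const, Nat.card_Icc, nsmul_eq_mul, mul_one]
  have : q + 1 - 1 = q := by omega
  rw [this]

/-- union bound -/
theorem union_bd {α ι : Type*} [Finite α] (T : Finset ι) (p : α → Prop) (P : ι → α → Prop)
    (h : ∀ a, p a → ∃ z ∈ T, P z a) :
    (Nat.card {a // p a} : ℝ) ≤ ∑ z ∈ T, (Nat.card {a // P z a} : ℝ) := by
  classical
  have : Fintype α := Fintype.ofFinite _
  have h4 : ∀ p : α → Prop, Nat.card {r : α // p r} = ((Finset.univ : Finset α).filter p).card := by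
    intro p
    rw [Nat.card_eq_fintype_card, Fintype.card_subtype]
  have h2 : (Finset.univ : Finset α).filter p ⊆
      T.biUnion (fun z => (Finset.univ : Finset α).filter (P z)) := by
    intro r hr
    rw [Finset.mem_filter] at hr
    obtain ⟨z, hz, hP⟩ := h r hr.2
    rw [Finset.mem_biUnion]
    exact ⟨z, hz, Finset.mem_filter.2 ⟨Finset.mem_univ _, hP⟩⟩
  have h3 := (Finset.card_le_card h2).trans Finset.card_biUnion_le
  rw [h4 p, Finset.sum_congr rfl fun z _ => by rw [h4 (P z)]]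
  exact_mod_cast h3

/-- number of vectors with a vanishing coordinate -/
theorem card_vec (q : ℕ) [NeZero q] (s : Fin n) :
    ((Finset.univ : Finset (Fin n → ZMod q)).filter (fun b => b s = 0)).card = q ^ (n - 1) := by
  classical
  have h : (Finset.univ : Finset (Fin n → ZMod q)).filter (fun b => b s = 0) =
      Fintype.piFinset (fun i : Fin n => if i = s then {0} else (Finset.univ : Finset (ZMod q))) := by
    ext b
    rw [Finset.mem_filter, Fintype.mem_piFinset]
    constructor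
    · rintro ⟨_, h⟩ i
      split_ifs with hi
      · rw [hi, h]; simp
      · exact Finset.mem_univ _
    · intro h
      refine ⟨Finset.mem_univ _, ?_⟩
      have := h s
      rw [if_pos rfl, Finset.mem_singleton] at this
      exact this
  rw [h, Fintype.card_piFinset]
  have h2 : ∀ i : Fin n, (if i = s then ({0} : Finset (ZMod q)) else Finset.univ).card =
      if i = s then 1 else q := by
    intro i
    split_ifs
    · simp
    · rw [Finset.card_univ, ZMod.card]
  rw [Finset.prod_congr rfl fun i _ => h2 i, Finset.prod_ite, Finset.prod_const_one, one_mul,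
    Finset.prod_const]
  congr 1
  rw [Finset.filter_ne', Finset.card_erase_of_mem (Finset.mem_univ _), Finset.card_univ,
    Fintype.card_fin]

end G5aux

open G5aux in
/-- G5. Few presentations have a nonabelian homomorphism to `Aff q` (uses H1 with `k = 1`, HC,
R2). -/
theorem few_nonabelian (n m : ℕ) (hn : 1 ≤ n) (hnm : n < m) :
    ∃ C : ℝ, 0 < C ∧ ∀ q : ℕ, Fact q.Prime → ∀ η : ℝ, 0 < η → ∃ L : ℕ, ∀ l ≥ L,
      (Nat.card {r : Fin m → Words n l //
          ∃ φ : Met (pres r) →* Aff q, ∃ x y : Met (pres r), φ (x * y * x⁻¹ * y⁻¹) ≠ 1} : ℝ)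
        ≤ (C / (q : ℝ) + η) * (Nat.card (Words n l) : ℝ) ^ m := by
  classical
  refine ⟨2 ^ m * n, by have : (1 : ℝ) ≤ n := by exact_mod_cast hn
                        positivity, ?_⟩
  intro q hqp η hη
  have hq0 : 0 < q := hqp.out.pos
  have : NeZero q := ⟨hq0.ne'⟩
  set T : Finset (Fin n × (Fin n → (ZMod q)ˣ) × (Fin n → ZMod q)) :=
    Finset.univ.filter (fun z => z.2.1 z.1 ≠ 1 ∧ z.2.2 z.1 = 0 ∧ z.2.2 ≠ 0) with hT
  set η' : ℝ := η / (T.card + 1) with hη'
  have hη'0 : 0 < η' := by positivity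
  have hR : ∀ z : Fin n × (Fin n → (ZMod q)ˣ) × (Fin n → ZMod q), ∃ L : ℕ, ∀ l ≥ L,
      ∀ S : Set (Fin m → AffN q n),
      (Nat.card {r : Fin m → Words n l // (fun j => ev (foxGen z.2.1) (r j).1) ∈ S} : ℝ)
        ≤ (2 ^ m * (Nat.card {h : Fin m → Subgroup.closure (Set.range (foxGen z.2.1)) //
              (fun j => (h j : AffN q n)) ∈ S} : ℝ)
            / (Nat.card (Subgroup.closure (Set.range (foxGen z.2.1))) : ℝ) ^ m + η')
          * (Nat.card (Words n l) : ℝ) ^ m := fun z => rw_joint m (foxGen z.2.1) η' hη'0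
  choose Lf hLf using hR
  refine ⟨T.sup Lf, fun l hl => ?_⟩
  set N : ℝ := (Nat.card (Words n l) : ℝ) ^ m with hN
  have hN0 : 0 ≤ N := by positivity
  -- union bound
  have h1 : (Nat.card {r : Fin m → Words n l //
          ∃ φ : Met (pres r) →* Aff q, ∃ x y : Met (pres r), φ (x * y * x⁻¹ * y⁻¹) ≠ 1} : ℝ) ≤
      ∑ z ∈ T, (Nat.card {r : Fin m → Words n l // (fun j => ev (foxGen z.2.1) (r j).1) ∈
        {h : Fin m → AffN q n | ∀ j, dot z.2.2 (h j) = 1}} : ℝ) := by
    refine union_bd T _ (fun z (r : Fin m → Words n l) =>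
      (fun j => ev (foxGen z.2.1) (r j).1) ∈ {h : Fin m → AffN q n | ∀ j, dot z.2.2 (h j) = 1}) ?_
    rintro r ⟨φ, x, y, hxy⟩
    obtain ⟨s, χ, b, h3, h4, h5, h6⟩ := bad_imp r φ x y hxy
    refine ⟨(s, χ, b), ?_, h6⟩
    rw [hT, Finset.mem_filter]
    exact ⟨Finset.mem_univ _, h3, h4, h5⟩
  -- each condition
  have h2 : ∀ z ∈ T, (Nat.card {r : Fin m → Words n l // (fun j => ev (foxGen z.2.1) (r j).1) ∈
        {h : Fin m → AffN q n | ∀ j, dot z.2.2 (h j) = 1}} : ℝ) ≤
      (2 ^ m * (1 / ((q : ℝ) * ord z.2.1)) ^ m + η') * N := by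
    intro z hz
    refine (hLf z l ((Finset.le_sup hz).trans hl) _).trans ?_
    refine mul_le_mul_of_nonneg_right ?_ hN0
    rw [hT, Finset.mem_filter] at hz
    have h3 := one_share z.2.1 z.2.2 z.1 hz.2.1 hz.2.2.1 hz.2.2.2 m
    rw [mul_div_assoc]
    have h4 : (0 : ℝ) ≤ 2 ^ m := by positivity
    have h5 := mul_le_mul_of_nonneg_left h3 h4
    linarith
  refine (h1.trans (Finset.sum_le_sum h2)).trans ?_
  rw [← Finset.sum_mul]
  refine mul_le_mul_of_nonneg_right ?_ hN0
  rw [Finset.sum_add_distrib, Finset.sum_const, nsmul_eq_mul, ← Finset.mul_sum]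
  have h3 : (T.card : ℝ) * η' ≤ η := by
    rw [hη', mul_div_assoc', div_le_iff₀ (by positivity)]
    nlinarith
  have h4 : ∑ z ∈ T, (1 / ((q : ℝ) * ord z.2.1)) ^ m ≤ n / q := by
    have h5 : T ⊆ (Finset.univ : Finset (Fin n × (Fin n → (ZMod q)ˣ) × (Fin n → ZMod q))).filter
        (fun z => z.2.2 z.1 = 0) := by
      intro z hz
      rw [hT, Finset.mem_filter] at hz
      rw [Finset.mem_filter]
      exact ⟨hz.1, hz.2.2.1⟩
    refine (Finset.sum_le_sum_of_subset_of_nonneg h5 fun _ _ _ => by positivity).trans ?_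
    have hq1 : (1 : ℝ) ≤ q := by exact_mod_cast hq0
    rw [Finset.sum_filter, ← Finset.univ_product_univ, Finset.sum_product]
    have h6 : ∀ s : Fin n, ∑ y : (Fin n → (ZMod q)ˣ) × (Fin n → ZMod q),
        (if y.2 s = 0 then (1 / ((q : ℝ) * ord y.1)) ^ m else 0) ≤ 1 / q := by
      intro s
      rw [← Finset.univ_product_univ, Finset.sum_product]
      have h7 : ∀ χ : Fin n → (ZMod q)ˣ, ∑ b : Fin n → ZMod q,
          (if b s = 0 then (1 / ((q : ℝ) * ord χ)) ^ m else 0) =
          ((q : ℝ) ^ (n - 1) * (1 / (q : ℝ)) ^ m) * (1 / (ord χ : ℝ)) ^ m := by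
        intro χ
        rw [← Finset.sum_filter, Finset.sum_const, card_vec, nsmul_eq_mul, Nat.cast_pow]
        rw [mul_assoc, ← mul_pow]
        congr 2
        rw [one_div_mul_one_div]
      simp only
      rw [Finset.sum_congr rfl fun χ _ => h7 χ, ← Finset.mul_sum]
      have h8 := sum_ord (q := q) (n := n) m hnm
      calc ((q : ℝ) ^ (n - 1) * (1 / (q : ℝ)) ^ m) * ∑ χ : Fin n → (ZMod q)ˣ, (1 / (ord χ : ℝ)) ^ m
          ≤ ((q : ℝ) ^ (n - 1) * (1 / (q : ℝ)) ^ m) * q :=
            mul_le_mul_of_nonneg_left h8 (by positivity)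
        _ = (q : ℝ) ^ n / (q : ℝ) ^ m := by
            obtain ⟨k, rfl⟩ : ∃ k, n = k + 1 := ⟨n - 1, by omega⟩
            rw [Nat.add_sub_cancel, one_div, inv_pow, pow_succ]
            ring
        _ ≤ 1 / q := by
            rw [div_le_div_iff₀ (by positivity) (by positivity), one_mul, ← pow_succ]
            exact pow_le_pow_right₀ hq1 hnm
    calc _ ≤ ∑ _s : Fin n, (1 : ℝ) / q := Finset.sum_le_sum fun s _ => h6 s
      _ = n / q := by
          rw [Finset.sum_const, Finset.card_univ, Fintype.card_fin, nsmul_eq_mul]; ring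
  have h5 : (2 : ℝ) ^ m * ∑ z ∈ T, (1 / ((q : ℝ) * ord z.2.1)) ^ m ≤ 2 ^ m * n / q := by
    rw [mul_div_assoc]
    exact mul_le_mul_of_nonneg_left h4 (by positivity)
  linarith

end Pool.Agent.MIso
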