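import Pool.Agent.MIso.Defs
import Pool.Agent.MIso.G2b
import Pool.Agent.MIso.G3
import Pool.Agent.MIso.G5

set_option autoImplicit false

/-!
# Block F3: for more relators than generators the group is finite with probability tending to one
-/

namespace Pool.Agent.MIso

namespace F3aux

theorem derivedSeries_met (P : Pres) : derivedSeries (Met P) 2 = ⊥ := by
  have hsurj : Function.Surjective (PresentedGroup.mk (relset P)) :=
    PresentedGroup.mk_surjective (relset P)
  have h1 : (derivedSeries (FreeGroup (Fin P.1)) 2).map (PresentedGroup.mk (relset P)) =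
      derivedSeries (PresentedGroup (relset P)) 2 := map_derivedSeries_eq hsurj 2
  have h2 : (derivedSeries (FreeGroup (Fin P.1)) 2).map (PresentedGroup.mk (relset P)) = ⊥ := by
    rw [Subgroup.map_eq_bot_iff]
    intro x hx
    rw [MonoidHom.mem_ker]
    exact PresentedGroup.one_of_mem (Or.inr hx)
  exact h1.symm.trans h2

instance fg_met (P : Pres) : Group.FG (Met P) := by
  have hsurj : Function.Surjective (PresentedGroup.mk (relset P)) :=
    PresentedGroup.mk_surjective (relset P)
  exact Group.fg_of_surjective (G := FreeGroup (Fin P.1)) (G' := PresentedGroup (relset P)) hsurj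

/-- A homomorphism from the free group to a commutative group, evaluated at a word. -/
theorem hom_wordIn {n : ℕ} {A : Type*} [CommGroup A] (f : FreeGroup (Fin n) →* A)
    (w : List (Fin n × Bool)) :
    f (wordIn n (w.map fun a => ((a.1 : ℕ), a.2))) =
      ∏ i, f (FreeGroup.of i) ^ expo w i := by
  induction w with
  | nil =>
    simp [wordIn, expo]
  | cons a w ih =>
    have h1 : wordIn n ((a :: w).map fun a => ((a.1 : ℕ), a.2)) =
        cond a.2 (FreeGroup.of a.1) (FreeGroup.of a.1)⁻¹ *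
          wordIn n (w.map fun a => ((a.1 : ℕ), a.2)) := by
      simp [wordIn]
    rw [h1, map_mul, ih]
    have h2 : ∀ i, expo (a :: w) i = (if a.1 = i then cond a.2 1 (-1) else (0 : ℤ)) + expo w i := by
      intro i
      simp [expo]
    simp only [h2, zpow_add, Finset.prod_mul_distrib]
    congr 1
    rw [Finset.prod_eq_single a.1]
    · rcases a with ⟨i, b⟩
      cases b <;> simp
    · intro b _ hb
      rw [if_neg (fun h => hb h.symm), zpow_zero]
    · simp

/-- Every element of a commutative group that is the image of an element of the free group is a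
product of powers of the images of the generators. -/
theorem exists_exps {n : ℕ} {A : Type*} [CommGroup A] (f : FreeGroup (Fin n) →* A)
    (x : FreeGroup (Fin n)) : ∃ a : Fin n → ℤ, f x = ∏ i, f (FreeGroup.of i) ^ a i := by
  have : f x ∈ (f.range) := ⟨x, rfl⟩
  refine FreeGroup.induction_on (C := fun x => ∃ a : Fin n → ℤ,
    f x = ∏ i, f (FreeGroup.of i) ^ a i) x ?_ ?_ ?_ ?_
  · exact ⟨0, by simp⟩
  · intro i
    refine ⟨Pi.single i 1, ?_⟩
    rw [Finset.prod_eq_single i]
    · simp
    · intro b _ hb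
      rw [Pi.single_eq_of_ne hb, zpow_zero]
    · simp
  · rintro i ⟨a, ha⟩
    refine ⟨-a, ?_⟩
    simp only [map_inv, Pi.neg_apply, zpow_neg, Finset.prod_inv_distrib]
    exact congrArg (·⁻¹) ha
  · rintro x y ⟨a, ha⟩ ⟨b, hb⟩
    refine ⟨a + b, ?_⟩
    simp only [map_mul, Pi.add_apply, zpow_add, Finset.prod_mul_distrib, ha, hb]

/-- The quotient map. -/
def qm (P : Pres) : FreeGroup (Fin P.1) →* Met P := PresentedGroup.mk (relset P)

theorem qm_surj (P : Pres) : Function.Surjective (qm P) :=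
  PresentedGroup.mk_surjective (relset P)

theorem qm_rel {n m l : ℕ} (r : Fin m → Words n l) (j : Fin m) :
    qm (pres r) (wordIn n ((r j).1.map fun a => ((a.1 : ℕ), a.2))) = 1 := by
  refine PresentedGroup.one_of_mem (rels := relset (pres r)) ?_
  refine Or.inl ⟨(r j).1.map fun a => ((a.1 : ℕ), a.2), ?_, rfl⟩
  simp [pres]

theorem zpow_sum' {A ι : Type*} [CommGroup A] (g : A) (s : Finset ι) (e : ι → ℤ) :
    g ^ (∑ j ∈ s, e j) = ∏ j ∈ s, g ^ e j := by
  classical
  induction s using Finset.induction_on with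
  | empty => simp
  | insert a s ha ih => rw [Finset.sum_insert ha, zpow_add, ih, Finset.prod_insert ha]

theorem pow_mem_commutator {n m l : ℕ} (r : Fin m → Words n l) (M : ℕ)
    (h : ∀ x : Fin n → ℤ, ∃ c : Fin m → ℤ, ∀ i, (M : ℤ) * x i = ∑ j, c j * expo (r j).1 i)
    (x : Met (pres r)) : x ^ M ∈ commutator (Met (pres r)) := by
  obtain ⟨y, rfl⟩ := qm_surj (pres r) x
  let f : FreeGroup (Fin n) →* Abelianization (Met (pres r)) :=
    (Abelianization.of (G := Met (pres r))).comp (qm (pres r))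
  obtain ⟨a, ha⟩ := exists_exps f y
  obtain ⟨c, hc⟩ := h a
  have hrel : ∀ j, ∏ i, f (FreeGroup.of i) ^ expo (r j).1 i = 1 := by
    intro j
    rw [← hom_wordIn]
    change Abelianization.of (qm (pres r) (wordIn n ((r j).1.map fun a => ((a.1 : ℕ), a.2)))) = 1
    rw [qm_rel, map_one]
  have key : f y ^ M = 1 := by
    rw [ha, ← Finset.prod_pow]
    have h1 : ∀ i, (f (FreeGroup.of i) ^ a i) ^ M =
        ∏ j, (f (FreeGroup.of i) ^ expo (r j).1 i) ^ c j := by
      intro i
      rw [← zpow_natCast, ← zpow_mul, mul_comm, hc i]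
      rw [zpow_sum']
      refine Finset.prod_congr rfl fun j _ => ?_
      rw [← zpow_mul, mul_comm]
    rw [Finset.prod_congr rfl fun i _ => h1 i, Finset.prod_comm]
    refine Finset.prod_eq_one fun j _ => ?_
    rw [Finset.prod_zpow, hrel j, one_zpow]
  rw [← Abelianization.ker_of, MonoidHom.mem_ker, map_pow]
  exact key

/-- If the relators are tight and there is no nonabelian homomorphism to `Aff q`, the group is
finite. -/
theorem finite_of {n m l : ℕ} (r : Fin m → Words n l) (M q : ℕ) [Fact q.Prime] (hM : 1 ≤ M)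
    (hMq : M ∣ q - 1)
    (h : ∀ x : Fin n → ℤ, ∃ c : Fin m → ℤ, ∀ i, (M : ℤ) * x i = ∑ j, c j * expo (r j).1 i)
    (h2 : ¬ ∃ φ : Met (pres r) →* Aff q, ∃ x y : Met (pres r), φ (x * y * x⁻¹ * y⁻¹) ≠ 1) :
    Finite (Met (pres r)) := by
  refine finite_of_no_aff (derivedSeries_met (pres r)) M q hM hMq (pow_mem_commutator r M h) ?_
  intro φ x y
  by_contra hne
  exact h2 ⟨φ, x, y, hne⟩

theorem finite_zero {m l : ℕ} (r : Fin m → Words 0 l) : Finite (Met (pres r)) := by
  have : IsEmpty (Fin (pres r).1) := (inferInstance : IsEmpty (Fin 0))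
  exact Finite.of_surjective (qm (pres r)) (qm_surj (pres r))

end F3aux

/-- F3 (uses G2b, G3, G5). -/
theorem finite_gt (n m : ℕ) (hnm : n < m) (ε : ℝ) (hε : 0 < ε) :
    ∃ L : ℕ, ∀ l ≥ L,
      (Nat.card {r : Fin m → Words n l // ¬ Finite (Met (pres r))} : ℝ)
        ≤ ε * (Nat.card (Words n l) : ℝ) ^ m := by
  rcases Nat.eq_zero_or_pos n with rfl | hn
  · refine ⟨0, fun l _ => ?_⟩
    have h0 : IsEmpty {r : Fin m → Words 0 l // ¬ Finite (Met (pres r))} :=
      ⟨fun r => r.2 (F3aux.finite_zero r.1)⟩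
    rw [Nat.card_of_isEmpty, Nat.cast_zero]
    positivity
  obtain ⟨M, hM, L1, hL1⟩ := tight n m hnm (ε / 2) (by positivity)
  obtain ⟨C, hC, hC2⟩ := few_nonabelian n m hn hnm
  obtain ⟨q, hq, hqgt, hqmod⟩ := Nat.exists_prime_gt_modEq_one (k := M) ⌈4 * C / ε⌉₊ (by omega)
  obtain ⟨L2, hL2⟩ := hC2 q ⟨hq⟩ (ε / 4) (by positivity)
  have : Fact q.Prime := ⟨hq⟩
  have hdvd : M ∣ q - 1 := (Nat.modEq_iff_dvd' hq.one_lt.le).1 hqmod.symm
  have hq0 : (0 : ℝ) < q := by exact_mod_cast hq.pos
  have hCq : C / (q : ℝ) ≤ ε / 4 := by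
    rw [div_le_iff₀ hq0]
    have h1 : 4 * C / ε ≤ q := by
      calc 4 * C / ε ≤ (⌈4 * C / ε⌉₊ : ℝ) := Nat.le_ceil _
        _ ≤ q := by exact_mod_cast hqgt.le
    rw [div_le_iff₀ hε] at h1
    nlinarith
  refine ⟨max L1 L2, fun l hl => ?_⟩
  have h1 := hL1 l (le_trans (le_max_left _ _) hl)
  have h2 := hL2 l (le_trans (le_max_right _ _) hl)
  set A : Set (Fin m → Words n l) := {r | ¬ ∀ x : Fin n → ℤ, ∃ c : Fin m → ℤ,
          ∀ i, (M : ℤ) * x i = ∑ j, c j * expo (r j).1 i} with hA
  set B : Set (Fin m → Words n l) := {r | ∃ φ : Met (pres r) →* Aff q,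
    ∃ x y : Met (pres r), φ (x * y * x⁻¹ * y⁻¹) ≠ 1} with hB
  set T : Set (Fin m → Words n l) := {r | ¬ Finite (Met (pres r))} with hT
  have hsub : T ⊆ A ∪ B := by
    intro r hr
    by_contra hno
    rw [Set.mem_union, not_or] at hno
    refine hr (F3aux.finite_of r M q hM hdvd ?_ hno.2)
    have := hno.1
    rw [hA, Set.mem_ofPred_eq, not_not] at this
    exact this
  have hle : (Nat.card T : ℝ) ≤ Nat.card A + Nat.card B := by
    have h3 : Set.ncard T ≤ Set.ncard A + Set.ncard B :=
      (Set.ncard_le_ncard hsub (Set.toFinite _)).trans (Set.ncard_union_le A B)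
    simp only [← Nat.card_coe_set_eq] at h3
    exact_mod_cast h3
  have hW : (0 : ℝ) ≤ (Nat.card (Words n l) : ℝ) ^ m := by positivity
  calc (Nat.card T : ℝ) ≤ Nat.card A + Nat.card B := hle
    _ ≤ ε / 2 * (Nat.card (Words n l) : ℝ) ^ m +
        (C / (q : ℝ) + ε / 4) * (Nat.card (Words n l) : ℝ) ^ m := add_le_add h1 h2
    _ ≤ ε / 2 * (Nat.card (Words n l) : ℝ) ^ m +
        (ε / 4 + ε / 4) * (Nat.card (Words n l) : ℝ) ^ m := by gcongr
    _ = ε * (Nat.card (Words n l) : ℝ) ^ m := by ring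

end Pool.Agent.MIso
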