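import Pool.Agent.MIso.C3a

set_option autoImplicit false

/-! Block F4: two free metabelian groups. -/

namespace Pool.Agent.MIso

namespace F4aux

theorem ds_comm (Γ : Type) [CommGroup Γ] : derivedSeries Γ 2 = ⊥ := by
  have h1 : derivedSeries Γ 1 = ⊥ := by
    rw [derivedSeries_one]
    exact (commutator_eq_bot_iff_center_eq_top Γ).mpr CommGroup.center_eq_top
  have h2 : derivedSeries Γ 2 ≤ derivedSeries Γ 1 := derivedSeries_antitone Γ (by norm_num)
  rw [h1] at h2
  exact le_bot_iff.mp h2

theorem card_two (n : ℕ) :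
    Nat.card (Met (n, []) →* Multiplicative (ZMod 2)) = 2 ^ n := by
  rw [card_hom (n, []) (Multiplicative (ZMod 2)) (ds_comm _)]
  have e : {g : Fin ((n, []) : Pres).1 → Multiplicative (ZMod 2) // ∀ w ∈ ((n, []) : Pres).2,
      FreeGroup.lift (fun i : ℕ => if h : i < ((n, []) : Pres).1 then g ⟨i, h⟩ else 1)
        (FreeGroup.mk w) = 1} ≃ (Fin n → Multiplicative (ZMod 2)) :=
    { toFun := fun g => g.1
      invFun := fun g => ⟨g, fun w hw => by simp at hw⟩
      left_inv := fun g => rfl
      right_inv := fun g => rfl }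
  rw [Nat.card_congr e, Nat.card_fun]
  simp

end F4aux

/-- F4: two free metabelian groups (uses C3a). -/
theorem free_pair (n n' : ℕ) :
    Nonempty (Met (n, []) ≃* Met (n', [])) ∨ Sep (n, []) (n', []) := by
  by_cases hn : n = n'
  · subst hn
    exact Or.inl ⟨MulEquiv.refl _⟩
  · right
    refine ⟨Multiplicative (ZMod 2), inferInstance, inferInstance, F4aux.ds_comm _, ?_⟩
    rw [F4aux.card_two, F4aux.card_two]
    intro h
    exact hn (Nat.pow_right_injective (le_refl 2) h)

end Pool.Agent.MIso
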