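import Pool.Agent.MIso.Defs

set_option autoImplicit false

/-!
# G1: anticoncentration of exponent sums (helper27)
-/

namespace Pool.Agent.MIso.G1aux

open Finset

/-- central binomial bound -/
theorem cb (m : ℕ) : (Nat.centralBinom m : ℝ) ^ 2 * (2 * m + 1) ≤ (4 ^ m) ^ 2 := by
  induction m with
  | zero => simp
  | succ m ih =>
    have h := Nat.succ_mul_centralBinom_succ m
    have h' : ((m : ℝ) + 1) * (Nat.centralBinom (m + 1) : ℝ) = 2 * (2 * m + 1) * Nat.centralBinom m := by
      exact_mod_cast h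
    have hm : (0 : ℝ) < (m : ℝ) + 1 := by positivity
    have e : (Nat.centralBinom (m + 1) : ℝ) = 2 * (2 * m + 1) * Nat.centralBinom m / (m + 1) := by
      field_simp; linarith
    rw [e]
    have : (2 * (2 * (m : ℝ) + 1) * (Nat.centralBinom m : ℝ) / (m + 1)) ^ 2 * (2 * ((m + 1 : ℕ) : ℝ) + 1)
        = ((Nat.centralBinom m : ℝ) ^ 2 * (2 * m + 1)) * (4 * (2 * m + 1) * (2 * m + 3) / (m + 1) ^ 2) := by
      push_cast
      field_simp
      ring
    rw [this]
    have h2 : (4 * (2 * (m : ℝ) + 1) * (2 * m + 3) / (m + 1) ^ 2) ≤ 16 := by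
      rw [div_le_iff₀ (by positivity)]
      nlinarith [sq_nonneg (m : ℝ)]
    calc _ ≤ (4 ^ m) ^ 2 * (16 : ℝ) := by
            apply mul_le_mul ih h2 (by positivity) (by positivity)
      _ = _ := by rw [pow_succ]; ring

theorem choose_mid (t : ℕ) : (Nat.choose t (t / 2) : ℝ) ≤ 2 ^ t / Real.sqrt (t + 1) := by
  have hs : (0 : ℝ) < Real.sqrt (t + 1) := Real.sqrt_pos.mpr (by positivity)
  rw [le_div_iff₀ hs]
  have key : (Nat.choose t (t / 2) : ℝ) ^ 2 * (t + 1) ≤ (2 ^ t) ^ 2 := by
    rcases Nat.even_or_odd' t with ⟨m, rfl | rfl⟩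
    · have := cb m
      have e : (2 * m) / 2 = m := by omega
      rw [e]
      have e2 : Nat.choose (2 * m) m = Nat.centralBinom m := rfl
      rw [e2]
      push_cast
      calc _ ≤ _ := this
        _ = _ := by rw [pow_mul]; norm_num
    · have e : (2 * m + 1) / 2 = m := by omega
      rw [e]
      have h1 : Nat.centralBinom (m + 1) = 2 * Nat.choose (2 * m + 1) m := by
        have h := Nat.choose_succ_succ' (2 * m + 1) m
        have h2 : Nat.choose (2 * m + 1) (m + 1) = Nat.choose (2 * m + 1) m := by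
          rw [← Nat.choose_symm_half]
        unfold Nat.centralBinom
        rw [show 2 * (m + 1) = 2 * m + 1 + 1 by ring, h, h2]; ring
      have h3 := cb (m + 1)
      rw [h1] at h3
      push_cast at h3 ⊢
      have h4 : ((2 : ℝ) ^ (2 * m + 1)) ^ 2 = (4 ^ (m + 1)) ^ 2 / 4 := by
        have : (4 : ℝ) ^ (m + 1) = 2 * 2 ^ (2 * m + 1) := by
          rw [pow_succ 2 (2*m), pow_mul, pow_succ]; norm_num; ring
        rw [this]; ring
      rw [h4]
      have hc : (0 : ℝ) ≤ (Nat.choose (2 * m + 1) m : ℝ) ^ 2 := by positivity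
      nlinarith
  apply le_of_sq_le_sq _ (by positivity)
  rw [mul_pow, Real.sq_sqrt (by positivity)]
  exact key


theorem spaced (f : ℕ → ℝ) (hf : ∀ i, 0 ≤ f i) (M d : ℕ) (hd : 1 ≤ d)
    (hmono : ∀ i j, i ≤ j → j ≤ M → f i ≤ f j) (J : Finset ℕ) (hJ : ∀ j ∈ J, j ≤ M)
    (hs : ∀ i ∈ J, ∀ j ∈ J, i < j → i + d ≤ j) :
    ∑ j ∈ J, f j ≤ f M + (∑ i ∈ range (M + 1), f i) / d := by
  classical
  have hdpos : (0 : ℝ) < d := by exact_mod_cast hd
  rw [← Finset.sum_filter_add_sum_filter_not J (fun j => j + d ≤ M + 1)]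
  have h1 : ∑ j ∈ J.filter (fun j => j + d ≤ M + 1), f j ≤ (∑ i ∈ range (M + 1), f i) / d := by
    rw [le_div_iff₀ hdpos]
    have hdis : ((J.filter (fun j => j + d ≤ M + 1) : Finset ℕ) : Set ℕ).PairwiseDisjoint
        (fun j => Finset.Ico j (j + d)) := by
      intro i hi j hj hij
      simp only [Finset.coe_filter, Set.mem_ofPred_eq] at hi hj
      rw [Function.onFun, Finset.disjoint_left]
      intro x hx hx'
      rw [Finset.mem_Ico] at hx hx'
      rcases lt_or_gt_of_ne hij with h | h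
      · have := hs i hi.1 j hj.1 h; omega
      · have := hs j hj.1 i hi.1 h; omega
    have hsub : (J.filter (fun j => j + d ≤ M + 1)).biUnion (fun j => Finset.Ico j (j + d)) ⊆
        range (M + 1) := by
      intro x hx
      simp only [Finset.mem_biUnion, Finset.mem_filter, Finset.mem_Ico] at hx
      obtain ⟨j, ⟨_, h2⟩, h3, h4⟩ := hx
      rw [Finset.mem_range]; omega
    calc (∑ j ∈ J.filter (fun j => j + d ≤ M + 1), f j) * d
        = ∑ j ∈ J.filter (fun j => j + d ≤ M + 1), ∑ _i ∈ Finset.Ico j (j + d), f j := by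
          rw [Finset.sum_mul]
          apply Finset.sum_congr rfl
          intro j _
          simp [mul_comm]
      _ ≤ ∑ j ∈ J.filter (fun j => j + d ≤ M + 1), ∑ i ∈ Finset.Ico j (j + d), f i := by
          apply Finset.sum_le_sum
          intro j hj
          simp only [Finset.mem_filter] at hj
          apply Finset.sum_le_sum
          intro i hi
          rw [Finset.mem_Ico] at hi
          exact hmono j i hi.1 (by omega)
      _ = ∑ i ∈ (J.filter (fun j => j + d ≤ M + 1)).biUnion (fun j => Finset.Ico j (j + d)), f i :=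
          (Finset.sum_biUnion hdis).symm
      _ ≤ _ := Finset.sum_le_sum_of_subset_of_nonneg hsub (fun i _ _ => hf i)
  have h2 : ∑ j ∈ J.filter (fun j => ¬ j + d ≤ M + 1), f j ≤ f M := by
    have hcard : (J.filter (fun j => ¬ j + d ≤ M + 1)).card ≤ 1 := by
      rw [Finset.card_le_one]
      intro i hi j hj
      simp only [Finset.mem_filter] at hi hj
      by_contra hij
      rcases lt_or_gt_of_ne hij with h | h
      · have := hs i hi.1 j hj.1 h; have := hJ j hj.1; omega
      · have := hs j hj.1 i hi.1 h; have := hJ i hi.1; omega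
    calc _ ≤ ∑ j ∈ J.filter (fun j => ¬ j + d ≤ M + 1), f M := by
            apply Finset.sum_le_sum
            intro j hj
            simp only [Finset.mem_filter] at hj
            exact hmono j M (hJ j hj.1) le_rfl
      _ = ((J.filter (fun j => ¬ j + d ≤ M + 1)).card : ℝ) * f M := by simp
      _ ≤ 1 * f M := by
            apply mul_le_mul_of_nonneg_right _ (hf M)
            exact_mod_cast hcard
      _ = f M := one_mul _
  linarith

theorem choose_mono (t i j : ℕ) (hij : i ≤ j) (hj : j ≤ t / 2) :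
    (Nat.choose t i : ℝ) ≤ Nat.choose t j := by
  induction j, hij using Nat.le_induction with
  | base => exact le_rfl
  | succ j hij ih =>
    refine (ih (by omega)).trans ?_
    exact_mod_cast Nat.choose_le_succ_of_lt_half_left (by omega)

theorem spaced_choose (t d : ℕ) (hd : 1 ≤ d) (J : Finset ℕ) (hJ : ∀ j ∈ J, j ≤ t)
    (hs : ∀ i ∈ J, ∀ j ∈ J, i < j → i + d ≤ j) :
    ∑ j ∈ J, (Nat.choose t j : ℝ) ≤ 2 * (2 ^ t / d + Nat.choose t (t / 2)) := by
  classical
  have htot : (∑ i ∈ range (t / 2 + 1), (Nat.choose t i : ℝ)) ≤ 2 ^ t := by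
    calc _ ≤ ∑ i ∈ range (t + 1), (Nat.choose t i : ℝ) := by
            apply Finset.sum_le_sum_of_subset_of_nonneg
            · intro x hx; rw [Finset.mem_range] at *; omega
            · intros; positivity
      _ = 2 ^ t := by exact_mod_cast Nat.sum_range_choose t
  have hdpos : (0 : ℝ) < d := by exact_mod_cast hd
  have main : ∀ K : Finset ℕ, (∀ j ∈ K, j ≤ t / 2) → (∀ i ∈ K, ∀ j ∈ K, i < j → i + d ≤ j) →
      ∑ j ∈ K, (Nat.choose t j : ℝ) ≤ 2 ^ t / d + Nat.choose t (t / 2) := by
    intro K hK hKs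
    have := spaced (fun i => (Nat.choose t i : ℝ)) (fun i => by positivity) (t / 2) d hd
      (fun i j => choose_mono t i j) K hK hKs
    refine this.trans ?_
    have : (∑ i ∈ range (t / 2 + 1), (Nat.choose t i : ℝ)) / d ≤ 2 ^ t / d := by
      gcongr
    simp only at *
    linarith
  rw [← Finset.sum_filter_add_sum_filter_not J (fun j => j ≤ t / 2)]
  have h1 := main (J.filter (fun j => j ≤ t / 2)) (by simp +contextual) (by
    intro i hi j hj
    simp only [Finset.mem_filter] at hi hj
    exact hs i hi.1 j hj.1)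
  have h2 : ∑ j ∈ J.filter (fun j => ¬ j ≤ t / 2), (Nat.choose t j : ℝ) ≤
      2 ^ t / d + Nat.choose t (t / 2) := by
    have h3 := main ((J.filter (fun j => ¬ j ≤ t / 2)).image (fun j => t - j)) (by
      intro j hj
      simp only [Finset.mem_image, Finset.mem_filter] at hj
      obtain ⟨i, ⟨hi, hi2⟩, rfl⟩ := hj
      omega) (by
      intro i hi j hj hij
      simp only [Finset.mem_image, Finset.mem_filter] at hi hj
      obtain ⟨i, ⟨hi, hi2⟩, rfl⟩ := hi
      obtain ⟨j, ⟨hj, hj2⟩, rfl⟩ := hj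
      have := hJ i hi
      have := hJ j hj
      have := hs j hj i hi (by omega)
      omega)
    rw [Finset.sum_image] at h3
    · calc _ = ∑ j ∈ J.filter (fun j => ¬ j ≤ t / 2), (Nat.choose t (t - j) : ℝ) := by
            apply Finset.sum_congr rfl
            intro j hj
            simp only [Finset.mem_filter] at hj
            rw [Nat.choose_symm (hJ j hj.1)]
        _ ≤ _ := h3
    · intro i hi j hj hij
      simp only [Finset.coe_filter, Set.mem_ofPred_eq] at hi hj
      have := hJ i hi.1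
      have := hJ j hj.1
      simp only at hij
      omega
  linarith


section lists
variable {α : Type} [Fintype α] [DecidableEq α]

/-- the lists of length `k` -/
def LL (α : Type) [Fintype α] [DecidableEq α] : ℕ → Finset (List α)
  | 0 => {[]}
  | k + 1 => ((Finset.univ : Finset α) ×ˢ LL α k).image (fun p => p.1 :: p.2)

theorem mem_LL (k : ℕ) (w : List α) : w ∈ LL α k ↔ w.length = k := by
  induction k generalizing w with
  | zero => simp [LL]
  | succ k ih =>
    simp only [LL, Finset.mem_image, Finset.mem_product, Finset.mem_univ, true_and, Prod.exists]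
    constructor
    · rintro ⟨a, v, hv, rfl⟩
      simp [(ih v).1 hv]
    · intro h
      cases w with
      | nil => simp at h
      | cons a v => exact ⟨a, v, (ih v).2 (by simpa using h), rfl⟩

theorem card_LL (k : ℕ) : (LL α k).card = Fintype.card α ^ k := by
  induction k with
  | zero => simp [LL]
  | succ k ih =>
    rw [LL, Finset.card_image_of_injective, Finset.card_product, ih, Finset.card_univ, pow_succ,
      mul_comm]
    rintro ⟨a, v⟩ ⟨b, w⟩ h
    simpa using h

theorem cnt_succ {G : Type} [AddCommGroup G] [DecidableEq G] (step : α → G) (k : ℕ) (c : G) :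
    ((LL α (k + 1)).filter (fun w => (w.map step).sum = c)).card =
      ∑ a : α, ((LL α k).filter (fun w => (w.map step).sum = c - step a)).card := by
  have : (LL α (k + 1)).filter (fun w => (w.map step).sum = c) =
      ((Finset.univ : Finset α).sigma (fun a => (LL α k).filter (fun w => (w.map step).sum = c - step a))).image
        (fun p => p.1 :: p.2) := by
    ext w
    simp only [LL, Finset.mem_filter, Finset.mem_image, Finset.mem_product, Finset.mem_univ,
      true_and, Prod.exists, Finset.mem_sigma, Sigma.exists]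
    constructor
    · rintro ⟨⟨a, v, hv, rfl⟩, h⟩
      refine ⟨a, v, ⟨hv, ?_⟩, rfl⟩
      simp only [List.map_cons, List.sum_cons] at h
      rw [← h]; abel
    · rintro ⟨a, v, ⟨hv, h⟩, rfl⟩
      refine ⟨⟨a, v, hv, rfl⟩, ?_⟩
      simp only [List.map_cons, List.sum_cons]
      rw [h]; abel
  rw [this, Finset.card_image_of_injective, Finset.card_sigma]
  rintro ⟨a, v⟩ ⟨b, w⟩ h
  simp only [List.cons.injEq] at h
  obtain ⟨rfl, rfl⟩ := h
  rfl

end lists

theorem card_words {n l : ℕ} (p : List (Fin n × Bool) → Prop) [DecidablePred p] :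
    Nat.card {w : Words n l // p w.1} =
      ∑ k ∈ range (l + 1), ((LL (Fin n × Bool) k).filter p).card := by
  classical
  let S := ((range (l + 1)).biUnion (LL (Fin n × Bool))).filter p
  have hS : ∀ w, w ∈ S ↔ w.length ≤ l ∧ p w := by
    intro w
    simp only [S, Finset.mem_filter, Finset.mem_biUnion, Finset.mem_range, mem_LL]
    constructor
    · rintro ⟨⟨k, hk, rfl⟩, h⟩; exact ⟨by omega, h⟩
    · rintro ⟨h1, h2⟩; exact ⟨⟨_, by omega, rfl⟩, h2⟩
  have e : Nat.card {w : Words n l // p w.1} = S.card := by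
    rw [← Fintype.card_coe, ← Nat.card_eq_fintype_card]
    exact Nat.card_congr
      { toFun := fun w => ⟨w.1.1, (hS _).2 ⟨w.1.2, w.2⟩⟩
        invFun := fun x => ⟨⟨x.1, ((hS _).1 x.2).1⟩, ((hS _).1 x.2).2⟩
        left_inv := fun _ => rfl
        right_inv := fun _ => rfl }
  rw [e]
  have hS2 : S = (range (l + 1)).biUnion (fun k => (LL (Fin n × Bool) k).filter p) := by
    ext w
    simp only [hS, Finset.mem_filter, Finset.mem_biUnion, Finset.mem_range, mem_LL]
    constructor
    · rintro ⟨h1, h2⟩; exact ⟨_, by omega, rfl, h2⟩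
    · rintro ⟨k, hk, rfl, h⟩; exact ⟨by omega, h⟩
  rw [hS2, Finset.card_biUnion]
  intro i _ j _ hij
  rw [Function.onFun, Finset.disjoint_left]
  intro w hw hw'
  simp only [Finset.mem_filter, mem_LL] at hw hw'
  exact hij (hw.1.symm.trans hw'.1)

theorem card_words' {n l : ℕ} :
    Nat.card (Words n l) = ∑ k ∈ range (l + 1), (2 * n) ^ k := by
  classical
  have h := card_words (n := n) (l := l) (fun _ => True)
  have e : Nat.card {w : Words n l // True} = Nat.card (Words n l) :=
    Nat.card_congr (Equiv.subtypeUnivEquiv (fun _ => trivial))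
  rw [← e]
  rw [h]
  apply Finset.sum_congr rfl
  intro k _
  rw [Finset.filter_true, card_LL]
  simp [mul_comm]


section op
variable {N : ℕ}

/-- translation -/
def T (a : ZMod N) : Module.End ℝ (ZMod N → ℝ) := LinearMap.funLeft ℝ ℝ (fun c => c - a)

theorem T_apply (a : ZMod N) (f : ZMod N → ℝ) (c : ZMod N) : T a f c = f (c - a) := rfl

theorem T_mul (a b : ZMod N) : T a * T b = T (a + b) := by
  refine LinearMap.ext fun f => funext fun c => ?_
  rw [Module.End.mul_apply, T_apply, T_apply, T_apply]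
  congr 1
  ring

theorem T_comm (a b : ZMod N) : Commute (T a) (T b) := by
  unfold Commute SemiconjBy
  rw [T_mul, T_mul, add_comm]

theorem T_pow (a : ZMod N) (m : ℕ) : T a ^ m = T ((m : ZMod N) * a) := by
  induction m with
  | zero =>
    rw [pow_zero]
    refine LinearMap.ext fun f => funext fun c => ?_
    rw [T_apply]
    simp
  | succ m ih => rw [pow_succ, ih, T_mul]; push_cast; ring_nf

/-- the function with value one at zero -/
def delta : ZMod N → ℝ := fun c => if c = 0 then 1 else 0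

theorem Q_pow (u : ZMod N) (t : ℕ) (c : ZMod N) :
    ((T u + T (-u)) ^ t) delta c =
      ∑ j ∈ (range (t + 1)).filter (fun j : ℕ => ((2 * (j : ZMod N) - t) * u = c)), (t.choose j : ℝ) := by
  rw [(T_comm u (-u)).add_pow]
  rw [LinearMap.sum_apply, Finset.sum_apply, Finset.sum_filter]
  apply Finset.sum_congr rfl
  intro j hj
  rw [Finset.mem_range] at hj
  rw [T_pow, T_pow, T_mul, ← nsmul_eq_mul', LinearMap.smul_apply, Pi.smul_apply, T_apply, delta,
    nsmul_eq_mul]
  have h : (c - ((j : ZMod N) * u + ((t - j : ℕ) : ZMod N) * -u) = 0) ↔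
      ((2 * (j : ZMod N) - t) * u = c) := by
    rw [Nat.cast_sub (by omega), sub_eq_zero]
    constructor
    · intro h; rw [h]; ring
    · intro h; rw [← h]; ring
  by_cases h' : (2 * (j : ZMod N) - t) * u = c
  · rw [if_pos (h.2 h'), if_pos h']; simp
  · rw [if_neg (fun h'' => h' (h.1 h'')), if_neg h']; simp

theorem P_bound {ι : Type} (s : Finset ι) (h : ι → ZMod N) (m : ℕ) (f : ZMod N → ℝ) (B : ℝ)
    (hf : ∀ c, f c ≤ B) (c : ZMod N) :
    ((∑ i ∈ s, (T (h i) + T (-h i))) ^ m) f c ≤ (2 * (s.card : ℝ)) ^ m * B := by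
  induction m generalizing c with
  | zero => simpa using hf c
  | succ m ih =>
    rw [pow_succ', Module.End.mul_apply, LinearMap.sum_apply, Finset.sum_apply]
    calc _ ≤ ∑ i ∈ s, (2 * ((2 * (s.card : ℝ)) ^ m * B)) := by
            apply Finset.sum_le_sum
            intro i _
            rw [LinearMap.add_apply, Pi.add_apply, T_apply, T_apply]
            have h1 := ih (c - h i)
            have h2 := ih (c - -h i)
            linarith
      _ = _ := by
            rw [Finset.sum_const, nsmul_eq_mul, pow_succ]; ring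

end op

theorem sum_inv_sqrt (n : ℕ) (hn : 1 ≤ n) (k : ℕ) :
    ∑ t ∈ range (k + 1), (k.choose t : ℝ) * (2 * (n : ℝ) - 2) ^ (k - t) * 2 ^ t / Real.sqrt (t + 1)
      ≤ (2 * n) ^ k * Real.sqrt (n / (k + 1)) := by
  have hn' : (1 : ℝ) ≤ n := by exact_mod_cast hn
  have ha : (0 : ℝ) ≤ 2 * n - 2 := by linarith
  have hk : (0 : ℝ) < (k : ℝ) + 1 := by positivity
  set L : ℝ := Real.sqrt (((k : ℝ) + 1) / n) with hL
  have hLpos : 0 < L := Real.sqrt_pos.mpr (by positivity)
  have hL2 : L ^ 2 = ((k : ℝ) + 1) / n := Real.sq_sqrt (by positivity)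
  have hLinv : Real.sqrt (n / ((k : ℝ) + 1)) = 1 / L := by
    rw [hL, one_div, ← Real.sqrt_inv, inv_div]
  have h1 : ∀ t : ℕ, 1 / Real.sqrt (t + 1) ≤ (L / (t + 1) + 1 / L) / 2 := by
    intro t
    have hs : 0 < Real.sqrt ((t : ℝ) + 1) := Real.sqrt_pos.mpr (by positivity)
    have hs2 : Real.sqrt ((t : ℝ) + 1) ^ 2 = t + 1 := Real.sq_sqrt (by positivity)
    obtain ⟨s, hs', hss⟩ : ∃ s : ℝ, 0 < s ∧ Real.sqrt ((t : ℝ) + 1) = s := ⟨_, hs, rfl⟩
    rw [hss] at hs2 ⊢
    rw [← hs2]
    have : (L / s ^ 2 + 1 / L) / 2 - 1 / s = (L / s - 1) ^ 2 / (2 * L) := by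
      field_simp
      ring
    have h2 : 0 ≤ (L / s - 1) ^ 2 / (2 * L) := by positivity
    linarith
  have htot : ∑ t ∈ range (k + 1), (k.choose t : ℝ) * (2 * (n : ℝ) - 2) ^ (k - t) * 2 ^ t = (2 * n) ^ k := by
    have := add_pow (2 : ℝ) (2 * n - 2) k
    rw [show (2 : ℝ) + (2 * n - 2) = 2 * n by ring] at this
    rw [this]
    apply Finset.sum_congr rfl
    intro t _; ring
  have hinv : ∑ t ∈ range (k + 1), (k.choose t : ℝ) * (2 * (n : ℝ) - 2) ^ (k - t) * 2 ^ t / (t + 1)
      ≤ (2 * n) ^ k * (n / (k + 1)) := by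
    have h3 := add_pow (2 : ℝ) (2 * n - 2) (k + 1)
    rw [show (2 : ℝ) + (2 * n - 2) = 2 * n by ring, Finset.sum_range_succ'] at h3
    have h4 : ∑ t ∈ range (k + 1), (2:ℝ) ^ (t + 1) * (2 * n - 2) ^ (k + 1 - (t + 1)) * ((k+1).choose (t + 1)) ≤ (2 * n) ^ (k + 1) := by
      rw [h3]
      have : 0 ≤ (2:ℝ) ^ 0 * (2 * (n:ℝ) - 2) ^ (k + 1 - 0) * ((k + 1).choose 0) := by positivity
      linarith
    have h5 : ∑ t ∈ range (k + 1), (k.choose t : ℝ) * (2 * (n : ℝ) - 2) ^ (k - t) * 2 ^ t / (t + 1)
        = (∑ t ∈ range (k + 1), (2:ℝ) ^ (t + 1) * (2 * n - 2) ^ (k + 1 - (t + 1)) * ((k+1).choose (t + 1))) / (2 * (k + 1)) := by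
      rw [Finset.sum_div]
      apply Finset.sum_congr rfl
      intro t _
      have h6 : ((k : ℝ) + 1) * (k.choose t) = ((k + 1).choose (t + 1)) * ((t : ℝ) + 1) := by
        exact_mod_cast Nat.add_one_mul_choose_eq k t
      have h7 : ((k + 1).choose (t + 1) : ℝ) = ((k : ℝ) + 1) * (k.choose t) / (t + 1) := by
        rw [h6]; field_simp
      rw [h7, Nat.add_sub_add_right]
      field_simp
      ring
    rw [h5, div_le_iff₀ (by positivity)]
    refine h4.trans (le_of_eq ?_)
    rw [pow_succ]; field_simp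
  calc _ = ∑ t ∈ range (k + 1), (k.choose t : ℝ) * (2 * (n : ℝ) - 2) ^ (k - t) * 2 ^ t * (1 / Real.sqrt (t + 1)) := by
          apply Finset.sum_congr rfl; intro t _; ring
    _ ≤ ∑ t ∈ range (k + 1), (k.choose t : ℝ) * (2 * (n : ℝ) - 2) ^ (k - t) * 2 ^ t * ((L / (t + 1) + 1 / L) / 2) := by
          apply Finset.sum_le_sum
          intro t _
          apply mul_le_mul_of_nonneg_left (h1 t) (by positivity)
    _ = (L * ∑ t ∈ range (k + 1), (k.choose t : ℝ) * (2 * (n : ℝ) - 2) ^ (k - t) * 2 ^ t / (t + 1)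
          + (1 / L) * ∑ t ∈ range (k + 1), (k.choose t : ℝ) * (2 * (n : ℝ) - 2) ^ (k - t) * 2 ^ t) / 2 := by
          rw [Finset.mul_sum, Finset.mul_sum, ← Finset.sum_add_distrib, Finset.sum_div]
          apply Finset.sum_congr rfl
          intro t _
          ring
    _ ≤ (L * ((2 * n) ^ k * (n / (k + 1))) + (1 / L) * (2 * n) ^ k) / 2 := by
          rw [htot]
          gcongr
    _ = _ := by
          rw [hLinv]
          have : (n : ℝ) / (k + 1) = 1 / L ^ 2 := by rw [hL2]; field_simp
          rw [this]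
          field_simp
          ring


theorem Q_bound {N : ℕ} (hN : 1 ≤ N) (u : ZMod N) (hu : IsUnit u) (t : ℕ) (c : ZMod N) :
    ((T u + T (-u)) ^ t) delta c ≤ 2 ^ t * (4 / N + 2 / Real.sqrt (t + 1)) := by
  rw [Q_pow]
  have hd : 1 ≤ (N + 1) / 2 := by omega
  have h1 := spaced_choose t ((N + 1) / 2) hd
    ((range (t + 1)).filter (fun j : ℕ => ((2 * (j : ZMod N) - t) * u = c)))
    (by intro j hj; simp only [Finset.mem_filter, Finset.mem_range] at hj; omega)
    (by
      intro i hi j hj hij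
      simp only [Finset.mem_filter, Finset.mem_range] at hi hj
      have h2 : (2 * (i : ZMod N) - t) * u = (2 * (j : ZMod N) - t) * u := hi.2.trans hj.2.symm
      have h3 : (2 * (i : ZMod N) - t) = (2 * (j : ZMod N) - t) := hu.mul_right_cancel h2
      have h4 : ((2 * (j - i) : ℕ) : ZMod N) = 0 := by
        push_cast [Nat.cast_sub hij.le]
        linear_combination -h3
      rw [ZMod.natCast_eq_zero_iff] at h4
      have h5 := Nat.le_of_dvd (by omega) h4
      omega)
  refine h1.trans ?_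
  have h6 := choose_mid t
  have hNp : (0 : ℝ) < N := by exact_mod_cast hN
  have h7 : (2 : ℝ) ^ t / (((N + 1) / 2 : ℕ) : ℝ) ≤ 2 ^ t * (2 / N) := by
    have h8 : (N : ℝ) ≤ 2 * (((N + 1) / 2 : ℕ) : ℝ) := by
      have : N ≤ 2 * ((N + 1) / 2) := by omega
      exact_mod_cast this
    have h9 : (0 : ℝ) < (((N + 1) / 2 : ℕ) : ℝ) := by exact_mod_cast hd
    rw [div_le_iff₀ h9]
    have : (2 : ℝ) ^ t * (2 / N) * (((N + 1) / 2 : ℕ) : ℝ) = 2 ^ t * ((2 * (((N + 1) / 2 : ℕ) : ℝ)) / N) := by
      ring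
    rw [this]
    have h10 : 1 ≤ (2 * (((N + 1) / 2 : ℕ) : ℝ)) / N := by rw [le_div_iff₀ hNp]; linarith
    have h11 : (0 : ℝ) < 2 ^ t := by positivity
    nlinarith
  calc _ ≤ 2 * (2 ^ t * (2 / N) + 2 ^ t / Real.sqrt (t + 1)) := by gcongr
    _ = _ := by ring

/-- the value of a letter -/
def step {n N : ℕ} (h : Fin n → ZMod N) (a : Fin n × Bool) : ZMod N :=
  cond a.2 (h a.1) (-h a.1)

theorem val_eq {n N : ℕ} (h : Fin n → ZMod N) (w : List (Fin n × Bool)) :
    ∑ i, (expo w i : ZMod N) * h i = (w.map (step h)).sum := by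
  induction w with
  | nil => simp [expo]
  | cons a w ih =>
    have e : ∀ i, expo (a :: w) i = (if a.1 = i then cond a.2 1 (-1) else (0 : ℤ)) + expo w i := by
      intro i; simp [expo]
    simp only [e, List.map_cons, List.sum_cons]
    rw [← ih]
    push_cast
    simp only [add_mul, Finset.sum_add_distrib]
    congr 1
    rw [Finset.sum_eq_single a.1]
    · rcases a with ⟨i, b⟩
      cases b <;> simp [step]
    · intro b _ hb
      rw [if_neg (Ne.symm hb)]; simp
    · intro hb; exact absurd (Finset.mem_univ _) hb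

/-- number of words of length `k` with a given value -/
noncomputable def A {n N : ℕ} (h : Fin n → ZMod N) (k : ℕ) : ZMod N → ℝ := fun c =>
  (((LL (Fin n × Bool) k).filter (fun w => (w.map (step h)).sum = c)).card : ℝ)

theorem A_eq {n N : ℕ} (h : Fin n → ZMod N) (k : ℕ) :
    A h k = ((∑ i, (T (h i) + T (-h i))) ^ k) delta := by
  induction k with
  | zero =>
    rw [pow_zero]
    funext c
    simp only [A, LL, Module.End.one_apply, delta]
    by_cases hc : c = 0
    · subst hc; simp [Finset.filter_singleton]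
    · rw [if_neg hc, Finset.filter_singleton, if_neg]
      · simp
      · simp only [List.map_nil, List.sum_nil]; exact fun h => hc h.symm
  | succ k ih =>
    rw [pow_succ', Module.End.mul_apply, ← ih]
    funext c
    rw [LinearMap.sum_apply, Finset.sum_apply]
    unfold A
    rw [cnt_succ, Fintype.sum_prod_type]
    push_cast
    apply Finset.sum_congr rfl
    intro i _
    rw [LinearMap.add_apply, Pi.add_apply, T_apply, T_apply, Fintype.sum_bool]
    rfl

theorem A_bound {n N : ℕ} (hN : 1 ≤ N) (h : Fin n → ZMod N) (i0 : Fin n) (hi : IsUnit (h i0))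
    (k : ℕ) (c : ZMod N) :
    A h k c ≤ (2 * n) ^ k * (4 / N + 2 * Real.sqrt (n / (k + 1))) := by
  have hn : 1 ≤ n := by have := i0.2; omega
  have hn' : (1 : ℝ) ≤ n := by exact_mod_cast hn
  rw [A_eq, ← Finset.add_sum_erase Finset.univ _ (Finset.mem_univ i0)]
  have hcomm : Commute (T (h i0) + T (-h i0))
      (∑ i ∈ Finset.univ.erase i0, (T (h i) + T (-h i))) := by
    apply Commute.sum_right
    intro i _
    apply Commute.add_left
    · exact (T_comm _ _).add_right (T_comm _ _)
    · exact (T_comm _ _).add_right (T_comm _ _)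
  rw [hcomm.add_pow, LinearMap.sum_apply, Finset.sum_apply]
  have hcard : (((Finset.univ : Finset (Fin n)).erase i0).card : ℝ) = n - 1 := by
    rw [Finset.card_erase_of_mem (Finset.mem_univ _), Finset.card_univ, Fintype.card_fin,
      Nat.cast_sub hn]
    simp
  have hNp : (0 : ℝ) < N := by exact_mod_cast hN
  calc _ ≤ ∑ t ∈ range (k + 1), (k.choose t : ℝ) * ((2 * (n : ℝ) - 2) ^ (k - t) *
            (2 ^ t * (4 / N + 2 / Real.sqrt (t + 1)))) := by
          apply Finset.sum_le_sum
          intro t ht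
          rw [← nsmul_eq_mul', LinearMap.smul_apply, Pi.smul_apply, nsmul_eq_mul]
          apply mul_le_mul_of_nonneg_left _ (by positivity)
          rw [(hcomm.pow_pow t (k - t)).eq, Module.End.mul_apply]
          have := P_bound (Finset.univ.erase i0) h (k - t) (((T (h i0) + T (-h i0)) ^ t) delta)
            (2 ^ t * (4 / N + 2 / Real.sqrt (t + 1))) (Q_bound hN _ hi t) c
          rw [hcard, show 2 * ((n : ℝ) - 1) = 2 * n - 2 by ring] at this
          exact this
    _ = (4 / N) * ∑ t ∈ range (k + 1), (k.choose t : ℝ) * (2 * (n : ℝ) - 2) ^ (k - t) * 2 ^ t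
          + 2 * ∑ t ∈ range (k + 1), (k.choose t : ℝ) * (2 * (n : ℝ) - 2) ^ (k - t) * 2 ^ t / Real.sqrt (t + 1) := by
          rw [Finset.mul_sum, Finset.mul_sum, ← Finset.sum_add_distrib]
          apply Finset.sum_congr rfl
          intro t _
          ring
    _ ≤ (4 / N) * (2 * n) ^ k + 2 * ((2 * n) ^ k * Real.sqrt (n / (k + 1))) := by
          have htot : ∑ t ∈ range (k + 1), (k.choose t : ℝ) * (2 * (n : ℝ) - 2) ^ (k - t) * 2 ^ t = (2 * n) ^ k := by
            have := add_pow (2 : ℝ) (2 * n - 2) k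
            rw [show (2 : ℝ) + (2 * n - 2) = 2 * n by ring] at this
            rw [this]
            apply Finset.sum_congr rfl
            intro t _; ring
          rw [htot]
          have := sum_inv_sqrt n hn k
          linarith
    _ = _ := by ring

theorem geo (n : ℕ) (hn : 1 ≤ n) (l : ℕ) :
    ∑ k ∈ range (l + 1), (2 * (n : ℝ)) ^ k / Real.sqrt (k + 1) ≤ 4 * (2 * n) ^ l / Real.sqrt (l + 1) := by
  have hn' : (1 : ℝ) ≤ n := by exact_mod_cast hn
  induction l with
  | zero => simp
  | succ l ih =>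
    rw [Finset.sum_range_succ]
    have h1 : 0 < Real.sqrt ((l : ℝ) + 1) := Real.sqrt_pos.mpr (by positivity)
    have h2 : 0 < Real.sqrt (((l + 1 : ℕ) : ℝ) + 1) := Real.sqrt_pos.mpr (by positivity)
    have h3 : Real.sqrt (((l + 1 : ℕ) : ℝ) + 1) ≤ (3 / 2) * Real.sqrt ((l : ℝ) + 1) := by
      rw [show (3 / 2 : ℝ) = Real.sqrt (9 / 4) by
        rw [show (9 / 4 : ℝ) = (3 / 2) ^ 2 by norm_num, Real.sqrt_sq (by norm_num)],
        ← Real.sqrt_mul (by norm_num)]
      apply Real.sqrt_le_sqrt
      push_cast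
      have : (0 : ℝ) ≤ l := by positivity
      linarith
    have h4 : 4 * (2 * (n : ℝ)) ^ l / Real.sqrt ((l : ℝ) + 1) ≤
        3 * (2 * (n : ℝ)) ^ (l + 1) / Real.sqrt (((l + 1 : ℕ) : ℝ) + 1) := by
      rw [div_le_div_iff₀ h1 h2]
      have h5 : (0 : ℝ) < (2 * n) ^ l := by positivity
      calc 4 * (2 * (n : ℝ)) ^ l * Real.sqrt (((l + 1 : ℕ) : ℝ) + 1)
          ≤ 4 * (2 * (n : ℝ)) ^ l * ((3 / 2) * Real.sqrt ((l : ℝ) + 1)) := by gcongr
        _ = (6 * ((2 * (n : ℝ)) ^ l * Real.sqrt ((l : ℝ) + 1))) := by ring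
        _ ≤ (6 * n) * ((2 * (n : ℝ)) ^ l * Real.sqrt ((l : ℝ) + 1)) := by
            apply mul_le_mul_of_nonneg_right _ (by positivity)
            linarith
        _ = _ := by rw [pow_succ]; ring
    calc _ ≤ 4 * (2 * (n : ℝ)) ^ l / Real.sqrt ((l : ℝ) + 1) +
          (2 * (n : ℝ)) ^ (l + 1) / Real.sqrt (((l + 1 : ℕ) : ℝ) + 1) := by linarith
      _ ≤ 3 * (2 * (n : ℝ)) ^ (l + 1) / Real.sqrt (((l + 1 : ℕ) : ℝ) + 1) +
          (2 * (n : ℝ)) ^ (l + 1) / Real.sqrt (((l + 1 : ℕ) : ℝ) + 1) := by linarith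
      _ = _ := by ring

end Pool.Agent.MIso.G1aux

namespace Pool.Agent.MIso

open Finset G1aux

/-- G1. Anticoncentration. -/
theorem anti (n : ℕ) : ∃ C : ℝ, 0 < C ∧ ∀ l : ℕ, 1 ≤ l → ∀ N : ℕ, 1 ≤ N →
    ∀ h : Fin n → ZMod N, (∃ i, IsUnit (h i)) → ∀ c : ZMod N,
      (Nat.card {w : Words n l // ∑ i, (expo w.1 i : ZMod N) * h i = c} : ℝ)
        ≤ C * (1 / (N : ℝ) + 1 / Real.sqrt l) * Nat.card (Words n l) := by
  refine ⟨8 * Real.sqrt n + 4, by positivity, ?_⟩
  intro l hl N hN h ⟨i0, hi0⟩ c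
  have hn : 1 ≤ n := by have := i0.2; omega
  have hn' : (1 : ℝ) ≤ n := by exact_mod_cast hn
  have hl' : (1 : ℝ) ≤ l := by exact_mod_cast hl
  have hNp : (0 : ℝ) < N := by exact_mod_cast hN
  have e1 : (Nat.card {w : Words n l // ∑ i, (expo w.1 i : ZMod N) * h i = c} : ℝ) =
      ∑ k ∈ range (l + 1), A h k c := by
    have := card_words (n := n) (l := l) (fun w => (w.map (step h)).sum = c)
    simp only [val_eq]
    rw [this]
    push_cast
    rfl
  have e2 : (Nat.card (Words n l) : ℝ) = ∑ k ∈ range (l + 1), (2 * (n : ℝ)) ^ k := by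
    rw [card_words']; push_cast; rfl
  rw [e1]
  have hW : (2 * (n : ℝ)) ^ l ≤ Nat.card (Words n l) := by
    rw [e2]
    exact Finset.single_le_sum (f := fun k => (2 * (n : ℝ)) ^ k) (fun k _ => by positivity)
      (Finset.mem_range.2 (by omega))
  have hsl : 0 < Real.sqrt l := Real.sqrt_pos.mpr (by linarith)
  have hsl1 : Real.sqrt l ≤ Real.sqrt (l + 1) := Real.sqrt_le_sqrt (by linarith)
  calc _ ≤ ∑ k ∈ range (l + 1), ((4 / N) * (2 * (n : ℝ)) ^ k +
            2 * Real.sqrt n * ((2 * (n : ℝ)) ^ k / Real.sqrt (k + 1))) := by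
          apply Finset.sum_le_sum
          intro k _
          refine (A_bound hN h i0 hi0 k c).trans (le_of_eq ?_)
          rw [Real.sqrt_div (by positivity)]
          ring
    _ = (4 / N) * Nat.card (Words n l) +
          2 * Real.sqrt n * ∑ k ∈ range (l + 1), (2 * (n : ℝ)) ^ k / Real.sqrt (k + 1) := by
          rw [Finset.sum_add_distrib, ← Finset.mul_sum, ← Finset.mul_sum, ← e2]
    _ ≤ (4 / N) * Nat.card (Words n l) +
          2 * Real.sqrt n * (4 * (2 * n) ^ l / Real.sqrt (l + 1)) := by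
          have := geo n hn l
          gcongr
    _ ≤ (4 / N) * Nat.card (Words n l) +
          2 * Real.sqrt n * (4 * Nat.card (Words n l) / Real.sqrt l) := by
          gcongr
    _ = (4 * (1 / N) + 8 * Real.sqrt n * (1 / Real.sqrt l)) * Nat.card (Words n l) := by ring
    _ ≤ _ := by
          apply mul_le_mul_of_nonneg_right _ (by positivity)
          have h1 : 0 ≤ Real.sqrt n * (1 / (N : ℝ)) := by positivity
          have h2 : 0 ≤ 1 / Real.sqrt l := by positivity
          nlinarith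

end Pool.Agent.MIso
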