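import Pool.Agent.MIso.Defs

set_option autoImplicit false

/-!
Block G4: a finite metabelian group is recognised by its homomorphism counts.
-/

namespace Pool.Agent.MIso

namespace G4aux

/-- A nontrivial finitely generated abelian group has a proper subgroup of finite index. -/
theorem exists_proper_comm (A : Type) [CommGroup A] [Group.FG A] [Nontrivial A] :
    ∃ H : Subgroup A, H ≠ ⊤ ∧ H.FiniteIndex := by
  classical
  by_cases hfin : Finite A
  · refine ⟨⊥, bot_ne_top, ?_⟩
    infer_instance
  · -- the squares
    let f : A →* A := powMonoidHom 2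
    refine ⟨f.range, ?_, ?_⟩
    · intro htop
      apply hfin
      have hfg : Module.Finite ℤ (Additive A) :=
        Module.Finite.iff_addGroup_fg.mpr inferInstance
      have hN : (⊤ : Submodule ℤ (Additive A)).FG := Module.Finite.fg_top
      have hle : (⊤ : Submodule ℤ (Additive A)) ≤ (Ideal.span {(2 : ℤ)}) • ⊤ := by
        intro x _
        have hx : (Additive.toMul x : A) ∈ f.range := by rw [htop]; trivial
        obtain ⟨y, hy⟩ := hx
        have hy' : x = (2 : ℤ) • (Additive.ofMul y) := by
          have : Additive.ofMul (y ^ 2) = (2 : ℤ) • Additive.ofMul y := by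
            rw [ofMul_pow]
            exact (natCast_zsmul _ 2).symm
          rw [← this]
          exact (congrArg Additive.ofMul hy).symm
        rw [hy']
        exact Submodule.smul_mem_smul (Ideal.mem_span_singleton_self 2) trivial
      obtain ⟨r, hr1, hr2⟩ :=
        Submodule.exists_sub_one_mem_and_smul_eq_zero_of_fg_of_le_smul
          (Ideal.span {(2 : ℤ)}) ⊤ hN hle
      have hr0 : r ≠ 0 := by
        rintro rfl
        rw [Ideal.mem_span_singleton] at hr1
        omega
      have htors : Module.IsTorsion ℤ (Additive A) := by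
        intro x
        exact ⟨⟨r, mem_nonZeroDivisors_of_ne_zero hr0⟩, hr2 x trivial⟩
      have := Module.finite_of_fg_torsion (Additive A) htors
      exact Finite.of_equiv _ (Additive.toMul (α := A))
    · have hfinq : Finite (A ⧸ f.range) := by
        have hfg : Module.Finite ℤ (Additive (A ⧸ f.range)) :=
          Module.Finite.iff_addGroup_fg.mpr inferInstance
        have htors : Module.IsTorsion ℤ (Additive (A ⧸ f.range)) := by
          intro x
          refine ⟨⟨2, mem_nonZeroDivisors_of_ne_zero (by norm_num)⟩, ?_⟩
          obtain ⟨y, hy⟩ := QuotientGroup.mk_surjective (Additive.toMul x)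
          have h2 : (Additive.toMul x) ^ 2 = 1 := by
            rw [← hy, ← QuotientGroup.mk_pow, QuotientGroup.eq_one_iff]
            exact ⟨y, rfl⟩
          have : (2 : ℤ) • x = 0 := by
            have h3 : Additive.ofMul ((Additive.toMul x) ^ 2) = (2 : ℤ) • x := by
              rw [ofMul_pow]
              exact (natCast_zsmul _ 2).symm
            rw [← h3, h2]
            rfl
          exact this
        have := Module.finite_of_fg_torsion (Additive (A ⧸ f.range)) htors
        exact Finite.of_equiv _ (Additive.toMul (α := A ⧸ f.range))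
      exact Subgroup.finiteIndex_of_finite_quotient

/-- A nontrivial finitely generated soluble group has a proper subgroup of finite index. -/
theorem exists_proper_solvable (N : Type) [Group N] [Group.FG N] [Nontrivial N]
    [Group.IsSolvable N] : ∃ H : Subgroup N, H ≠ ⊤ ∧ H.FiniteIndex := by
  have hc : commutator N ≠ ⊤ := (Group.IsSolvable.commutator_lt_top_of_nontrivial N).ne
  have hnt : Nontrivial (Abelianization N) := by
    by_contra hnt
    rw [not_nontrivial_iff_subsingleton] at hnt
    apply hc
    rw [eq_top_iff]
    intro x _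
    have : Abelianization.of x = 1 := Subsingleton.elim _ _
    have h2 : x ∈ (Abelianization.of (G := N)).ker := this
    rwa [Abelianization.ker_of] at h2
  have hfg : Group.FG (Abelianization N) := by
    unfold Abelianization
    infer_instance
  obtain ⟨H, hH, hfi⟩ := exists_proper_comm (Abelianization N)
  have hs : Function.Surjective (Abelianization.of (G := N)) := QuotientGroup.mk_surjective
  refine ⟨H.comap Abelianization.of, ?_, ?_⟩
  · intro htop
    apply hH
    rw [eq_top_iff]
    intro y _
    obtain ⟨x, rfl⟩ := hs y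
    have : x ∈ H.comap Abelianization.of := by rw [htop]; trivial
    exact this
  · constructor
    rw [Subgroup.index_comap_of_surjective H hs]
    exact hfi.index_ne_zero

theorem der_of_surj {G K : Type} [Group G] [Group K] (hG : derivedSeries G 2 = ⊥)
    (f : G →* K) (hf : Function.Surjective f) : derivedSeries K 2 = ⊥ := by
  rw [← map_derivedSeries_eq hf, hG, Subgroup.map_bot]

theorem der_of_inj {G K : Type} [Group G] [Group K] (hG : derivedSeries G 2 = ⊥)
    (f : K →* G) (hf : Function.Injective f) : derivedSeries K 2 = ⊥ := by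
  have h := map_derivedSeries_le_derivedSeries f 2
  rw [hG, le_bot_iff, Subgroup.map_eq_bot_iff] at h
  rw [MonoidHom.ker_eq_bot_iff f |>.mpr hf] at h
  exact le_bot_iff.mp h

theorem der_met (P : Pres) : derivedSeries (Met P) 2 = ⊥ := by
  have hs : Function.Surjective (PresentedGroup.mk (relset P)) :=
    QuotientGroup.mk_surjective
  change derivedSeries (PresentedGroup (relset P)) 2 = ⊥
  rw [← map_derivedSeries_eq hs, Subgroup.map_eq_bot_iff]
  intro x hx
  have : x ∈ Subgroup.normalClosure (relset P) :=
    Subgroup.subset_normalClosure (Or.inr hx)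
  exact (QuotientGroup.eq_one_iff x).mpr this

instance fg_met (P : Pres) : Group.FG (Met P) := by
  change Group.FG (PresentedGroup (relset P))
  exact Group.fg_of_surjective (f := PresentedGroup.mk (relset P)) QuotientGroup.mk_surjective

instance finite_hom (G : Type) [Group G] [Group.FG G] (K : Type) [Group K] [Finite K] :
    Finite (G →* K) := by
  obtain ⟨S, hS, hfin⟩ := Group.fg_iff.mp (inferInstance : Group.FG G)
  have : Finite S := hfin
  refine Finite.of_injective (fun (f : G →* K) (s : S) => f s) ?_
  intro f g hfg
  apply MonoidHom.eq_of_eqOn_dense hS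
  intro x hx
  exact congrFun hfg ⟨x, hx⟩

/-- Homomorphisms with range `H` are surjections onto `H`. -/
noncomputable def rangeEquiv (G K : Type) [Group G] [Group K] (H : Subgroup K) :
    {f : G →* K // f.range = H} ≃ {f : G →* H // Function.Surjective f} where
  toFun f := ⟨f.1.codRestrict H (fun x => by
      have hx : f.1 x ∈ f.1.range := ⟨x, rfl⟩
      rwa [f.2] at hx), by
    rintro ⟨y, hy⟩
    have hy' : y ∈ f.1.range := by rw [f.2]; exact hy
    obtain ⟨x, hx⟩ := hy'
    exact ⟨x, Subtype.ext hx⟩⟩
  invFun f := ⟨H.subtype.comp f.1, by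
    ext y
    constructor
    · rintro ⟨x, rfl⟩
      exact (f.1 x).2
    · intro hy
      obtain ⟨x, hx⟩ := f.2 ⟨y, hy⟩
      exact ⟨x, by simp [hx]⟩⟩
  left_inv f := by
    ext x
    rfl
  right_inv f := by
    ext x
    rfl

theorem card_hom_sum (G K : Type) [Group G] [Group.FG G] [Group K] [Finite K]
    [Fintype (Subgroup K)] :
    Nat.card (G →* K) = ∑ H : Subgroup K, Nat.card {f : G →* H // Function.Surjective f} := by
  rw [Nat.card_congr (Equiv.sigmaFiberEquiv (fun f : G →* K => f.range)).symm, Nat.card_sigma]
  exact Finset.sum_congr rfl fun H _ => Nat.card_congr (rangeEquiv G K H)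

/-- Equal numbers of homomorphisms give equal numbers of surjections. -/
theorem card_epi (G₁ G₂ : Type) [Group G₁] [Group G₂] [Group.FG G₁] [Group.FG G₂]
    (h : ∀ (K : Type) [Group K] [Finite K], derivedSeries K 2 = ⊥ →
      Nat.card (G₁ →* K) = Nat.card (G₂ →* K)) :
    ∀ (n : ℕ) (K : Type) [Group K] [Finite K], Nat.card K = n → derivedSeries K 2 = ⊥ →
      Nat.card {f : G₁ →* K // Function.Surjective f} =
        Nat.card {f : G₂ →* K // Function.Surjective f} := by
  intro n
  induction n using Nat.strong_induction_on with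
  | _ n ih =>
    intro K _ _ hn hK
    classical
    have : Fintype (Subgroup K) := Fintype.ofFinite _
    have h1 := h K hK
    rw [card_hom_sum G₁ K, card_hom_sum G₂ K,
      ← Finset.add_sum_erase _ _ (Finset.mem_univ (⊤ : Subgroup K)),
      ← Finset.add_sum_erase (s := Finset.univ)
        (f := fun H : Subgroup K => Nat.card {f : G₂ →* H // Function.Surjective f})
        (a := ⊤) (Finset.mem_univ _)] at h1
    have h2 : ∑ H ∈ Finset.univ.erase (⊤ : Subgroup K),
        Nat.card {f : G₁ →* H // Function.Surjective f} =
        ∑ H ∈ Finset.univ.erase (⊤ : Subgroup K),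
          Nat.card {f : G₂ →* H // Function.Surjective f} := by
      apply Finset.sum_congr rfl
      intro H hH
      have hne : H ≠ ⊤ := Finset.ne_of_mem_erase hH
      have hlt : Nat.card H < n := by
        rw [← hn]
        refine lt_of_le_of_ne (Subgroup.card_le_card_group H) ?_
        intro heq
        exact hne (Subgroup.card_eq_iff_eq_top H |>.mp heq)
      exact ih _ hlt H rfl (der_of_inj hK H.subtype H.subtype_injective)
    rw [h2] at h1
    have h3 := Nat.add_right_cancel h1
    have e : ∀ (G : Type) [Group G], Nat.card {f : G →* (⊤ : Subgroup K) // Function.Surjective f}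
        = Nat.card {f : G →* K // Function.Surjective f} := by
      intro G _
      rw [← Nat.card_congr (rangeEquiv G K ⊤)]
      apply Nat.card_congr
      exact Equiv.subtypeEquivRight fun f => MonoidHom.range_eq_top
    rw [e, e] at h3
    exact h3

/-- The main step. -/
theorem iso_of_card (G₁ G₂ : Type) [Group G₁] [Group G₂] [Group.FG G₁] [Finite G₂]
    (h₁ : derivedSeries G₁ 2 = ⊥) (h₂ : derivedSeries G₂ 2 = ⊥)
    (h : ∀ (K : Type) [Group K] [Finite K], derivedSeries K 2 = ⊥ →
      Nat.card (G₁ →* K) = Nat.card (G₂ →* K)) : Nonempty (G₁ ≃* G₂) := by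
  classical
  have hepi := card_epi G₁ G₂ h
  have hpos : 0 < Nat.card {f : G₁ →* G₂ // Function.Surjective f} := by
    rw [hepi _ G₂ rfl h₂]
    have : Nonempty {f : G₂ →* G₂ // Function.Surjective f} :=
      ⟨⟨MonoidHom.id G₂, Function.surjective_id⟩⟩
    exact Nat.card_pos
  obtain ⟨⟨f, hf⟩⟩ := (Nat.card_pos_iff.mp hpos).1
  by_cases hker : f.ker = ⊥
  · exact ⟨MulEquiv.ofBijective f ⟨(MonoidHom.ker_eq_bot_iff f).mp hker, hf⟩⟩
  exfalso
  have hfi : f.ker.FiniteIndex := inferInstance
  have hnt : Nontrivial f.ker := (Subgroup.nontrivial_iff_ne_bot _).mpr hker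
  have hfg : Group.FG f.ker := inferInstance
  have hsol : Group.IsSolvable f.ker :=
    ⟨⟨2, der_of_inj h₁ f.ker.subtype f.ker.subtype_injective⟩⟩
  obtain ⟨H, hH, hHfi⟩ := exists_proper_solvable f.ker
  let H' : Subgroup G₁ := H.map f.ker.subtype
  have hH'le : H' < f.ker := by
    refine lt_of_le_of_ne (Subgroup.map_subtype_le H) ?_
    intro heq
    apply hH
    rw [eq_top_iff]
    intro x _
    have hx : (x : G₁) ∈ H' := by rw [heq]; exact x.2
    obtain ⟨y, hy, hyx⟩ := hx
    have : y = x := Subtype.ext hyx
    rwa [← this]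
  have hH'fi : H'.FiniteIndex := by
    constructor
    have := Subgroup.relIndex_mul_index hH'le.le
    rw [← this]
    refine mul_ne_zero ?_ hfi.index_ne_zero
    have h5 : H'.relIndex f.ker = H.index := by
      change (H'.subgroupOf f.ker).index = H.index
      congr 1
      exact Subgroup.comap_map_eq_self_of_injective f.ker.subtype_injective H
    rw [h5]
    exact hHfi.index_ne_zero
  let K := H'.normalCore
  have hKfi : K.FiniteIndex := Subgroup.finiteIndex_normalCore H'
  have hKn : K.Normal := H'.normalCore_normal
  have hKlt : K < f.ker := lt_of_le_of_lt H'.normalCore_le hH'le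
  have hfinQ : Finite (G₁ ⧸ K) := inferInstance
  have hpos2 : 0 < Nat.card {g : G₂ →* (G₁ ⧸ K) // Function.Surjective g} := by
    rw [← hepi _ (G₁ ⧸ K) rfl (der_of_surj h₁ (QuotientGroup.mk' K) (QuotientGroup.mk'_surjective K))]
    have : Nonempty {g : G₁ →* (G₁ ⧸ K) // Function.Surjective g} :=
      ⟨⟨QuotientGroup.mk' K, QuotientGroup.mk'_surjective K⟩⟩
    exact Nat.card_pos
  obtain ⟨⟨g, hg⟩⟩ := (Nat.card_pos_iff.mp hpos2).1
  have hle : Nat.card (G₁ ⧸ K) ≤ Nat.card G₂ := Nat.card_le_card_of_surjective g hg
  have h6 : Nat.card G₂ = f.ker.index := by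
    rw [Subgroup.index_ker, MonoidHom.range_eq_top.mpr hf]
    exact (Nat.card_congr (Subgroup.topEquiv (G := G₂)).toEquiv).symm
  have h7 : Nat.card (G₁ ⧸ K) = K.index := rfl
  have h8 : f.ker.index < K.index := by
    have := Subgroup.relIndex_mul_index hKlt.le
    have h9 : K.relIndex f.ker ≠ 1 := by
      intro h1
      rw [Subgroup.relIndex_eq_one] at h1
      exact absurd h1 (not_le_of_gt hKlt)
    have h10 : K.index ≠ 0 := hKfi.index_ne_zero
    have h11 : K.relIndex f.ker ≠ 0 := by
      intro h0
      rw [h0, zero_mul] at this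
      exact h10 this.symm
    have h12 : 2 ≤ K.relIndex f.ker := by omega
    have h13 : f.ker.index ≠ 0 := hfi.index_ne_zero
    rw [← this]
    nlinarith [Nat.pos_of_ne_zero h13]
  omega

end G4aux

/-- G4. A finite metabelian group is recognised by its homomorphism counts. -/
theorem iso_or_sep_of_finite (P P' : Pres) (h : Finite (Met P')) :
    Nonempty (Met P ≃* Met P') ∨ Sep P P' := by
  by_cases hs : Sep P P'
  · exact Or.inr hs
  left
  refine G4aux.iso_of_card (Met P) (Met P') (G4aux.der_met P) (G4aux.der_met P') ?_
  intro K _ _ hK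
  by_contra hne
  exact hs ⟨K, inferInstance, inferInstance, hK, hne⟩

end Pool.Agent.MIso
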