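import Pool.Agent.MIso.Defs

set_option autoImplicit false

/-! Block H2a: sums of independent variables with a common minimal value. -/

namespace Pool.Agent.MIso

namespace H2aaux

open Finset

theorem card_ind {α : Type*} [Fintype α] (P : α → Prop) [DecidablePred P] :
    (Nat.card {a // P a} : ℝ) = ∑ a, if P a then (1 : ℝ) else 0 := by
  rw [Nat.card_eq_fintype_card, Fintype.card_subtype, Finset.sum_boole]

theorem min_iff {J : Type} [Fintype J] (z : J → ℕ) (y0 : ℕ) (hz : ∀ i, y0 ≤ z i) :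
    ∑ i, z i = Fintype.card J * y0 ↔ ∀ i, z i = y0 := by
  constructor
  · intro h i
    by_contra hi
    have h1 : y0 < z i := lt_of_le_of_ne (hz i) (Ne.symm hi)
    have h2 : ∑ _i : J, y0 < ∑ i, z i :=
      Finset.sum_lt_sum (fun i _ => hz i) ⟨i, Finset.mem_univ i, h1⟩
    rw [Finset.sum_const, Finset.card_univ, smul_eq_mul] at h2
    omega
  · intro h
    rw [Finset.sum_congr rfl fun i _ => h i, Finset.sum_const, Finset.card_univ, smul_eq_mul]

theorem core {J : Type} [Fintype J] {Ω : J → Type} [∀ i, Fintype (Ω i)]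
    (y : ∀ i, Ω i → ℕ) (y0 : ℕ) (hy : ∀ i ω, y0 ≤ y i ω) (ρ : ℝ)
    (hρ : ∀ i, (Nat.card {ω : Ω i // y i ω = y0} : ℝ) = ρ * Nat.card (Ω i))
    (h1 : 1 / 9 ≤ ρ ^ Fintype.card J) (h2 : ρ ^ Fintype.card J ≤ 8 / 9) (s : ℕ) :
    (Nat.card {ω : ∀ i, Ω i // ∑ i, y i (ω i) = s} : ℝ) ≤ 8 / 9 * Nat.card (∀ i, Ω i) := by
  classical
  have hall : (Nat.card {ω : ∀ i, Ω i // ∀ i, y i (ω i) = y0} : ℝ) =
      ρ ^ Fintype.card J * Nat.card (∀ i, Ω i) := by
    rw [Nat.card_congr (Equiv.subtypePiEquivPi (p := fun {i} (ω : Ω i) => y i ω = y0)),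
      Nat.card_pi, Nat.card_pi]
    push_cast
    rw [Finset.prod_congr rfl fun i _ => hρ i, Finset.prod_mul_distrib, Finset.prod_const,
      Finset.card_univ]
  have hpos : (0 : ℝ) ≤ Nat.card (∀ i, Ω i) := Nat.cast_nonneg _
  by_cases hs : s = Fintype.card J * y0
  · have : Nat.card {ω : ∀ i, Ω i // ∑ i, y i (ω i) = s} =
        Nat.card {ω : ∀ i, Ω i // ∀ i, y i (ω i) = y0} := by
      refine Nat.card_congr (Equiv.subtypeEquivRight fun ω => ?_)
      rw [hs]
      exact min_iff (fun i => y i (ω i)) y0 fun i => hy i _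
    rw [this, hall]
    exact mul_le_mul_of_nonneg_right h2 hpos
  · have hsum : (Nat.card {ω : ∀ i, Ω i // ∑ i, y i (ω i) = s} : ℝ) +
        Nat.card {ω : ∀ i, Ω i // ∀ i, y i (ω i) = y0} ≤ Nat.card (∀ i, Ω i) := by
      rw [card_ind, card_ind, ← Finset.sum_add_distrib, Nat.card_eq_fintype_card,
        ← Finset.card_univ, Finset.card_eq_sum_ones]
      push_cast
      refine Finset.sum_le_sum fun ω _ => ?_
      by_cases ha : ∑ i, y i (ω i) = s
      · have hb : ¬ ∀ i, y i (ω i) = y0 := by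
          intro hb
          exact hs (ha ▸ (min_iff (fun i => y i (ω i)) y0 fun i => hy i _).2 hb)
        rw [if_pos ha, if_neg hb]
        norm_num
      · rw [if_neg ha]
        split_ifs <;> norm_num
    rw [hall] at hsum
    have : 1 / 9 * (Nat.card (∀ i, Ω i) : ℝ) ≤ ρ ^ Fintype.card J * Nat.card (∀ i, Ω i) :=
      mul_le_mul_of_nonneg_right h1 hpos
    linarith

end H2aaux

/-- H2a. Sums of independent variables with a common minimal value. -/
theorem atoms {I : Type} [Fintype I] [DecidableEq I] {Ω : I → Type} [∀ i, Fintype (Ω i)]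
    (y : ∀ i, Ω i → ℕ) (y0 : ℕ) (hy : ∀ i ω, y0 ≤ y i ω) (ρ : ℝ)
    (hρ : ∀ i, (Nat.card {ω : Ω i // y i ω = y0} : ℝ) = ρ * Nat.card (Ω i))
    (N : ℕ) (hN : N ≤ Fintype.card I) (h1 : 1 / 9 ≤ ρ ^ N) (h2 : ρ ^ N ≤ 8 / 9) (s : ℕ) :
    (Nat.card {ω : ∀ i, Ω i // ∑ i, y i (ω i) = s} : ℝ) ≤ 8 / 9 * Nat.card (∀ i, Ω i) := by
  classical
  obtain ⟨T, -, hT⟩ := Finset.exists_subset_card_eq (s := (Finset.univ : Finset I)) (n := N)
    (by rwa [Finset.card_univ])
  let e := Equiv.piEquivPiSubtypeProd (fun i => i ∈ T) Ω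
  have hcard : Fintype.card {i // i ∈ T} = N := by rw [Fintype.card_coe, hT]
  have hc := fun t => H2aaux.core (J := {i // i ∈ T}) (fun i => y i) y0 (fun i => hy i) ρ
    (fun i => hρ i) (by rwa [hcard]) (by rwa [hcard]) t
  have hsplit : ∀ ω : ∀ i, Ω i, ∑ i, y i (ω i) =
      ∑ i : {i // i ∈ T}, y i ((e ω).1 i) + ∑ i : {i // ¬ i ∈ T}, y i ((e ω).2 i) := by
    intro ω
    rw [← Fintype.sum_subtype_add_sum_subtype (fun i => i ∈ T) fun i => y i (ω i)]
    congr 1
    exact Finset.sum_congr (by ext; simp) fun _ _ => rfl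
  have hmain : ∀ b : (∀ i : {i // ¬ i ∈ T}, Ω i),
      (∑ a : (∀ i : {i // i ∈ T}, Ω i),
        if ∑ i : {i // i ∈ T}, y i (a i) + ∑ i : {i // ¬ i ∈ T}, y i (b i) = s
          then (1 : ℝ) else 0) ≤ 8 / 9 * (Nat.card (∀ i : {i // i ∈ T}, Ω i) : ℝ) := by
    intro b
    set B := ∑ i : {i // ¬ i ∈ T}, y i (b i) with hB
    by_cases hb : B ≤ s
    · have := hc (s - B)
      rw [H2aaux.card_ind] at this
      refine le_trans (le_of_eq (Finset.sum_congr rfl fun a _ => ?_)) this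
      have h3 : (∑ i : {i // i ∈ T}, y i (a i) + B = s) ↔
          (∑ i : {i // i ∈ T}, y i (a i) = s - B) := by omega
      simp only [h3]
    · refine le_trans (le_of_eq (Finset.sum_eq_zero fun a _ => ?_)) (by positivity)
      rw [if_neg]
      omega
  rw [H2aaux.card_ind]
  calc (∑ ω : ∀ i, Ω i, if ∑ i, y i (ω i) = s then (1 : ℝ) else 0)
      = ∑ z : (∀ i : {i // i ∈ T}, Ω i) × (∀ i : {i // ¬ i ∈ T}, Ω i),
          if ∑ i : {i // i ∈ T}, y i (z.1 i) + ∑ i : {i // ¬ i ∈ T}, y i (z.2 i) = s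
            then (1 : ℝ) else 0 := by
        refine Fintype.sum_equiv e _ _ fun ω => ?_
        rw [hsplit ω]
    _ = ∑ b : (∀ i : {i // ¬ i ∈ T}, Ω i), ∑ a : (∀ i : {i // i ∈ T}, Ω i),
          if ∑ i : {i // i ∈ T}, y i (a i) + ∑ i : {i // ¬ i ∈ T}, y i (b i) = s
            then (1 : ℝ) else 0 := by
        rw [Fintype.sum_prod_type_right]
    _ ≤ ∑ _b : (∀ i : {i // ¬ i ∈ T}, Ω i), 8 / 9 *
          (Nat.card (∀ i : {i // i ∈ T}, Ω i) : ℝ) :=
        Finset.sum_le_sum fun b _ => hmain b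
    _ = 8 / 9 * (Nat.card (∀ i, Ω i) : ℝ) := by
        rw [Finset.sum_const, Finset.card_univ, nsmul_eq_mul, Nat.card_congr e, Nat.card_prod,
          Nat.card_eq_fintype_card (α := ∀ i : {i // ¬ i ∈ T}, Ω i)]
        push_cast
        ring

end Pool.Agent.MIso
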