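import Pool.Agent.MIso.C2
import Pool.Agent.MIso.C3b
import Pool.Agent.MIso.C4
import Pool.Agent.MIso.F1
import Pool.Agent.MIso.F2
import Pool.Agent.MIso.F3
import Pool.Agent.MIso.F4
import Pool.Agent.MIso.G4

set_option autoImplicit false

namespace Pool.Agent.MIso

theorem card_hom_congr {P P' : Pres} (h : Nonempty (Met P ≃* Met P')) (Γ : Type) [Group Γ] :
    Nat.card (Met P →* Γ) = Nat.card (Met P' →* Γ) := by
  obtain ⟨e⟩ := h
  exact Nat.card_congr
    { toFun := fun φ => φ.comp e.symm.toMonoidHom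
      invFun := fun φ => φ.comp e.toMonoidHom
      left_inv := fun φ => by ext x; simp
      right_inv := fun φ => by ext x; simp }

theorem iso_sep_excl (P P' : Pres) : ¬ (Nonempty (Met P ≃* Met P') ∧ Sep P P') := by
  rintro ⟨h, Γ, _, _, _, hne⟩
  exact hne (card_hom_congr h Γ)

theorem Sep.symm {P P' : Pres} (h : Sep P P') : Sep P' P := by
  obtain ⟨Γ, i1, i2, h1, h2⟩ := h
  exact ⟨Γ, i1, i2, h1, h2.symm⟩

/-- Not decided by the algorithm. -/
def Bad (P P' : Pres) : Prop := ¬ (Nonempty (Met P ≃* Met P') ∨ Sep P P')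

theorem Bad.symm {P P' : Pres} (h : Bad P P') : Bad P' P := by
  intro h'
  apply h
  rcases h' with ⟨⟨e⟩⟩ | h'
  · exact Or.inl ⟨e.symm⟩
  · exact Or.inr h'.symm

theorem card_mono {α : Type} [Finite α] {p q : α → Prop} (h : ∀ a, p a → q a) :
    (Nat.card {a // p a} : ℝ) ≤ (Nat.card {a // q a} : ℝ) := by
  exact_mod_cast Nat.card_le_card_of_injective
    (fun a : {a // p a} => (⟨a.1, h a.1 a.2⟩ : {a // q a}))
    (fun a b hab => Subtype.ext (by simpa using hab))

/-- The share of second presentations which are not decided tends to zero, uniformly in the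
first presentation. -/
theorem bad_uniform (n m : ℕ) (hm : 1 ≤ m) (ε : ℝ) (hε : 0 < ε) :
    ∃ L : ℕ, ∀ l ≥ L, ∀ P : Pres,
      (Nat.card {r : Fin m → Words n l // Bad P (pres r)} : ℝ)
        ≤ ε * (Nat.card (Words n l) : ℝ) ^ m := by
  rcases lt_trichotomy m n with h | h | h
  · obtain ⟨L, hL⟩ := sep_lt n m hm h ε hε
    refine ⟨L, fun l hl P => le_trans (card_mono fun r hr => ?_) (hL l hl P)⟩
    exact fun hs => hr (Or.inr hs)
  · subst h
    obtain ⟨L, hL⟩ := sep_eq m hm ε hε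
    refine ⟨L, fun l hl P => le_trans (card_mono fun r hr => ?_) (hL l hl P)⟩
    exact fun hs => hr (Or.inr hs)
  · obtain ⟨L, hL⟩ := finite_gt n m h ε hε
    refine ⟨L, fun l hl P => le_trans (card_mono fun r hr => ?_) (hL l hl)⟩
    exact fun hs => hr (iso_or_sep_of_finite P _ hs)

theorem card_pair_le {A B : Type} [Finite A] [Finite B] (p : A × B → Prop) (c : ℝ) 
    (h : ∀ a, (Nat.card {b : B // p (a, b)} : ℝ) ≤ c) :
    (Nat.card {z : A × B // p z} : ℝ) ≤ c * Nat.card A := by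
  classical
  have := Fintype.ofFinite A
  have := Fintype.ofFinite B
  have e : {z : A × B // p z} ≃ Σ a : A, {b : B // p (a, b)} :=
    { toFun := fun z => ⟨z.1.1, z.1.2, z.2⟩
      invFun := fun z => ⟨(z.1, z.2.1), z.2.2⟩
      left_inv := fun z => rfl
      right_inv := fun z => rfl }
  rw [Nat.card_congr e, Nat.card_sigma, Nat.cast_sum]
  calc ∑ a : A, (Nat.card {b : B // p (a, b)} : ℝ) ≤ ∑ _a : A, c := Finset.sum_le_sum fun a _ => h a
    _ = c * Nat.card A := by simp [mul_comm]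

theorem card_words_pi (m n l : ℕ) :
    (Nat.card (Fin m → Words n l) : ℝ) = (Nat.card (Words n l) : ℝ) ^ m := by
  rw [Nat.card_pi]; simp

theorem pres_zero {n l : ℕ} (r : Fin 0 → Words n l) : pres r = (n, []) := by
  simp [pres]

theorem bad_pairs (n m n' m' : ℕ) (ε : ℝ) (hε : 0 < ε) :
    ∃ L : ℕ, ∀ l ≥ L, ∀ l' ≥ L,
      (Nat.card {z : (Fin m → Words n l) × (Fin m' → Words n' l') //
          Bad (pres z.1) (pres z.2)} : ℝ)
        ≤ ε * (Nat.card (Words n l) : ℝ) ^ m * (Nat.card (Words n' l') : ℝ) ^ m' := by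
  rcases Nat.eq_zero_or_pos m' with h' | h'
  · rcases Nat.eq_zero_or_pos m with h | h
    · subst h h'
      refine ⟨0, fun l _ l' _ => ?_⟩
      have : IsEmpty {z : (Fin 0 → Words n l) × (Fin 0 → Words n' l') //
          Bad (pres z.1) (pres z.2)} := by
        refine ⟨fun z => z.2 ?_⟩
        rw [pres_zero, pres_zero]
        exact free_pair n n'
      rw [Nat.card_of_isEmpty]
      simp [hε.le]
    · obtain ⟨L, hL⟩ := bad_uniform n m h ε hε
      refine ⟨L, fun l hl l' _ => ?_⟩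
      have e : {z : (Fin m → Words n l) × (Fin m' → Words n' l') // Bad (pres z.1) (pres z.2)} ≃
          {z : (Fin m' → Words n' l') × (Fin m → Words n l) // Bad (pres z.1) (pres z.2)} :=
        { toFun := fun z => ⟨(z.1.2, z.1.1), z.2.symm⟩
          invFun := fun z => ⟨(z.1.2, z.1.1), z.2.symm⟩
          left_inv := fun z => rfl
          right_inv := fun z => rfl }
      rw [Nat.card_congr e]
      refine le_trans (card_pair_le (fun z => Bad (pres z.1) (pres z.2)) _
        fun a => hL l hl (pres a)) ?_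
      rw [card_words_pi]
  · obtain ⟨L, hL⟩ := bad_uniform n' m' h' ε hε
    refine ⟨L, fun l _ l' hl' => ?_⟩
    refine le_trans (card_pair_le (fun z => Bad (pres z.1) (pres z.2)) _
      fun a => hL l' hl' (pres a)) ?_
    rw [card_words_pi]
    exact le_of_eq (by ring)

theorem main :
    ∃ f : Pres × Pres →. Bool, Partrec f ∧
      (∀ P P', true ∈ f (P, P') ↔ Nonempty (Met P ≃* Met P')) ∧
      (∀ P P', false ∈ f (P, P') ↔ Sep P P') ∧
      (∀ P P', Sep P P' → ¬ Nonempty (Met P ≃* Met P')) ∧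
      (∀ n m : ℕ, 1 ≤ m → ∀ ε : ℝ, 0 < ε → ∃ L : ℕ, ∀ l ≥ L, ∀ P : Pres,
        (Nat.card {r : Fin m → Words n l // ¬ (f (P, pres r)).Dom} : ℝ)
          ≤ ε * (Nat.card (Words n l) : ℝ) ^ m) ∧
      (∀ n m n' m' : ℕ, ∀ ε : ℝ, 0 < ε → ∃ L : ℕ, ∀ l ≥ L, ∀ l' ≥ L,
        (Nat.card {z : (Fin m → Words n l) × (Fin m' → Words n' l') //
            ¬ (f (pres z.1, pres z.2)).Dom} : ℝ)
          ≤ ε * (Nat.card (Words n l) : ℝ) ^ m * (Nat.card (Words n' l') : ℝ) ^ m') := by
  obtain ⟨f, hf, h1, h2⟩ := merge_re iso_re sep_re fun z => iso_sep_excl z.1 z.2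
  have hdom : ∀ P P', ¬ (f (P, P')).Dom → Bad P P' := by
    intro P P' h hh
    apply h
    rw [Part.dom_iff_mem]
    rcases hh with hh | hh
    · exact ⟨true, (h1 (P, P')).2 hh⟩
    · exact ⟨false, (h2 (P, P')).2 hh⟩
  refine ⟨f, hf, fun P P' => h1 (P, P'), fun P P' => h2 (P, P'),
    fun P P' hs hi => iso_sep_excl P P' ⟨hi, hs⟩, ?_, ?_⟩
  · intro n m hm ε hε
    obtain ⟨L, hL⟩ := bad_uniform n m hm ε hε
    exact ⟨L, fun l hl P => le_trans (card_mono fun r hr => hdom _ _ hr) (hL l hl P)⟩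
  · intro n m n' m' ε hε
    obtain ⟨L, hL⟩ := bad_pairs n m n' m' ε hε
    exact ⟨L, fun l hl l' hl' => le_trans (card_mono fun r hr => hdom _ _ hr) (hL l hl l' hl')⟩

end Pool.Agent.MIso
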