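import Pool.Agent.MIso.Defs

set_option autoImplicit false

/-!
# R1: the random walk bound
-/

namespace Pool.Agent.MIso

namespace R1aux

variable {n : ℕ} {W : Type} [Group W] (g : Fin n → W)

/-- The value of a letter. -/
def lv (a : Fin n × Bool) : W := cond a.2 (g a.1) (g a.1)⁻¹

theorem ev_nil : ev g ([] : List (Fin n × Bool)) = 1 := by simp [ev]

theorem ev_cons (a : Fin n × Bool) (w : List (Fin n × Bool)) :
    ev g (a :: w) = lv g a * ev g w := by
  simp [ev, lv]

theorem ev_append (v w : List (Fin n × Bool)) : ev g (v ++ w) = ev g v * ev g w := by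
  simp [ev]

/-- The number of words of length exactly `k` with value `h`. -/
noncomputable def S (k : ℕ) (h : W) : ℕ :=
  Nat.card {w : List (Fin n × Bool) // w.length = k ∧ ev g w = h}

instance fin1 (k : ℕ) (h : W) :
    Finite {w : List (Fin n × Bool) // w.length = k ∧ ev g w = h} := by
  have h1 : Set.Finite {w : List (Fin n × Bool) | w.length = k} := List.finite_length_eq _ _
  have h2 : Set.Finite {w : List (Fin n × Bool) | w.length = k ∧ ev g w = h} :=
    h1.subset (fun w hw => hw.1)
  exact h2.to_subtype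

theorem S_zero [DecidableEq W] (h : W) : S g 0 h = if h = 1 then 1 else 0 := by
  unfold S
  split_ifs with h1
  · subst h1
    have : Unique {w : List (Fin n × Bool) // w.length = 0 ∧ ev g w = 1} :=
      { default := ⟨[], by simp [ev_nil]⟩
        uniq := by
          rintro ⟨w, hw, -⟩
          have : w = [] := List.length_eq_zero_iff.mp hw
          subst this
          rfl }
    exact Nat.card_unique
  · have : IsEmpty {w : List (Fin n × Bool) // w.length = 0 ∧ ev g w = h} := by
      constructor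
      rintro ⟨w, hw, hv⟩
      have : w = [] := List.length_eq_zero_iff.mp hw
      subst this
      exact h1 (by rw [← hv, ev_nil])
    exact Nat.card_of_isEmpty

theorem S_succ (k : ℕ) (h : W) : S g (k + 1) h = ∑ a, S g k ((lv g a)⁻¹ * h) := by
  unfold S
  rw [← Nat.card_sigma]
  symm
  refine Nat.card_congr (Equiv.ofBijective
    (fun z : (Σ a : Fin n × Bool,
        {w : List (Fin n × Bool) // w.length = k ∧ ev g w = (lv g a)⁻¹ * h}) =>
      (⟨z.1 :: z.2.1, by simp [z.2.2.1], by rw [ev_cons, z.2.2.2]; group⟩ :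
        {w : List (Fin n × Bool) // w.length = k + 1 ∧ ev g w = h})) ⟨?_, ?_⟩)
  · rintro ⟨a, w, hw, hv⟩ ⟨b, v, hv1, hv2⟩ hh
    simp only [Subtype.mk.injEq, List.cons.injEq] at hh
    obtain ⟨rfl, rfl⟩ := hh
    rfl
  · rintro ⟨w, hw, hv⟩
    cases w with
    | nil => simp at hw
    | cons a w =>
      refine ⟨⟨a, w, by simpa using hw, ?_⟩, rfl⟩
      rw [ev_cons] at hv
      rw [← hv]; group

/-- Convolution. -/
theorem S_add [Fintype W] (k D : ℕ) (h : W) :
    S g (k + D) h = ∑ u, S g D u * S g k (u⁻¹ * h) := by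
  classical
  induction D generalizing h with
  | zero =>
    simp only [S_zero, add_zero]
    rw [Finset.sum_eq_single 1]
    · simp
    · intro b _ hb; simp [hb]
    · simp
  | succ D ih =>
    rw [← add_assoc, S_succ]
    simp only [ih]
    simp only [S_succ g D, Finset.sum_mul]
    rw [Finset.sum_comm (s := (Finset.univ : Finset W))]
    refine Finset.sum_congr rfl fun a _ => ?_
    refine Fintype.sum_equiv (Equiv.mulLeft (lv g a)) _ _ fun u => ?_
    simp only [Equiv.coe_mulLeft, mul_inv_rev, inv_mul_cancel_left, mul_assoc]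

theorem S_sum [Fintype W] (k : ℕ) : ∑ u, S g k u = (2 * n) ^ k := by
  classical
  induction k with
  | zero => simp [S_zero]
  | succ k ih =>
    simp only [S_succ]
    rw [Finset.sum_comm]
    have : ∀ a : Fin n × Bool, ∑ x, S g k ((lv g a)⁻¹ * x) = (2 * n) ^ k := by
      intro a
      rw [← ih]
      exact Fintype.sum_equiv (Equiv.mulLeft (lv g a)⁻¹) _ _ fun u => rfl
    simp only [this, Finset.sum_const, Finset.card_univ, Fintype.card_prod, Fintype.card_fin,
      Fintype.card_bool, smul_eq_mul]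
    ring

/-- `S k ≤ M (2n)^k`. -/
def B (k : ℕ) (M : ℝ) : Prop := ∀ h : W, (S g k h : ℝ) ≤ M * ((2 * n : ℕ) : ℝ) ^ k

theorem B_succ {k : ℕ} {M : ℝ} (hB : B g k M) : B g (k + 1) M := by
  intro h
  rw [S_succ]
  push_cast
  calc (∑ a : Fin n × Bool, (S g k ((lv g a)⁻¹ * h) : ℝ))
      ≤ ∑ _a : Fin n × Bool, M * ((2 * n : ℕ) : ℝ) ^ k :=
        Finset.sum_le_sum fun a _ => hB _
    _ = M * (2 * (n : ℝ)) ^ (k + 1) := by
        simp only [Finset.sum_const, Finset.card_univ, Fintype.card_prod, Fintype.card_fin,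
          Fintype.card_bool, nsmul_eq_mul]
        push_cast
        ring

theorem B_le {k k' : ℕ} {M : ℝ} (hB : B g k M) (h : k ≤ k') : B g k' M := by
  induction k', h using Nat.le_induction with
  | base => exact hB
  | succ m _ ih => exact B_succ g ih

/-- The even values. -/
def ES : Subgroup W where
  carrier := {u | ∃ w : List (Fin n × Bool), Even w.length ∧ ev g w = u}
  one_mem' := ⟨[], by simp, ev_nil g⟩
  mul_mem' := by
    rintro a b ⟨v, hv, rfl⟩ ⟨w, hw, rfl⟩
    exact ⟨v ++ w, by simpa using hv.add hw, ev_append g v w⟩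
  inv_mem' := by
    rintro a ⟨v, hv, rfl⟩
    refine ⟨(v.map fun a => (a.1, !a.2)).reverse, by simpa using hv, ?_⟩
    clear hv
    induction v with
    | nil => simp [ev]
    | cons a v ih =>
      rw [List.map_cons, List.reverse_cons, ev_append, ih, ev_cons g a v, mul_inv_rev]
      congr 1
      rcases a with ⟨i, b⟩
      cases b <;> simp [ev, lv]

theorem S_eq_zero {D : ℕ} (hD : Even D) {u : W} (hu : u ∉ ES g) : S g D u = 0 := by
  have : IsEmpty {w : List (Fin n × Bool) // w.length = D ∧ ev g w = u} :=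
    ⟨fun w => hu ⟨w.1, by rw [w.2.1]; exact hD, w.2.2⟩⟩
  exact Nat.card_of_isEmpty

/-- Padding. -/
theorem S_pos_add_two {D : ℕ} {u : W} (i : Fin n) (h : 1 ≤ S g D u) : 1 ≤ S g (D + 2) u := by
  unfold S at h ⊢
  have h1 : 0 < Nat.card {w : List (Fin n × Bool) // w.length = D ∧ ev g w = u} := h
  rw [Nat.card_pos_iff] at h1
  obtain ⟨⟨w, hw, hv⟩⟩ := h1.1
  have : Nonempty {w : List (Fin n × Bool) // w.length = D + 2 ∧ ev g w = u} :=
    ⟨⟨(i, true) :: (i, false) :: w, by simp [hw], by
      rw [ev_cons, ev_cons, hv]; simp [lv]⟩⟩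
  exact Nat.card_pos

theorem S_pos_add {D : ℕ} {u : W} (i : Fin n) (h : 1 ≤ S g D u) (j : ℕ) :
    1 ≤ S g (D + 2 * j) u := by
  induction j with
  | zero => simpa using h
  | succ j ih => exact S_pos_add_two g i ih

theorem exists_D [Finite W] (i : Fin n) :
    ∃ D : ℕ, 1 ≤ D ∧ Even D ∧ ∀ u ∈ ES g, 1 ≤ S g D u := by
  classical
  have := Fintype.ofFinite W
  have h1 : ∀ u : W, ∃ j : ℕ, u ∈ ES g → 1 ≤ S g (2 * j) u := by
    intro u
    by_cases hu : u ∈ ES g
    · obtain ⟨w, ⟨j, hj⟩, hv⟩ := hu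
      refine ⟨j, fun _ => ?_⟩
      have : Nonempty {w : List (Fin n × Bool) // w.length = 2 * j ∧ ev g w = u} :=
        ⟨⟨w, by omega, hv⟩⟩
      exact Nat.card_pos
    · exact ⟨0, fun h => absurd h hu⟩
  choose j hj using h1
  refine ⟨2 * (∑ u, j u + 1), by omega, ⟨∑ u, j u + 1, by ring⟩, fun u hu => ?_⟩
  have h2 : j u ≤ ∑ u, j u := Finset.single_le_sum (fun _ _ => Nat.zero_le _) (Finset.mem_univ u)
  have h3 := S_pos_add g i (hj u hu) (∑ u, j u + 1 - j u)
  have h4 : 2 * j u + 2 * (∑ u, j u + 1 - j u) = 2 * (∑ u, j u + 1) := by omega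
  rwa [h4] at h3

theorem card_le [Finite W] (hg : Subgroup.closure (Set.range g) = ⊤) (i : Fin n) :
    Nat.card W ≤ 2 * Nat.card (ES g) := by
  classical
  have key : ∀ u : W, u ∈ ES g ∨ (g i)⁻¹ * u ∈ ES g := by
    have hw : ∀ u : W, ∃ w : List (Fin n × Bool), ev g w = u := by
      intro u
      have hu : u ∈ Subgroup.closure (Set.range g) := by rw [hg]; trivial
      induction hu using Subgroup.closure_induction with
      | mem x hx =>
        obtain ⟨k, rfl⟩ := hx
        exact ⟨[(k, true)], by simp [ev]⟩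
      | one => exact ⟨[], ev_nil g⟩
      | mul x y _ _ hx hy =>
        obtain ⟨v, rfl⟩ := hx
        obtain ⟨w, rfl⟩ := hy
        exact ⟨v ++ w, ev_append g v w⟩
      | inv x hx0 hx =>
        obtain ⟨v, rfl⟩ := hx
        clear hx0
        refine ⟨(v.map fun a => (a.1, !a.2)).reverse, ?_⟩
        induction v with
        | nil => simp [ev]
        | cons a v ih =>
          rw [List.map_cons, List.reverse_cons, ev_append, ih, ev_cons g a v, mul_inv_rev]
          congr 1
          rcases a with ⟨i, b⟩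
          cases b <;> simp [ev, lv]
    intro u
    obtain ⟨w, hw⟩ := hw u
    rcases Nat.even_or_odd w.length with he | ho
    · exact Or.inl ⟨w, he, hw⟩
    · refine Or.inr ⟨(i, false) :: w, by simpa using ho.add_one, ?_⟩
      rw [ev_cons, hw]; simp [lv]
  let F : W → ES g × Bool := fun u =>
    if h : u ∈ ES g then (⟨u, h⟩, true) else (⟨(g i)⁻¹ * u, (key u).resolve_left h⟩, false)
  have hF : Function.Injective F := by
    intro u v huv
    by_cases hu : u ∈ ES g <;> by_cases hv : v ∈ ES g <;> simp [F, hu, hv] at huv <;> exact huv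
  calc Nat.card W ≤ Nat.card (ES g × Bool) := Nat.card_le_card_of_injective F hF
    _ = 2 * Nat.card (ES g) := by rw [Nat.card_prod]; simp [mul_comm]

/-- One step of length `D`. -/
theorem B_step [Fintype W] {D : ℕ} (hD : Even D) (hpos : ∀ u ∈ ES g, 1 ≤ S g D u) {k : ℕ} {M : ℝ}
    (hB : B g k M) (h : W) :
    (S g (k + D) h : ℝ) ≤ ((2 * n : ℕ) : ℝ) ^ k +
      M * ((2 * n : ℕ) : ℝ) ^ k * (((2 * n : ℕ) : ℝ) ^ D - Nat.card (ES g)) := by
  classical
  rw [S_add]
  push_cast
  have h1 : ∀ u : W, (S g D u : ℝ) * (S g k (u⁻¹ * h) : ℝ) ≤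
      (if u ∈ ES g then (S g k (u⁻¹ * h) : ℝ) else 0) +
        M * ((2 * n : ℕ) : ℝ) ^ k * ((S g D u : ℝ) - if u ∈ ES g then 1 else 0) := by
    intro u
    by_cases hu : u ∈ ES g
    · have h2 : (1 : ℝ) ≤ S g D u := by exact_mod_cast hpos u hu
      have h3 := hB (u⁻¹ * h)
      simp only [hu, if_true]
      nlinarith
    · simp [hu, S_eq_zero g hD hu]
  calc (∑ u : W, (S g D u : ℝ) * (S g k (u⁻¹ * h) : ℝ))
      ≤ ∑ u : W, ((if u ∈ ES g then (S g k (u⁻¹ * h) : ℝ) else 0) +
        M * ((2 * n : ℕ) : ℝ) ^ k * ((S g D u : ℝ) - if u ∈ ES g then 1 else 0)) :=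
        Finset.sum_le_sum fun u _ => h1 u
    _ = (∑ u : W, (if u ∈ ES g then (S g k (u⁻¹ * h) : ℝ) else 0)) +
        M * ((2 * n : ℕ) : ℝ) ^ k * ((∑ u : W, (S g D u : ℝ)) - ∑ u : W, if u ∈ ES g then (1 : ℝ) else 0) := by
        rw [Finset.sum_add_distrib, ← Finset.mul_sum, Finset.sum_sub_distrib]
    _ ≤ _ := by
        have h4 : (∑ u : W, (S g D u : ℝ)) = ((2 * n : ℕ) : ℝ) ^ D := by
          have := S_sum g D
          exact_mod_cast this
        have h5 : (∑ u : W, if u ∈ ES g then (1 : ℝ) else 0) = Nat.card (ES g) := by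
          rw [Finset.sum_boole]
          congr 1
          rw [Nat.card_eq_fintype_card, Fintype.card_subtype]
        have h6 : (∑ u : W, (if u ∈ ES g then (S g k (u⁻¹ * h) : ℝ) else 0)) ≤
            ((2 * n : ℕ) : ℝ) ^ k := by
          have h7 : (∑ u : W, (S g k (u⁻¹ * h) : ℝ)) = ((2 * n : ℕ) : ℝ) ^ k := by
            have h8 : (∑ u : W, S g k (u⁻¹ * h)) = (2 * n) ^ k := by
              rw [← S_sum g k]
              exact Fintype.sum_equiv ((Equiv.inv W).trans (Equiv.mulRight h)) _ _ fun u => rfl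
            exact_mod_cast h8
          rw [← h7]
          refine Finset.sum_le_sum fun u _ => ?_
          split_ifs
          · exact le_rfl
          · positivity
        rw [h4, h5]
        push_cast at h6 ⊢
        linarith

theorem S_le_pow [Fintype W] (k : ℕ) (u : W) : S g k u ≤ (2 * n) ^ k := by
  rw [← S_sum g k]
  exact Finset.single_le_sum (f := fun u => S g k u) (fun _ _ => Nat.zero_le _) (Finset.mem_univ u)

/-- The bound for words of exact length `k`. -/
theorem exact_bound [Finite W] (hg : Subgroup.closure (Set.range g) = ⊤) (i : Fin n) (η : ℝ)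
    (hη : 0 < η) : ∃ K : ℕ, ∀ k ≥ K, B g k (2 / (Nat.card W : ℝ) + η) := by
  classical
  have := Fintype.ofFinite W
  obtain ⟨D, hD1, hDe, hpos⟩ := exists_D g i
  set H : ℝ := (Nat.card (ES g) : ℝ) with hH
  have hH0 : 0 < H := by
    have h0 : 0 < Nat.card (ES g) := Nat.card_pos
    rw [hH]
    exact_mod_cast h0
  set d : ℝ := ((2 * n : ℕ) : ℝ) with hd
  have hn : 0 < n := i.pos
  have hd0 : 0 < d := by rw [hd]; exact_mod_cast (by omega : 0 < 2 * n)
  have hHd : H ≤ d ^ D := by
    have h1 : Nat.card (ES g) ≤ (2 * n) ^ D := by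
      rw [← S_sum g D]
      calc Nat.card (ES g) = ∑ u : W, (if u ∈ ES g then 1 else 0) := by
            rw [Finset.sum_boole]
            simp only [Nat.cast_id]
            rw [Nat.card_eq_fintype_card, Fintype.card_subtype]
        _ ≤ ∑ u : W, S g D u := by
            refine Finset.sum_le_sum fun u _ => ?_
            split_ifs with hu
            · exact hpos u hu
            · exact Nat.zero_le _
    rw [hH, hd]; exact_mod_cast h1
  set c : ℝ := 1 / d ^ D with hc
  have hc0 : 0 < c := by positivity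
  set ρ : ℝ := 1 - c * H with hρ
  have hρ0 : 0 ≤ ρ := by
    rw [hρ, hc]
    have : 1 / d ^ D * H ≤ 1 := by
      rw [div_mul_eq_mul_div, one_mul, div_le_one (by positivity)]; exact hHd
    linarith
  have hρ1 : ρ < 1 := by
    rw [hρ]
    have : 0 < c * H := by positivity
    linarith
  have hit : ∀ j : ℕ, B g (j * D) (1 / H + ρ ^ j) := by
    intro j
    induction j with
    | zero =>
      intro h
      have h1 : (S g (0 * D) h : ℝ) ≤ d ^ (0 * D) := by
        have := S_le_pow g (0 * D) h
        rw [hd]; exact_mod_cast this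
      have h2 : (0 : ℝ) < d ^ (0 * D) := by positivity
      have h3 : 0 < 1 / H := by positivity
      simp only [pow_zero]
      nlinarith
    | succ j ih =>
      intro h
      have h1 := B_step g hDe hpos ih h
      rw [← hd, ← hH] at h1
      have h2 : (j + 1) * D = j * D + D := by ring
      rw [h2]
      refine h1.trans (le_of_eq ?_)
      have h3 : d ^ D * c = 1 := by rw [hc]; field_simp
      rw [pow_add, pow_succ, hρ]
      have h4 : H * (1 / H) = 1 := by field_simp
      have h5 : d ^ (j * D) + (1 / H + (1 - c * H) ^ j) * d ^ (j * D) * (d ^ D - H) =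
        d ^ (j * D) * (1 - H * (1 / H)) + d ^ (j * D) * d ^ D * (1 / H) +
          d ^ (j * D) * (1 - c * H) ^ j * (d ^ D - H) := by ring
      rw [h5, h4]
      have h6 : d ^ D - H = d ^ D * (1 - c * H) := by
        rw [mul_sub, ← mul_assoc, h3]; ring
      rw [h6]; ring
  obtain ⟨j, hj⟩ := exists_pow_lt_of_lt_one hη hρ1
  refine ⟨j * D, fun k hk h => ?_⟩
  have h1 := B_le g (hit j) hk h
  refine h1.trans ?_
  rw [← hd]
  have h2 : 1 / H ≤ 2 / (Nat.card W : ℝ) := by
    have h3 : (Nat.card W : ℝ) ≤ 2 * H := by rw [hH]; exact_mod_cast card_le g hg i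
    have h4 : (0 : ℝ) < Nat.card W := by exact_mod_cast Nat.card_pos
    rw [div_le_div_iff₀ hH0 h4]; linarith
  have h3 : 0 < d ^ k := by positivity
  exact mul_le_mul_of_nonneg_right (by linarith) h3.le

/-- Words of length at most `l` by exact length. -/
theorem card_words_ev (l : ℕ) (h : W) :
    Nat.card {w : Words n l // ev g w.1 = h} = ∑ k ∈ Finset.range (l + 1), S g k h := by
  rw [Finset.sum_range (fun k => S g k h)]
  unfold S
  rw [← Nat.card_sigma]
  symm
  refine Nat.card_congr (Equiv.ofBijective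
    (fun z : (Σ k : Fin (l + 1),
        {w : List (Fin n × Bool) // w.length = (k : ℕ) ∧ ev g w = h}) =>
      (⟨⟨z.2.1, by rw [z.2.2.1]; omega⟩, z.2.2.2⟩ :
        {w : Words n l // ev g w.1 = h})) ⟨?_, ?_⟩)
  · rintro ⟨⟨a, ha⟩, w, hw, hv⟩ ⟨⟨b, hb⟩, v, hv1, hv2⟩ hh
    simp only [Subtype.mk.injEq, Words] at hh
    subst hh
    simp only at hw hv1
    subst hw
    subst hv1
    rfl
  · rintro ⟨⟨w, hw⟩, hv⟩
    exact ⟨⟨⟨w.length, by omega⟩, w, rfl, hv⟩, rfl⟩

include g in
theorem card_words [Fintype W] (l : ℕ) :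
    Nat.card (Words n l) = ∑ k ∈ Finset.range (l + 1), (2 * n) ^ k := by
  have h1 : Nat.card (Words n l) = ∑ h : W, Nat.card {w : Words n l // ev g w.1 = h} := by
    rw [← Nat.card_sigma]
    exact (Nat.card_congr (Equiv.sigmaFiberEquiv (fun w : Words n l => ev g w.1))).symm
  rw [h1]
  simp only [card_words_ev]
  rw [Finset.sum_comm]
  exact Finset.sum_congr rfl fun k _ => S_sum g k

end R1aux

open R1aux

/-- R1. -/
theorem rw_bound {n : ℕ} {W : Type} [Group W] [Finite W] (g : Fin n → W)
    (hg : Subgroup.closure (Set.range g) = ⊤) (η : ℝ) (hη : 0 < η) :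
    ∃ L : ℕ, ∀ l ≥ L, ∀ h : W,
      (Nat.card {w : Words n l // ev g w.1 = h} : ℝ)
        ≤ (2 / (Nat.card W : ℝ) + η) * (Nat.card (Words n l) : ℝ) := by
  classical
  have := Fintype.ofFinite W
  have hWpos : (0 : ℝ) < Nat.card W := by exact_mod_cast Nat.card_pos
  rcases Nat.eq_zero_or_pos n with hn | hn
  · subst hn
    have hW : Nat.card W = 1 := by
      have h1 : Set.range g = ∅ := Set.range_eq_empty g
      rw [h1, Subgroup.closure_empty] at hg
      have : Subsingleton W := by
        refine ⟨fun a b => ?_⟩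
        have ha : a ∈ (⊥ : Subgroup W) := by rw [hg]; trivial
        have hb : b ∈ (⊥ : Subgroup W) := by rw [hg]; trivial
        rw [Subgroup.mem_bot] at ha hb
        rw [ha, hb]
      exact Nat.card_unique
    refine ⟨0, fun l _ h => ?_⟩
    have h1 : Nat.card {w : Words 0 l // ev g w.1 = h} ≤ Nat.card (Words 0 l) :=
      Nat.card_le_card_of_injective _ Subtype.val_injective
    have h2 : (Nat.card {w : Words 0 l // ev g w.1 = h} : ℝ) ≤ Nat.card (Words 0 l) := by
      exact_mod_cast h1
    have h3 : (0 : ℝ) ≤ Nat.card (Words 0 l) := by positivity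
    rw [hW]
    norm_num
    nlinarith
  · have i : Fin n := ⟨0, hn⟩
    obtain ⟨K, hK⟩ := exact_bound g hg i (η / 2) (by linarith)
    set T : ℕ → ℝ := fun l => ∑ k ∈ Finset.range (l + 1), ((2 * n : ℕ) : ℝ) ^ k with hT
    have hTl : ∀ l : ℕ, ((l : ℝ) + 1) ≤ T l := by
      intro l
      rw [hT]
      calc ((l : ℝ) + 1) = ∑ _k ∈ Finset.range (l + 1), (1 : ℝ) := by simp
        _ ≤ _ := by
          refine Finset.sum_le_sum fun k _ => one_le_pow₀ ?_
          exact_mod_cast (by omega : 1 ≤ 2 * n)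
    obtain ⟨L, hL⟩ := exists_nat_ge (T K / (η / 2))
    refine ⟨max L K, fun l hl h => ?_⟩
    have hlL : L ≤ l := le_trans (le_max_left _ _) hl
    have hcw : (Nat.card (Words n l) : ℝ) = T l := by
      rw [card_words g l, hT]; push_cast; rfl
    rw [card_words_ev, hcw]
    push_cast
    have h1 : ∀ k ∈ Finset.range (l + 1), (S g k h : ℝ) ≤
        (if k ≤ K then ((2 * n : ℕ) : ℝ) ^ k else 0) +
          (2 / (Nat.card W : ℝ) + η / 2) * ((2 * n : ℕ) : ℝ) ^ k := by
      intro k _
      have hp : (0 : ℝ) ≤ ((2 * n : ℕ) : ℝ) ^ k := by positivity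
      have hq : (0 : ℝ) ≤ 2 / (Nat.card W : ℝ) + η / 2 := by positivity
      split_ifs with hk
      · have h2 : (S g k h : ℝ) ≤ ((2 * n : ℕ) : ℝ) ^ k := by exact_mod_cast S_le_pow g k h
        have h3 := mul_nonneg hq hp
        linarith
      · have h2 := hK k (by omega) h
        linarith
    have h2 : (∑ k ∈ Finset.range (l + 1), (if k ≤ K then ((2 * n : ℕ) : ℝ) ^ k else 0)) ≤ T K := by
      rw [← Finset.sum_filter, hT]
      refine Finset.sum_le_sum_of_subset_of_nonneg ?_ (fun _ _ _ => by positivity)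
      intro k hk
      simp only [Finset.mem_filter, Finset.mem_range] at hk ⊢
      omega
    have h3 : T K ≤ η / 2 * T l := by
      have h4 : T K ≤ η / 2 * L := by
        rw [div_le_iff₀ (by linarith)] at hL; linarith
      have h5 : (L : ℝ) ≤ T l := by
        have h6 : (L : ℝ) ≤ l := by exact_mod_cast hlL
        have := hTl l
        linarith
      have h7 : η / 2 * L ≤ η / 2 * T l := mul_le_mul_of_nonneg_left h5 (by linarith)
      linarith
    calc (∑ k ∈ Finset.range (l + 1), (S g k h : ℝ))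
        ≤ ∑ k ∈ Finset.range (l + 1), ((if k ≤ K then ((2 * n : ℕ) : ℝ) ^ k else 0) +
          (2 / (Nat.card W : ℝ) + η / 2) * ((2 * n : ℕ) : ℝ) ^ k) := Finset.sum_le_sum h1
      _ = (∑ k ∈ Finset.range (l + 1), (if k ≤ K then ((2 * n : ℕ) : ℝ) ^ k else 0)) +
          (2 / (Nat.card W : ℝ) + η / 2) * T l := by
          rw [Finset.sum_add_distrib, ← Finset.mul_sum]
      _ ≤ (2 / (Nat.card W : ℝ) + η) * T l := by linarith

end Pool.Agent.MIso
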